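import Mathlib

/-!
# Project MW (metric Waring), MP_efcac8_nt: definitions and exact statements of the pieces

For almost every real polynomial `P` of degree `k ≥ 2` with a fixed positive leading coefficient, every
large integer is a sum of `2k+1` terms `⌊P(n)⌋`, and almost all integers are sums of `k+1` such terms.
Degree `k = d + 1`.
-/

namespace Pool.Agent.N604.MW

open Finset MeasureTheory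

/-- `e x = exp (2 π i x)` -/
noncomputable def e (x : ℝ) : ℂ := Complex.exp (2 * Real.pi * x * Complex.I)

/-- the real polynomial `c x ^ (d+1) + θ (d-1) x ^ d + ... + θ 0 x + b` -/
noncomputable def PP (d : ℕ) (c b : ℝ) (θ : Fin d → ℝ) (x : ℝ) : ℝ :=
  c * x ^ (d + 1) + ∑ j : Fin d, θ j * x ^ ((j : ℕ) + 1) + b

/-- the tuples whose coordinate `i` (from `0` to `k-1`) lies in `[2(i+1)X, (2(i+1)+1)X]` -/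
def Box (k X : ℕ) : Finset (Fin k → ℕ) :=
  Fintype.piFinset fun i => Finset.Icc (2 * ((i : ℕ) + 1) * X) ((2 * ((i : ℕ) + 1) + 1) * X)

/-- the pairs of tuples of the box whose sums of values of `PP d c 0 θ` differ by at most `d + 1` -/
noncomputable def Pairs (d : ℕ) (c : ℝ) (θ : Fin d → ℝ) (X : ℕ) : Finset ((Fin (d + 1) → ℕ) × (Fin (d + 1) → ℕ)) :=
  open Classical in
  (Box (d + 1) X ×ˢ Box (d + 1) X).filter fun p =>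
    |∑ i, (PP d c 0 θ (p.1 i) - PP d c 0 θ (p.2 i))| ≤ (d : ℝ) + 1

/-- the quotient of the second coefficient and the leading coefficient is not too well approximable -/
def Dio (d : ℕ) (c : ℝ) (θ : Fin d → ℝ) : Prop :=
  ∃ κ : ℝ, 0 < κ ∧ ∀ j : Fin d, (j : ℕ) + 1 = d → ∀ m n : ℤ, m ≠ 0 → κ / (m : ℝ) ^ 2 ≤ |m * θ j - n * c|

/-- SIGN: power sums of the exponents `l+1, ..., l+r` control `r` separated variables -/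
def S_SIGN : Prop := ∀ r l a : ℕ, ∃ C : ℝ, 0 < C ∧ ∀ (X H : ℝ) (u v : Fin r → ℝ), 1 ≤ X → 0 ≤ H →
  (∀ i : Fin r, 2 * ((i : ℝ) + a + 1) * X ≤ u i ∧ u i ≤ (2 * ((i : ℝ) + a + 1) + 1) * X) →
  (∀ i : Fin r, 2 * ((i : ℝ) + a + 1) * X ≤ v i ∧ v i ≤ (2 * ((i : ℝ) + a + 1) + 1) * X) →
  (∀ j ∈ Finset.Icc (l + 1) (l + r), |∑ i, (u i ^ j - v i ^ j)| ≤ H) →
  ∑ i, |u i - v i| ≤ C * H / X ^ l

/-- COUNT: few tuples of the box have almost the same power sums as a given one -/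
def S_COUNT : Prop := ∀ k : ℕ, 1 ≤ k → ∃ C : ℝ, 0 < C ∧ ∀ (X : ℕ) (H : ℝ) (n : Fin k → ℕ), 1 ≤ X → 1 ≤ H →
  n ∈ Box k X → ∀ S : Finset (Fin k → ℕ), (∀ m ∈ S, m ∈ Box k X ∧
    ∀ j ∈ Finset.Icc 1 k, |∑ i, ((m i : ℝ) ^ j - (n i : ℝ) ^ j)| ≤ H) → (S.card : ℝ) ≤ C * H

/-- SLAB: the volume of a slab in a cube -/
def S_SLAB : Prop := ∀ (d : ℕ) (B : ℝ), 0 < B → ∃ C : ℝ, 0 < C ∧ ∀ (a : Fin d → ℝ) (t K H : ℝ), 0 ≤ K → 0 < H →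
  (∃ j, H ≤ |a j|) →
  volume {θ : Fin d → ℝ | (∀ j, |θ j| ≤ B) ∧ |∑ j, θ j * a j + t| ≤ K} ≤ ENNReal.ofReal (C * K / H)

/-- SUM: the first moment of the number of pairs -/
def S_SUM : Prop := ∀ (d : ℕ) (c B : ℝ), 1 ≤ d → 0 < c → 0 < B → ∃ C : ℝ, 0 < C ∧ ∀ X : ℕ, 1 ≤ X →
  ∑ p ∈ Box (d + 1) X ×ˢ Box (d + 1) X,
    volume {θ : Fin d → ℝ | (∀ j, |θ j| ≤ B) ∧ |∑ i, (PP d c 0 θ (p.1 i) - PP d c 0 θ (p.2 i))| ≤ (d : ℝ) + 1}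
    ≤ ENNReal.ofReal (C * (X : ℝ) ^ (d + 1) * (1 + Real.log X))

/-- MEAN: the mean value estimate for almost every polynomial -/
def S_MEAN : Prop := ∀ (d : ℕ) (c : ℝ), 1 ≤ d → 0 < c → ∀ᵐ θ : Fin d → ℝ, ∀ ε : ℝ, 0 < ε → ∃ ν0 : ℕ, ∀ ν : ℕ,
  ν0 ≤ ν → ((Pairs d c θ (2 ^ ν)).card : ℝ) ≤ ((2 : ℝ) ^ ν) ^ ((d : ℝ) + 1 + ε)

/-- WEYL: a large exponential sum has rational approximations to its first two coefficients -/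
def S_WEYL : Prop := ∀ k C0 : ℕ, 2 ≤ k → ∃ C m : ℕ, ∀ (α : ℕ → ℝ) (X A L : ℕ) (u : ℝ), 1 ≤ X → A + L ≤ C0 * X →
  1 ≤ u → (X : ℝ) ≤ u * ‖∑ n ∈ range L, e (∑ j ∈ range (k + 1), α j * ((A + n : ℕ) : ℝ) ^ j)‖ →
  ∃ q : ℕ, 1 ≤ q ∧ (q : ℝ) ≤ C * u ^ m ∧ (∃ a : ℤ, |q * α k - a| ≤ C * u ^ m / (X : ℝ) ^ k) ∧
    ∃ b : ℤ, |q * α (k - 1) - b| ≤ C * u ^ m / (X : ℝ) ^ (k - 1)

/-- DIO: almost every polynomial is diophantine -/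
def S_DIO : Prop := ∀ (d : ℕ) (c : ℝ), 0 < c → ∀ᵐ θ : Fin d → ℝ, Dio d c θ

/-- POINT: pointwise bound for the exponential sums of a diophantine polynomial -/
def S_POINT : Prop := ∀ (d : ℕ) (c b : ℝ) (θ : Fin d → ℝ), 1 ≤ d → 0 < c → Dio d c θ → ∀ (C0 : ℕ) (δ : ℝ), 0 < δ →
  ∃ σ : ℝ, 0 < σ ∧ ∃ X0 : ℕ, ∀ X A L : ℕ, X0 ≤ X → A + L ≤ C0 * X → ∀ β : ℝ,
    (X : ℝ) ^ (-((d : ℝ) + 1) + δ) ≤ |β| → |β| ≤ (X : ℝ) ^ σ →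
    ‖∑ n ∈ range L, e (β * PP d c b θ ((A + n : ℕ) : ℝ))‖ ≤ (X : ℝ) ^ (1 - σ)

/-- FLOOR: the Fourier series of `e (α ⌊x⌋)` with the weight `sin ^ 2 (π x)` -/
def S_FLOOR : Prop := ∃ cc : ℝ → ℂ, (∀ β, ‖cc β‖ ≤ 1) ∧ (∀ β, 2 ≤ |β| → ‖cc β‖ ≤ 1 / |β| ^ 2) ∧
  ∀ α x : ℝ, HasSum (fun h : ℤ => cc (α + h) * e ((α + h) * x))
    (((Real.sin (Real.pi * x) ^ 2 : ℝ) : ℂ) * e (α * (⌊x⌋ : ℤ)))

/-- TPOINT: minor arcs for the integer parts -/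
def S_TPOINT : Prop := ∀ (d : ℕ) (c b : ℝ) (θ : Fin d → ℝ), 1 ≤ d → 0 < c → Dio d c θ → ∀ (C0 : ℕ) (δ : ℝ), 0 < δ →
  ∃ σ : ℝ, 0 < σ ∧ ∃ X0 : ℕ, ∀ X A L : ℕ, X0 ≤ X → A + L ≤ C0 * X → ∀ α : ℝ,
    (X : ℝ) ^ (-((d : ℝ) + 1) + δ) ≤ |α| → |α| ≤ 1 / 2 →
    ‖∑ n ∈ range L, ((Real.sin (Real.pi * PP d c b θ ((A + n : ℕ) : ℝ)) ^ 2 : ℝ) : ℂ) *
      e (α * (⌊PP d c b θ ((A + n : ℕ) : ℝ)⌋ : ℤ))‖ ≤ (X : ℝ) ^ (1 - σ)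

/-- LOW: the weighted number of values in short intervals -/
def S_LOW : Prop := ∀ (d : ℕ) (c b : ℝ) (θ : Fin d → ℝ), 1 ≤ d → 0 < c → Dio d c θ → ∀ C1 : ℝ, 1 ≤ C1 →
  ∃ C0 : ℕ, ∃ κ σ : ℝ, 0 < κ ∧ 0 < σ ∧ ∃ X0 : ℕ, ∀ (X W : ℕ) (M : ℤ), X0 ≤ X →
    (X : ℝ) ^ (d + 1) ≤ M → (M : ℝ) ≤ C1 * (X : ℝ) ^ (d + 1) →
    (X : ℝ) ^ ((d : ℝ) + 1 - σ) ≤ W → (W : ℝ) ≤ (X : ℝ) ^ (d + 1) →
    κ * W / (X : ℝ) ^ d ≤ ∑ l ∈ (range (C0 * X)).filter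
      (fun l : ℕ => 0 < l ∧ M ≤ ⌊PP d c b θ (l : ℝ)⌋ ∧ ⌊PP d c b θ (l : ℝ)⌋ < M + W),
        Real.sin (Real.pi * PP d c b θ (l : ℝ)) ^ 2

/-- MASS: the mean of the weight on long intervals -/
def S_MASS : Prop := ∀ (d : ℕ) (c b : ℝ) (θ : Fin d → ℝ), 1 ≤ d → 0 < c → Dio d c θ → ∀ C0 : ℕ,
  ∃ X0 : ℕ, ∀ X A : ℕ, X0 ≤ X → A ≤ C0 * X →
    (X : ℝ) / 4 ≤ ∑ n ∈ Finset.Icc A (A + X), Real.sin (Real.pi * PP d c b θ n) ^ 2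

/-- SIZE: the size of the values on the box -/
def S_SIZE : Prop := ∀ (d : ℕ) (c b : ℝ) (θ : Fin d → ℝ), 0 < c → ∃ v X0 : ℕ, ∀ (X : ℕ) (n : Fin (d + 1) → ℕ),
  X0 ≤ X → n ∈ Box (d + 1) X → 0 ≤ ∑ i, ⌊PP d c b θ (n i)⌋ ∧ ∑ i, ⌊PP d c b θ (n i)⌋ ≤ v * (X : ℤ) ^ (d + 1)

/-- weighted number of solutions of `v ω + a l = N` -/
noncomputable def R1 {Ω Λ : Type} (P : Finset Ω) (L : Finset Λ) (v : Ω → ℤ) (p : Ω → ℝ) (a : Λ → ℤ) (w : Λ → ℝ)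
    (N : ℤ) : ℝ := ∑ ω ∈ P, ∑ l ∈ L, if v ω + a l = N then p ω * w l else 0

/-- weighted number of solutions of `v ω + v ω' + a l = N` -/
noncomputable def R2 {Ω Λ : Type} (P : Finset Ω) (L : Finset Λ) (v : Ω → ℤ) (p : Ω → ℝ) (a : Λ → ℤ) (w : Λ → ℝ)
    (N : ℤ) : ℝ := ∑ ω ∈ P, ∑ ω' ∈ P, ∑ l ∈ L, if v ω + v ω' + a l = N then p ω * p ω' * w l else 0

/-- the energy -/
noncomputable def En {Ω : Type} (P : Finset Ω) (v : Ω → ℤ) (p : Ω → ℝ) : ℝ :=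
  ∑ ω ∈ P, ∑ ω' ∈ P, if v ω = v ω' then p ω * p ω' else 0

/-- CIRC: the circle method for `R2`, comparison with the mean over a window of length `W` -/
def S_CIRC2 : Prop := ∀ (Ω Λ : Type) (P : Finset Ω) (L : Finset Λ) (v : Ω → ℤ) (p : Ω → ℝ) (a : Λ → ℤ) (w : Λ → ℝ)
  (W : ℕ) (η τ : ℝ), (∀ ω, 0 ≤ p ω) → (∀ l, 0 ≤ w l) → 1 ≤ W → 0 ≤ η → 0 ≤ τ →
  (∀ α : ℝ, η ≤ |α| → |α| ≤ 1 / 2 → ‖∑ l ∈ L, (w l : ℂ) * e (α * a l)‖ ≤ τ) →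
  ∀ N : ℤ, |R2 P L v p a w N - (∑ h ∈ range W, R2 P L v p a w (N + h)) / W| ≤
    16 * W * η ^ 2 * (∑ ω ∈ P, p ω) ^ 2 * (∑ l ∈ L, w l) + 2 * τ * En P v p

/-- CIRC: the circle method for `R1`, comparison with the mean over a window of length `W` for most `N` -/
def S_CIRC1 : Prop := ∀ (Ω Λ : Type) (P : Finset Ω) (L : Finset Λ) (v : Ω → ℤ) (p : Ω → ℝ) (a : Λ → ℤ) (w : Λ → ℝ)
  (W : ℕ) (η τ ρ : ℝ), (∀ ω, 0 ≤ p ω) → (∀ l, 0 ≤ w l) → 1 ≤ W → 0 ≤ η → 0 ≤ τ → 0 ≤ ρ →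
  (∀ α : ℝ, η ≤ |α| → |α| ≤ 1 / 2 → ‖∑ l ∈ L, (w l : ℂ) * e (α * a l)‖ ≤ τ) →
  ∀ S : Finset ℤ, (∀ N ∈ S, 16 * W * η ^ 2 * (∑ ω ∈ P, p ω) * (∑ l ∈ L, w l) + ρ ≤
    |R1 P L v p a w N - (∑ h ∈ range W, R1 P L v p a w (N + h)) / W|) →
  (S.card : ℝ) * ρ ^ 2 ≤ 4 * τ ^ 2 * En P v p

/-- SHARP: `k = d + 1` terms do not suffice if the leading coefficient is at least one -/
def S_SHARP : Prop := ∀ (d : ℕ) (c b : ℝ) (θ : Fin d → ℝ), 1 ≤ d → 1 ≤ c → ∃ N0 : ℕ, ∀ N : ℕ, N0 ≤ N →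
  ∀ S : Finset ℕ, (∀ m ∈ S, m ≤ N ∧ ∃ n : Fin (d + 1) → ℕ, ∑ i, ⌊PP d c b θ (n i)⌋ = (m : ℤ)) →
    4 * S.card ≤ 3 * N

end Pool.Agent.N604.MW
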