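import Mathlib
import Pool.Agent.N604.MW.Stm

/-!
# Project PW (prime variables): exact statements of the pieces

For almost every real polynomial `P` of degree `k ≥ 2` with a fixed positive leading coefficient, every
large integer is a sum of `2k+1` terms `⌊P(p)⌋` with primes `p`, and almost all integers are sums of
`k+1` such terms.
-/

namespace Pool.Agent.N604.MW

open Finset MeasureTheory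

/-- `log n` for primes `n`, otherwise `0` -/
noncomputable def lam (n : ℕ) : ℝ := if n.Prime then Real.log n else 0

/-- RECUR: strong recurrence of `α n ^ k` near a point forces a good rational approximation to `α` -/
def S_RECUR : Prop := ∀ k : ℕ, 1 ≤ k → ∃ C m : ℕ, ∀ (α γ ε u : ℝ) (N : ℕ) (S : Finset ℕ), 1 ≤ u → 0 ≤ ε →
  C * u ^ m * ε ≤ 1 → C * u ^ m ≤ N → (∀ n ∈ S, N < n ∧ n ≤ 2 * N) → (N : ℝ) ≤ u * S.card →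
  (∀ n ∈ S, ∃ a : ℤ, |α * (n : ℝ) ^ k - γ - a| ≤ ε) →
  ∃ q : ℕ, 1 ≤ q ∧ (q : ℝ) ≤ C * u ^ m ∧ ∃ a : ℤ, |q * α - a| ≤ C * u ^ m * ε / (N : ℝ) ^ k

/-- TYPE2: a large bilinear sum has rational approximations to the first two coefficients -/
def S_TYPE2 : Prop := ∀ k C0 : ℕ, 2 ≤ k → ∃ C m : ℕ, ∀ (α : ℕ → ℝ) (X N N' M L : ℕ) (u : ℝ) (a b : ℕ → ℂ) (A₂ B₂ : ℝ),
  1 ≤ X → 1 ≤ u → C * u ^ m ≤ M → C * u ^ m ≤ L → M * L ≤ C0 * X → 0 ≤ A₂ → 0 ≤ B₂ →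
  ∑ m ∈ Finset.Ioc M (2 * M), ‖a m‖ ^ 2 ≤ A₂ * M → ∑ l ∈ Finset.Ioc L (2 * L), ‖b l‖ ^ 2 ≤ B₂ * L →
  A₂ * B₂ * (X / u) ^ 2 < ‖∑ m ∈ Finset.Ioc M (2 * M), ∑ l ∈ Finset.Ioc L (2 * L), a m * b l *
    (if N < m * l ∧ m * l ≤ N' then e (∑ j ∈ range (k + 1), α j * ((m * l : ℕ) : ℝ) ^ j) else 0)‖ ^ 2 →
  ∃ q : ℕ, 1 ≤ q ∧ (q : ℝ) ≤ C * u ^ m ∧ (∃ a : ℤ, |q * α k - a| ≤ C * u ^ m / (X : ℝ) ^ k) ∧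
    ∃ b : ℤ, |q * α (k - 1) - b| ≤ C * u ^ m / (X : ℝ) ^ (k - 1)

/-- PWEYL: a large exponential sum over primes has rational approximations to its first two coefficients -/
def S_PWEYL : Prop := ∀ k C0 : ℕ, 2 ≤ k → ∃ C m : ℕ, ∀ (α : ℕ → ℝ) (X A L : ℕ) (u : ℝ), 1 ≤ X → A + L ≤ C0 * X →
  1 + Real.log X ≤ u → (X : ℝ) ≤ u * ‖∑ n ∈ range L, ((ArithmeticFunction.vonMangoldt (A + n) : ℝ) : ℂ) *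
    e (∑ j ∈ range (k + 1), α j * ((A + n : ℕ) : ℝ) ^ j)‖ →
  ∃ q : ℕ, 1 ≤ q ∧ (q : ℝ) ≤ C * u ^ m ∧ (∃ a : ℤ, |q * α k - a| ≤ C * u ^ m / (X : ℝ) ^ k) ∧
    ∃ b : ℤ, |q * α (k - 1) - b| ≤ C * u ^ m / (X : ℝ) ^ (k - 1)

/-- PPOINT: pointwise bound for the exponential sums over primes of a diophantine polynomial -/
def S_PPOINT : Prop := ∀ (d : ℕ) (c b : ℝ) (θ : Fin d → ℝ), 1 ≤ d → 0 < c → Dio d c θ → ∀ (C0 : ℕ) (δ : ℝ), 0 < δ →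
  ∃ σ : ℝ, 0 < σ ∧ ∃ X0 : ℕ, ∀ X A L : ℕ, X0 ≤ X → A + L ≤ C0 * X → ∀ β : ℝ,
    (X : ℝ) ^ (-((d : ℝ) + 1) + δ) ≤ |β| → |β| ≤ (X : ℝ) ^ σ →
    ‖∑ n ∈ range L, ((lam (A + n) : ℝ) : ℂ) * e (β * PP d c b θ ((A + n : ℕ) : ℝ))‖ ≤ (X : ℝ) ^ (1 - σ)

/-- PTPOINT: minor arcs for the integer parts at primes -/
def S_PTPOINT : Prop := ∀ (d : ℕ) (c b : ℝ) (θ : Fin d → ℝ), 1 ≤ d → 0 < c → Dio d c θ → ∀ (C0 : ℕ) (δ : ℝ), 0 < δ →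
  ∃ σ : ℝ, 0 < σ ∧ ∃ X0 : ℕ, ∀ X A L : ℕ, X0 ≤ X → A + L ≤ C0 * X → ∀ α : ℝ,
    (X : ℝ) ^ (-((d : ℝ) + 1) + δ) ≤ |α| → |α| ≤ 1 / 2 →
    ‖∑ n ∈ range L, ((lam (A + n) * Real.sin (Real.pi * PP d c b θ ((A + n : ℕ) : ℝ)) ^ 2 : ℝ) : ℂ) *
      e (α * (⌊PP d c b θ ((A + n : ℕ) : ℝ)⌋ : ℤ))‖ ≤ (X : ℝ) ^ (1 - σ)

/-- PLOW: the weighted number of values at primes in short intervals -/
def S_PLOW : Prop := ∀ (d : ℕ) (c b : ℝ) (θ : Fin d → ℝ), 1 ≤ d → 0 < c → Dio d c θ → ∀ C1 : ℝ, 1 ≤ C1 →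
  ∃ C0 : ℕ, ∃ κ σ : ℝ, 0 < κ ∧ 0 < σ ∧ ∃ X0 : ℕ, ∀ (X W : ℕ) (M : ℤ), X0 ≤ X →
    (X : ℝ) ^ (d + 1) ≤ M → (M : ℝ) ≤ C1 * (X : ℝ) ^ (d + 1) →
    (X : ℝ) ^ ((d : ℝ) + 1 - σ) ≤ W → (W : ℝ) ≤ (X : ℝ) ^ (d + 1) →
    κ * W / (X : ℝ) ^ d ≤ ∑ l ∈ (range (C0 * X)).filter
      (fun l : ℕ => 0 < l ∧ M ≤ ⌊PP d c b θ (l : ℝ)⌋ ∧ ⌊PP d c b θ (l : ℝ)⌋ < M + W),
        lam l * Real.sin (Real.pi * PP d c b θ (l : ℝ)) ^ 2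

/-- PMASS: the mean of the weight at primes on long intervals -/
def S_PMASS : Prop := ∀ (d : ℕ) (c b : ℝ) (θ : Fin d → ℝ), 1 ≤ d → 0 < c → Dio d c θ → ∀ C0 : ℕ,
  ∃ κ : ℝ, 0 < κ ∧ ∃ X0 : ℕ, ∀ X A : ℕ, X0 ≤ X → X ≤ A → A ≤ C0 * X →
    κ * (X : ℝ) ≤ ∑ n ∈ Finset.Icc A (A + X), lam n * Real.sin (Real.pi * PP d c b θ n) ^ 2

end Pool.Agent.N604.MW
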