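import Mathlib
import Pool.Agent.N604.MW.Stm2

/-!
# Project PD (generic diagonal forms in primes): exact statements of the pieces

For almost every `α ∈ (0, ∞) ^ (2k+1)` every large integer is `⌊α_1 p_1^k⌋ + ... + ⌊α_{2k+1} p_{2k+1}^k⌋`
with primes `p_i`, and for almost every `α ∈ (0, ∞) ^ (k+1)` almost all integers are
`⌊α_1 p_1^k⌋ + ... + ⌊α_{k+1} p_{k+1}^k⌋`.
-/

namespace Pool.Agent.N604.MW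

open Finset MeasureTheory

/-- the pairs of tuples in `[X, 2X] ^ k` for which the forms differ by at most `k` -/
noncomputable def DPairs (k : ℕ) (α : Fin k → ℝ) (X : ℕ) : Finset ((Fin k → ℕ) × (Fin k → ℕ)) :=
  open Classical in
  (Fintype.piFinset (fun _ : Fin k => Finset.Icc X (2 * X)) ×ˢ
    Fintype.piFinset (fun _ : Fin k => Finset.Icc X (2 * X))).filter fun p =>
    |∑ i, α i * (((p.1 i : ℝ)) ^ k - ((p.2 i : ℝ)) ^ k)| ≤ (k : ℝ)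

/-- DMEAN: the mean value estimate for almost every diagonal form -/
def S_DMEAN : Prop := ∀ k : ℕ, 2 ≤ k → ∀ᵐ α : Fin k → ℝ, ∀ ε : ℝ, 0 < ε → ∃ ν0 : ℕ, ∀ ν : ℕ,
  ν0 ≤ ν → ((DPairs k α (2 ^ ν)).card : ℝ) ≤ ((2 : ℝ) ^ ν) ^ ((k : ℝ) + ε)

/-- one number is not too well approximable -/
def Dio1 (a : ℝ) : Prop := ∃ κ : ℝ, 0 < κ ∧ ∀ m n : ℤ, m ≠ 0 → κ / (m : ℝ) ^ 2 ≤ |m * a - n|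

/-- two numbers are not close to an integral relation between `a`, `a'`, `a a'` -/
def Dio2 (a a' : ℝ) : Prop := ∃ κ : ℝ, 0 < κ ∧ ∀ (A B C : ℤ) (H : ℝ), (A ≠ 0 ∨ B ≠ 0 ∨ C ≠ 0) →
  |(A : ℝ)| ≤ H → |(B : ℝ)| ≤ H → |(C : ℝ)| ≤ H → κ / H ^ 4 ≤ |A * a + B * a' + C * (a * a')|

/-- DDIO: almost every tuple is diophantine -/
def S_DDIO : Prop := ∀ s : ℕ, ∀ᵐ α : Fin s → ℝ, (∀ i, Dio1 (α i)) ∧ ∀ i j, i ≠ j → Dio2 (α i) (α j)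

/-- the weighted exponential sum over primes with the integer parts of `a n ^ k` -/
noncomputable def TT (k : ℕ) (a : ℝ) (A L : ℕ) (β : ℝ) : ℂ :=
  ∑ n ∈ range L, ((lam (A + n) * Real.sin (Real.pi * (a * ((A + n : ℕ) : ℝ) ^ k)) ^ 2 : ℝ) : ℂ) *
    e (β * (⌊a * ((A + n : ℕ) : ℝ) ^ k⌋ : ℤ))

/-- DMAJ: where the exponential sum is large -/
def S_DMAJ : Prop := ∀ (k : ℕ) (a : ℝ) (C0 : ℕ), 2 ≤ k → 0 < a → ∃ m : ℝ, 0 < m ∧ ∀ σ : ℝ, 0 < σ → σ ≤ 1 →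
  ∃ X0 : ℕ, ∀ X A L : ℕ, X0 ≤ X → A + L ≤ C0 * X → ∀ β : ℝ, |β| ≤ 1 / 2 → (X : ℝ) ^ (1 - σ) < ‖TT k a A L β‖ →
    ∃ h a' : ℤ, ∃ q : ℕ, 1 ≤ q ∧ (q : ℝ) ≤ (X : ℝ) ^ (m * σ) ∧ |(h : ℝ)| ≤ (X : ℝ) ^ (m * σ) ∧
      |q * (a * (β + h)) - a'| ≤ (X : ℝ) ^ (m * σ - k)

/-- DEXCL: two generic exponential sums are not both large on the minor arcs -/
def S_DEXCL : Prop := ∀ (k : ℕ) (a a' : ℝ) (C0 : ℕ) (δ : ℝ), 2 ≤ k → 0 < a → 0 < a' → Dio2 a a' → 0 < δ →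
  ∃ σ : ℝ, 0 < σ ∧ σ ≤ 1 ∧ ∃ X0 : ℕ, ∀ X A L A' L' : ℕ, X0 ≤ X → A + L ≤ C0 * X → A' + L' ≤ C0 * X → ∀ β : ℝ,
    (X : ℝ) ^ (-(k : ℝ) + δ) ≤ |β| → |β| ≤ 1 / 2 →
    ‖TT k a A L β‖ ≤ (X : ℝ) ^ (1 - σ) ∨ ‖TT k a' A' L' β‖ ≤ (X : ℝ) ^ (1 - σ)

/-- DCOV: a covering of the set where the exponential sum is large -/
def S_DCOV : Prop := ∀ (k : ℕ) (a : ℝ) (C0 : ℕ), 2 ≤ k → 0 < a → ∃ m : ℝ, 0 < m ∧ ∀ σ : ℝ, 0 < σ → σ ≤ 1 →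
  ∃ X0 : ℕ, ∀ X : ℕ, X0 ≤ X → ∃ J : Finset ℝ, (J.card : ℝ) ≤ (X : ℝ) ^ (m * σ) ∧
    ∀ A L : ℕ, A + L ≤ C0 * X → ∀ β : ℝ, |β| ≤ 1 / 2 → (X : ℝ) ^ (1 - σ) < ‖TT k a A L β‖ →
      ∃ x ∈ J, |β - x| ≤ (X : ℝ) ^ (m * σ - k)

/-- DLOW: the weighted number of values at primes in short intervals -/
def S_DLOW : Prop := ∀ (k : ℕ) (a : ℝ), 2 ≤ k → 0 < a → Dio1 a → ∀ C1 : ℝ, 1 ≤ C1 →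
  ∃ C0 : ℕ, ∃ κ σ : ℝ, 0 < κ ∧ 0 < σ ∧ ∃ X0 : ℕ, ∀ (X W : ℕ) (M : ℤ), X0 ≤ X →
    (X : ℝ) ^ k ≤ M → (M : ℝ) ≤ C1 * (X : ℝ) ^ k → (X : ℝ) ^ ((k : ℝ) - σ) ≤ W → (W : ℝ) ≤ (X : ℝ) ^ k →
    κ * W / (X : ℝ) ^ (k - 1) ≤ ∑ l ∈ (range (C0 * X)).filter
      (fun l : ℕ => 0 < l ∧ M ≤ ⌊a * (l : ℝ) ^ k⌋ ∧ ⌊a * (l : ℝ) ^ k⌋ < M + W),
        lam l * Real.sin (Real.pi * (a * (l : ℝ) ^ k)) ^ 2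

/-- DMASS: the mean of the weight at primes on long intervals -/
def S_DMASS : Prop := ∀ (k : ℕ) (a : ℝ), 2 ≤ k → 0 < a → Dio1 a →
  ∃ κ : ℝ, 0 < κ ∧ ∃ X0 : ℕ, ∀ X : ℕ, X0 ≤ X →
    κ * (X : ℝ) ≤ ∑ n ∈ Finset.Icc X (2 * X), lam n * Real.sin (Real.pi * (a * (n : ℝ) ^ k)) ^ 2

/-- weighted number of solutions of `v ω + v' ω' + a l = N` -/
noncomputable def R3 {Ω Λ : Type} (P P' : Finset Ω) (L : Finset Λ) (v v' : Ω → ℤ) (p p' : Ω → ℝ) (a : Λ → ℤ)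
    (w : Λ → ℝ) (N : ℤ) : ℝ :=
  ∑ ω ∈ P, ∑ ω' ∈ P', ∑ l ∈ L, if v ω + v' ω' + a l = N then p ω * p' ω' * w l else 0

/-- DCIRC2: the circle method for `R3` with an exceptional part of the minor arcs -/
def S_DCIRC2 : Prop := ∀ (Ω Λ : Type) (P P' : Finset Ω) (L : Finset Λ) (v v' : Ω → ℤ) (p p' : Ω → ℝ) (a : Λ → ℤ)
  (w : Λ → ℝ) (W : ℕ) (η τ υ r : ℝ) (J : Finset ℝ), (∀ ω, 0 ≤ p ω) → (∀ ω, 0 ≤ p' ω) → (∀ l, 0 ≤ w l) → 1 ≤ W →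
  0 ≤ η → 0 ≤ τ → 0 ≤ υ → 0 ≤ r →
  (∀ α : ℝ, η ≤ |α| → |α| ≤ 1 / 2 → ‖∑ l ∈ L, (w l : ℂ) * e (α * a l)‖ ≤ τ ∨
    ((∃ x ∈ J, |α - x| ≤ r) ∧ ‖∑ ω ∈ P, (p ω : ℂ) * e (α * v ω)‖ ≤ υ ∧ ‖∑ ω ∈ P', (p' ω : ℂ) * e (α * v' ω)‖ ≤ υ)) →
  ∀ N : ℤ, |R3 P P' L v v' p p' a w N - (∑ h ∈ range W, R3 P P' L v v' p p' a w (N + h)) / W| ≤
    16 * W * η ^ 2 * (∑ ω ∈ P, p ω) * (∑ ω ∈ P', p' ω) * (∑ l ∈ L, w l) +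
      τ * (En P v p + En P' v' p') + 4 * r * J.card * υ ^ 2 * (∑ l ∈ L, w l)

/-- DCIRC1: the circle method for `R1` with an exceptional part of the minor arcs -/
def S_DCIRC1 : Prop := ∀ (Ω Λ : Type) (P : Finset Ω) (L : Finset Λ) (v : Ω → ℤ) (p : Ω → ℝ) (a : Λ → ℤ) (w : Λ → ℝ)
  (W : ℕ) (η τ υ r ρ : ℝ) (J : Finset ℝ), (∀ ω, 0 ≤ p ω) → (∀ l, 0 ≤ w l) → 1 ≤ W → 0 ≤ η → 0 ≤ τ → 0 ≤ υ → 0 ≤ r →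
  0 ≤ ρ → (∀ α : ℝ, η ≤ |α| → |α| ≤ 1 / 2 → ‖∑ l ∈ L, (w l : ℂ) * e (α * a l)‖ ≤ τ ∨
    ((∃ x ∈ J, |α - x| ≤ r) ∧ ‖∑ ω ∈ P, (p ω : ℂ) * e (α * v ω)‖ ≤ υ)) →
  ∀ S : Finset ℤ, (∀ N ∈ S, 16 * W * η ^ 2 * (∑ ω ∈ P, p ω) * (∑ l ∈ L, w l) + ρ ≤
    |R1 P L v p a w N - (∑ h ∈ range W, R1 P L v p a w (N + h)) / W|) →
  (S.card : ℝ) * ρ ^ 2 ≤ 4 * τ ^ 2 * En P v p + 8 * r * J.card * (υ * (∑ l ∈ L, w l)) ^ 2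

end Pool.Agent.N604.MW
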