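import Mathlib
import Pool.Agent.N604.MW.Stm3

/-!
# Project KV (`k + 11` primes): exact statements of the pieces

For `k ≥ 10`, any leading coefficients `c_1, ..., c_{k+11} > 0` and almost all lower coefficients, every large
integer is `⌊P_1(p_1)⌋ + ... + ⌊P_{k+11}(p_{k+11})⌋` with primes `p_i`.
-/

namespace Pool.Agent.N604.MW

open Finset MeasureTheory

/-- the function `F x + θ_0 x + θ_1 x ^ 2 + ... + θ_{k-1} x ^ k` -/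
noncomputable def QQ (k : ℕ) (F : ℕ → ℝ) (θ : Fin k → ℝ) (x : ℕ) : ℝ := F x + ∑ l : Fin k, θ l * (x : ℝ) ^ ((l : ℕ) + 1)

/-- the fixed part of the polynomial -/
noncomputable def FF (d : ℕ) (c b : ℝ) : ℕ → ℝ := fun x => c * (x : ℝ) ^ (d + 1) + b

/-- the standard Gaussian measure on `ℝ ^ k` -/
noncomputable def GM (k : ℕ) : Measure (Fin k → ℝ) := Measure.pi fun _ => ProbabilityTheory.gaussianReal 0 1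

/-- the standard Gaussian measure on `(ℝ ^ k) ^ s` -/
noncomputable def GMs (s k : ℕ) : Measure (Fin s → Fin k → ℝ) := Measure.pi fun _ => GM k

/-- the weighted exponential sum over the primes in `[X, 2X]` -/
noncomputable def TQ (k : ℕ) (F : ℕ → ℝ) (X : ℕ) (θ : Fin k → ℝ) (β : ℝ) : ℂ :=
  ∑ x ∈ Finset.Icc X (2 * X), ((lam x * Real.sin (Real.pi * QQ k F θ x) ^ 2 : ℝ) : ℂ) *
    e (β * (⌊QQ k F θ x⌋ : ℤ))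

/-- the arcs `η ≤ |β| ≤ η'` -/
def Arc (η η' : ℝ) : Set ℝ := {β : ℝ | η ≤ |β| ∧ |β| ≤ η'}

/-- the contribution of the minor arcs `η ≤ |β| ≤ 1/2` -/
noncomputable def EQ (s k : ℕ) (F : Fin s → ℕ → ℝ) (X : ℕ) (η : ℝ) (θ : Fin s → Fin k → ℝ) (N : ℤ) : ℂ :=
  ∫ β in Arc η (1 / 2), (∏ i, TQ k (F i) X (θ i) β) * e (-(β * N))

/-- weight on the frequencies -/
noncomputable def qq (t : ℝ) : ℝ := if |t| ≤ 2 then 1 else 1 / t ^ 2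

/-- the bound for the expectation of the product of `n` exponential sums -/
noncomputable def GS (n k X : ℕ) (γ : Fin n → ℝ) : ℝ :=
  ∑ x ∈ Fintype.piFinset (fun _ : Fin n => Finset.Icc X (2 * X)),
    Real.exp (-(2 * Real.pi ^ 2 * ∑ l : Fin k, (∑ j, γ j * (x j : ℝ) ^ ((l : ℕ) + 1)) ^ 2))

/-- number of tuples in `[X, 2X] ^ n` whose linear forms with coefficients `γ` are at most `T` -/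
noncomputable def VV (n k X : ℕ) (T : ℝ) (γ : Fin n → ℝ) : ℝ :=
  open Classical in
  (((Fintype.piFinset (fun _ : Fin n => Finset.Icc X (2 * X))).filter fun x : Fin n → ℕ =>
    ∀ l ∈ Finset.Icc 1 k, |∑ j, γ j * (x j : ℝ) ^ l| ≤ T).card : ℝ)

/-- number of such tuples with distinct entries -/
noncomputable def WW (g k X : ℕ) (T : ℝ) (B : Fin g → ℝ) : ℝ :=
  open Classical in
  (((Fintype.piFinset (fun _ : Fin g => Finset.Icc X (2 * X))).filter fun z : Fin g → ℕ =>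
    Function.Injective z ∧ ∀ l ∈ Finset.Icc 1 k, |∑ a, B a * (z a : ℝ) ^ l| ≤ T).card : ℝ)

/-- CHAR: the characteristic function of the Gaussian measure -/
def S_CHAR : Prop := ∀ (k : ℕ) (t : Fin k → ℝ),
  ∫ θ, e (∑ l, θ l * t l) ∂(GM k) = ((Real.exp (-(2 * Real.pi ^ 2 * ∑ l, t l ^ 2)) : ℝ) : ℂ)

/-- AC: Gaussian almost everywhere implies Lebesgue almost everywhere -/
def S_AC : Prop := ∀ (s k : ℕ) (P : (Fin s → Fin k → ℝ) → Prop), (∀ᵐ θ ∂(GMs s k), P θ) → ∀ᵐ θ, P θ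

/-- VD: the Vandermonde bound -/
def S_VD : Prop := ∀ g k : ℕ, g ≤ k → ∃ C : ℝ, 0 < C ∧ ∀ (X : ℕ) (T : ℝ) (z : Fin g → ℕ) (B : Fin g → ℝ), 1 ≤ X →
  0 ≤ T → (∀ a, X ≤ z a ∧ z a ≤ 2 * X) → Function.Injective z →
  (∀ l ∈ Finset.Icc 1 k, |∑ a, B a * (z a : ℝ) ^ l| ≤ T) → ∀ a, |B a| ≤ C * T * (X : ℝ) ^ (2 * (g : ℝ) - 2 - k)

/-- GREEDY: many tuples of rows with a large minor -/
def S_GREEDY : Prop := ∀ (g k X ρ : ℕ) (Z : Finset (Fin g → ℕ)), 1 ≤ X → 2 ≤ k → 1 ≤ ρ → ρ ≤ g →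
  (∀ z ∈ Z, ∀ a, X ≤ z a ∧ z a ≤ 2 * X) → 2 ^ (g + 1) * (X + 1) ^ (ρ - 1) ≤ Z.card →
  ∃ R : Finset (Fin ρ → Fin g → ℕ), ((Z.card : ℝ) / 2) ^ ρ ≤ R.card ∧ ∀ r ∈ R, (∀ i, r i ∈ Z) ∧
    ∃ c : Fin ρ → Fin g, (X : ℝ) ^ (ρ * (k - 1)) ≤ |(Matrix.of fun i j => ((r i (c j) : ℝ)) ^ k).det|

/-- MEASV: the volume of a slab intersection in a cube from one minor -/
def S_MEASV : Prop := ∀ (g ρ : ℕ) (M0 T D : ℝ) (y : Fin ρ → Fin g → ℝ) (c : Fin ρ → Fin g), 0 ≤ M0 → 0 ≤ T → 0 < D →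
  D ≤ |(Matrix.of fun i j => y i (c j)).det| →
  volume {B : Fin g → ℝ | (∀ a, |B a| ≤ M0) ∧ ∀ i, |∑ a, B a * y i a| ≤ T} ≤
    ENNReal.ofReal ((2 * T) ^ ρ * (2 * M0) ^ (g - ρ) / D)

/-- WINT: the moment of `WW` -/
def S_WINT : Prop := ∀ g k s : ℕ, 1 ≤ g → 2 ≤ k → g ≤ k → 3 * g ≤ s → ∃ C : ℝ, 0 < C ∧ ∀ (X : ℕ) (T : ℝ), 2 ≤ X →
  1 ≤ T → ∫⁻ B : Fin g → ℝ, ENNReal.ofReal (WW g k X T B ^ s) ≤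
    ENNReal.ofReal (C * T ^ g * (X : ℝ) ^ ((g : ℝ) * ((s : ℝ) - k + 1)))

/-- PART: coinciding entries -/
def S_PART : Prop := ∀ (m k s : ℕ) (hs : ℝ), 1 ≤ m → 2 * m ≤ k → 1 ≤ s → 4 * (m : ℝ) - 2 < hs →
  ∃ C : ℝ, 0 < C ∧ ∃ X0 : ℕ, ∀ X : ℕ, X0 ≤ X →
    ∫⁻ γ : Fin (2 * m) → ℝ, {γ : Fin (2 * m) → ℝ | ∀ j, (X : ℝ) ^ (-(k : ℝ) + hs) ≤ |γ j|}.indicator
      (fun γ => ENNReal.ofReal ((∏ j, qq (γ j)) * VV (2 * m) k X (Real.log X) γ ^ s)) γ ≤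
    ENNReal.ofReal C * ∑ g ∈ Finset.Icc 1 m, ∫⁻ B : Fin g → ℝ, ENNReal.ofReal (WW g k X (Real.log X) B ^ s)

/-- KEY: the moment of `GS` away from the axes -/
def S_KEY : Prop := ∀ (m k s : ℕ) (hs : ℝ), 1 ≤ m → 2 ≤ k → 2 * m ≤ k → 3 * m ≤ s → k ≤ s → 4 * (m : ℝ) - 2 < hs →
  ∃ C : ℝ, 0 < C ∧ ∃ X0 : ℕ, ∀ X : ℕ, X0 ≤ X →
    ∫⁻ γ : Fin (2 * m) → ℝ, {γ : Fin (2 * m) → ℝ | ∀ j, (X : ℝ) ^ (-(k : ℝ) + hs) ≤ |γ j|}.indicator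
      (fun γ => ENNReal.ofReal ((∏ j, qq (γ j)) * GS (2 * m) k X γ ^ s)) γ ≤
    ENNReal.ofReal (C * Real.log X ^ m * (X : ℝ) ^ ((m : ℝ) * ((s : ℝ) - k + 1)))

/-- PHI: the expectation of a product of exponential sums -/
def S_PHI : Prop := ∀ (n k X : ℕ) (F : ℕ → ℝ) (β : Fin n → ℝ), 1 ≤ X →
  (Summable fun h : Fin n → ℤ => (∏ j, qq (β j + h j)) * GS n k X (fun j => β j + h j)) ∧
  ‖∫ θ, ∏ j, TQ k F X θ (β j) ∂(GM k)‖ ≤ Real.log (2 * X) ^ n *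
    ∑' h : Fin n → ℤ, (∏ j, qq (β j + h j)) * GS n k X (fun j => β j + h j)

/-- MOM: the moments of the contribution of the minor arcs -/
def S_MOM : Prop := ∀ s m : ℕ, 1 ≤ s → 1 ≤ m → ∃ C : ℝ, 0 < C ∧ ∀ (k X : ℕ) (F : Fin s → ℕ → ℝ) (η : ℝ) (N : ℤ),
  2 ≤ X → 0 < η → η ≤ 1 / 2 →
  ∫⁻ θ, ENNReal.ofReal (‖EQ s k F X η θ N‖ ^ (2 * m)) ∂(GMs s k) ≤
    ENNReal.ofReal (C * Real.log (2 * X) ^ (2 * m * s)) *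
      ∫⁻ γ : Fin (2 * m) → ℝ, {γ : Fin (2 * m) → ℝ | ∀ j, η ≤ |γ j|}.indicator
        (fun γ => ENNReal.ofReal ((∏ j, qq (γ j)) * GS (2 * m) k X γ ^ s)) γ

/-- L2: the second moment of one exponential sum -/
def S_L2 : Prop := ∀ k : ℕ, 1 ≤ k → ∃ C : ℝ, 0 < C ∧ ∀ (X : ℕ) (F : ℕ → ℝ) (β : ℝ), 2 ≤ X → 0 < |β| → |β| ≤ 1 / 2 →
  ∫⁻ θ, ENNReal.ofReal (‖TQ k F X θ β‖ ^ 2) ∂(GM k) ≤
    ENNReal.ofReal (C * Real.log (2 * X) ^ 2 * X * (1 + 1 / (|β| * (X : ℝ) ^ (k - 1))))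

/-- MSQ: the mean square over short arcs -/
def S_MSQ : Prop := ∀ (d : ℕ) (c b : ℝ), 1 ≤ d → 0 < c → ∃ C : ℝ, 0 < C ∧ ∃ X0 : ℕ, ∀ (X : ℕ) (θ : Fin d → ℝ) (η : ℝ),
  X0 ≤ X → (∀ l, |θ l| ≤ Real.sqrt X) → 0 < η → η ≤ 1 / 2 →
  ∫ β in Arc 0 η, ‖TQ d (FF d c b) X θ β‖ ^ 2 ≤ C * Real.log (2 * X) ^ 2 * (X * η + (X : ℝ) ^ (1 - (d : ℝ)))

/-- L1R: the mean of the product over the lower arcs -/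
def S_L1R : Prop := ∀ (d s : ℕ) (c b : Fin s → ℝ) (hs : ℝ), 1 ≤ d → 4 ≤ s → (∀ i, 0 < c i) → 1 ≤ hs → hs < d →
  ∃ C : ℝ, 0 < C ∧ ∃ X0 : ℕ, ∀ X : ℕ, X0 ≤ X →
  ∫⁻ θ in {θ : Fin s → Fin d → ℝ | ∀ i l, |θ i l| ≤ Real.sqrt X},
      (∫⁻ β in Arc 0 ((X : ℝ) ^ (-(d : ℝ) + hs)),
        ENNReal.ofReal (∏ i, ‖TQ d (FF d (c i) (b i)) X (θ i) β‖)) ∂(GMs s d) ≤
    ENNReal.ofReal (C * Real.log (2 * X) ^ (s + 1) *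
      ((X : ℝ) ^ ((s : ℝ) - d - 1) + (X : ℝ) ^ ((s : ℝ) / 2 - d + hs)))

/-- the almost sure bounds -/
def GoodQ (s d : ℕ) (c b : Fin s → ℝ) (θ : Fin s → Fin d → ℝ) : Prop :=
  (∀ ε : ℝ, 0 < ε → ∃ ν0 : ℕ, ∀ ν X : ℕ, ν0 ≤ ν → X = 2 ^ ν →
    ∫ β in Arc 0 ((X : ℝ) ^ (-(d : ℝ) + ((s : ℝ) / 2 - 5 / 4))),
      ∏ i, ‖TQ d (FF d (c i) (b i)) X (θ i) β‖ ≤ (X : ℝ) ^ ((s : ℝ) - d - 1 + ε)) ∧
  ∃ δ : ℝ, 0 < δ ∧ ∃ ν0 : ℕ, ∀ ν X : ℕ, ν0 ≤ ν → X = 2 ^ ν →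
    ∀ N : ℤ, |(N : ℝ)| ≤ (X : ℝ) ^ ((d : ℝ) + 5 / 4) →
      ‖EQ s d (fun i => FF d (c i) (b i)) X ((X : ℝ) ^ (-(d : ℝ) + ((s : ℝ) / 2 - 5 / 4))) θ N‖ ≤
        (X : ℝ) ^ ((s : ℝ) - d - 1 - δ)

/-- BC: Borel–Cantelli -/
def S_BC : Prop := ∀ (d s m : ℕ) (c b : Fin s → ℝ), 2 ≤ d → 1 ≤ m → 2 * m ≤ d → 3 * m ≤ s → 5 ≤ s → d ≤ s →
  s ≤ 2 * (d + 1) → 8 * m ≤ s + 1 → d + 2 + m * (d + 3) ≤ m * s → (∀ i, 0 < c i) →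
  ∀ᵐ θ ∂(GMs s d), GoodQ s d c b θ

/-- CIRC5: the circle method, three ranges of the frequency -/
def S_CIRC5 : Prop := ∀ (Ω Λ : Type) (P : Finset Ω) (L : Finset Λ) (v : Ω → ℤ) (p : Ω → ℝ) (a : Λ → ℤ) (w : Λ → ℝ)
  (W : ℕ) (η₁ η τ E0 : ℝ), (∀ ω, 0 ≤ p ω) → (∀ l, 0 ≤ w l) → 1 ≤ W → 0 < η₁ → η₁ ≤ η → η ≤ 1 / 2 → 0 ≤ τ → 0 ≤ E0 →
  (∀ α : ℝ, η₁ ≤ |α| → |α| ≤ 1 / 2 → ‖∑ l ∈ L, (w l : ℂ) * e (α * a l)‖ ≤ τ) → ∀ N : ℤ,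
  (∀ l ∈ L, ∀ h : ℕ, h ≤ W → ‖∫ β in Arc η (1 / 2), (∑ ω ∈ P, (p ω : ℂ) * e (β * v ω)) *
    e (-(β * ((N + h - a l : ℤ) : ℝ)))‖ ≤ E0) →
  |R1 P L v p a w N - (∑ h ∈ range W, R1 P L v p a w (N + h)) / W| ≤
    16 * W * η₁ ^ 2 * (∑ ω ∈ P, p ω) * (∑ l ∈ L, w l) +
    2 * τ * (∫ β in Arc η₁ η, ‖∑ ω ∈ P, (p ω : ℂ) * e (β * v ω)‖) + 2 * E0 * ∑ l ∈ L, w l

end Pool.Agent.N604.MW
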