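import Mathlib
import Pool.Agent.N604.MW.Stm4

/-!
# Project KV: measurability lemmas
-/

namespace Pool.Agent.N604.MW

open Finset MeasureTheory

lemma e_continuous : Continuous e := by
  unfold e; fun_prop

lemma e_norm (x : ℝ) : ‖e x‖ = 1 := by
  unfold e
  rw [Complex.norm_exp]
  simp

lemma QQ_continuous (k : ℕ) (F : ℕ → ℝ) (x : ℕ) : Continuous fun θ : Fin k → ℝ => QQ k F θ x := by
  unfold QQ; fun_prop

lemma QQ_measurable (k : ℕ) (F : ℕ → ℝ) (x : ℕ) : Measurable fun θ : Fin k → ℝ => QQ k F θ x :=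
  (QQ_continuous k F x).measurable

/-- joint measurability of the exponential sum -/
lemma TQ_measurable (k : ℕ) (F : ℕ → ℝ) (X : ℕ) : Measurable fun p : (Fin k → ℝ) × ℝ => TQ k F X p.1 p.2 := by
  unfold TQ
  refine Finset.measurable_sum _ fun x _ => ?_
  have hQ : Measurable fun p : (Fin k → ℝ) × ℝ => QQ k F p.1 x := (QQ_measurable k F x).comp measurable_fst
  have hf : Measurable fun p : (Fin k → ℝ) × ℝ => ((⌊QQ k F p.1 x⌋ : ℤ) : ℝ) :=
    (measurable_of_countable (fun n : ℤ => (n : ℝ))).comp (Int.measurable_floor.comp hQ)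
  have h1 : Measurable fun p : (Fin k → ℝ) × ℝ => ((lam x * Real.sin (Real.pi * QQ k F p.1 x) ^ 2 : ℝ) : ℂ) := by
    refine Complex.measurable_ofReal.comp ?_
    exact ((Real.measurable_sin.comp (hQ.const_mul _)).pow_const 2).const_mul _
  exact h1.mul (e_continuous.measurable.comp (measurable_snd.mul hf))

lemma TQ_measurable_left (k : ℕ) (F : ℕ → ℝ) (X : ℕ) (β : ℝ) : Measurable fun θ : Fin k → ℝ => TQ k F X θ β :=
  Measurable.comp (g := fun p : (Fin k → ℝ) × ℝ => TQ k F X p.1 p.2) (f := fun θ => (θ, β))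
    (TQ_measurable k F X) (by fun_prop)

lemma TQ_continuous (k : ℕ) (F : ℕ → ℝ) (X : ℕ) (θ : Fin k → ℝ) : Continuous fun β : ℝ => TQ k F X θ β := by
  unfold TQ
  refine continuous_finsetSum _ fun x _ => ?_
  exact continuous_const.mul (e_continuous.comp (continuous_id.mul continuous_const))

lemma klam_nonneg (x : ℕ) : 0 ≤ lam x := by
  unfold lam
  split_ifs
  · exact Real.log_natCast_nonneg x
  · exact le_rfl

lemma lam_le (X x : ℕ) (hX : 1 ≤ X) (hx : x ≤ 2 * X) : lam x ≤ Real.log (2 * X) := by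
  have h1 : (1 : ℝ) ≤ X := by exact_mod_cast hX
  unfold lam
  split_ifs with h
  · exact Real.log_le_log (by exact_mod_cast h.pos) (by exact_mod_cast hx)
  · exact Real.log_nonneg (by linarith)

lemma TQ_norm_le (k : ℕ) (F : ℕ → ℝ) (X : ℕ) (hX : 1 ≤ X) (θ : Fin k → ℝ) (β : ℝ) :
    ‖TQ k F X θ β‖ ≤ (X + 1) * Real.log (2 * X) := by
  have h1 : (1 : ℝ) ≤ X := by exact_mod_cast hX
  have h0 : 0 ≤ Real.log (2 * X) := Real.log_nonneg (by linarith)
  unfold TQ
  refine (norm_sum_le _ _).trans ?_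
  have : ∀ x ∈ Finset.Icc X (2 * X), ‖((lam x * Real.sin (Real.pi * QQ k F θ x) ^ 2 : ℝ) : ℂ) *
      e (β * (⌊QQ k F θ x⌋ : ℤ))‖ ≤ Real.log (2 * X) := by
    intro x hx
    rw [norm_mul, e_norm, mul_one, Complex.norm_real, Real.norm_eq_abs, abs_of_nonneg
      (mul_nonneg (klam_nonneg x) (sq_nonneg _))]
    have h2 : Real.sin (Real.pi * QQ k F θ x) ^ 2 ≤ 1 := Real.sin_sq_le_one _
    calc lam x * Real.sin (Real.pi * QQ k F θ x) ^ 2 ≤ lam x * 1 :=
          mul_le_mul_of_nonneg_left h2 (klam_nonneg x)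
      _ ≤ Real.log (2 * X) := by rw [mul_one]; exact lam_le X x hX (Finset.mem_Icc.1 hx).2
  refine (Finset.sum_le_sum this).trans ?_
  rw [Finset.sum_const, Nat.card_Icc, nsmul_eq_mul]
  have : ((2 * X + 1 - X : ℕ) : ℝ) = X + 1 := by
    have : 2 * X + 1 - X = X + 1 := by omega
    rw [this]; push_cast; ring
  rw [this]

/-- conjugation -/
lemma e_neg (x : ℝ) : e (-x) = (starRingEnd ℂ) (e x) := by
  unfold e
  rw [← Complex.exp_conj]
  congr 1
  simp only [map_mul, Complex.conj_ofReal, Complex.conj_I, Complex.conj_ofNat]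
  push_cast
  ring

lemma TQ_neg (k : ℕ) (F : ℕ → ℝ) (X : ℕ) (θ : Fin k → ℝ) (β : ℝ) :
    TQ k F X θ (-β) = (starRingEnd ℂ) (TQ k F X θ β) := by
  unfold TQ
  rw [map_sum]
  refine Finset.sum_congr rfl fun x _ => ?_
  rw [map_mul, Complex.conj_ofReal, ← e_neg, neg_mul]

lemma prod_TQ_measurable (s k : ℕ) (F : Fin s → ℕ → ℝ) (X : ℕ) :
    Measurable fun p : (Fin s → Fin k → ℝ) × ℝ => ∏ i, TQ k (F i) X (p.1 i) p.2 := by
  refine Finset.measurable_prod _ fun i _ => ?_
  exact Measurable.comp (g := fun p : (Fin k → ℝ) × ℝ => TQ k (F i) X p.1 p.2)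
    (f := fun p : (Fin s → Fin k → ℝ) × ℝ => (p.1 i, p.2)) (TQ_measurable k (F i) X) (by fun_prop)

lemma prod_TQ_norm_measurable (s k : ℕ) (F : Fin s → ℕ → ℝ) (X : ℕ) :
    Measurable fun p : (Fin s → Fin k → ℝ) × ℝ => ∏ i, ‖TQ k (F i) X (p.1 i) p.2‖ := by
  refine Finset.measurable_prod _ fun i _ => ?_
  exact (Measurable.comp (g := fun p : (Fin k → ℝ) × ℝ => TQ k (F i) X p.1 p.2)
    (f := fun p : (Fin s → Fin k → ℝ) × ℝ => (p.1 i, p.2)) (TQ_measurable k (F i) X) (by fun_prop)).norm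

lemma measurableSet_Arc (η η' : ℝ) : MeasurableSet (Arc η η') := by
  unfold Arc
  exact (measurableSet_le measurable_const measurable_norm).inter (measurableSet_le measurable_norm measurable_const)

lemma isCompact_Arc (η η' : ℝ) : IsCompact (Arc η η') := by
  refine Metric.isCompact_of_isClosed_isBounded ?_ ?_
  · unfold Arc
    exact (isClosed_le continuous_const continuous_abs).inter (isClosed_le continuous_abs continuous_const)
  · refine (Metric.isBounded_Icc (-η') η').subset fun β hβ => ?_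
    exact abs_le.1 hβ.2

lemma EQ_measurable (s k : ℕ) (F : Fin s → ℕ → ℝ) (X : ℕ) (η : ℝ) (N : ℤ) :
    Measurable fun θ : Fin s → Fin k → ℝ => EQ s k F X η θ N := by
  unfold EQ
  have h : StronglyMeasurable fun p : (Fin s → Fin k → ℝ) × ℝ =>
      (∏ i, TQ k (F i) X (p.1 i) p.2) * e (-(p.2 * N)) := by
    refine Measurable.stronglyMeasurable ?_
    refine (prod_TQ_measurable s k F X).mul (e_continuous.measurable.comp ?_)
    exact (measurable_snd.mul_const _).neg
  exact (h.integral_prod_right (ν := volume.restrict (Arc η (1 / 2)))).measurable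

lemma intProd_measurable (s k : ℕ) (F : Fin s → ℕ → ℝ) (X : ℕ) (η η' : ℝ) :
    Measurable fun θ : Fin s → Fin k → ℝ => ∫ β in Arc η η', ∏ i, ‖TQ k (F i) X (θ i) β‖ := by
  have h : StronglyMeasurable fun p : (Fin s → Fin k → ℝ) × ℝ => ∏ i, ‖TQ k (F i) X (p.1 i) p.2‖ :=
    (prod_TQ_norm_measurable s k F X).stronglyMeasurable
  exact (h.integral_prod_right (ν := volume.restrict (Arc η η'))).measurable

lemma qq_nonneg (t : ℝ) : 0 ≤ qq t := by
  unfold qq; split_ifs <;> positivity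

lemma qq_le_one (t : ℝ) : qq t ≤ 1 := by
  unfold qq
  split_ifs with h
  · exact le_rfl
  · have : 1 ≤ t ^ 2 := by
      have := sq_abs t
      nlinarith [not_le.1 h]
    rw [div_le_one (by positivity)]; exact this

lemma qq_measurable : Measurable qq := by
  unfold qq
  exact Measurable.ite (measurableSet_le measurable_norm measurable_const) measurable_const
    (measurable_const.div (measurable_id.pow_const 2))

lemma GS_continuous (n k X : ℕ) : Continuous (GS n k X) := by
  unfold GS; fun_prop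

lemma GS_nonneg (n k X : ℕ) (γ : Fin n → ℝ) : 0 ≤ GS n k X γ :=
  Finset.sum_nonneg fun _ _ => (Real.exp_pos _).le

lemma GS_le (n k X : ℕ) (γ : Fin n → ℝ) : GS n k X γ ≤ ((X : ℝ) + 1) ^ n := by
  unfold GS
  refine (Finset.sum_le_card_nsmul _ _ 1 fun x _ => ?_).trans ?_
  · refine Real.exp_le_one_iff.2 ?_
    have : 0 ≤ 2 * Real.pi ^ 2 * ∑ l : Fin k, (∑ j, γ j * (x j : ℝ) ^ ((l : ℕ) + 1)) ^ 2 := by positivity
    linarith
  · rw [Fintype.card_piFinset]
    simp only [Nat.card_Icc, Finset.prod_const, Finset.card_univ, Fintype.card_fin, nsmul_eq_mul, mul_one]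
    have : 2 * X + 1 - X = X + 1 := by omega
    rw [this]; push_cast; exact le_rfl

lemma WW_measurable (g k X : ℕ) (T : ℝ) : Measurable (WW g k X T) := by
  classical
  have : WW g k X T = fun B => ∑ z ∈ Fintype.piFinset (fun _ : Fin g => Finset.Icc X (2 * X)),
      (if Function.Injective z ∧ ∀ l ∈ Finset.Icc 1 k, |∑ a, B a * (z a : ℝ) ^ l| ≤ T then (1 : ℝ) else 0) := by
    funext B
    unfold WW
    rw [Finset.card_filter]
    push_cast
    refine Finset.sum_congr rfl fun z _ => ?_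
    congr
  rw [this]
  refine Finset.measurable_sum _ fun z _ => ?_
  refine Measurable.ite ?_ measurable_const measurable_const
  refine (MeasurableSet.const _).inter (s₂ := {a : Fin g → ℝ | ∀ l ∈ Finset.Icc 1 k, |∑ x, a x * (z x : ℝ) ^ l| ≤ T}) ?_
  have : {a : Fin g → ℝ | ∀ l ∈ Finset.Icc 1 k, |∑ x, a x * (z x : ℝ) ^ l| ≤ T} =
      ⋂ l ∈ Finset.Icc 1 k, {a : Fin g → ℝ | |∑ x, a x * (z x : ℝ) ^ l| ≤ T} := by
    ext a; simp
  rw [this]
  refine Finset.measurableSet_biInter _ fun l _ => ?_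
  exact (isClosed_le (by fun_prop) continuous_const).measurableSet

lemma VV_measurable (g k X : ℕ) (T : ℝ) : Measurable (VV g k X T) := by
  classical
  have : VV g k X T = fun B => ∑ z ∈ Fintype.piFinset (fun _ : Fin g => Finset.Icc X (2 * X)),
      (if ∀ l ∈ Finset.Icc 1 k, |∑ a, B a * (z a : ℝ) ^ l| ≤ T then (1 : ℝ) else 0) := by
    funext B
    unfold VV
    rw [Finset.card_filter]
    push_cast
    refine Finset.sum_congr rfl fun z _ => ?_
    congr
  rw [this]
  refine Finset.measurable_sum _ fun z _ => ?_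
  refine Measurable.ite ?_ measurable_const measurable_const
  have : {a : Fin g → ℝ | ∀ l ∈ Finset.Icc 1 k, |∑ x, a x * (z x : ℝ) ^ l| ≤ T} =
      ⋂ l ∈ Finset.Icc 1 k, {a : Fin g → ℝ | |∑ x, a x * (z x : ℝ) ^ l| ≤ T} := by
    ext a; simp
  rw [this]
  refine Finset.measurableSet_biInter _ fun l _ => ?_
  exact (isClosed_le (by fun_prop) continuous_const).measurableSet

instance (k : ℕ) : IsProbabilityMeasure (GM k) := by unfold GM; infer_instance

instance (s k : ℕ) : IsProbabilityMeasure (GMs s k) := by unfold GMs; infer_instance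

end Pool.Agent.N604.MW
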