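import Mathlib
import Pool.Agent.N604.MW.Stm4

/-!
# Project KW (generic diagonal forms in `k + O(k / log k)` prime variables): exact statements of the pieces

For all large `k`, all `s ≥ k + C k / log k` and almost all `α ∈ (0, ∞) ^ s`, every large integer is
`⌊α_1 p_1^k⌋ + ... + ⌊α_s p_s^k⌋` with primes `p_i`.
-/

namespace Pool.Agent.N604.MW

open Finset MeasureTheory

/-- the weighted exponential sum over the primes in `[X, 2X]` for the function `a x ^ k` -/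
noncomputable def TD (k X : ℕ) (a : ℝ) (β : ℝ) : ℂ :=
  ∑ x ∈ Finset.Icc X (2 * X), ((lam x * Real.sin (Real.pi * (a * (x : ℝ) ^ k)) ^ 2 : ℝ) : ℂ) *
    e (β * (⌊a * (x : ℝ) ^ k⌋ : ℤ))

/-- the standard Gaussian measure on `ℝ` -/
noncomputable def G1 : Measure ℝ := ProbabilityTheory.gaussianReal 0 1

/-- the standard Gaussian measure on `ℝ ^ s` is `GM s` -/
noncomputable def ED (s k X : ℕ) (η : ℝ) (α : Fin s → ℝ) (N : ℤ) : ℂ :=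
  ∫ β in Arc η (1 / 2), (∏ i, TD k X (α i) β) * e (-(β * N))

/-- the bound for the expectation of the product of `n` exponential sums -/
noncomputable def GD (n k X : ℕ) (γ : Fin n → ℝ) : ℝ :=
  ∑ x ∈ Fintype.piFinset (fun _ : Fin n => Finset.Icc X (2 * X)),
    Real.exp (-(2 * Real.pi ^ 2 * (∑ j, γ j * (x j : ℝ) ^ k) ^ 2))

/-- number of tuples in `[X, 2X] ^ n` whose form with coefficients `γ` is at most `T` -/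
noncomputable def UD (n k X : ℕ) (T : ℝ) (γ : Fin n → ℝ) : ℝ :=
  open Classical in
  (((Fintype.piFinset (fun _ : Fin n => Finset.Icc X (2 * X))).filter fun x : Fin n → ℕ =>
    |∑ j, γ j * (x j : ℝ) ^ k| ≤ T).card : ℝ)

/-- the `2m`-th moment of the exponential sum over the integers in `[X, 2X]` -/
noncomputable def MD (m k X : ℕ) (y : ℝ) : ℝ := ∫ a, ‖∑ x ∈ Finset.Icc X (2 * X), e (a * y * (x : ℝ) ^ k)‖ ^ (2 * m) ∂G1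

/-- the number of variables in the mean value -/
def nr (r : ℕ) : ℕ := 4 * r * (r + 2) * 2 ^ (r + 2)

/-- DPHI: the expectation of a product of exponential sums -/
def S_DPHI : Prop := ∀ (n k X : ℕ) (β : Fin n → ℝ), 1 ≤ X →
  (Summable fun h : Fin n → ℤ => (∏ j, qq (β j + h j)) * GD n k X (fun j => β j + h j)) ∧
  ‖∫ a, ∏ j, TD k X a (β j) ∂G1‖ ≤ Real.log (2 * X) ^ n *
    ∑' h : Fin n → ℤ, (∏ j, qq (β j + h j)) * GD n k X (fun j => β j + h j)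

/-- DMOM: the moments of the contribution of the minor arcs -/
def S_DMOM : Prop := ∀ s m : ℕ, 1 ≤ s → 1 ≤ m → ∃ C : ℝ, 0 < C ∧ ∀ (k X : ℕ) (η : ℝ) (N : ℤ),
  2 ≤ X → 0 < η → η ≤ 1 / 2 →
  ∫⁻ α, ENNReal.ofReal (‖ED s k X η α N‖ ^ (2 * m)) ∂(GM s) ≤
    ENNReal.ofReal (C * Real.log (2 * X) ^ (2 * m * s)) *
      ∫⁻ γ : Fin (2 * m) → ℝ, {γ : Fin (2 * m) → ℝ | ∀ j, η ≤ |γ j|}.indicator
        (fun γ => ENNReal.ofReal ((∏ j, qq (γ j)) * GD (2 * m) k X γ ^ s)) γ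

/-- DL2: the second moment of one exponential sum -/
def S_DL2 : Prop := ∀ k : ℕ, 1 ≤ k → ∃ C : ℝ, 0 < C ∧ ∀ (X : ℕ) (β : ℝ), 2 ≤ X → 0 < |β| → |β| ≤ 1 / 2 →
  ∫⁻ a, ENNReal.ofReal (‖TD k X a β‖ ^ 2) ∂G1 ≤
    ENNReal.ofReal (C * Real.log (2 * X) ^ 2 * X * (1 + 1 / (|β| * (X : ℝ) ^ (k - 1))))

/-- DL1: the mean of the product over the lower part of the minor arcs -/
def S_DL1 : Prop := ∀ (k s : ℕ) (δ hs : ℝ), 2 ≤ k → 3 ≤ s → 0 < δ → δ < 1 → 1 ≤ hs → hs < k → ∃ C : ℝ, 0 < C ∧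
  ∃ X0 : ℕ, ∀ X : ℕ, X0 ≤ X →
  ∫⁻ α, (∫⁻ β in Arc ((X : ℝ) ^ (-(k : ℝ) + δ)) ((X : ℝ) ^ (-(k : ℝ) + hs)),
      ENNReal.ofReal (∏ i, ‖TD k X (α i) β‖)) ∂(GM s) ≤
    ENNReal.ofReal (C * Real.log (2 * X) ^ s *
      ((X : ℝ) ^ ((s : ℝ) - k - δ * ((s : ℝ) / 2 - 1)) + (X : ℝ) ^ ((s : ℝ) / 2 - k + hs)))

/-- DVDC: van der Corput's estimate for monomials with an exponent independent of the degree -/
def S_DVDC : Prop := ∀ r k : ℕ, 1 ≤ r → r + 8 ≤ k → ∃ C : ℝ, 0 < C ∧ ∃ X0 : ℕ, ∀ (X : ℕ) (y : ℝ), X0 ≤ X →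
  (X : ℝ) ^ (-(k : ℝ)) ≤ |y| → |y| ≤ (X : ℝ) ^ (-(k : ℝ) + r) →
  ‖∑ x ∈ Finset.Icc X (2 * X), e (y * (x : ℝ) ^ k)‖ ≤
    C * ((X : ℝ) ^ (1 - 1 / (4 * ((r : ℝ) + 2) * 2 ^ (r + 2))) + (X : ℝ) ^ (1 - (k : ℝ)) / |y|)

/-- DMV: the mean value -/
def S_DMV : Prop := ∀ r m k : ℕ, 1 ≤ r → r + 8 ≤ k → nr r ≤ 2 * m → ∃ C : ℝ, 0 < C ∧ ∃ X0 : ℕ, ∀ (X : ℕ) (y : ℝ),
  X0 ≤ X → (X : ℝ) ^ (-(k : ℝ) + r) / Real.log X ≤ |y| → MD m k X y ≤ C * Real.log X * (X : ℝ) ^ (2 * m - r)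

/-- DSUP: the bound for the number of tuples -/
def S_DSUP : Prop := ∀ r m k : ℕ, 1 ≤ r → r + 8 ≤ k → nr r ≤ 2 * m → ∃ C : ℝ, 0 < C ∧ ∃ X0 : ℕ,
  ∀ (X : ℕ) (γ : Fin (2 * m) → ℝ), X0 ≤ X → (∀ j, (X : ℝ) ^ (-(k : ℝ) + r) ≤ |γ j|) →
  UD (2 * m) k X (Real.log X) γ ≤ C * Real.log X * (X : ℝ) ^ (2 * m - r)

/-- DMEASQ: the weighted volume of a slab intersection from one minor -/
def S_DMEASQ : Prop := ∀ (g ρ : ℕ) (T D : ℝ) (y : Fin ρ → Fin g → ℝ) (c : Fin ρ → Fin g), 0 ≤ T → 0 < D →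
  D ≤ |(Matrix.of fun i j => y i (c j)).det| →
  ∫⁻ γ : Fin g → ℝ, {γ : Fin g → ℝ | ∀ i, |∑ a, γ a * y i a| ≤ T}.indicator (fun γ => ENNReal.ofReal (∏ j, qq (γ j))) γ ≤
    ENNReal.ofReal (6 ^ g * (2 * T) ^ ρ / D)

/-- DKEY: the moment of `GD` away from the axes -/
def S_DKEY : Prop := ∀ r m k s : ℕ, 1 ≤ r → r + 8 ≤ k → nr r ≤ 2 * m → k ≤ s →
  r * k + k + 2 + (2 * m - r) * (r + 1) ≤ r * s → ∃ X0 : ℕ, ∀ X : ℕ, X0 ≤ X →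
    ∫⁻ γ : Fin (2 * m) → ℝ, {γ : Fin (2 * m) → ℝ | ∀ j, (X : ℝ) ^ (-(k : ℝ) + r) ≤ |γ j|}.indicator
      (fun γ => ENNReal.ofReal ((∏ j, qq (γ j)) * GD (2 * m) k X γ ^ s)) γ ≤
    ENNReal.ofReal ((X : ℝ) ^ (2 * (m : ℝ) * ((s : ℝ) - k) - k - 1))

/-- the almost sure bounds -/
def GoodD (s k r : ℕ) (δ δ' : ℝ) (α : Fin s → ℝ) : Prop := ∃ ν0 : ℕ, ∀ ν X : ℕ, ν0 ≤ ν → X = 2 ^ ν →
  (∫ β in Arc ((X : ℝ) ^ (-(k : ℝ) + δ)) ((X : ℝ) ^ (-(k : ℝ) + (r : ℝ))), ∏ i, ‖TD k X (α i) β‖ ≤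
    (X : ℝ) ^ ((s : ℝ) - k - δ')) ∧
  ∀ N : ℤ, |(N : ℝ)| ≤ (X : ℝ) ^ ((k : ℝ) + 1 / 4) →
    ‖ED s k X ((X : ℝ) ^ (-(k : ℝ) + (r : ℝ))) α N‖ ≤ (X : ℝ) ^ ((s : ℝ) - k - δ')

/-- DBC: Borel–Cantelli -/
def S_DBC : Prop := ∀ (r m k s : ℕ) (δ : ℝ), 1 ≤ r → r + 8 ≤ k → nr r ≤ 2 * m → k ≤ s →
  r * k + k + 2 + (2 * m - r) * (r + 1) ≤ r * s → 0 < δ → δ < 1 →
  ∃ δ' : ℝ, 0 < δ' ∧ ∀ᵐ α ∂(GM s), GoodD s k r δ δ' α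

end Pool.Agent.N604.MW
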