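import Mathlib
import Pool.Agent.N604.MW.KMeas
import Pool.Agent.N604.MW.Stm6

/-!
# Project KW: measurability lemmas
-/

namespace Pool.Agent.N604.MW

open Finset MeasureTheory

/-- joint measurability of the exponential sum -/
lemma TD_measurable (k X : ℕ) : Measurable fun p : ℝ × ℝ => TD k X p.1 p.2 := by
  unfold TD
  refine Finset.measurable_sum _ fun x _ => ?_
  have hQ : Measurable fun p : ℝ × ℝ => p.1 * (x : ℝ) ^ k := measurable_fst.mul_const _
  have hf : Measurable fun p : ℝ × ℝ => ((⌊p.1 * (x : ℝ) ^ k⌋ : ℤ) : ℝ) :=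
    (measurable_of_countable (fun n : ℤ => (n : ℝ))).comp (Int.measurable_floor.comp hQ)
  have h1 : Measurable fun p : ℝ × ℝ => ((lam x * Real.sin (Real.pi * (p.1 * (x : ℝ) ^ k)) ^ 2 : ℝ) : ℂ) := by
    refine Complex.measurable_ofReal.comp ?_
    exact ((Real.measurable_sin.comp (hQ.const_mul _)).pow_const 2).const_mul _
  exact h1.mul (e_continuous.measurable.comp (measurable_snd.mul hf))

lemma TD_measurable_left (k X : ℕ) (β : ℝ) : Measurable fun a : ℝ => TD k X a β :=
  Measurable.comp (g := fun p : ℝ × ℝ => TD k X p.1 p.2) (f := fun a => (a, β))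
    (TD_measurable k X) (by fun_prop)

lemma TD_continuous (k X : ℕ) (a : ℝ) : Continuous fun β : ℝ => TD k X a β := by
  unfold TD
  refine continuous_finsetSum _ fun x _ => ?_
  exact continuous_const.mul (e_continuous.comp (continuous_id.mul continuous_const))

lemma TD_norm_le (k X : ℕ) (hX : 1 ≤ X) (a β : ℝ) : ‖TD k X a β‖ ≤ (X + 1) * Real.log (2 * X) := by
  have h1 : (1 : ℝ) ≤ X := by exact_mod_cast hX
  unfold TD
  refine (norm_sum_le _ _).trans ?_
  have : ∀ x ∈ Finset.Icc X (2 * X), ‖((lam x * Real.sin (Real.pi * (a * (x : ℝ) ^ k)) ^ 2 : ℝ) : ℂ) *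
      e (β * (⌊a * (x : ℝ) ^ k⌋ : ℤ))‖ ≤ Real.log (2 * X) := by
    intro x hx
    rw [norm_mul, e_norm, mul_one, Complex.norm_real, Real.norm_eq_abs, abs_of_nonneg
      (mul_nonneg (klam_nonneg x) (sq_nonneg _))]
    have h2 : Real.sin (Real.pi * (a * (x : ℝ) ^ k)) ^ 2 ≤ 1 := Real.sin_sq_le_one _
    calc lam x * Real.sin (Real.pi * (a * (x : ℝ) ^ k)) ^ 2 ≤ lam x * 1 :=
          mul_le_mul_of_nonneg_left h2 (klam_nonneg x)
      _ ≤ Real.log (2 * X) := by rw [mul_one]; exact lam_le X x hX (Finset.mem_Icc.1 hx).2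
  refine (Finset.sum_le_sum this).trans ?_
  rw [Finset.sum_const, Nat.card_Icc, nsmul_eq_mul]
  have : ((2 * X + 1 - X : ℕ) : ℝ) = X + 1 := by
    have : 2 * X + 1 - X = X + 1 := by omega
    rw [this]; push_cast; ring
  rw [this]

lemma TD_neg (k X : ℕ) (a β : ℝ) : TD k X a (-β) = (starRingEnd ℂ) (TD k X a β) := by
  unfold TD
  rw [map_sum]
  refine Finset.sum_congr rfl fun x _ => ?_
  rw [map_mul, Complex.conj_ofReal, ← e_neg, neg_mul]

lemma prod_TD_measurable (s k X : ℕ) : Measurable fun p : (Fin s → ℝ) × ℝ => ∏ i, TD k X (p.1 i) p.2 := by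
  refine Finset.measurable_prod _ fun i _ => ?_
  exact Measurable.comp (g := fun p : ℝ × ℝ => TD k X p.1 p.2)
    (f := fun p : (Fin s → ℝ) × ℝ => (p.1 i, p.2)) (TD_measurable k X) (by fun_prop)

lemma prod_TD_norm_measurable (s k X : ℕ) : Measurable fun p : (Fin s → ℝ) × ℝ => ∏ i, ‖TD k X (p.1 i) p.2‖ := by
  refine Finset.measurable_prod _ fun i _ => ?_
  exact (Measurable.comp (g := fun p : ℝ × ℝ => TD k X p.1 p.2)
    (f := fun p : (Fin s → ℝ) × ℝ => (p.1 i, p.2)) (TD_measurable k X) (by fun_prop)).norm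

lemma ED_measurable (s k X : ℕ) (η : ℝ) (N : ℤ) : Measurable fun α : Fin s → ℝ => ED s k X η α N := by
  unfold ED
  have h : StronglyMeasurable fun p : (Fin s → ℝ) × ℝ =>
      (∏ i, TD k X (p.1 i) p.2) * e (-(p.2 * N)) := by
    refine Measurable.stronglyMeasurable ?_
    refine (prod_TD_measurable s k X).mul (e_continuous.measurable.comp ?_)
    exact (measurable_snd.mul_const _).neg
  exact (h.integral_prod_right (ν := volume.restrict (Arc η (1 / 2)))).measurable

lemma intProdD_measurable (s k X : ℕ) (η η' : ℝ) :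
    Measurable fun α : Fin s → ℝ => ∫ β in Arc η η', ∏ i, ‖TD k X (α i) β‖ := by
  have h : StronglyMeasurable fun p : (Fin s → ℝ) × ℝ => ∏ i, ‖TD k X (p.1 i) p.2‖ :=
    (prod_TD_norm_measurable s k X).stronglyMeasurable
  exact (h.integral_prod_right (ν := volume.restrict (Arc η η'))).measurable

lemma GD_continuous (n k X : ℕ) : Continuous (GD n k X) := by
  unfold GD; fun_prop

lemma GD_nonneg (n k X : ℕ) (γ : Fin n → ℝ) : 0 ≤ GD n k X γ :=
  Finset.sum_nonneg fun _ _ => (Real.exp_pos _).le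

lemma GD_le (n k X : ℕ) (γ : Fin n → ℝ) : GD n k X γ ≤ ((X : ℝ) + 1) ^ n := by
  unfold GD
  refine (Finset.sum_le_card_nsmul _ _ 1 fun x _ => ?_).trans ?_
  · refine Real.exp_le_one_iff.2 ?_
    have : 0 ≤ 2 * Real.pi ^ 2 * (∑ j, γ j * (x j : ℝ) ^ k) ^ 2 := by positivity
    linarith
  · rw [Fintype.card_piFinset]
    simp only [Nat.card_Icc, Finset.prod_const, Finset.card_univ, Fintype.card_fin, nsmul_eq_mul, mul_one]
    have : 2 * X + 1 - X = X + 1 := by omega
    rw [this]; push_cast; exact le_rfl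

lemma UD_measurable (n k X : ℕ) (T : ℝ) : Measurable (UD n k X T) := by
  classical
  have : UD n k X T = fun B => ∑ z ∈ Fintype.piFinset (fun _ : Fin n => Finset.Icc X (2 * X)),
      (if |∑ a, B a * (z a : ℝ) ^ k| ≤ T then (1 : ℝ) else 0) := by
    funext B
    unfold UD
    rw [Finset.card_filter]
    push_cast
    refine Finset.sum_congr rfl fun z _ => ?_
    congr
  rw [this]
  refine Finset.measurable_sum _ fun z _ => ?_
  refine Measurable.ite ?_ measurable_const measurable_const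
  exact (isClosed_le (by fun_prop) continuous_const).measurableSet

instance : IsProbabilityMeasure G1 := by unfold G1; infer_instance

end Pool.Agent.N604.MW
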