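import Mathlib
import Pool.Agent.N604.MW.Stm6

/-!
# Project AD (asymptotic formula for generic diagonal forms, all variables in full ranges): exact statements

For all large `k`, all `s ≥ k + C k / log k`, almost all `α ∈ (0, ∞) ^ s` and all `Δ > 0`, the number of
`x ∈ ℤ ^ s` with `y ≤ α_1 |x_1| ^ k + ... + α_s |x_s| ^ k < y + Δ` is asymptotic to
`Δ (2 Γ(1 + 1/k)) ^ s / Γ(s/k) ∏ α_i ^ (-1/k) y ^ (s/k - 1)` as `y → ∞`.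
-/

namespace Pool.Agent.N604.MW

open Finset MeasureTheory Filter

/-- the number of integers with absolute value `x` -/
noncomputable def wt (x : ℕ) : ℝ := if x = 0 then 1 else 2

/-- dyadic blocks: `{0}`, `{1}`, `{2, 3}`, `{4, ..., 7}`, ... -/
noncomputable def Blk (a : ℕ) : Finset ℕ := if a = 0 then {0} else Finset.Ico (2 ^ (a - 1)) (2 ^ a)

/-- the first element of the block -/
def XB (a : ℕ) : ℕ := if a = 0 then 0 else 2 ^ (a - 1)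

/-- the exponential sum over one block -/
noncomputable def SX (k a : ℕ) (y : ℝ) : ℂ := ∑ x ∈ Blk a, (wt x : ℂ) * e (y * (x : ℝ) ^ k)

/-- the integers of absolute value less than `2 ^ ν` -/
noncomputable def BX (ν : ℕ) : Finset ℤ := Finset.Ioo (-(2 ^ ν : ℤ)) (2 ^ ν)

/-- exponential sum of `f` over a finite set of integers -/
noncomputable def SG (A : Finset ℤ) (f : ℤ → ℝ) (t : ℝ) : ℂ := ∑ x ∈ A, e (t * f x)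

/-- the function `a |x| ^ k` -/
noncomputable def fk (k : ℕ) (a : ℝ) (x : ℤ) : ℝ := a * |(x : ℝ)| ^ k

/-- the Fourier transform of the triangle function -/
noncomputable def sq (t : ℝ) : ℝ := Real.sinc (Real.pi * t) ^ 2

/-- the triangle function -/
noncomputable def Lam (u : ℝ) : ℝ := max 0 (1 - |u|)

/-- contribution of the large frequencies, blocks `a i` -/
noncomputable def EA (s k : ℕ) (a : Fin s → ℕ) (η : ℝ) (α : Fin s → ℝ) (n : ℤ) : ℂ :=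
  ∫ t in {t : ℝ | η ≤ |t|}, (sq t : ℂ) * (∏ i, SX k (a i) (α i * t)) * e (-(t * n))

/-- contribution of the large frequencies, general functions -/
noncomputable def EG {s : ℕ} (A : Fin s → Finset ℤ) (f : Fin s → ℤ → ℝ) (η : ℝ) (n : ℤ) : ℂ :=
  ∫ t in {t : ℝ | η ≤ |t|}, (sq t : ℂ) * (∏ i, SG (A i) (f i) t) * e (-(t * n))

/-- the smoothed number of solutions of `f_1(x_1) + ... + f_s(x_s) = n` -/
noncomputable def RG {s : ℕ} (A : Fin s → Finset ℤ) (f : Fin s → ℤ → ℝ) (n : ℤ) : ℝ :=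
  ∑ x ∈ Fintype.piFinset A, Lam (∑ i, f i (x i) - n)

/-- the number of `x ∈ ℤ ^ s` with `f_1(x_1) + ... + f_s(x_s) < y` -/
noncomputable def CF {s : ℕ} (f : Fin s → ℤ → ℝ) (y : ℝ) : ℕ := {x : Fin s → ℤ | ∑ i, f i (x i) < y}.ncard

/-- the number of `x ∈ ℤ ^ s` with `y ≤ f_1(x_1) + ... + f_s(x_s) < y + Δ` -/
noncomputable def NF {s : ℕ} (f : Fin s → ℤ → ℝ) (y Δ : ℝ) : ℕ :=
  {x : Fin s → ℤ | y ≤ ∑ i, f i (x i) ∧ ∑ i, f i (x i) < y + Δ}.ncard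

/-- the asymptotic formula for the smoothed number of solutions -/
def ASY {s : ℕ} (f : Fin s → ℤ → ℝ) (c κ : ℝ) : Prop := ∀ ε : ℝ, 0 < ε → ∃ n0 : ℕ, ∀ n : ℕ, n0 ≤ n →
  ∀ A : Fin s → Finset ℤ, (∀ i x, f i x < n + 1 → x ∈ A i) → |RG A f n - c * (n : ℝ) ^ κ| ≤ ε * (n : ℝ) ^ κ

/-- the bounds for the exponential sums -/
def GoodF (s k : ℕ) (f : Fin s → ℤ → ℝ) (δ δ' : ℝ) : Prop := ∃ ν0 : ℕ, ∀ ν : ℕ, ν0 ≤ ν →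
  (∫ t in Arc ((2 : ℝ) ^ ((ν : ℝ) * (-(k : ℝ) + δ))) ((2 : ℝ) ^ (-((k : ℝ) * ν / 2))), ∏ i, ‖SG (BX ν) (f i) t‖ ≤
    (2 : ℝ) ^ ((ν : ℝ) * ((s : ℝ) - k - δ'))) ∧
  ∀ n : ℤ, |(n : ℝ)| ≤ (2 : ℝ) ^ ((ν : ℝ) * ((k : ℝ) + 1 / 4)) →
    ‖EG (fun _ => BX ν) f ((2 : ℝ) ^ (-((k : ℝ) * ν / 2))) n‖ ≤ (2 : ℝ) ^ ((ν : ℝ) * ((s : ℝ) - k - δ'))

/-- the number of large coordinates -/
noncomputable def NB (n k r X : ℕ) (γ : Fin n → ℝ) : ℕ :=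
  open Classical in (Finset.univ.filter fun j => (X : ℝ) ^ (-(k : ℝ) + r) ≤ |γ j|).card

/-- ATRI: the Fourier transform of the triangle function -/
def S_ATRI : Prop := Integrable sq ∧ (∀ t, 0 ≤ sq t ∧ sq t ≤ 1 ∧ sq t ≤ qq t) ∧
  ∀ u : ℝ, ((Lam u : ℝ) : ℂ) = ∫ t, (sq t : ℂ) * e (t * u)

/-- AMOM: moments -/
def S_AMOM : Prop := ∀ s m : ℕ, 1 ≤ s → 1 ≤ m → ∀ (k : ℕ) (a : Fin s → ℕ) (η : ℝ) (n : ℤ), 0 ≤ η →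
  ∫⁻ α, ENNReal.ofReal (‖EA s k a η α n‖ ^ (2 * m)) ∂(GM s) ≤ ENNReal.ofReal (2 ^ (2 * m * s)) *
    ∫⁻ γ : Fin (2 * m) → ℝ, {γ : Fin (2 * m) → ℝ | ∀ j, η ≤ |γ j|}.indicator
      (fun γ => ENNReal.ofReal ((∏ j, qq (γ j)) * ∏ i, GD (2 * m) k (XB (a i)) γ)) γ

/-- AHOL: blocks of different sizes -/
def S_AHOL : Prop := ∀ (s n k : ℕ) (a : Fin s → ℕ) (S : Set (Fin n → ℝ)) (B : ENNReal), 1 ≤ s → MeasurableSet S →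
  (∀ i, ∫⁻ γ, S.indicator (fun γ => ENNReal.ofReal ((∏ j, qq (γ j)) * GD n k (XB (a i)) γ ^ s)) γ ≤ B) →
  ∫⁻ γ, S.indicator (fun γ => ENNReal.ofReal ((∏ j, qq (γ j)) * ∏ i, GD n k (XB (a i)) γ)) γ ≤ B

/-- ASUP: the bound for the number of tuples, if sufficiently many frequencies are large -/
def S_ASUP : Prop := ∀ r m k : ℕ, 1 ≤ r → r + 8 ≤ k → nr r ≤ 2 * m → ∃ C : ℝ, 0 < C ∧ ∃ X0 : ℕ,
  ∀ (X : ℕ) (γ : Fin (2 * m) → ℝ), X0 ≤ X → nr r ≤ NB (2 * m) k r X γ →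
  UD (2 * m) k X (Real.log X) γ ≤ C * Real.log X * (X : ℝ) ^ (2 * m - r)

/-- AKEY2: the moment of `GD`, if sufficiently many frequencies are large -/
def S_AKEY2 : Prop := ∀ r m k s : ℕ, 1 ≤ r → r + 8 ≤ k → nr r ≤ 2 * m → k ≤ s →
  r * k + k + 2 + (2 * m - r) * (r + 1) ≤ r * s → ∃ X0 : ℕ, ∀ X : ℕ, X0 ≤ X →
    ∫⁻ γ : Fin (2 * m) → ℝ, {γ : Fin (2 * m) → ℝ | nr r ≤ NB (2 * m) k r X γ}.indicator
      (fun γ => ENNReal.ofReal ((∏ j, qq (γ j)) * GD (2 * m) k X γ ^ s)) γ ≤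
    ENNReal.ofReal ((X : ℝ) ^ (2 * (m : ℝ) * ((s : ℝ) - k) - k - 1))

/-- AKEY3: the moment of `GD`, if few frequencies are large -/
def S_AKEY3 : Prop := ∀ r m k s X : ℕ, 1 ≤ X → 1 ≤ r → r ≤ k → 1 ≤ m → nr r ≤ 2 * m →
    ∫⁻ γ : Fin (2 * m) → ℝ, {γ : Fin (2 * m) → ℝ | NB (2 * m) k r X γ < nr r}.indicator
      (fun γ => ENNReal.ofReal ((∏ j, qq (γ j)) * GD (2 * m) k X γ ^ s)) γ ≤
    ENNReal.ofReal (24 ^ (2 * m) * (2 * X) ^ (2 * m * s) * (X : ℝ) ^ (-(((k : ℝ) - r) * (2 * m - nr r))))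

/-- AKEY: the moment of `GD` over a block -/
def S_AKEY : Prop := ∀ r m k s : ℕ, 1 ≤ r → r + 8 ≤ k → 6 * r ≤ k → nr r ≤ 2 * m → k < s →
  r * k + k + 2 + (2 * m - r) * (r + 1) ≤ r * s → 6 * m * r + 3 * k * nr r + 5 * (k + 2) ≤ 4 * m * (s - k) →
  ∃ ν0 : ℕ, ∀ ν : ℕ, ν0 ≤ ν → ∀ a : ℕ, a ≤ ν →
    ∫⁻ γ : Fin (2 * m) → ℝ, {γ : Fin (2 * m) → ℝ | ∀ j, (2 : ℝ) ^ (-((k : ℝ) * ν / 2)) ≤ |γ j|}.indicator
      (fun γ => ENNReal.ofReal ((∏ j, qq (γ j)) * GD (2 * m) k (XB a) γ ^ s)) γ ≤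
    ENNReal.ofReal (3 * (2 : ℝ) ^ ((ν : ℝ) * (2 * (m : ℝ) * ((s : ℝ) - k) - k - 1)))

/-- AL2: the second moment of one exponential sum -/
def S_AL2 : Prop := ∀ k : ℕ, 3 ≤ k → ∃ C : ℝ, 0 < C ∧ ∀ (ν : ℕ) (t : ℝ), 0 < |t| → |t| ≤ 1 →
  ∫⁻ a, ENNReal.ofReal (‖SG (BX ν) (fk k a) t‖ ^ 2) ∂G1 ≤ ENNReal.ofReal (C * ((2 : ℝ) ^ ν + |t| ^ (-(2 / (k : ℝ)))))

/-- AL1: the mean of the product over the small frequencies -/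
def S_AL1 : Prop := ∀ (k s : ℕ) (δ : ℝ), 3 ≤ k → k < s → 0 < δ → δ < k / 2 → ∃ C : ℝ, 0 < C ∧ ∀ ν : ℕ,
  ∫⁻ α, (∫⁻ t in Arc ((2 : ℝ) ^ ((ν : ℝ) * (-(k : ℝ) + δ))) ((2 : ℝ) ^ (-((k : ℝ) * ν / 2))),
      ENNReal.ofReal (∏ i, ‖SG (BX ν) (fk k (α i)) t‖)) ∂(GM s) ≤
    ENNReal.ofReal (C * (2 : ℝ) ^ ((ν : ℝ) * (((s : ℝ) - k) - δ * (((s : ℝ) - k) / k))))

/-- AEXP: the full sums in terms of the sums over blocks -/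
def S_AEXP : Prop := ∀ (s k ν : ℕ) (η E0 : ℝ) (α : Fin s → ℝ) (n : ℤ), 0 ≤ E0 →
  (∀ a : Fin s → ℕ, (∀ i, a i ≤ ν) → ‖EA s k a η α n‖ ≤ E0) →
  ‖EG (fun _ => BX ν) (fun i => fk k (α i)) η n‖ ≤ (ν + 1) ^ s * E0

/-- ABC: Borel–Cantelli -/
def S_ABC : Prop := ∀ (r m k s : ℕ) (δ : ℝ), 1 ≤ r → r + 8 ≤ k → 6 * r ≤ k → nr r ≤ 2 * m → k < s →
  r * k + k + 2 + (2 * m - r) * (r + 1) ≤ r * s → 6 * m * r + 3 * k * nr r + 5 * (k + 2) ≤ 4 * m * (s - k) →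
  0 < δ → δ < k / 2 → ∃ δ' : ℝ, 0 < δ' ∧ ∀ᵐ α ∂(GM s), GoodF s k (fun i => fk k (α i)) δ δ'

/-- ACIRC: the circle method -/
def S_ACIRC : Prop := ∀ (s : ℕ) (A : Fin s → Finset ℤ) (f : Fin s → ℤ → ℝ) (n : ℤ) (W : ℕ) (η0 η E1 : ℝ),
  1 ≤ W → 0 < η0 → η0 ≤ η → (∀ h : ℕ, h < W → ‖EG A f η (n + h)‖ ≤ E1) →
  |RG A f n - (∑ h ∈ range W, RG A f (n + h)) / W| ≤ 16 * W * η0 ^ 2 * (∏ i, ((A i).card : ℝ)) +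
    2 * (∫ t in Arc η0 η, ∏ i, ‖SG (A i) (f i) t‖) + 2 * E1

/-- AWIN: the average over a window -/
def S_AWIN : Prop := ∀ (s : ℕ) (A : Fin s → Finset ℤ) (f : Fin s → ℤ → ℝ) (n W : ℕ), 1 ≤ W →
  (∀ i x, 0 ≤ f i x) → (∀ i x, f i x < (n : ℝ) + W → x ∈ A i) →
  (CF f ((n : ℝ) + W - 1) : ℝ) - CF f n ≤ ∑ h ∈ range W, RG A f (n + h) ∧
  ∑ h ∈ range W, RG A f (n + h) ≤ (CF f ((n : ℝ) + W) : ℝ) - CF f ((n : ℝ) - 1)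

/-- ALAT: lattice points -/
def S_ALAT : Prop := ∀ (s k : ℕ) (α γ : Fin s → ℝ), 1 ≤ s → 1 ≤ k → (∀ i, 0 < α i) → ∃ C : ℝ, 0 < C ∧
  ∀ y : ℝ, 1 ≤ y → |(CF (fun i x => α i * |(x : ℝ) - γ i| ^ k) y : ℝ) -
    (2 * Real.Gamma (1 + 1 / (k : ℝ))) ^ s / Real.Gamma (1 + (s : ℝ) / k) * (∏ i, α i ^ (-(1 / (k : ℝ)))) *
      y ^ ((s : ℝ) / k)| ≤ C * y ^ (((s : ℝ) - 1) / k)

/-- AASY: the asymptotic formula for the smoothed number of solutions -/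
def S_AASY : Prop := ∀ (s k : ℕ) (f : Fin s → ℤ → ℝ) (c0 V C δ δ' : ℝ), 1 ≤ k → k < s → 0 < c0 → 0 < V →
  0 < δ → δ < 1 / 4 → 0 < δ' → (∀ i x, 0 ≤ f i x) → (∀ i (x : ℤ), c0 * |(x : ℝ)| ^ k ≤ f i x + 1) →
  (∀ y : ℝ, 1 ≤ y → |(CF f y : ℝ) - V * y ^ ((s : ℝ) / k)| ≤ C * y ^ (((s : ℝ) - 1) / k)) →
  GoodF s k f δ δ' → ASY f (V * (s / k)) ((s : ℝ) / k - 1)

/-- AFIN: from smoothed to sharp counts -/
def S_AFIN : Prop := ∀ (s : ℕ) (f : Fin s → ℤ → ℝ) (c κ : ℝ), 0 < c → (∀ i x, 0 ≤ f i x) →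
  (∀ (i : Fin s) (y : ℝ), {x : ℤ | f i x < y}.Finite) →
  (∀ q : ℕ, 1 ≤ q → ASY (fun i x => q * f i x) (c * (q : ℝ) ^ (-κ - 1)) κ) →
  ∀ Δ : ℝ, 0 < Δ → Tendsto (fun y : ℝ => (NF f y Δ : ℝ) / y ^ κ) atTop (nhds (Δ * c))

/-- AAE: almost everywhere for all multiples -/
def S_AAE : Prop := ∀ (s : ℕ) (P : (Fin s → ℝ) → Prop), (∀ᵐ α : Fin s → ℝ, P α) →
  ∀ᵐ α : Fin s → ℝ, ∀ q : ℕ, 1 ≤ q → P (fun i => q * α i)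

/-- ACONV: the asymptotic formula never holds in dimension at most `k` -/
def S_ACONV : Prop := ∀ (s k : ℕ) (α : Fin s → ℝ) (c : ℝ), 1 ≤ s → s ≤ k → (∀ i, 0 < α i) → 0 < c →
  ¬ ∀ Δ : ℝ, 0 < Δ → Tendsto (fun y : ℝ => (NF (fun i => fk k (α i)) y Δ : ℝ) / y ^ ((s : ℝ) / k - 1))
    atTop (nhds (Δ * c))

/-- APAR: the parameters -/
def S_APAR : Prop := ∃ C : ℝ, 0 < C ∧ ∃ K : ℕ, ∀ k s : ℕ, K ≤ k → (k : ℝ) + C * k / Real.log k ≤ s →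
  ∃ r m : ℕ, 1 ≤ r ∧ r + 8 ≤ k ∧ 6 * r ≤ k ∧ nr r ≤ 2 * m ∧ k < s ∧
    r * k + k + 2 + (2 * m - r) * (r + 1) ≤ r * s ∧ 6 * m * r + 3 * k * nr r + 5 * (k + 2) ≤ 4 * m * (s - k)

end Pool.Agent.N604.MW
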