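import Mathlib
import Pool.Agent.N604.MW.Stm10

/-!
# Project AP (asymptotic formula for generic diagonal forms in primes): exact statements

For all large `k`, all `s ≥ k + C k / log k`, almost all `α ∈ (0, ∞) ^ s` and all `Δ > 0`, the sum of
`log p_1 ... log p_s` over the primes with `y ≤ α_1 p_1 ^ k + ... + α_s p_s ^ k < y + Δ` is asymptotic to
`Δ Γ(1 + 1/k) ^ s / Γ(s/k) ∏ α_i ^ (-1/k) y ^ (s/k - 1)` as `y → ∞`.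
-/

namespace Pool.Agent.N604.MW

open Finset MeasureTheory Filter

/-- weighted exponential sum -/
noncomputable def SW (A : Finset ℕ) (w f : ℕ → ℝ) (t : ℝ) : ℂ := ∑ x ∈ A, (w x : ℂ) * e (t * f x)

/-- the function `a x ^ k` -/
noncomputable def nk (k : ℕ) (a : ℝ) (x : ℕ) : ℝ := a * (x : ℝ) ^ k

/-- contribution of the large frequencies -/
noncomputable def EW {s : ℕ} (A : Fin s → Finset ℕ) (w : ℕ → ℝ) (f : Fin s → ℕ → ℝ) (η : ℝ) (n : ℤ) : ℂ :=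
  ∫ t in {t : ℝ | η ≤ |t|}, (sq t : ℂ) * (∏ i, SW (A i) w (f i) t) * e (-(t * n))

/-- the smoothed weighted number of solutions -/
noncomputable def RW {s : ℕ} (A : Fin s → Finset ℕ) (w : ℕ → ℝ) (f : Fin s → ℕ → ℝ) (n : ℤ) : ℝ :=
  ∑ x ∈ Fintype.piFinset A, (∏ i, w (x i)) * Lam (∑ i, f i (x i) - n)

open Classical in
/-- the weighted number of `x` with `f_1(x_1) + ... + f_s(x_s) < y` -/
noncomputable def CW {s : ℕ} (A : Fin s → Finset ℕ) (w : ℕ → ℝ) (f : Fin s → ℕ → ℝ) (y : ℝ) : ℝ :=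
  ∑ x ∈ (Fintype.piFinset A).filter (fun x => ∑ i, f i (x i) < y), ∏ i, w (x i)

/-- the bounds for the exponential sums over primes -/
def GoodW (s k : ℕ) (α : Fin s → ℝ) (D : ℕ) : Prop := ∃ ν0 : ℕ, ∀ ν : ℕ, ν0 ≤ ν →
  (∫ t in Arc ((2 : ℝ) ^ (-((k : ℝ) * ν)) * ((ν : ℝ) + 1) ^ D) ((2 : ℝ) ^ (-((k : ℝ) * ν / 2))),
      ∏ i, ‖SW (range (2 ^ ν)) lam (nk k (α i)) t‖ ≤ (2 : ℝ) ^ ((ν : ℝ) * ((s : ℝ) - k)) / (ν + 1)) ∧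
  ∀ n : ℤ, |(n : ℝ)| ≤ (2 : ℝ) ^ ((ν : ℝ) * ((k : ℝ) + 1 / 4)) →
    ‖EW (fun _ => range (2 ^ ν)) lam (fun i => nk k (α i)) ((2 : ℝ) ^ (-((k : ℝ) * ν / 2))) n‖ ≤
      (2 : ℝ) ^ ((ν : ℝ) * ((s : ℝ) - k)) / (ν + 1)

/-- the asymptotic formula for the smoothed weighted number of solutions -/
def ASYW (s k : ℕ) (α : Fin s → ℝ) (c : ℝ) : Prop := ∀ ε : ℝ, 0 < ε → ∃ n0 : ℕ, ∀ n ν : ℕ, n0 ≤ n →
  (∀ i, (n : ℝ) + 1 ≤ α i * ((2 : ℝ) ^ ν) ^ k) →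
  |RW (fun _ => range (2 ^ ν)) lam (fun i => nk k (α i)) n - c * (n : ℝ) ^ ((s : ℝ) / k - 1)| ≤
    ε * (n : ℝ) ^ ((s : ℝ) / k - 1)

/-- the sum of `log p_1 ... log p_s` over the primes with `y ≤ α_1 p_1 ^ k + ... + α_s p_s ^ k < y + Δ` -/
noncomputable def PS (s k : ℕ) (α : Fin s → ℝ) (y Δ : ℝ) : ℝ :=
  ∑ᶠ p ∈ {p : Fin s → ℕ | (∀ i, (p i).Prime) ∧ y ≤ ∑ i, α i * (p i : ℝ) ^ k ∧ ∑ i, α i * (p i : ℝ) ^ k < y + Δ},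
    ∏ i, Real.log (p i)

/-- PMOM: moments -/
def S_PMOM : Prop := ∀ s m : ℕ, 1 ≤ s → 1 ≤ m → ∀ (k : ℕ) (a : Fin s → ℕ) (w : ℕ → ℝ) (L η : ℝ) (n : ℤ), 0 ≤ η →
  0 ≤ L → (∀ i, ∀ x ∈ Blk (a i), |w x| ≤ L) →
  ∫⁻ α, ENNReal.ofReal (‖EW (fun i => Blk (a i)) w (fun i => nk k (α i)) η n‖ ^ (2 * m)) ∂(GM s) ≤
    ENNReal.ofReal (L ^ (2 * m * s)) *
    ∫⁻ γ : Fin (2 * m) → ℝ, {γ : Fin (2 * m) → ℝ | ∀ j, η ≤ |γ j|}.indicator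
      (fun γ => ENNReal.ofReal ((∏ j, qq (γ j)) * ∏ i, GD (2 * m) k (XB (a i)) γ)) γ

/-- PEXP: the full sums in terms of the sums over blocks -/
def S_PEXP : Prop := ∀ (s ν : ℕ) (w : ℕ → ℝ) (f : Fin s → ℕ → ℝ) (η E0 : ℝ) (n : ℤ), 0 ≤ E0 →
  (∀ a : Fin s → ℕ, (∀ i, a i ≤ ν) → ‖EW (fun i => Blk (a i)) w f η n‖ ≤ E0) →
  ‖EW (fun _ => range (2 ^ ν)) w f η n‖ ≤ (ν + 1) ^ s * E0

/-- PL1: the mean of the product over the small frequencies -/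
def S_PL1 : Prop := ∀ k s : ℕ, 3 ≤ k → k < s → ∃ C : ℝ, 0 < C ∧ ∀ (ν : ℕ) (A0 : ℝ), 0 < A0 →
  ∫⁻ α, (∫⁻ t in Arc A0 ((2 : ℝ) ^ (-((k : ℝ) * ν / 2))),
      ENNReal.ofReal (∏ i, ‖SW (range (2 ^ ν)) lam (nk k (α i)) t‖)) ∂(GM s) ≤
    ENNReal.ofReal (C * ((ν : ℝ) + 1) ^ s * A0 ^ (1 - (s : ℝ) / k))

/-- PBC: Borel–Cantelli -/
def S_PBC : Prop := ∀ (r m k s D : ℕ), 1 ≤ r → r + 8 ≤ k → 6 * r ≤ k → nr r ≤ 2 * m → k < s →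
  r * k + k + 2 + (2 * m - r) * (r + 1) ≤ r * s → 6 * m * r + 3 * k * nr r + 5 * (k + 2) ≤ 4 * m * (s - k) →
  (s + 4) * k ≤ D * (s - k) → ∀ᵐ α ∂(GM s), GoodW s k α D

/-- PCIRC: the circle method -/
def S_PCIRC : Prop := ∀ (s : ℕ) (A : Fin s → Finset ℕ) (w : ℕ → ℝ) (f : Fin s → ℕ → ℝ) (n : ℤ) (W : ℕ)
  (η0 η E1 : ℝ), (∀ x, 0 ≤ w x) → 1 ≤ W → 0 < η0 → η0 ≤ η → (∀ h : ℕ, h < W → ‖EW A w f η (n + h)‖ ≤ E1) →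
  |RW A w f n - (∑ h ∈ range W, RW A w f (n + h)) / W| ≤ 16 * W * η0 ^ 2 * (∏ i, ∑ x ∈ A i, w x) +
    2 * (∫ t in Arc η0 η, ∏ i, ‖SW (A i) w (f i) t‖) + 2 * E1

/-- PWIN: the average over a window -/
def S_PWIN : Prop := ∀ (s : ℕ) (A : Fin s → Finset ℕ) (w : ℕ → ℝ) (f : Fin s → ℕ → ℝ) (n W : ℕ), 1 ≤ W →
  (∀ x, 0 ≤ w x) →
  CW A w f ((n : ℝ) + W - 1) - CW A w f n ≤ ∑ h ∈ range W, RW A w f (n + h) ∧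
  ∑ h ∈ range W, RW A w f (n + h) ≤ CW A w f ((n : ℝ) + W) - CW A w f ((n : ℝ) - 1)

/-- PPNT: the prime number theorem with a power of a logarithm in the error term -/
def S_PPNT : Prop := ∀ B : ℕ, ∃ C : ℝ, 0 < C ∧ ∀ N : ℕ, 2 ≤ N →
  |∑ p ∈ range (N + 1), lam p - N| ≤ C * (N / Real.log N ^ B)

/-- PLAT: the weighted number of prime points -/
def S_PLAT : Prop := ∀ (s k : ℕ) (α : Fin s → ℝ) (B : ℕ), 1 ≤ s → 1 ≤ k → (∀ i, 0 < α i) → ∃ C : ℝ, 0 < C ∧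
  ∀ (ν : ℕ) (y : ℝ), 2 ≤ y → (∀ i, y ≤ α i * ((2 : ℝ) ^ ν) ^ k) →
  |CW (fun _ => range (2 ^ ν)) lam (fun i => nk k (α i)) y -
    Real.Gamma (1 + 1 / (k : ℝ)) ^ s / Real.Gamma (1 + (s : ℝ) / k) * (∏ i, α i ^ (-(1 / (k : ℝ)))) *
      y ^ ((s : ℝ) / k)| ≤ C * y ^ ((s : ℝ) / k) / Real.log y ^ B

/-- PASY: the asymptotic formula for the smoothed weighted number of solutions -/
def S_PASY : Prop := ∀ (s k : ℕ) (α : Fin s → ℝ) (D : ℕ), 1 ≤ k → k < s → (∀ i, 0 < α i) → GoodW s k α D →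
  ASYW s k α (Real.Gamma (1 + 1 / (k : ℝ)) ^ s / Real.Gamma ((s : ℝ) / k) * ∏ i, α i ^ (-(1 / (k : ℝ))))

/-- PFIN: from smoothed to sharp sums -/
def S_PFIN : Prop := ∀ (s k : ℕ) (α : Fin s → ℝ) (c : ℝ), 1 ≤ k → 1 ≤ s → (∀ i, 0 < α i) → 0 < c →
  (∀ q : ℕ, 1 ≤ q → ASYW s k (fun i => q * α i) (c * (q : ℝ) ^ (-((s : ℝ) / k)))) →
  ∀ Δ : ℝ, 0 < Δ → Tendsto (fun y : ℝ => PS s k α y Δ / y ^ ((s : ℝ) / k - 1)) atTop (nhds (Δ * c))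

end Pool.Agent.N604.MW
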