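import Mathlib
import Pool.Agent.N604.MW.Stm10

/-!
# Project AK (asymptotic formula in `k + 28` variables for generic lower-order terms): exact statements

For all `k ≥ 225`, all `s ≥ k + 28`, all `c ∈ (0, ∞) ^ s`, almost all `θ ∈ (ℝ ^ (k-1)) ^ s` and all `Δ > 0`, the number
of `x ∈ ℤ ^ s` with `y ≤ ∑ (c_i |x_i| ^ k + θ_{i,k-1} x_i ^ (k-1) + ... + θ_{i,1} x_i) < y + Δ` is asymptotic to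
`Δ (2 Γ(1 + 1/k)) ^ s / Γ(s/k) ∏ c_i ^ (-1/k) y ^ (s/k - 1)` as `y → ∞`. Here `k = d + 1`.
-/

namespace Pool.Agent.N604.MW

open Finset MeasureTheory Filter

/-- the function `c |x| ^ (d+1) + θ_0 x + ... + θ_{d-1} x ^ d` -/
noncomputable def pk (d : ℕ) (c : ℝ) (θ : Fin d → ℝ) (x : ℤ) : ℝ :=
  c * |(x : ℝ)| ^ (d + 1) + ∑ l : Fin d, θ l * (x : ℝ) ^ ((l : ℕ) + 1)

/-- signed blocks; `BX ν` is the disjoint union of the `ZB a σ`, `a ≤ ν`, `σ ∈ {true, false}` -/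
noncomputable def ZB (a : ℕ) (σ : Bool) : Finset ℤ :=
  if σ then (Blk a).image (fun x : ℕ => (x : ℤ)) else if a = 0 then ∅ else (Blk a).image (fun x : ℕ => -(x : ℤ))

/-- KMOM: moments -/
def S_KMOM : Prop := ∀ s m : ℕ, 1 ≤ s → 1 ≤ m → ∀ (d : ℕ) (c : Fin s → ℝ) (a : Fin s → ℕ) (σ : Fin s → Bool)
  (η : ℝ) (n : ℤ), 0 ≤ η →
  ∫⁻ θ, ENNReal.ofReal (‖EG (fun i => ZB (a i) (σ i)) (fun i => pk d (c i) (θ i)) η n‖ ^ (2 * m)) ∂(GMs s d) ≤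
    ∫⁻ γ : Fin (2 * m) → ℝ, {γ : Fin (2 * m) → ℝ | ∀ j, η ≤ |γ j|}.indicator
      (fun γ => ENNReal.ofReal ((∏ j, qq (γ j)) * ∏ i, GS (2 * m) d (XB (a i)) γ)) γ

/-- KHOL: blocks of different sizes -/
def S_KHOL : Prop := ∀ (s n d : ℕ) (a : Fin s → ℕ) (S : Set (Fin n → ℝ)) (B : ENNReal), 1 ≤ s → MeasurableSet S →
  (∀ i, ∫⁻ γ, S.indicator (fun γ => ENNReal.ofReal ((∏ j, qq (γ j)) * GS n d (XB (a i)) γ ^ s)) γ ≤ B) →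
  ∫⁻ γ, S.indicator (fun γ => ENNReal.ofReal ((∏ j, qq (γ j)) * ∏ i, GS n d (XB (a i)) γ)) γ ≤ B

/-- KEXP: the full sums in terms of the sums over signed blocks -/
def S_KEXP : Prop := ∀ (s ν : ℕ) (f : Fin s → ℤ → ℝ) (η E0 : ℝ) (n : ℤ), 0 ≤ E0 →
  (∀ (a : Fin s → ℕ) (σ : Fin s → Bool), (∀ i, a i ≤ ν) → ‖EG (fun i => ZB (a i) (σ i)) f η n‖ ≤ E0) →
  ‖EG (fun _ => BX ν) f η n‖ ≤ (2 * (ν + 1)) ^ s * E0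

/-- KALL: the moment of `GS` over all frequencies -/
def S_KALL : Prop := ∀ m d s : ℕ, 1 ≤ m → 2 ≤ d → 2 * m ≤ d → 6 * m ≤ s → d ≤ s →
  ∃ C : ℝ, 0 < C ∧ ∃ X0 : ℕ, ∀ X : ℕ, X0 ≤ X →
    ∫⁻ γ : Fin (2 * m) → ℝ, ENNReal.ofReal ((∏ j, qq (γ j)) * GS (2 * m) d X γ ^ s) ≤
    ENNReal.ofReal (C * Real.log X ^ (2 * m) * (X : ℝ) ^ (2 * (m : ℝ) * ((s : ℝ) - d + 1)))

/-- KBLK: the moment of `GS` over a block, `k = d + 1` -/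
def S_KBLK : Prop := ∀ m d s : ℕ, 1 ≤ m → 2 ≤ d → 2 * m ≤ d → 6 * m ≤ s → d + 1 < s →
  2 * m * (d + 1) * (s - d + 1) + (2 * d + 3 - 8 * m) * (d + 2) < (2 * d + 3 - 8 * m) * (2 * m * (s - (d + 1))) →
  8 * m ≤ 2 * d + 2 →
  ∃ ν0 : ℕ, ∀ ν : ℕ, ν0 ≤ ν → ∀ a : ℕ, a ≤ ν →
    ∫⁻ γ : Fin (2 * m) → ℝ, {γ : Fin (2 * m) → ℝ | ∀ j, (2 : ℝ) ^ (-(((d + 1 : ℕ) : ℝ) * ν / 2)) ≤ |γ j|}.indicator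
      (fun γ => ENNReal.ofReal ((∏ j, qq (γ j)) * GS (2 * m) d (XB a) γ ^ s)) γ ≤
    ENNReal.ofReal (3 * (2 : ℝ) ^ ((ν : ℝ) * (2 * (m : ℝ) * ((s : ℝ) - (d + 1)) - (d + 1) - 1)))

/-- KL2: the second moment of one exponential sum -/
def S_KL2 : Prop := ∀ (d : ℕ) (c B : ℝ), 64 ≤ d → 0 < c → 0 < B → ∃ C : ℝ, 0 < C ∧ ∀ (ν : ℕ) (t : ℝ), 0 < |t| →
  |t| ≤ 1 → ∫⁻ θ in {θ : Fin d → ℝ | ∀ l, |θ l| ≤ B}, ENNReal.ofReal (‖SG (BX ν) (pk d c θ) t‖ ^ 2) ∂(GM d) ≤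
    ENNReal.ofReal (C * ((ν : ℝ) + 1) ^ 4 * ((2 : ℝ) ^ ν + |t| ^ (-(2 / ((d : ℝ) + 1)))))

/-- KL1: the mean of the product over the small frequencies -/
def S_KL1 : Prop := ∀ (d s : ℕ) (c : Fin s → ℝ) (B δ : ℝ), 64 ≤ d → d + 1 < s → (∀ i, 0 < c i) → 0 < B → 0 < δ →
  δ < ((d : ℝ) + 1) / 2 → ∃ C : ℝ, 0 < C ∧ ∀ ν : ℕ,
  ∫⁻ θ in {θ : Fin s → Fin d → ℝ | ∀ i l, |θ i l| ≤ B}, (∫⁻ t in Arc ((2 : ℝ) ^ ((ν : ℝ) * (-((d + 1 : ℕ) : ℝ) + δ)))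
      ((2 : ℝ) ^ (-(((d + 1 : ℕ) : ℝ) * ν / 2))),
      ENNReal.ofReal (∏ i, ‖SG (BX ν) (pk d (c i) (θ i)) t‖)) ∂(GMs s d) ≤
    ENNReal.ofReal (C * ((ν : ℝ) + 1) ^ (2 * s) *
      (2 : ℝ) ^ ((ν : ℝ) * (((s : ℝ) - (d + 1)) - δ * (((s : ℝ) - (d + 1)) / (d + 1)))))

/-- KBC: Borel–Cantelli -/
def S_KBC : Prop := ∀ (m d s : ℕ) (c : Fin s → ℝ) (δ : ℝ), 1 ≤ m → 64 ≤ d → 2 * m ≤ d → 6 * m ≤ s → d + 1 < s →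
  2 * m * (d + 1) * (s - d + 1) + (2 * d + 3 - 8 * m) * (d + 2) < (2 * d + 3 - 8 * m) * (2 * m * (s - (d + 1))) →
  8 * m ≤ 2 * d + 2 → (∀ i, 0 < c i) → 0 < δ → δ < 1 / 4 → ∃ δ' : ℝ, 0 < δ' ∧ ∀ᵐ θ ∂(GMs s d), ∀ b : ℕ,
    GoodF s (d + 1) (fun i x => pk d (c i) (θ i) x + b) δ δ'

/-- KAE: almost everywhere for all multiples -/
def S_KAE : Prop := ∀ (s d : ℕ) (P : ℕ → (Fin s → Fin d → ℝ) → Prop), (∀ q : ℕ, 1 ≤ q → ∀ᵐ θ ∂(GMs s d), P q θ) →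
  ∀ᵐ θ : Fin s → Fin d → ℝ, ∀ q : ℕ, 1 ≤ q → P q (fun i l => q * θ i l)

/-- KLOW: lower bounds for the functions -/
def S_KLOW : Prop := ∀ (s d : ℕ) (c : Fin s → ℝ) (θ : Fin s → Fin d → ℝ), (∀ i, 0 < c i) →
  ∃ (b : ℕ) (c0 : ℝ), 0 < c0 ∧ ∀ i (x : ℤ), 0 ≤ pk d (c i) (θ i) x + b ∧
    c0 * |(x : ℝ)| ^ (d + 1) ≤ pk d (c i) (θ i) x + b

/-- KLAT: lattice points -/
def S_KLAT : Prop := ∀ (s d b : ℕ) (c : Fin s → ℝ) (θ : Fin s → Fin d → ℝ), 1 ≤ s → (∀ i, 0 < c i) →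
  (∀ i (x : ℤ), 0 ≤ pk d (c i) (θ i) x + b) → ∃ C : ℝ, 0 < C ∧
  ∀ y : ℝ, 1 ≤ y → |(CF (fun i x => pk d (c i) (θ i) x + b) y : ℝ) -
    (2 * Real.Gamma (1 + 1 / ((d + 1 : ℕ) : ℝ))) ^ s / Real.Gamma (1 + (s : ℝ) / (d + 1 : ℕ)) *
      (∏ i, c i ^ (-(1 / ((d + 1 : ℕ) : ℝ)))) * y ^ ((s : ℝ) / (d + 1 : ℕ))| ≤ C * y ^ (((s : ℝ) - 1) / (d + 1 : ℕ))

/-- KSH: translation of the values -/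
def S_KSH : Prop := ∀ (s b : ℕ) (f : Fin s → ℤ → ℝ) (c κ Δ : ℝ),
  Tendsto (fun y : ℝ => (NF (fun i x => f i x + b) y Δ : ℝ) / y ^ κ) atTop (nhds c) →
  Tendsto (fun y : ℝ => (NF f y Δ : ℝ) / y ^ κ) atTop (nhds c)

/-- KPAR: the parameters -/
def S_KPAR : Prop := ∀ d s : ℕ, 225 ≤ d + 1 → d + 29 ≤ s → ∃ m : ℕ,
  1 ≤ m ∧ 64 ≤ d ∧ 2 * m ≤ d ∧ 6 * m ≤ s ∧ d + 1 < s ∧
  2 * m * (d + 1) * (s - d + 1) + (2 * d + 3 - 8 * m) * (d + 2) < (2 * d + 3 - 8 * m) * (2 * m * (s - (d + 1))) ∧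
  8 * m ≤ 2 * d + 2

end Pool.Agent.N604.MW
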