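import Mathlib
import Pool.Agent.N604.MW.Stm10

/-!
# Project GC (generic centres): exact statements

For `k ≥ 3`, `s ≥ 2k + 1`, all `a ∈ (0, ∞) ^ s`, almost all `γ ∈ ℝ ^ s` and all `Δ > 0`, the number of `x ∈ ℤ ^ s` with
`y ≤ a_1 |x_1 - γ_1| ^ k + ... + a_s |x_s - γ_s| ^ k < y + Δ` is asymptotic to
`Δ (2 Γ(1 + 1/k)) ^ s / Γ(s/k) ∏ a_i ^ (-1/k) y ^ (s/k - 1)` as `y → ∞`.
-/

namespace Pool.Agent.N604.MW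

open Finset MeasureTheory Filter

/-- the function `a |x - γ| ^ k` -/
noncomputable def gk (k : ℕ) (a γ : ℝ) (x : ℤ) : ℝ := a * |(x : ℝ) - γ| ^ k

/-- CL2: mean square over the centre -/
def S_CL2 : Prop := ∀ (k : ℕ) (a : ℝ), 3 ≤ k → 0 < a → ∃ C : ℝ, 0 < C ∧ ∀ (ν : ℕ) (t : ℝ), t ≠ 0 →
  ∫ γ in (0 : ℝ)..1, ‖SG (BX ν) (gk k a γ) t‖ ^ 2 ≤
    C * ((2 : ℝ) ^ ν + ((2 : ℝ) ^ ν) ^ (((k : ℝ) - 2) / (k - 1)) * |t| ^ (-(1 / ((k : ℝ) - 1))))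

/-- CBC: Borel–Cantelli -/
def S_CBC : Prop := ∀ (s k : ℕ) (a : Fin s → ℝ) (δ : ℝ), 3 ≤ k → 2 * k + 1 ≤ s → (∀ i, 0 < a i) → 0 < δ →
  δ < 1 / 4 → ∃ δ' : ℝ, 0 < δ' ∧ ∀ᵐ γ : Fin s → ℝ ∂(volume.restrict (Set.Icc (fun _ => 0) (fun _ => 1))),
    GoodF s k (fun i => gk k (a i) (γ i)) δ δ'

/-- CPER: periodic properties -/
def S_CPER : Prop := ∀ (s : ℕ) (P : (Fin s → ℝ) → Prop),
  (∀ᵐ γ : Fin s → ℝ ∂(volume.restrict (Set.Icc (fun _ => 0) (fun _ => 1))), P γ) →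
  (∀ (γ : Fin s → ℝ) (b : Fin s → ℤ), P γ → P (fun i => γ i + b i)) → ∀ᵐ γ : Fin s → ℝ, P γ

end Pool.Agent.N604.MW
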