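import Mathlib
import Pool.Agent.N604.MW.Stm4

/-!
# Project KV: lower bound
-/

namespace Pool.Agent.N604.MW

open Finset MeasureTheory

/-- SHARP2: `k = d + 1` polynomials of degree `k` miss a positive proportion of the integers, if the product of
the leading coefficients is at least one -/
def S_SHARP2 : Prop := ∀ (d : ℕ) (c b : Fin (d + 1) → ℝ) (θ : Fin (d + 1) → Fin d → ℝ), 1 ≤ d → (∀ i, 0 < c i) →
  1 ≤ ∏ i, c i → ∃ η : ℝ, 0 < η ∧ ∃ N0 : ℕ, ∀ N : ℕ, N0 ≤ N → ∀ S : Finset ℕ,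
    (∀ m ∈ S, m ≤ N ∧ ∃ n : Fin (d + 1) → ℕ, ∑ i, ⌊PP d (c i) (b i) (θ i) (n i : ℝ)⌋ = (m : ℤ)) →
    (S.card : ℝ) ≤ (1 - η) * N

end Pool.Agent.N604.MW
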