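import Mathlib
import Pool.Agent.N604.MW.Stm5

/-!
# Project GS (generic shifts): exact statements of the pieces

Let `P_1, ..., P_{2k+1}` be any real polynomials of degree `k ≥ 2` with positive leading coefficients. For almost all
`(t_1, ..., t_{2k+1})` every large integer is `⌊P_1(p_1 + t_1)⌋ + ... + ⌊P_{2k+1}(p_{2k+1} + t_{2k+1})⌋` with
primes `p_i`, and `k + 1` polynomials suffice for almost all integers. Degree `k = d + 1`.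
-/

namespace Pool.Agent.N604.MW

open Finset MeasureTheory

/-- tuples in `[X, 2X] ^ (d+1)` -/
def SB (d X : ℕ) : Finset (Fin (d + 1) → ℕ) := Fintype.piFinset fun _ => Finset.Icc X (2 * X)

/-- the sum of the differences of the shifted polynomials -/
noncomputable def SD (d : ℕ) (c b : Fin (d + 1) → ℝ) (θ : Fin (d + 1) → Fin d → ℝ) (t : Fin (d + 1) → ℝ)
    (n m : Fin (d + 1) → ℕ) : ℝ :=
  ∑ i, (PP d (c i) (b i) (θ i) ((n i : ℝ) + t i) - PP d (c i) (b i) (θ i) ((m i : ℝ) + t i))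

/-- the pairs of tuples for which the sums of the values differ by at most `d + 1` -/
noncomputable def SPairs (d : ℕ) (c b : Fin (d + 1) → ℝ) (θ : Fin (d + 1) → Fin d → ℝ) (t : Fin (d + 1) → ℝ) (X : ℕ) :
    Finset ((Fin (d + 1) → ℕ) × (Fin (d + 1) → ℕ)) :=
  open Classical in
  (SB d X ×ˢ SB d X).filter fun p => |SD d c b θ t p.1 p.2| ≤ (d : ℝ) + 1

/-- the bounded shifts for which a pair is counted -/
def SS (d : ℕ) (c b : Fin (d + 1) → ℝ) (θ : Fin (d + 1) → Fin d → ℝ) (B : ℝ) (n m : Fin (d + 1) → ℕ) :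
    Set (Fin (d + 1) → ℝ) := {t | (∀ i, |t i| ≤ B) ∧ |SD d c b θ t n m| ≤ (d : ℝ) + 1}

/-- SDIO: almost all shifts of a polynomial are diophantine -/
def S_SDIO : Prop := ∀ (d : ℕ) (c b : ℝ) (θ : Fin d → ℝ), 1 ≤ d → 0 < c → ∀ᵐ t : ℝ, ∃ (b' : ℝ) (θ' : Fin d → ℝ),
  (∀ x : ℝ, PP d c b θ (x + t) = PP d c b' θ' x) ∧ Dio d c θ'

/-- SMEAS: the measure of the shifts for which a pair is counted -/
def S_SMEAS : Prop := ∀ (d : ℕ) (c b : Fin (d + 1) → ℝ) (θ : Fin (d + 1) → Fin d → ℝ) (B : ℝ), 1 ≤ d →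
  (∀ i, 0 < c i) → 0 < B → ∃ C : ℝ, 0 < C ∧ ∃ X0 : ℕ, ∀ X : ℕ, X0 ≤ X → ∀ n ∈ SB d X, ∀ m ∈ SB d X,
    ∀ j : Fin (d + 1), n j ≠ m j → (∀ i, |(n i : ℝ) - m i| ≤ |(n j : ℝ) - m j|) →
    volume (SS d c b θ B n m) ≤ ENNReal.ofReal (C / (|(n j : ℝ) - m j| * (X : ℝ) ^ (d - 1))) ∧
    ((SS d c b θ B n m).Nonempty → |SD d c b θ 0 n m| ≤ C * |(n j : ℝ) - m j| * (X : ℝ) ^ (d - 1))

/-- SSUM: the first moment of the number of pairs -/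
def S_SSUM : Prop := ∀ (d : ℕ) (c b : Fin (d + 1) → ℝ) (θ : Fin (d + 1) → Fin d → ℝ) (B : ℝ), 1 ≤ d →
  (∀ i, 0 < c i) → 0 < B → ∃ C : ℝ, 0 < C ∧ ∃ X0 : ℕ, ∀ X : ℕ, X0 ≤ X →
    ∑ p ∈ SB d X ×ˢ SB d X, volume (SS d c b θ B p.1 p.2) ≤ ENNReal.ofReal (C * (X : ℝ) ^ (d + 1))

/-- SMEAN: the mean value estimate for almost all shifts -/
def S_SMEAN : Prop := ∀ (d : ℕ) (c b : Fin (d + 1) → ℝ) (θ : Fin (d + 1) → Fin d → ℝ), 1 ≤ d → (∀ i, 0 < c i) →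
  ∀ᵐ t : Fin (d + 1) → ℝ, ∀ ε : ℝ, 0 < ε → ∃ ν0 : ℕ, ∀ ν : ℕ, ν0 ≤ ν →
    ((SPairs d c b θ t (2 ^ ν)).card : ℝ) ≤ ((2 : ℝ) ^ ν) ^ ((d : ℝ) + 1 + ε)

end Pool.Agent.N604.MW
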