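import Mathlib
import Pool.Agent.N604.MW.Stm

/-!
# Project MW: assembly, part 1 (energy, mass, windows)
-/

namespace Pool.Agent.N604.MW

open Finset MeasureTheory

/-- the weight of a tuple -/
noncomputable def pw (d : ℕ) (c b : ℝ) (θ : Fin d → ℝ) (n : Fin (d + 1) → ℕ) : ℝ :=
  ∏ i, Real.sin (Real.pi * PP d c b θ (n i)) ^ 2

/-- the value of a tuple -/
noncomputable def vw (d : ℕ) (c b : ℝ) (θ : Fin d → ℝ) (n : Fin (d + 1) → ℕ) : ℤ :=
  ∑ i, ⌊PP d c b θ (n i)⌋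

/-- the weight of a number -/
noncomputable def ww (d : ℕ) (c b : ℝ) (θ : Fin d → ℝ) (l : ℕ) : ℝ :=
  Real.sin (Real.pi * PP d c b θ (l : ℝ)) ^ 2

/-- the value at a number -/
noncomputable def aw (d : ℕ) (c b : ℝ) (θ : Fin d → ℝ) (l : ℕ) : ℤ := ⌊PP d c b θ (l : ℝ)⌋

variable {d : ℕ} {c b : ℝ} {θ : Fin d → ℝ}

lemma ww_nonneg (l : ℕ) : 0 ≤ ww d c b θ l := sq_nonneg _
lemma ww_le_one (l : ℕ) : ww d c b θ l ≤ 1 := by
  unfold ww
  exact Real.sin_sq_le_one _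

lemma pw_nonneg (n : Fin (d + 1) → ℕ) : 0 ≤ pw d c b θ n := prod_nonneg fun _ _ => sq_nonneg _
lemma pw_le_one (n : Fin (d + 1) → ℕ) : pw d c b θ n ≤ 1 :=
  prod_le_one (fun _ _ => sq_nonneg _) fun _ _ => Real.sin_sq_le_one _

lemma PP_sub (x y : ℝ) : PP d c b θ x - PP d c b θ y = PP d c 0 θ x - PP d c 0 θ y := by
  unfold PP; ring

lemma close_of_vw_eq {n m : Fin (d + 1) → ℕ} (h : vw d c b θ n = vw d c b θ m) :
    |∑ i, (PP d c 0 θ (n i) - PP d c 0 θ (m i))| ≤ (d : ℝ) + 1 := by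
  have h1 : ∑ i, (PP d c 0 θ (n i) - PP d c 0 θ (m i)) =
      ∑ i, (Int.fract (PP d c b θ (n i)) - Int.fract (PP d c b θ (m i))) := by
    have h2 : ∀ i, PP d c 0 θ (n i) - PP d c 0 θ (m i) =
        ((⌊PP d c b θ (n i)⌋ : ℝ) - (⌊PP d c b θ (m i)⌋ : ℝ)) +
        (Int.fract (PP d c b θ (n i)) - Int.fract (PP d c b θ (m i))) := by
      intro i
      rw [← PP_sub (b := b)]
      have e1 := Int.floor_add_fract (PP d c b θ (n i))
      have e2 := Int.floor_add_fract (PP d c b θ (m i))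
      linarith
    rw [sum_congr rfl fun i _ => h2 i, sum_add_distrib]
    have h3 : ∑ i, ((⌊PP d c b θ (n i)⌋ : ℝ) - (⌊PP d c b θ (m i)⌋ : ℝ)) = 0 := by
      rw [sum_sub_distrib]
      have := congrArg (Int.cast (R := ℝ)) h
      unfold vw at this
      push_cast at this
      linarith
    rw [h3, zero_add]
  rw [h1]
  calc |∑ i, (Int.fract (PP d c b θ (n i)) - Int.fract (PP d c b θ (m i)))|
      ≤ ∑ i, |Int.fract (PP d c b θ (n i)) - Int.fract (PP d c b θ (m i))| := abs_sum_le_sum_abs _ _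
    _ ≤ ∑ _i : Fin (d + 1), (1 : ℝ) := by
        apply sum_le_sum
        intro i _
        rw [abs_le]
        have a1 := Int.fract_nonneg (PP d c b θ (n i))
        have a2 := Int.fract_lt_one (PP d c b θ (n i))
        have a3 := Int.fract_nonneg (PP d c b θ (m i))
        have a4 := Int.fract_lt_one (PP d c b θ (m i))
        constructor <;> linarith
    _ = (d : ℝ) + 1 := by simp

lemma En_le (X : ℕ) : En (Box (d + 1) X) (vw d c b θ) (pw d c b θ) ≤ ((Pairs d c θ X).card : ℝ) := by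
  classical
  unfold En
  calc ∑ ω ∈ Box (d + 1) X, ∑ ω' ∈ Box (d + 1) X,
        (if vw d c b θ ω = vw d c b θ ω' then pw d c b θ ω * pw d c b θ ω' else 0)
      ≤ ∑ ω ∈ Box (d + 1) X, ∑ ω' ∈ Box (d + 1) X,
        (if |∑ i, (PP d c 0 θ (ω i) - PP d c 0 θ (ω' i))| ≤ (d : ℝ) + 1 then (1 : ℝ) else 0) := by
        apply sum_le_sum; intro ω _
        apply sum_le_sum; intro ω' _
        by_cases h : vw d c b θ ω = vw d c b θ ω'
        · rw [if_pos h, if_pos (close_of_vw_eq h)]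
          exact mul_le_one₀ (pw_le_one _) (pw_nonneg _) (pw_le_one _)
        · rw [if_neg h]
          split_ifs <;> norm_num
    _ = ∑ p ∈ Box (d + 1) X ×ˢ Box (d + 1) X,
        (if |∑ i, (PP d c 0 θ (p.1 i) - PP d c 0 θ (p.2 i))| ≤ (d : ℝ) + 1 then (1 : ℝ) else 0) := by
        rw [sum_product]
    _ = ((Pairs d c θ X).card : ℝ) := by
        rw [← sum_filter, sum_const, nsmul_eq_mul, mul_one]
        unfold Pairs
        congr!

lemma mass_ge {X : ℕ} {C0 : ℕ} (hC : 2 * (d + 1) + 1 ≤ C0)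
    (h : ∀ A : ℕ, A ≤ C0 * X → (X : ℝ) / 4 ≤ ∑ n ∈ Finset.Icc A (A + X), ww d c b θ n) :
    ((X : ℝ) / 4) ^ (d + 1) ≤ ∑ ω ∈ Box (d + 1) X, pw d c b θ ω := by
  have h1 : ∑ ω ∈ Box (d + 1) X, pw d c b θ ω =
      ∏ i : Fin (d + 1), ∑ n ∈ Finset.Icc (2 * ((i : ℕ) + 1) * X) ((2 * ((i : ℕ) + 1) + 1) * X), ww d c b θ n := by
    rw [prod_univ_sum]; rfl
  rw [h1]
  calc ((X : ℝ) / 4) ^ (d + 1) = ∏ _i : Fin (d + 1), ((X : ℝ) / 4) := by
        rw [prod_const, card_univ, Fintype.card_fin]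
    _ ≤ _ := by
      apply prod_le_prod
      · intro i _; positivity
      · intro i _
        have := h (2 * ((i : ℕ) + 1) * X) (by
          have := i.2
          exact Nat.mul_le_mul_right _ (by omega))
        have e1 : 2 * ((i : ℕ) + 1) * X + X = (2 * ((i : ℕ) + 1) + 1) * X := by ring
        rwa [e1] at this

lemma mass_le (X : ℕ) (hX : 1 ≤ X) : ∑ ω ∈ Box (d + 1) X, pw d c b θ ω ≤ (2 * (X : ℝ)) ^ (d + 1) := by
  calc ∑ ω ∈ Box (d + 1) X, pw d c b θ ω ≤ ∑ _ω ∈ Box (d + 1) X, (1 : ℝ) := sum_le_sum fun _ _ => pw_le_one _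
    _ = ((Box (d + 1) X).card : ℝ) := by simp
    _ = ((X : ℝ) + 1) ^ (d + 1) := by
        unfold Box
        rw [Fintype.card_piFinset]
        push_cast
        rw [prod_congr rfl (g := fun _ => (X : ℝ) + 1)]
        · simp
        · intro i _
          rw [Nat.card_Icc]
          have e1 : (2 * ((i : ℕ) + 1) + 1) * X + 1 - 2 * ((i : ℕ) + 1) * X = X + 1 := by
            have : (2 * ((i : ℕ) + 1) + 1) * X = 2 * ((i : ℕ) + 1) * X + X := by ring
            omega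
          rw [e1]; push_cast; ring
    _ ≤ (2 * (X : ℝ)) ^ (d + 1) := by
        have : (1 : ℝ) ≤ X := by exact_mod_cast hX
        gcongr
        linarith

/-- the window sum of a shifted value counts a window -/
lemma window_count (W : ℕ) (s N : ℤ) (x : ℝ) :
    ∑ h ∈ range W, (if s = N + h then x else 0) = if N ≤ s ∧ s < N + W then x else 0 := by
  by_cases hs : N ≤ s ∧ s < N + W
  · rw [if_pos hs]
    obtain ⟨h1, h2⟩ := hs
    have hm : (s - N).toNat ∈ range W := by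
      rw [mem_range]; omega
    rw [sum_eq_single_of_mem _ hm]
    · rw [if_pos]
      have : ((s - N).toNat : ℤ) = s - N := Int.toNat_of_nonneg (by linarith)
      rw [this]; ring
    · intro h _ hne
      rw [if_neg]
      intro hc
      apply hne
      omega
  · rw [if_neg hs]
    apply sum_eq_zero
    intro h hh
    rw [mem_range] at hh
    rw [if_neg]
    intro hc
    apply hs
    constructor <;> omega

lemma window_R2 {Ω Λ : Type} (P : Finset Ω) (L : Finset Λ) (v : Ω → ℤ) (p : Ω → ℝ) (a : Λ → ℤ) (w : Λ → ℝ)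
    (W : ℕ) (N : ℤ) : ∑ h ∈ range W, R2 P L v p a w (N + h) =
      ∑ ω ∈ P, ∑ ω' ∈ P, p ω * p ω' * ∑ l ∈ L.filter
        (fun l => N - v ω - v ω' ≤ a l ∧ a l < N - v ω - v ω' + W), w l := by
  unfold R2
  rw [sum_comm]
  apply sum_congr rfl; intro ω _
  rw [sum_comm]
  apply sum_congr rfl; intro ω' _
  rw [sum_comm, mul_sum, sum_filter]
  apply sum_congr rfl; intro l _
  rw [window_count]
  by_cases h : N - v ω - v ω' ≤ a l ∧ a l < N - v ω - v ω' + W
  · rw [if_pos h, if_pos]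
    constructor <;> linarith [h.1, h.2]
  · rw [if_neg h, if_neg]
    intro hc
    apply h
    constructor <;> linarith [hc.1, hc.2]

lemma window_R1 {Ω Λ : Type} (P : Finset Ω) (L : Finset Λ) (v : Ω → ℤ) (p : Ω → ℝ) (a : Λ → ℤ) (w : Λ → ℝ)
    (W : ℕ) (N : ℤ) : ∑ h ∈ range W, R1 P L v p a w (N + h) =
      ∑ ω ∈ P, p ω * ∑ l ∈ L.filter (fun l => N - v ω ≤ a l ∧ a l < N - v ω + W), w l := by
  unfold R1
  rw [sum_comm]
  apply sum_congr rfl; intro ω _
  rw [sum_comm, mul_sum, sum_filter]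
  apply sum_congr rfl; intro l _
  rw [window_count]
  by_cases h : N - v ω ≤ a l ∧ a l < N - v ω + W
  · rw [if_pos h, if_pos]
    constructor <;> linarith [h.1, h.2]
  · rw [if_neg h, if_neg]
    intro hc
    apply h
    constructor <;> linarith [hc.1, hc.2]

/-- lower bound for the window means -/
lemma R2_window_ge {Ω Λ : Type} (P : Finset Ω) (L : Finset Λ) (v : Ω → ℤ) (p : Ω → ℝ) (a : Λ → ℤ) (w : Λ → ℝ)
    (W : ℕ) (N : ℤ) (hp : ∀ ω, 0 ≤ p ω) (q : ℝ) (lo hi : ℤ)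
    (hv : ∀ ω ∈ P, 0 ≤ v ω ∧ v ω ≤ hi) (hN : lo + 2 * hi ≤ N)
    (hq : ∀ M : ℤ, lo ≤ M → M ≤ N → q ≤ ∑ l ∈ L.filter (fun l => M ≤ a l ∧ a l < M + W), w l) :
    (∑ ω ∈ P, p ω) ^ 2 * q ≤ ∑ h ∈ range W, R2 P L v p a w (N + h) := by
  rw [window_R2, sq, sum_mul_sum, sum_mul]
  apply sum_le_sum; intro ω hω
  rw [sum_mul]
  apply sum_le_sum; intro ω' hω'
  have h1 := hv ω hω
  have h2 := hv ω' hω'
  apply mul_le_mul_of_nonneg_left _ (mul_nonneg (hp _) (hp _))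
  apply hq <;> linarith

lemma R1_window_ge {Ω Λ : Type} (P : Finset Ω) (L : Finset Λ) (v : Ω → ℤ) (p : Ω → ℝ) (a : Λ → ℤ) (w : Λ → ℝ)
    (W : ℕ) (N : ℤ) (hp : ∀ ω, 0 ≤ p ω) (q : ℝ) (lo hi : ℤ)
    (hv : ∀ ω ∈ P, 0 ≤ v ω ∧ v ω ≤ hi) (hN : lo + hi ≤ N)
    (hq : ∀ M : ℤ, lo ≤ M → M ≤ N → q ≤ ∑ l ∈ L.filter (fun l => M ≤ a l ∧ a l < M + W), w l) :
    (∑ ω ∈ P, p ω) * q ≤ ∑ h ∈ range W, R1 P L v p a w (N + h) := by
  rw [window_R1, sum_mul]
  apply sum_le_sum; intro ω hω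
  have h1 := hv ω hω
  apply mul_le_mul_of_nonneg_left _ (hp _)
  apply hq <;> linarith

end Pool.Agent.N604.MW
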