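import Mathlib
import Pool.Agent.N604.MW.Asm1

/-!
# Project MW: assembly, part 2 (the circle method for one scale)
-/

namespace Pool.Agent.N604.MW

open Finset MeasureTheory

lemma big (s C : ℝ) (hs : 0 < s) : ∃ X0 : ℕ, ∀ X : ℕ, X0 ≤ X → C ≤ (X : ℝ) ^ s := by
  have h1 := (tendsto_rpow_atTop hs).comp tendsto_natCast_atTop_atTop
  have h2 := h1.eventually_ge_atTop C
  rw [Filter.eventually_atTop] at h2
  obtain ⟨X0, h⟩ := h2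
  exact ⟨X0, fun X hX => h X hX⟩

/-- the mean value property of a polynomial -/
def MeanP (d : ℕ) (c : ℝ) (θ : Fin d → ℝ) : Prop := ∀ ε : ℝ, 0 < ε → ∃ ν0 : ℕ, ∀ ν : ℕ,
  ν0 ≤ ν → ((Pairs d c θ (2 ^ ν)).card : ℝ) ≤ ((2 : ℝ) ^ ν) ^ ((d : ℝ) + 1 + ε)

/-- the conclusion for one scale -/
def Core (d : ℕ) (c b : ℝ) (θ : Fin d → ℝ) (v C0 : ℕ) (κ σ : ℝ) (X : ℕ) : Prop :=
  (∀ N : ℤ, (2 * v + 1) * (X : ℤ) ^ (d + 1) ≤ N → N ≤ 2 ^ (d + 1) * ((2 * v + 1) * (X : ℤ) ^ (d + 1)) →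
    κ * (X : ℝ) ^ (d + 2) ≤
      R2 (Box (d + 1) X) (Finset.Ico 1 (C0 * X)) (vw d c b θ) (pw d c b θ) (aw d c b θ) (ww d c b θ) N) ∧
  (∀ S : Finset ℤ, (∀ N ∈ S, (2 * v + 1) * (X : ℤ) ^ (d + 1) ≤ N ∧ N ≤ 2 ^ (d + 1) * ((2 * v + 1) * (X : ℤ) ^ (d + 1)) ∧
      R1 (Box (d + 1) X) (Finset.Ico 1 (C0 * X)) (vw d c b θ) (pw d c b θ) (aw d c b θ) (ww d c b θ) N = 0) →
    (S.card : ℝ) ≤ (X : ℝ) ^ ((d : ℝ) + 1 - σ))

theorem core (hSIZE : S_SIZE) (hMASS : S_MASS) (hLOW : S_LOW) (hTP : S_TPOINT) (hC1 : S_CIRC1) (hC2 : S_CIRC2)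
    (d : ℕ) (c b : ℝ) (θ : Fin d → ℝ) (hd : 1 ≤ d) (hc : 0 < c) (hDio : Dio d c θ) (hM : MeanP d c θ) :
    ∃ v C0 : ℕ, ∃ κ σ : ℝ, 0 < κ ∧ 0 < σ ∧ ∃ ν0 : ℕ, ∀ ν : ℕ, ν0 ≤ ν → Core d c b θ v C0 κ σ (2 ^ ν) := by
  obtain ⟨v, Xa, hv⟩ := hSIZE d c b θ hc
  obtain ⟨Xb, hmass⟩ := hMASS d c b θ hd hc hDio (2 * (d + 1) + 1)
  obtain ⟨C0, κL, σL, hκL, hσL, Xc, hlow⟩ := hLOW d c b θ hd hc hDio (2 ^ (d + 1) * (2 * v + 1)) (by
    have h1 : (1 : ℝ) ≤ 2 ^ (d + 1) := one_le_pow₀ (by norm_num)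
    have h2 : (1 : ℝ) ≤ 2 * v + 1 := by
      have : (0 : ℝ) ≤ v := Nat.cast_nonneg v
      linarith
    calc (1 : ℝ) = 1 * 1 := by ring
      _ ≤ _ := mul_le_mul h1 h2 (by norm_num) (by linarith))
  set δ : ℝ := min σL 1 / 4 with hδ
  have hm0 : 0 < min σL 1 := lt_min hσL one_pos
  have hδ0 : 0 < δ := by rw [hδ]; linarith
  have hδσ : 3 * δ ≤ σL := by
    have := min_le_left σL 1
    rw [hδ]; linarith
  obtain ⟨σ, hσ, Xd, htp⟩ := hTP d c b θ hd hc hDio C0 δ hδ0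
  obtain ⟨νe, hmean⟩ := hM (σ / 2) (by linarith)
  obtain ⟨X1, h1⟩ := big (3 * δ) 2 (by linarith)
  obtain ⟨X2, h2⟩ := big δ (64 * C0 / κL) hδ0
  obtain ⟨X3, h3⟩ := big (σ / 2) (8 * 4 ^ (2 * (d + 1)) / κL) (by linarith)
  obtain ⟨X4, h4⟩ := big (σ / 2) (4 * ((2 / κL) * 4 ^ (d + 1)) ^ 2) (by linarith)
  refine ⟨v, C0, κL / 4 / 4 ^ (2 * (d + 1)), σ, by positivity, hσ,
    Xa + Xb + Xc + Xd + νe + X1 + X2 + X3 + X4 + 1, ?_⟩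
  intro ν hν
  have hXν : ν < 2 ^ ν := Nat.lt_two_pow_self
  have hmean' := hmean ν (by omega)
  have hcast : ((2 : ℝ) ^ ν) = ((2 ^ ν : ℕ) : ℝ) := by push_cast; ring
  rw [hcast] at hmean'
  generalize hX : 2 ^ ν = X at hmean' hXν
  have hXa : Xa ≤ X := by omega
  have hXb : Xb ≤ X := by omega
  have hXc : Xc ≤ X := by omega
  have hXd : Xd ≤ X := by omega
  replace h1 := h1 X (by omega)
  replace h2 := h2 X (by omega)
  replace h3 := h3 X (by omega)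
  replace h4 := h4 X (by omega)
  have hX1 : 1 ≤ X := by omega
  have hx1 : (1 : ℝ) ≤ X := by exact_mod_cast hX1
  have hx0 : (0 : ℝ) < X := by linarith
  clear hν
  -- the window
  set W : ℕ := ⌈(X : ℝ) ^ ((d : ℝ) + 1 - 3 * δ)⌉₊ with hW
  have hWlo : (X : ℝ) ^ ((d : ℝ) + 1 - 3 * δ) ≤ W := Nat.le_ceil _
  have hWpos : (0 : ℝ) < (X : ℝ) ^ ((d : ℝ) + 1 - 3 * δ) := Real.rpow_pos_of_pos hx0 _
  have hexp0 : 0 ≤ (d : ℝ) + 1 - 3 * δ := by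
    have e1 : δ ≤ 1 / 4 := by
      have := min_le_right σL 1
      rw [hδ]; linarith
    have e2 : (0 : ℝ) ≤ d := Nat.cast_nonneg d
    linarith
  have hW1' : (1 : ℝ) ≤ (X : ℝ) ^ ((d : ℝ) + 1 - 3 * δ) := Real.one_le_rpow hx1 hexp0
  have hWhi : (W : ℝ) ≤ 2 * (X : ℝ) ^ ((d : ℝ) + 1 - 3 * δ) := by
    have := Nat.ceil_lt_add_one hWpos.le
    rw [← hW] at this
    linarith
  have hW1 : 1 ≤ W := by
    have : (1 : ℝ) ≤ W := hW1'.trans hWlo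
    exact_mod_cast this
  have hW0 : (0 : ℝ) < W := by exact_mod_cast hW1
  have hxk : (X : ℝ) ^ ((d : ℝ) + 1) = (X : ℝ) ^ (d + 1) := by
    rw [← Real.rpow_natCast]; push_cast; ring_nf
  have hWX : (W : ℝ) ≤ (X : ℝ) ^ (d + 1) := by
    calc (W : ℝ) ≤ 2 * (X : ℝ) ^ ((d : ℝ) + 1 - 3 * δ) := hWhi
      _ ≤ (X : ℝ) ^ (3 * δ) * (X : ℝ) ^ ((d : ℝ) + 1 - 3 * δ) := by gcongr
      _ = (X : ℝ) ^ (d + 1) := by
          rw [← Real.rpow_add hx0, ← hxk]; congr 1; ring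
  have hWL : (X : ℝ) ^ ((d : ℝ) + 1 - σL) ≤ W := by
    refine le_trans ?_ hWlo
    apply Real.rpow_le_rpow_of_exponent_le hx1
    linarith
  -- names
  set P := Box (d + 1) X with hP
  set L := Finset.Ico 1 (C0 * X) with hL
  set vv := vw d c b θ with hvv
  set pp := pw d c b θ with hpp
  set aa := aw d c b θ with haa
  set wt := ww d c b θ with hwt
  have hp0 : ∀ ω, 0 ≤ pp ω := fun ω => pw_nonneg ω
  have hw0 : ∀ l, 0 ≤ wt l := fun l => ww_nonneg l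
  -- sizes
  have hvP : ∀ ω ∈ P, 0 ≤ vv ω ∧ vv ω ≤ v * (X : ℤ) ^ (d + 1) := fun ω hω => hv X ω hXa hω
  set m := ∑ ω ∈ P, pp ω with hm
  have hmlo : ((X : ℝ) / 4) ^ (d + 1) ≤ m := mass_ge le_rfl fun A hA => hmass X A hXb hA
  have hm0' : 0 < m := lt_of_lt_of_le (by positivity) hmlo
  have hwsum : ∑ l ∈ L, wt l ≤ C0 * X := by
    calc ∑ l ∈ L, wt l ≤ ∑ _l ∈ L, (1 : ℝ) := sum_le_sum fun l _ => ww_le_one l
      _ = (L.card : ℝ) := by simp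
      _ ≤ C0 * X := by
        rw [hL, Nat.card_Ico]
        have : C0 * X - 1 ≤ C0 * X := Nat.sub_le _ _
        exact_mod_cast this
  have hwsum0 : 0 ≤ ∑ l ∈ L, wt l := sum_nonneg fun l _ => hw0 l
  -- the window lower bound
  have hq : ∀ M : ℤ, (X : ℤ) ^ (d + 1) ≤ M → M ≤ 2 ^ (d + 1) * ((2 * v + 1) * (X : ℤ) ^ (d + 1)) →
      κL * W / (X : ℝ) ^ d ≤ ∑ l ∈ L.filter (fun l => M ≤ aa l ∧ aa l < M + W), wt l := by
    intro M hM1 hM2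
    have e1 : ((X : ℝ)) ^ (d + 1) ≤ M := by exact_mod_cast hM1
    have e2 : (M : ℝ) ≤ 2 ^ (d + 1) * (2 * v + 1) * (X : ℝ) ^ (d + 1) := by
      have : (M : ℝ) ≤ ((2 ^ (d + 1) * ((2 * v + 1) * (X : ℤ) ^ (d + 1)) : ℤ) : ℝ) := by exact_mod_cast hM2
      push_cast at this
      linarith
    have e3 := hlow X W M hXc e1 e2 hWL hWX
    refine e3.trans (le_of_eq ?_)
    apply sum_congr _ (fun _ _ => rfl)
    ext l
    simp only [mem_filter, mem_range, hL, Finset.mem_Ico, haa, aw]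
    constructor
    · rintro ⟨h1, h2, h3, h4⟩; exact ⟨⟨h2, h1⟩, h3, h4⟩
    · rintro ⟨⟨h2, h1⟩, h3, h4⟩; exact ⟨h1, h2, h3, h4⟩
  -- minor arcs
  set τ : ℝ := (X : ℝ) ^ (1 - σ) with hτ
  set η : ℝ := (X : ℝ) ^ (-((d : ℝ) + 1) + δ) with hη
  have hτ0 : 0 ≤ τ := Real.rpow_nonneg hx0.le _
  have hη0 : 0 ≤ η := Real.rpow_nonneg hx0.le _
  have hminor : ∀ α : ℝ, η ≤ |α| → |α| ≤ 1 / 2 → ‖∑ l ∈ L, (wt l : ℂ) * e (α * aa l)‖ ≤ τ := by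
    intro α hα1 hα2
    by_cases hC0 : C0 * X = 0
    · have : L = ∅ := by rw [hL, hC0]; rfl
      rw [this, sum_empty, norm_zero]; exact hτ0
    have hpos : 1 ≤ C0 * X := Nat.one_le_iff_ne_zero.mpr hC0
    have := htp X 1 (C0 * X - 1) hXd (by omega) α hα1 hα2
    refine le_trans (le_of_eq ?_) this
    rw [hL, Finset.sum_Ico_eq_sum_range]
    rfl
  have hEn : En P vv pp ≤ (X : ℝ) ^ ((d : ℝ) + 1 + σ / 2) := by
    refine (En_le X).trans ?_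
    rw [← hX] at hmean' ⊢
    exact hmean'
  have hEn0 : 0 ≤ En P vv pp := by
    unfold En
    apply sum_nonneg; intro ω _
    apply sum_nonneg; intro ω' _
    split_ifs
    · exact mul_nonneg (hp0 _) (hp0 _)
    · exact le_rfl
  -- the major arc error
  have hmaj : 16 * W * η ^ 2 * (∑ l ∈ L, wt l) ≤ κL / 2 / (X : ℝ) ^ d := by
    have e1 : (X : ℝ) ^ ((d : ℝ) + 1 - 3 * δ) * η ^ 2 * X = (X : ℝ) ^ (-δ) / (X : ℝ) ^ d := by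
      rw [hη, sq, ← Real.rpow_add hx0, ← Real.rpow_add hx0]
      conv_lhs => rw [← Real.rpow_one (X : ℝ)]
      rw [show (X : ℝ) ^ (1 : ℝ) = X from Real.rpow_one _]
      nth_rewrite 2 [← Real.rpow_one (X : ℝ)]
      rw [← Real.rpow_add hx0, ← Real.rpow_natCast (X : ℝ) d, ← Real.rpow_sub hx0]
      congr 1; ring
    have e2 : (X : ℝ) ^ (-δ) * (64 * C0) ≤ κL := by
      rw [Real.rpow_neg hx0.le, inv_mul_le_iff₀ (Real.rpow_pos_of_pos hx0 _)]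
      rw [div_le_iff₀ hκL] at h2
      exact h2
    calc 16 * W * η ^ 2 * (∑ l ∈ L, wt l)
        ≤ 16 * (2 * (X : ℝ) ^ ((d : ℝ) + 1 - 3 * δ)) * η ^ 2 * (C0 * X) := by gcongr
      _ = 32 * C0 * ((X : ℝ) ^ ((d : ℝ) + 1 - 3 * δ) * η ^ 2 * X) := by ring
      _ = ((X : ℝ) ^ (-δ) * (64 * C0)) / 2 / (X : ℝ) ^ d := by rw [e1]; ring
      _ ≤ κL / 2 / (X : ℝ) ^ d := by gcongr
  refine ⟨?_, ?_⟩
  · intro N hN1 hN2
    have hc2 := hC2 (Fin (d + 1) → ℕ) ℕ P L vv pp aa wt W η τ hp0 hw0 hW1 hη0 hτ0 hminor N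
    have hwin : m ^ 2 * (κL * W / (X : ℝ) ^ d) ≤ ∑ h ∈ range W, R2 P L vv pp aa wt (N + h) := by
      apply R2_window_ge P L vv pp aa wt W N hp0 _ ((X : ℤ) ^ (d + 1)) (v * (X : ℤ) ^ (d + 1)) hvP
      · linarith
      · intro M hM1 hM2
        exact hq M hM1 (hM2.trans hN2)
    have hmn : m ^ 2 * (κL / (X : ℝ) ^ d) ≤ (∑ h ∈ range W, R2 P L vv pp aa wt (N + h)) / W := by
      rw [le_div_iff₀ hW0]
      refine le_trans (le_of_eq ?_) hwin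
      ring
    have hR : m ^ 2 * (κL / (X : ℝ) ^ d) - (16 * W * η ^ 2 * m ^ 2 * (∑ l ∈ L, wt l) + 2 * τ * En P vv pp) ≤
        R2 P L vv pp aa wt N := by
      have := (abs_le.mp hc2).1
      linarith
    refine le_trans ?_ hR
    have a1 : 16 * W * η ^ 2 * m ^ 2 * (∑ l ∈ L, wt l) ≤ m ^ 2 * (κL / 2 / (X : ℝ) ^ d) := by
      calc 16 * W * η ^ 2 * m ^ 2 * (∑ l ∈ L, wt l) = m ^ 2 * (16 * W * η ^ 2 * (∑ l ∈ L, wt l)) := by ring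
        _ ≤ _ := by gcongr
    have a2 : 2 * τ * En P vv pp ≤ 2 * (X : ℝ) ^ ((d : ℝ) + 2 - σ / 2) := by
      calc 2 * τ * En P vv pp ≤ 2 * τ * (X : ℝ) ^ ((d : ℝ) + 1 + σ / 2) := by gcongr
        _ = 2 * (X : ℝ) ^ ((d : ℝ) + 2 - σ / 2) := by
          rw [hτ, mul_assoc, ← Real.rpow_add hx0]; congr 2; ring
    have a3 : (X : ℝ) ^ ((d : ℝ) + 2 - σ / 2) * (X : ℝ) ^ (σ / 2) = (X : ℝ) ^ (d + 2) := by
      rw [← Real.rpow_add hx0, ← Real.rpow_natCast]; congr 1; push_cast; ring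
    have a4 : 2 * (X : ℝ) ^ ((d : ℝ) + 2 - σ / 2) ≤ κL / 4 / 4 ^ (2 * (d + 1)) * (X : ℝ) ^ (d + 2) := by
      rw [← a3]
      have hpos : 0 < (X : ℝ) ^ ((d : ℝ) + 2 - σ / 2) := Real.rpow_pos_of_pos hx0 _
      have : 2 ≤ κL / 4 / 4 ^ (2 * (d + 1)) * (X : ℝ) ^ (σ / 2) := by
        rw [div_le_iff₀ hκL] at h3
        rw [div_div, div_mul_eq_mul_div, le_div_iff₀ (by positivity)]
        linarith
      calc 2 * (X : ℝ) ^ ((d : ℝ) + 2 - σ / 2) ≤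
          (κL / 4 / 4 ^ (2 * (d + 1)) * (X : ℝ) ^ (σ / 2)) * (X : ℝ) ^ ((d : ℝ) + 2 - σ / 2) := by gcongr
        _ = _ := by ring
    have a5 : κL / 2 / 4 ^ (2 * (d + 1)) * (X : ℝ) ^ (d + 2) ≤ m ^ 2 * (κL / 2 / (X : ℝ) ^ d) := by
      have : (((X : ℝ) / 4) ^ (d + 1)) ^ 2 ≤ m ^ 2 := by gcongr
      have hXd0 : (X : ℝ) ^ d ≠ 0 := by positivity
      calc κL / 2 / 4 ^ (2 * (d + 1)) * (X : ℝ) ^ (d + 2)
          = (((X : ℝ) / 4) ^ (d + 1)) ^ 2 * (κL / 2 / (X : ℝ) ^ d) := by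
            rw [← pow_mul, div_pow, mul_comm (d + 1) 2]
            have e9 : (X : ℝ) ^ (2 * (d + 1)) = (X : ℝ) ^ (d + 2) * (X : ℝ) ^ d := by
              rw [← pow_add]; congr 1; ring
            rw [e9]
            field_simp
        _ ≤ _ := by gcongr
    have a6 : m ^ 2 * (κL / (X : ℝ) ^ d) = 2 * (m ^ 2 * (κL / 2 / (X : ℝ) ^ d)) := by ring
    have a7 : κL / 2 / 4 ^ (2 * (d + 1)) * (X : ℝ) ^ (d + 2) = 2 * (κL / 4 / 4 ^ (2 * (d + 1)) * (X : ℝ) ^ (d + 2)) := by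
      ring
    rw [a6]
    linarith
  · intro S hS
    set ρ : ℝ := κL / 2 / 4 ^ (d + 1) * X with hρ
    have hρ0 : 0 < ρ := by positivity
    have hkey := hC1 (Fin (d + 1) → ℕ) ℕ P L vv pp aa wt W η τ ρ hp0 hw0 hW1 hη0 hτ0 hρ0.le hminor S (by
      intro N hN
      obtain ⟨hN1, hN2, hN3⟩ := hS N hN
      have hwin : m * (κL * W / (X : ℝ) ^ d) ≤ ∑ h ∈ range W, R1 P L vv pp aa wt (N + h) := by
        apply R1_window_ge P L vv pp aa wt W N hp0 _ ((X : ℤ) ^ (d + 1)) (v * (X : ℤ) ^ (d + 1)) hvP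
        · have : (0 : ℤ) ≤ v * (X : ℤ) ^ (d + 1) := by positivity
          linarith
        · intro M hM1 hM2
          exact hq M hM1 (hM2.trans hN2)
      have hmn : m * (κL / (X : ℝ) ^ d) ≤ (∑ h ∈ range W, R1 P L vv pp aa wt (N + h)) / W := by
        rw [le_div_iff₀ hW0]
        refine le_trans (le_of_eq ?_) hwin
        ring
      rw [hN3, zero_sub, abs_neg]
      refine le_trans ?_ (le_abs_self _)
      refine le_trans ?_ hmn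
      have a1 : 16 * W * η ^ 2 * m * (∑ l ∈ L, wt l) ≤ m * (κL / 2 / (X : ℝ) ^ d) := by
        calc 16 * W * η ^ 2 * m * (∑ l ∈ L, wt l) = m * (16 * W * η ^ 2 * (∑ l ∈ L, wt l)) := by ring
          _ ≤ _ := by gcongr
      have a2 : ρ ≤ m * (κL / 2 / (X : ℝ) ^ d) := by
        have hXd0 : (X : ℝ) ^ d ≠ 0 := by positivity
        calc ρ = ((X : ℝ) / 4) ^ (d + 1) * (κL / 2 / (X : ℝ) ^ d) := by
              rw [hρ, div_pow, pow_succ (X : ℝ) d]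
              field_simp
          _ ≤ _ := by gcongr
      have a3 : m * (κL / (X : ℝ) ^ d) = 2 * (m * (κL / 2 / (X : ℝ) ^ d)) := by ring
      rw [a3]; linarith)
    have b1 : (S.card : ℝ) * ρ ^ 2 ≤ 4 * (X : ℝ) ^ ((d : ℝ) + 3 - 3 * (σ / 2)) := by
      refine hkey.trans ?_
      calc 4 * τ ^ 2 * En P vv pp ≤ 4 * τ ^ 2 * (X : ℝ) ^ ((d : ℝ) + 1 + σ / 2) := by gcongr
        _ = 4 * (X : ℝ) ^ ((d : ℝ) + 3 - 3 * (σ / 2)) := by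
          rw [hτ, sq, mul_assoc, ← Real.rpow_add hx0, ← Real.rpow_add hx0]; congr 2; ring
    have b2 : (X : ℝ) ^ ((d : ℝ) + 3 - 3 * (σ / 2)) * (X : ℝ) ^ (σ / 2) = (X : ℝ) ^ ((d : ℝ) + 1 - σ) * (X : ℝ) ^ 2 := by
      rw [← Real.rpow_add hx0, ← Real.rpow_natCast (X : ℝ) 2, ← Real.rpow_add hx0]; congr 1; push_cast; ring
    -- multiply
    have b3 : (S.card : ℝ) * ρ ^ 2 * (4 * ((2 / κL) * 4 ^ (d + 1)) ^ 2) ≤
        4 * ((X : ℝ) ^ ((d : ℝ) + 1 - σ) * (X : ℝ) ^ 2) := by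
      calc (S.card : ℝ) * ρ ^ 2 * (4 * ((2 / κL) * 4 ^ (d + 1)) ^ 2)
          ≤ 4 * (X : ℝ) ^ ((d : ℝ) + 3 - 3 * (σ / 2)) * (X : ℝ) ^ (σ / 2) := by gcongr
        _ = _ := by rw [mul_assoc, b2]
    have b4 : ρ ^ 2 * (4 * ((2 / κL) * 4 ^ (d + 1)) ^ 2) = 4 * (X : ℝ) ^ 2 := by
      rw [hρ]; field_simp
      try ring
    rw [mul_assoc, b4] at b3
    have b5 : (0 : ℝ) < 4 * (X : ℝ) ^ 2 := by positivity
    have b6 : (S.card : ℝ) * (4 * (X : ℝ) ^ 2) ≤ (X : ℝ) ^ ((d : ℝ) + 1 - σ) * (4 * (X : ℝ) ^ 2) := by linarith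
    exact le_of_mul_le_mul_right b6 b5

end Pool.Agent.N604.MW
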