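import Mathlib
import Pool.Agent.N604.MW.Asm2

/-!
# Project MW: assembly, part 3 (all integers)
-/

namespace Pool.Agent.N604.MW

open Finset MeasureTheory

/-- `m` is a sum of `s` integer parts of values of `P` at positive integers -/
def IsSum (P : ℝ → ℝ) (s : ℕ) (m : ℤ) : Prop := ∃ n : Fin s → ℕ, (∀ i, 0 < n i) ∧ ∑ i, ⌊P (n i)⌋ = m

lemma scale (v k ν0 N : ℕ) (hk : 1 ≤ k) (h : (2 * v + 1) * (2 ^ ν0) ^ k ≤ N) :
    ∃ ν, ν0 ≤ ν ∧ (2 * v + 1) * (2 ^ ν) ^ k ≤ N ∧ N < 2 ^ k * ((2 * v + 1) * (2 ^ ν) ^ k) := by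
  classical
  have hstep : ∀ ν : ℕ, 2 ^ k * ((2 * v + 1) * (2 ^ ν) ^ k) = (2 * v + 1) * (2 ^ (ν + 1)) ^ k := by
    intro ν
    rw [pow_succ 2 ν, mul_pow]; ring
  have hgrow : ∀ ν : ℕ, ν < (2 * v + 1) * (2 ^ (ν + 1)) ^ k := by
    intro ν
    have h1 : ν < 2 ^ ν := Nat.lt_two_pow_self
    have h2 : 2 ^ ν ≤ 2 ^ (ν + 1) := Nat.pow_le_pow_right (by norm_num) (by omega)
    have h3 : 2 ^ (ν + 1) ≤ (2 ^ (ν + 1)) ^ k := Nat.le_self_pow (by omega) _
    have h4 : (2 ^ (ν + 1)) ^ k ≤ (2 * v + 1) * (2 ^ (ν + 1)) ^ k := Nat.le_mul_of_pos_left _ (by omega)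
    omega
  have hex : ∃ ν, N < (2 * v + 1) * (2 ^ (ν + 1)) ^ k := ⟨N, hgrow N⟩
  have hspec := Nat.find_spec hex
  set ν := Nat.find hex with hν
  have hmono : ∀ {a b : ℕ}, a ≤ b → (2 * v + 1) * (2 ^ a) ^ k ≤ (2 * v + 1) * (2 ^ b) ^ k := by
    intro a b hab
    exact Nat.mul_le_mul_left _ (Nat.pow_le_pow_left (Nat.pow_le_pow_right (by norm_num) hab) _)
  have hge : ν0 ≤ ν := by
    by_contra hlt
    have : (2 * v + 1) * (2 ^ (ν + 1)) ^ k ≤ (2 * v + 1) * (2 ^ ν0) ^ k := hmono (by omega)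
    omega
  refine ⟨ν, hge, ?_, ?_⟩
  · rcases Nat.eq_zero_or_pos ν with h0 | hpos
    · have : ν0 = 0 := by omega
      rw [h0]; rwa [this] at h
    · have := Nat.find_min hex (m := ν - 1) (by omega)
      rw [not_lt] at this
      rwa [show ν - 1 + 1 = ν by omega] at this
  · rw [hstep]; exact hspec

variable {d : ℕ} {c b : ℝ} {θ : Fin d → ℝ}

lemma pos_of_mem_Box {k X : ℕ} (hX : 1 ≤ X) {n : Fin k → ℕ} (hn : n ∈ Box k X) (i : Fin k) : 0 < n i := by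
  unfold Box at hn
  rw [Fintype.mem_piFinset] at hn
  have := (Finset.mem_Icc.mp (hn i)).1
  have h2 : 1 ≤ 2 * ((i : ℕ) + 1) * X := Nat.one_le_iff_ne_zero.mpr (by positivity)
  omega

/-- from `R2` to representations -/
lemma reps_of_R2 {X C0 : ℕ} (hX : 1 ≤ X) (N : ℤ) (s : ℕ) (hs : s = d + 1 + (d + 1) + 1) :
    ∃ S : Finset (Fin s → ℕ), (∀ n ∈ S, (∀ i, 0 < n i) ∧ ∑ i, ⌊PP d c b θ (n i)⌋ = N) ∧
      R2 (Box (d + 1) X) (Finset.Ico 1 (C0 * X)) (vw d c b θ) (pw d c b θ) (aw d c b θ) (ww d c b θ) N ≤ S.card := by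
  classical
  subst hs
  set T := (Box (d + 1) X ×ˢ (Box (d + 1) X ×ˢ Finset.Ico 1 (C0 * X))).filter
    (fun p => vw d c b θ p.1 + vw d c b θ p.2.1 + aw d c b θ p.2.2 = N) with hT
  set f : ((Fin (d + 1) → ℕ) × ((Fin (d + 1) → ℕ) × ℕ)) → (Fin (d + 1 + (d + 1) + 1) → ℕ) :=
    fun p => Fin.snoc (α := fun _ => ℕ) (Fin.append p.1 p.2.1) p.2.2 with hf
  have hinj : Function.Injective f := by
    rintro ⟨a1, a2, a3⟩ ⟨b1, b2, b3⟩ h
    simp only [hf] at h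
    have h1 : a3 = b3 := by
      have := congrFun h (Fin.last _)
      simpa using this
    have h2 : Fin.append a1 a2 = Fin.append b1 b2 := by
      funext i
      have := congrFun h (Fin.castSucc i)
      simpa using this
    have h3 : a1 = b1 := by
      funext i
      have := congrFun h2 (Fin.castAdd _ i)
      simpa using this
    have h4 : a2 = b2 := by
      funext i
      have := congrFun h2 (Fin.natAdd _ i)
      rw [Fin.append_right, Fin.append_right] at this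
      exact this
    rw [h1, h3, h4]
  refine ⟨T.image f, ?_, ?_⟩
  · intro n hn
    rw [mem_image] at hn
    obtain ⟨⟨ω, ω', l⟩, hp, rfl⟩ := hn
    rw [hT, mem_filter, mem_product, mem_product] at hp
    obtain ⟨⟨hω, hω', hl⟩, hsum⟩ := hp
    simp only at hω hω' hl hsum
    have hl0 := (Finset.mem_Ico.mp hl).1
    constructor
    · intro i
      simp only [hf]
      refine Fin.lastCases ?_ (fun j => ?_) i
      · simp only [Fin.snoc_last]; omega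
      · simp only [Fin.snoc_castSucc]
        refine Fin.addCases (fun j => ?_) (fun j => ?_) j
        · simp only [Fin.append_left]; exact pos_of_mem_Box hX hω j
        · simp only [Fin.append_right]; exact pos_of_mem_Box hX hω' j
    · simp only [hf]
      rw [Fin.sum_univ_castSucc]
      simp only [Fin.snoc_castSucc, Fin.snoc_last]
      rw [Fin.sum_univ_add]
      simp only [Fin.append_left, Fin.append_right]
      exact hsum
  · rw [card_image_of_injective _ hinj]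
    have : (T.card : ℝ) = ∑ ω ∈ Box (d + 1) X, ∑ ω' ∈ Box (d + 1) X, ∑ l ∈ Finset.Ico 1 (C0 * X),
        (if vw d c b θ ω + vw d c b θ ω' + aw d c b θ l = N then (1 : ℝ) else 0) := by
      rw [hT, card_filter]
      push_cast
      rw [sum_product]
      apply sum_congr rfl; intro ω _
      rw [sum_product]
    rw [this]
    unfold R2
    apply sum_le_sum; intro ω _
    apply sum_le_sum; intro ω' _
    apply sum_le_sum; intro l _
    split_ifs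
    · calc pw d c b θ ω * pw d c b θ ω' * ww d c b θ l ≤ 1 * 1 * 1 := by
            apply mul_le_mul _ (ww_le_one _) (ww_nonneg _) (by norm_num)
            exact mul_le_mul (pw_le_one _) (pw_le_one _) (pw_nonneg _) (by norm_num)
        _ = 1 := by norm_num
    · exact le_rfl

/-- a number which is not a sum of `k + 1` values has `R1 = 0` -/
lemma R1_eq_zero {X C0 : ℕ} (hX : 1 ≤ X) (N : ℤ) (h : ¬ IsSum (PP d c b θ) (d + 2) N) :
    R1 (Box (d + 1) X) (Finset.Ico 1 (C0 * X)) (vw d c b θ) (pw d c b θ) (aw d c b θ) (ww d c b θ) N = 0 := by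
  unfold R1
  apply sum_eq_zero; intro ω hω
  apply sum_eq_zero; intro l hl
  rw [if_neg]
  intro hsum
  apply h
  have hl0 := (Finset.mem_Ico.mp hl).1
  refine ⟨Fin.snoc (α := fun _ => ℕ) ω l, ?_, ?_⟩
  · intro i
    refine Fin.lastCases ?_ (fun j => ?_) i
    · simp only [Fin.snoc_last]; omega
    · simp only [Fin.snoc_castSucc]; exact pos_of_mem_Box hX hω j
  · rw [Fin.sum_univ_castSucc]
    simp only [Fin.snoc_castSucc, Fin.snoc_last]
    exact hsum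

/-- part one: all large integers -/
theorem part1 {v C0 : ℕ} {κ σ : ℝ} (hκ : 0 < κ) {ν0 : ℕ}
    (hcore : ∀ ν : ℕ, ν0 ≤ ν → Core d c b θ v C0 κ σ (2 ^ ν)) (s : ℕ) (hs : s = d + 1 + (d + 1) + 1) :
    ∃ κ' : ℝ, 0 < κ' ∧ ∃ N0 : ℕ, ∀ N : ℕ, N0 ≤ N → ∃ S : Finset (Fin s → ℕ),
      (∀ n ∈ S, (∀ i, 0 < n i) ∧ ∑ i, ⌊PP d c b θ (n i)⌋ = (N : ℤ)) ∧
      κ' * (N : ℝ) ^ (1 + 1 / ((d : ℝ) + 1)) ≤ S.card := by
  set B : ℝ := 2 ^ (d + 1) * (2 * v + 1) with hB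
  have hB0 : 0 < B := by positivity
  have hd0 : (0 : ℝ) < (d : ℝ) + 1 := by positivity
  have hexp : 0 < 1 + 1 / ((d : ℝ) + 1) := by positivity
  refine ⟨κ / B ^ (1 + 1 / ((d : ℝ) + 1)), by positivity, (2 * v + 1) * (2 ^ ν0) ^ (d + 1), ?_⟩
  intro N hN
  obtain ⟨ν, hν, h1, h2⟩ := scale v (d + 1) ν0 N (by omega) hN
  have hc := (hcore ν hν).1 N (by exact_mod_cast h1) (by exact_mod_cast h2.le)
  have hX : 1 ≤ 2 ^ ν := Nat.one_le_two_pow
  obtain ⟨S, hS, hcard⟩ := reps_of_R2 (d := d) (c := c) (b := b) (θ := θ) (X := 2 ^ ν) (C0 := C0) hX N s hs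
  refine ⟨S, hS, ?_⟩
  refine le_trans ?_ (hc.trans hcard)
  generalize hXX : 2 ^ ν = X at *
  have hx0 : (0 : ℝ) < X := by exact_mod_cast hX
  have h3 : (N : ℝ) ≤ B * (X : ℝ) ^ (d + 1) := by
    have : (N : ℝ) ≤ ((2 ^ (d + 1) * ((2 * v + 1) * X ^ (d + 1)) : ℕ) : ℝ) := by exact_mod_cast h2.le
    push_cast at this
    rw [hB]; linarith
  have h4 : (N : ℝ) ^ (1 + 1 / ((d : ℝ) + 1)) ≤ B ^ (1 + 1 / ((d : ℝ) + 1)) * (X : ℝ) ^ (d + 2) := by
    calc (N : ℝ) ^ (1 + 1 / ((d : ℝ) + 1)) ≤ (B * (X : ℝ) ^ (d + 1)) ^ (1 + 1 / ((d : ℝ) + 1)) :=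
          Real.rpow_le_rpow (Nat.cast_nonneg _) h3 hexp.le
      _ = B ^ (1 + 1 / ((d : ℝ) + 1)) * (X : ℝ) ^ (d + 2) := by
          rw [Real.mul_rpow hB0.le (by positivity), ← Real.rpow_natCast (X : ℝ) (d + 1), ← Real.rpow_mul hx0.le,
            ← Real.rpow_natCast (X : ℝ) (d + 2)]
          congr 2
          push_cast
          field_simp
          ring
  calc κ / B ^ (1 + 1 / ((d : ℝ) + 1)) * (N : ℝ) ^ (1 + 1 / ((d : ℝ) + 1))
      ≤ κ / B ^ (1 + 1 / ((d : ℝ) + 1)) * (B ^ (1 + 1 / ((d : ℝ) + 1)) * (X : ℝ) ^ (d + 2)) := by gcongr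
    _ = κ * (X : ℝ) ^ (d + 2) := by
        have : B ^ (1 + 1 / ((d : ℝ) + 1)) ≠ 0 := by positivity
        field_simp

/-- part two: almost all integers -/
theorem part2 {v C0 : ℕ} {κ σ : ℝ} (hσ : 0 < σ) {ν0 : ℕ}
    (hcore : ∀ ν : ℕ, ν0 ≤ ν → Core d c b θ v C0 κ σ (2 ^ ν)) (hd : 1 ≤ d) :
    ∃ σ' : ℝ, 0 < σ' ∧ ∃ N0 : ℕ, ∀ N : ℕ, N0 ≤ N →
      (({m : ℕ | m ≤ N ∧ ¬ IsSum (PP d c b θ) (d + 2) m}.ncard : ℕ) : ℝ) ≤ (N : ℝ) ^ (1 - σ') := by
  classical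
  set σ1 : ℝ := min σ 1 with hσ1
  have hσ10 : 0 < σ1 := lt_min hσ one_pos
  set k : ℝ := (d : ℝ) + 1 with hk
  have hd1 : (1 : ℝ) ≤ d := by exact_mod_cast hd
  have hk2 : 2 ≤ k := by rw [hk]; linarith
  set s : ℝ := σ1 / (4 * k) with hs
  have hs0 : 0 < s := by positivity
  have hs8 : s ≤ 1 / 8 := by
    rw [hs, div_le_div_iff₀ (by positivity) (by norm_num)]
    have := min_le_right σ 1
    rw [← hσ1] at this
    nlinarith
  set M0 : ℕ := (2 * v + 1) * (2 ^ ν0) ^ (d + 1) with hM0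
  obtain ⟨N1, hN1⟩ := big (1 / 2) (2 * M0) (by norm_num)
  obtain ⟨N2, hN2⟩ := big s (2 * (2 / s + 1)) hs0
  refine ⟨2 * s, by linarith, N1 + N2 + 1, ?_⟩
  intro N hN
  have hNpos : 1 ≤ N := by omega
  have hn1 : (1 : ℝ) ≤ N := by exact_mod_cast hNpos
  have hn0 : (0 : ℝ) < N := by linarith
  have g1 := hN1 N (by omega)
  have g2 := hN2 N (by omega)
  -- the exceptional sets
  set K := Nat.log 2 N with hK
  let E : ℕ → Finset ℕ := fun ν => (Finset.range (N + 1)).filter (fun m =>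
    (2 * v + 1) * (2 ^ ν) ^ (d + 1) ≤ m ∧ m < 2 ^ (d + 1) * ((2 * v + 1) * (2 ^ ν) ^ (d + 1)) ∧
      ¬ IsSum (PP d c b θ) (d + 2) m)
  have hsub : {m : ℕ | m ≤ N ∧ ¬ IsSum (PP d c b θ) (d + 2) m} ⊆
      ((Finset.range M0 ∪ (Finset.Icc ν0 K).biUnion E : Finset ℕ) : Set ℕ) := by
    rintro m ⟨hm1, hm2⟩
    rw [Finset.mem_coe, mem_union, mem_biUnion]
    by_cases hm : m < M0
    · left; exact mem_range.mpr hm
    · right
      rw [not_lt] at hm
      obtain ⟨ν, hν, h1, h2⟩ := scale v (d + 1) ν0 m (by omega) hm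
      refine ⟨ν, ?_, ?_⟩
      · rw [Finset.mem_Icc]
        refine ⟨hν, ?_⟩
        rw [hK]
        apply Nat.le_log_of_pow_le (by norm_num)
        calc 2 ^ ν ≤ (2 ^ ν) ^ (d + 1) := Nat.le_self_pow (by omega) _
          _ ≤ (2 * v + 1) * (2 ^ ν) ^ (d + 1) := Nat.le_mul_of_pos_left _ (by omega)
          _ ≤ N := h1.trans hm1
      · simp only [E, mem_filter, mem_range]
        exact ⟨by omega, h1, h2, hm2⟩
  have hcardE : ∀ ν ∈ Finset.Icc ν0 K, ((E ν).card : ℝ) ≤ (N : ℝ) ^ (1 - 4 * s) := by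
    intro ν hν
    rw [Finset.mem_Icc] at hν
    by_cases hE : E ν = ∅
    · rw [hE, card_empty, Nat.cast_zero]; exact Real.rpow_nonneg hn0.le _
    have hX : 1 ≤ 2 ^ ν := Nat.one_le_two_pow
    have h1 := (hcore ν hν.1).2 ((E ν).map Nat.castEmbedding) (by
      intro M hM
      rw [mem_map] at hM
      obtain ⟨m, hm, rfl⟩ := hM
      simp only [E, mem_filter, mem_range] at hm
      obtain ⟨_, h1, h2, h3⟩ := hm
      refine ⟨?_, ?_, ?_⟩
      · simp only [Nat.castEmbedding_apply]; exact_mod_cast h1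
      · simp only [Nat.castEmbedding_apply]; exact_mod_cast h2.le
      · simp only [Nat.castEmbedding_apply]
        exact R1_eq_zero hX _ h3)
    rw [card_map] at h1
    refine h1.trans ?_
    -- (2^ν)^(k-σ) ≤ N^(1-σ1/k)
    obtain ⟨m, hm⟩ := Finset.nonempty_iff_ne_empty.mpr hE
    simp only [E, mem_filter, mem_range] at hm
    have h2 : (2 ^ ν) ^ (d + 1) ≤ N := by
      calc (2 ^ ν) ^ (d + 1) ≤ (2 * v + 1) * (2 ^ ν) ^ (d + 1) := Nat.le_mul_of_pos_left _ (by omega)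
        _ ≤ N := by omega
    generalize hXX : 2 ^ ν = X at *
    have hx1 : (1 : ℝ) ≤ X := by exact_mod_cast hX
    have hx0 : (0 : ℝ) < X := by linarith
    have h3 : (X : ℝ) ^ k ≤ N := by
      have : (X : ℝ) ^ (d + 1) ≤ N := by exact_mod_cast h2
      rw [hk]
      rw [← Real.rpow_natCast] at this
      push_cast at this
      exact this
    have h4 : 0 ≤ 1 - 4 * s := by linarith
    calc (X : ℝ) ^ ((d : ℝ) + 1 - σ) ≤ (X : ℝ) ^ (k - σ1) := by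
          apply Real.rpow_le_rpow_of_exponent_le hx1
          have := min_le_left σ 1
          rw [hk]; linarith
      _ = ((X : ℝ) ^ k) ^ (1 - 4 * s) := by
          rw [← Real.rpow_mul hx0.le]
          congr 1
          rw [hs]; field_simp
      _ ≤ (N : ℝ) ^ (1 - 4 * s) := Real.rpow_le_rpow (Real.rpow_nonneg hx0.le _) h3 h4
  have hncard : (({m : ℕ | m ≤ N ∧ ¬ IsSum (PP d c b θ) (d + 2) m}.ncard : ℕ) : ℝ) ≤
      (M0 : ℝ) + ((K : ℝ) + 1) * (N : ℝ) ^ (1 - 4 * s) := by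
    have h1 : {m : ℕ | m ≤ N ∧ ¬ IsSum (PP d c b θ) (d + 2) m}.ncard ≤
        (Finset.range M0 ∪ (Finset.Icc ν0 K).biUnion E).card := by
      rw [← Set.ncard_coe_finset]
      exact Set.ncard_le_ncard hsub (Finset.finite_toSet _)
    have h2 : (Finset.range M0 ∪ (Finset.Icc ν0 K).biUnion E).card ≤ M0 + ∑ ν ∈ Finset.Icc ν0 K, (E ν).card := by
      refine (card_union_le _ _).trans ?_
      rw [card_range]
      exact Nat.add_le_add_left card_biUnion_le _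
    have h3 : (({m : ℕ | m ≤ N ∧ ¬ IsSum (PP d c b θ) (d + 2) m}.ncard : ℕ) : ℝ) ≤
        ((M0 + ∑ ν ∈ Finset.Icc ν0 K, (E ν).card : ℕ) : ℝ) := by exact_mod_cast h1.trans h2
    refine h3.trans ?_
    push_cast
    have h4 : ∑ ν ∈ Finset.Icc ν0 K, ((E ν).card : ℝ) ≤ ((K : ℝ) + 1) * (N : ℝ) ^ (1 - 4 * s) := by
      calc ∑ ν ∈ Finset.Icc ν0 K, ((E ν).card : ℝ) ≤ ∑ _ν ∈ Finset.Icc ν0 K, (N : ℝ) ^ (1 - 4 * s) :=
            sum_le_sum hcardE
        _ = ((Finset.Icc ν0 K).card : ℝ) * (N : ℝ) ^ (1 - 4 * s) := by rw [sum_const, nsmul_eq_mul]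
        _ ≤ ((K : ℝ) + 1) * (N : ℝ) ^ (1 - 4 * s) := by
            apply mul_le_mul_of_nonneg_right _ (Real.rpow_nonneg hn0.le _)
            rw [Nat.card_Icc]
            have : K + 1 - ν0 ≤ K + 1 := Nat.sub_le _ _
            exact_mod_cast this
    linarith
  refine hncard.trans ?_
  have hKb : (K : ℝ) + 1 ≤ (2 / s + 1) * (N : ℝ) ^ s := by
    have h1 : (K : ℝ) ≤ Real.logb 2 N := by
      have := Real.natLog_le_logb N 2
      rw [hK]; exact_mod_cast this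
    have h2 : Real.logb 2 N ≤ 2 * Real.log N := by
      rw [Real.logb, div_le_iff₀ (Real.log_pos (by norm_num))]
      have h3 : (1 / 2 : ℝ) ≤ Real.log 2 := by
        have := Real.log_two_gt_d9
        linarith
      have h4 : 0 ≤ Real.log N := Real.log_nonneg hn1
      nlinarith
    have h3 : Real.log N ≤ (N : ℝ) ^ s / s := Real.log_le_rpow_div hn0.le hs0
    have h4 : (1 : ℝ) ≤ (N : ℝ) ^ s := Real.one_le_rpow hn1 hs0.le
    calc (K : ℝ) + 1 ≤ 2 * ((N : ℝ) ^ s / s) + (N : ℝ) ^ s := by linarith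
      _ = (2 / s + 1) * (N : ℝ) ^ s := by ring
  have t1 : (M0 : ℝ) ≤ (N : ℝ) ^ (1 - 2 * s) / 2 := by
    have : (N : ℝ) ^ (1 / 2 : ℝ) ≤ (N : ℝ) ^ (1 - 2 * s) :=
      Real.rpow_le_rpow_of_exponent_le hn1 (by linarith)
    linarith
  have t2 : ((K : ℝ) + 1) * (N : ℝ) ^ (1 - 4 * s) ≤ (N : ℝ) ^ (1 - 2 * s) / 2 := by
    have e1 : (N : ℝ) ^ (1 - 2 * s) = (N : ℝ) ^ s * ((N : ℝ) ^ s * (N : ℝ) ^ (1 - 4 * s)) := by
      rw [← Real.rpow_add hn0, ← Real.rpow_add hn0]; congr 1; ring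
    have hp : 0 < (N : ℝ) ^ s * (N : ℝ) ^ (1 - 4 * s) := mul_pos (Real.rpow_pos_of_pos hn0 _) (Real.rpow_pos_of_pos hn0 _)
    calc ((K : ℝ) + 1) * (N : ℝ) ^ (1 - 4 * s) ≤ ((2 / s + 1) * (N : ℝ) ^ s) * (N : ℝ) ^ (1 - 4 * s) := by gcongr
      _ = (2 * (2 / s + 1)) * ((N : ℝ) ^ s * (N : ℝ) ^ (1 - 4 * s)) / 2 := by ring
      _ ≤ (N : ℝ) ^ s * ((N : ℝ) ^ s * (N : ℝ) ^ (1 - 4 * s)) / 2 := by gcongr
      _ = (N : ℝ) ^ (1 - 2 * s) / 2 := by rw [e1]
  linarith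

end Pool.Agent.N604.MW
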