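import Mathlib
import Pool.Agent.N604.MW.PAsm2
import Pool.Agent.N604.MW.Stm3

/-!
# Project PD: the circle method for one scale (generic diagonal forms in primes)
-/

namespace Pool.Agent.N604.MW

open Finset MeasureTheory

/-- tuples in `[X, 2X] ^ k` -/
def DBox (k X : ℕ) : Finset (Fin k → ℕ) := Fintype.piFinset fun _ => Finset.Icc X (2 * X)

/-- value -/
noncomputable def dv (k : ℕ) (α : Fin k → ℝ) (n : Fin k → ℕ) : ℤ := ∑ i, ⌊α i * (n i : ℝ) ^ k⌋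

/-- weight -/
noncomputable def dp (k : ℕ) (α : Fin k → ℝ) (n : Fin k → ℕ) : ℝ :=
  ∏ i, (lam (n i) * Real.sin (Real.pi * (α i * (n i : ℝ) ^ k)) ^ 2)

/-- value of one variable -/
noncomputable def da (k : ℕ) (a : ℝ) (l : ℕ) : ℤ := ⌊a * (l : ℝ) ^ k⌋

/-- weight of one variable -/
noncomputable def dw (k : ℕ) (a : ℝ) (l : ℕ) : ℝ := lam l * Real.sin (Real.pi * (a * (l : ℝ) ^ k)) ^ 2

lemma dw_nonneg (k : ℕ) (a : ℝ) (l : ℕ) : 0 ≤ dw k a l := mul_nonneg (lam_nonneg l) (sq_nonneg _)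

lemma dw_le (k : ℕ) (a : ℝ) (l : ℕ) : dw k a l ≤ lam l :=
  mul_le_of_le_one_right (lam_nonneg l) (Real.sin_sq_le_one _)

lemma dp_nonneg (k : ℕ) (α : Fin k → ℝ) (n : Fin k → ℕ) : 0 ≤ dp k α n :=
  prod_nonneg fun _ _ => mul_nonneg (lam_nonneg _) (sq_nonneg _)

lemma DBox_le {k X : ℕ} {n : Fin k → ℕ} (hn : n ∈ DBox k X) (i : Fin k) : n i ≤ 2 * X := by
  unfold DBox at hn
  rw [Fintype.mem_piFinset] at hn
  exact (Finset.mem_Icc.mp (hn i)).2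

lemma dp_le {k X : ℕ} {α : Fin k → ℝ} {B : ℝ} (hB : ∀ n, n ≤ 2 * X → lam n ≤ B)
    {n : Fin k → ℕ} (hn : n ∈ DBox k X) : dp k α n ≤ B ^ k := by
  unfold dp
  calc ∏ i, (lam (n i) * Real.sin (Real.pi * (α i * (n i : ℝ) ^ k)) ^ 2) ≤ ∏ _i : Fin k, B := by
        apply prod_le_prod
        · intro i _; exact mul_nonneg (lam_nonneg _) (sq_nonneg _)
        · intro i _
          exact (mul_le_of_le_one_right (lam_nonneg _) (Real.sin_sq_le_one _)).trans (hB _ (DBox_le hn i))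
    _ = B ^ k := by rw [prod_const, card_univ, Fintype.card_fin]

lemma dclose {k : ℕ} {α : Fin k → ℝ} {n m : Fin k → ℕ} (h : dv k α n = dv k α m) :
    |∑ i, α i * (((n i : ℝ)) ^ k - ((m i : ℝ)) ^ k)| ≤ (k : ℝ) := by
  have h1 : ∑ i, α i * (((n i : ℝ)) ^ k - ((m i : ℝ)) ^ k) =
      ∑ i, (Int.fract (α i * (n i : ℝ) ^ k) - Int.fract (α i * (m i : ℝ) ^ k)) := by
    have h2 : ∀ i, α i * (((n i : ℝ)) ^ k - ((m i : ℝ)) ^ k) =
        ((⌊α i * (n i : ℝ) ^ k⌋ : ℝ) - (⌊α i * (m i : ℝ) ^ k⌋ : ℝ)) +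
        (Int.fract (α i * (n i : ℝ) ^ k) - Int.fract (α i * (m i : ℝ) ^ k)) := by
      intro i
      have e1 := Int.floor_add_fract (α i * (n i : ℝ) ^ k)
      have e2 := Int.floor_add_fract (α i * (m i : ℝ) ^ k)
      linarith
    rw [sum_congr rfl fun i _ => h2 i, sum_add_distrib]
    have h3 : ∑ i, ((⌊α i * (n i : ℝ) ^ k⌋ : ℝ) - (⌊α i * (m i : ℝ) ^ k⌋ : ℝ)) = 0 := by
      rw [sum_sub_distrib]
      have := congrArg (Int.cast (R := ℝ)) h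
      unfold dv at this
      push_cast at this
      linarith
    rw [h3, zero_add]
  rw [h1]
  calc |∑ i, (Int.fract (α i * (n i : ℝ) ^ k) - Int.fract (α i * (m i : ℝ) ^ k))|
      ≤ ∑ i, |Int.fract (α i * (n i : ℝ) ^ k) - Int.fract (α i * (m i : ℝ) ^ k)| := abs_sum_le_sum_abs _ _
    _ ≤ ∑ _i : Fin k, (1 : ℝ) := by
        apply sum_le_sum
        intro i _
        rw [abs_le]
        have a1 := Int.fract_nonneg (α i * (n i : ℝ) ^ k)
        have a2 := Int.fract_lt_one (α i * (n i : ℝ) ^ k)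
        have a3 := Int.fract_nonneg (α i * (m i : ℝ) ^ k)
        have a4 := Int.fract_lt_one (α i * (m i : ℝ) ^ k)
        constructor <;> linarith
    _ = (k : ℝ) := by simp

lemma dEn_le {k X : ℕ} {α : Fin k → ℝ} {B : ℝ} (hB0 : 0 ≤ B) (hB : ∀ n, n ≤ 2 * X → lam n ≤ B) :
    En (DBox k X) (dv k α) (dp k α) ≤ (B ^ k) ^ 2 * ((DPairs k α X).card : ℝ) := by
  classical
  have hP : (B ^ k) ^ 2 * ((DPairs k α X).card : ℝ) = ∑ ω ∈ DBox k X, ∑ ω' ∈ DBox k X,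
        (if |∑ i, α i * (((ω i : ℝ)) ^ k - ((ω' i : ℝ)) ^ k)| ≤ (k : ℝ) then (B ^ k) ^ 2 else 0) := by
    calc (B ^ k) ^ 2 * ((DPairs k α X).card : ℝ) = ((DPairs k α X).card : ℝ) * (B ^ k) ^ 2 := by ring
      _ = ∑ p ∈ DBox k X ×ˢ DBox k X,
        (if |∑ i, α i * (((p.1 i : ℝ)) ^ k - ((p.2 i : ℝ)) ^ k)| ≤ (k : ℝ) then (B ^ k) ^ 2 else 0) := by
          rw [← sum_filter, sum_const, nsmul_eq_mul]
          unfold DPairs DBox
          congr!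
      _ = _ := by rw [sum_product]
  rw [hP]
  unfold En
  apply sum_le_sum; intro ω hω
  apply sum_le_sum; intro ω' hω'
  have hBp : 0 ≤ B ^ k := pow_nonneg hB0 _
  by_cases h : dv k α ω = dv k α ω'
  · rw [if_pos h, if_pos (dclose h), sq]
    exact mul_le_mul (dp_le hB hω) (dp_le hB hω') (dp_nonneg _ _ _) hBp
  · rw [if_neg h]
    split_ifs
    · positivity
    · exact le_rfl

lemma dmass_ge {k X : ℕ} {α : Fin k → ℝ} {κ : ℝ} (hκ : 0 ≤ κ)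
    (h : ∀ i, κ * (X : ℝ) ≤ ∑ n ∈ Finset.Icc X (2 * X), dw k (α i) n) :
    (κ * (X : ℝ)) ^ k ≤ ∑ ω ∈ DBox k X, dp k α ω := by
  have h1 : ∑ ω ∈ DBox k X, dp k α ω = ∏ i : Fin k, ∑ n ∈ Finset.Icc X (2 * X), dw k (α i) n := by
    rw [prod_univ_sum]; rfl
  rw [h1]
  calc (κ * (X : ℝ)) ^ k = ∏ _i : Fin k, (κ * (X : ℝ)) := by
        rw [prod_const, card_univ, Fintype.card_fin]
    _ ≤ _ := by
      apply prod_le_prod
      · intro i _; positivity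
      · intro i _; exact h i

lemma e_add' (x y : ℝ) : e (x + y) = e x * e y := by
  unfold e
  rw [← Complex.exp_add]; congr 1; push_cast; ring

lemma e_sum {ι : Type} (s : Finset ι) (f : ι → ℝ) : e (∑ i ∈ s, f i) = ∏ i ∈ s, e (f i) := by
  classical
  induction s using Finset.induction_on with
  | empty => simp [e]
  | insert i s hi ih => rw [sum_insert hi, prod_insert hi, e_add', ih]

/-- the exponential sum of the tuples is a product -/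
lemma dU_eq {k X : ℕ} {α : Fin k → ℝ} (β : ℝ) :
    ∑ ω ∈ DBox k X, (dp k α ω : ℂ) * e (β * dv k α ω) = ∏ i, TT k (α i) X (X + 1) β := by
  have h1 : ∀ i : Fin k, TT k (α i) X (X + 1) β =
      ∑ n ∈ Finset.Icc X (2 * X), ((dw k (α i) n : ℝ) : ℂ) * e (β * (⌊α i * (n : ℝ) ^ k⌋ : ℤ)) := by
    intro i
    have e1 : Finset.Icc X (2 * X) = Finset.Ico X (2 * X + 1) := by
      ext x; simp only [Finset.mem_Icc, Finset.mem_Ico]; omega
    rw [e1, Finset.sum_Ico_eq_sum_range, show 2 * X + 1 - X = X + 1 by omega]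
    rfl
  rw [prod_congr rfl fun i _ => h1 i, prod_univ_sum]
  apply sum_congr rfl
  intro ω _
  rw [prod_mul_distrib]
  congr 1
  · unfold dp dw
    push_cast
    rfl
  · unfold dv
    push_cast
    rw [mul_sum, e_sum]

lemma dU_le {k X : ℕ} {α : Fin k → ℝ} (β t : ℝ) (ht : 0 ≤ t) (h : ∀ i, ‖TT k (α i) X (X + 1) β‖ ≤ t) :
    ‖∑ ω ∈ DBox k X, (dp k α ω : ℂ) * e (β * dv k α ω)‖ ≤ t ^ k := by
  rw [dU_eq, norm_prod]
  calc ∏ i, ‖TT k (α i) X (X + 1) β‖ ≤ ∏ _i : Fin k, t := prod_le_prod (fun _ _ => norm_nonneg _) fun i _ => h i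
    _ = t ^ k := by rw [prod_const, card_univ, Fintype.card_fin]

lemma window_R3 {Ω Λ : Type} (P P' : Finset Ω) (L : Finset Λ) (v v' : Ω → ℤ) (p p' : Ω → ℝ) (a : Λ → ℤ) (w : Λ → ℝ)
    (W : ℕ) (N : ℤ) : ∑ h ∈ range W, R3 P P' L v v' p p' a w (N + h) =
      ∑ ω ∈ P, ∑ ω' ∈ P', p ω * p' ω' * ∑ l ∈ L.filter
        (fun l => N - v ω - v' ω' ≤ a l ∧ a l < N - v ω - v' ω' + W), w l := by
  unfold R3
  rw [sum_comm]
  apply sum_congr rfl; intro ω _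
  rw [sum_comm]
  apply sum_congr rfl; intro ω' _
  rw [sum_comm, mul_sum, sum_filter]
  apply sum_congr rfl; intro l _
  rw [window_count]
  by_cases h : N - v ω - v' ω' ≤ a l ∧ a l < N - v ω - v' ω' + W
  · rw [if_pos h, if_pos]
    constructor <;> linarith [h.1, h.2]
  · rw [if_neg h, if_neg]
    intro hc
    apply h
    constructor <;> linarith [hc.1, hc.2]

lemma R3_window_ge {Ω Λ : Type} (P P' : Finset Ω) (L : Finset Λ) (v v' : Ω → ℤ) (p p' : Ω → ℝ) (a : Λ → ℤ) (w : Λ → ℝ)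
    (W : ℕ) (N : ℤ) (hp : ∀ ω, 0 ≤ p ω) (hp' : ∀ ω, 0 ≤ p' ω) (q : ℝ) (lo hi : ℤ)
    (hv : ∀ ω ∈ P, 0 ≤ v ω ∧ v ω ≤ hi) (hv' : ∀ ω ∈ P', 0 ≤ v' ω ∧ v' ω ≤ hi) (hN : lo + 2 * hi ≤ N)
    (hq : ∀ M : ℤ, lo ≤ M → M ≤ N → q ≤ ∑ l ∈ L.filter (fun l => M ≤ a l ∧ a l < M + W), w l) :
    (∑ ω ∈ P, p ω) * (∑ ω ∈ P', p' ω) * q ≤ ∑ h ∈ range W, R3 P P' L v v' p p' a w (N + h) := by
  rw [window_R3, sum_mul_sum, sum_mul]
  apply sum_le_sum; intro ω hω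
  rw [sum_mul]
  apply sum_le_sum; intro ω' hω'
  have h1 := hv ω hω
  have h2 := hv' ω' hω'
  apply mul_le_mul_of_nonneg_left _ (mul_nonneg (hp _) (hp' _))
  apply hq <;> linarith

end Pool.Agent.N604.MW
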