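import Mathlib
import Pool.Agent.N604.MW.DAsm1

/-!
# Project PD: the core (one scale) for generic diagonal forms in primes
-/

namespace Pool.Agent.N604.MW

open Finset MeasureTheory

/-- the mean value property of a diagonal form -/
def DMeanP (k : ℕ) (α : Fin k → ℝ) : Prop := ∀ ε : ℝ, 0 < ε → ∃ ν0 : ℕ, ∀ ν : ℕ,
  ν0 ≤ ν → ((DPairs k α (2 ^ ν)).card : ℝ) ≤ ((2 : ℝ) ^ ν) ^ ((k : ℝ) + ε)

/-- the two conclusions for one scale -/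
def CoreD (k : ℕ) (α α' : Fin k → ℝ) (a : ℝ) (v C0 : ℕ) (κ σ : ℝ) (X : ℕ) : Prop :=
  (∀ N : ℤ, (2 * v + 1) * (X : ℤ) ^ k ≤ N → N ≤ 2 ^ k * ((2 * v + 1) * (X : ℤ) ^ k) →
    κ * (X : ℝ) ^ (k + 1) ≤ R3 (DBox k X) (DBox k X) (Finset.Ico 1 (C0 * X)) (dv k α) (dv k α') (dp k α) (dp k α')
      (da k a) (dw k a) N) ∧
  (∀ S : Finset ℤ, (∀ N ∈ S, (2 * v + 1) * (X : ℤ) ^ k ≤ N ∧ N ≤ 2 ^ k * ((2 * v + 1) * (X : ℤ) ^ k) ∧
      R1 (DBox k X) (Finset.Ico 1 (C0 * X)) (dv k α) (dp k α) (da k a) (dw k a) N = 0) →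
    (S.card : ℝ) ≤ (X : ℝ) ^ ((k : ℝ) - σ))

lemma dsize {k : ℕ} (α : Fin k → ℝ) (hα : ∀ i, 0 < α i) : ∃ v : ℕ, ∀ (X : ℕ) (n : Fin k → ℕ), n ∈ DBox k X →
    0 ≤ dv k α n ∧ dv k α n ≤ v * (X : ℤ) ^ k := by
  refine ⟨⌈∑ i, α i * 2 ^ k⌉₊, fun X n hn => ?_⟩
  unfold dv
  constructor
  · apply sum_nonneg; intro i _
    exact Int.floor_nonneg.mpr (mul_nonneg (hα i).le (by positivity))
  · have h1 : ((∑ i, ⌊α i * (n i : ℝ) ^ k⌋ : ℤ) : ℝ) ≤ (⌈∑ i, α i * 2 ^ k⌉₊ : ℝ) * (X : ℝ) ^ k := by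
      push_cast
      calc ∑ i, (⌊α i * (n i : ℝ) ^ k⌋ : ℝ) ≤ ∑ i, α i * (n i : ℝ) ^ k := sum_le_sum fun i _ => Int.floor_le _
        _ ≤ ∑ i, (α i * 2 ^ k) * (X : ℝ) ^ k := by
            apply sum_le_sum; intro i _
            have h2 : (n i : ℝ) ≤ 2 * X := by exact_mod_cast DBox_le hn i
            calc α i * (n i : ℝ) ^ k ≤ α i * (2 * (X : ℝ)) ^ k := by
                  have := (hα i).le
                  gcongr
              _ = (α i * 2 ^ k) * (X : ℝ) ^ k := by rw [mul_pow]; ring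
        _ = (∑ i, α i * 2 ^ k) * (X : ℝ) ^ k := by rw [sum_mul]
        _ ≤ _ := by
            apply mul_le_mul_of_nonneg_right (Nat.le_ceil _) (by positivity)
    exact_mod_cast h1

/-- uniform exclusion -/
lemma dexcl_all (hEX : S_DEXCL) {k : ℕ} (hk : 2 ≤ k) (α : Fin k → ℝ) (a : ℝ) (hα : ∀ i, 0 < α i) (ha : 0 < a)
    (h2 : ∀ i, Dio2 (α i) a) (C0 : ℕ) (δ : ℝ) (hδ : 0 < δ) :
    ∃ σ : ℝ, 0 < σ ∧ σ ≤ 1 ∧ ∃ X0 : ℕ, ∀ X A L A' L' : ℕ, X0 ≤ X → A + L ≤ C0 * X → A' + L' ≤ C0 * X → ∀ β : ℝ,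
      (X : ℝ) ^ (-(k : ℝ) + δ) ≤ |β| → |β| ≤ 1 / 2 →
      ‖TT k a A' L' β‖ ≤ (X : ℝ) ^ (1 - σ) ∨ ∀ i, ‖TT k (α i) A L β‖ ≤ (X : ℝ) ^ (1 - σ) := by
  choose s hs0 hs1 X0 hX0 using fun i => hEX k (α i) a C0 δ hk (hα i) ha (h2 i) hδ
  haveI : Nonempty (Fin k) := ⟨⟨0, by omega⟩⟩
  obtain ⟨i0, hi0⟩ := Finite.exists_min s
  refine ⟨s i0, hs0 i0, hs1 i0, ∑ i, X0 i + 1, ?_⟩
  intro X A L A' L' hX hA hA' β hβ1 hβ2
  have hx1 : (1 : ℝ) ≤ X := by exact_mod_cast (by omega : 1 ≤ X)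
  have hXi : ∀ i, X0 i ≤ X := fun i =>
    (Finset.single_le_sum (f := X0) (fun _ _ => Nat.zero_le _) (mem_univ i)).trans (by omega)
  have hmono : ∀ i, (X : ℝ) ^ (1 - s i) ≤ (X : ℝ) ^ (1 - s i0) := fun i =>
    Real.rpow_le_rpow_of_exponent_le hx1 (by linarith [hi0 i])
  by_cases hT : ‖TT k a A' L' β‖ ≤ (X : ℝ) ^ (1 - s i0)
  · exact Or.inl hT
  · right
    intro i
    rcases hX0 i X A L A' L' (hXi i) hA hA' β hβ1 hβ2 with h | h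
    · exact h.trans (hmono i)
    · exact absurd (h.trans (hmono i)) hT

theorem dcore (hEX : S_DEXCL) (hCOV : S_DCOV) (hLOW : S_DLOW) (hMASS : S_DMASS) (hC1 : S_DCIRC1) (hC2 : S_DCIRC2)
    {k : ℕ} (hk : 2 ≤ k) (α α' : Fin k → ℝ) (a : ℝ) (hα : ∀ i, 0 < α i) (hα' : ∀ i, 0 < α' i) (ha : 0 < a)
    (d1 : ∀ i, Dio1 (α i)) (d1' : ∀ i, Dio1 (α' i)) (d1a : Dio1 a) (d2 : ∀ i, Dio2 (α i) a) (d2' : ∀ i, Dio2 (α' i) a)
    (hM : DMeanP k α) (hM' : DMeanP k α') :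
    ∃ v C0 : ℕ, ∃ κ σ : ℝ, 0 < κ ∧ 0 < σ ∧ ∃ ν0 : ℕ, ∀ ν : ℕ, ν0 ≤ ν → CoreD k α α' a v C0 κ σ (2 ^ ν) := by
  obtain ⟨v1, hv1⟩ := dsize α hα
  obtain ⟨v2, hv2⟩ := dsize α' hα'
  set v : ℕ := v1 + v2 with hvdef
  haveI : Nonempty (Fin k) := ⟨⟨0, by omega⟩⟩
  -- masses
  choose κs hκs0 Xs hXs using fun i => hMASS k (α i) hk (hα i) (d1 i)
  choose κs' hκs0' Xs' hXs' using fun i => hMASS k (α' i) hk (hα' i) (d1' i)
  obtain ⟨i0, hi0⟩ := Finite.exists_min κs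
  obtain ⟨i0', hi0'⟩ := Finite.exists_min κs'
  set κm : ℝ := min (κs i0) (κs' i0') with hκm
  have hκm0 : 0 < κm := lt_min (hκs0 i0) (hκs0' i0')
  obtain ⟨C0, κL, σL, hκL, hσL, Xc, hlow⟩ := hLOW k a hk ha d1a (2 ^ k * (2 * v + 1)) (by
    have h1 : (1 : ℝ) ≤ 2 ^ k := one_le_pow₀ (by norm_num)
    have h2 : (1 : ℝ) ≤ 2 * (v : ℝ) + 1 := by
      have : (0 : ℝ) ≤ v := Nat.cast_nonneg v
      linarith
    calc (1 : ℝ) = 1 * 1 := by ring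
      _ ≤ _ := mul_le_mul h1 h2 (by norm_num) (by linarith))
  set δ : ℝ := min σL 1 / 4 with hδ
  have hm0 : 0 < min σL 1 := lt_min hσL one_pos
  have hδ0 : 0 < δ := by rw [hδ]; linarith
  have hδσ : 3 * δ ≤ σL := by
    have := min_le_left σL 1
    rw [hδ]; linarith
  set D0 : ℕ := C0 + 3 with hD0
  obtain ⟨σa, hσa, hσa1, Xd, hex⟩ := dexcl_all hEX hk α a hα ha d2 D0 δ hδ0
  obtain ⟨σb, hσb, hσb1, Xd', hex'⟩ := dexcl_all hEX hk α' a hα' ha d2' D0 δ hδ0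
  set σ0 : ℝ := min σa σb with hσ0
  have hσ00 : 0 < σ0 := lt_min hσa hσb
  have hσ01 : σ0 ≤ 1 := (min_le_left _ _).trans hσa1
  obtain ⟨m, hm, hcov⟩ := hCOV k a D0 hk ha
  set σ1 : ℝ := min σ0 (σ0 / (2 * m)) with hσ1
  have hσ10 : 0 < σ1 := lt_min hσ00 (by positivity)
  have hσ1a : σ1 ≤ σ0 := min_le_left _ _
  have hσ1m : m * σ1 ≤ σ0 / 2 := by
    have h := min_le_right σ0 (σ0 / (2 * m))
    rw [← hσ1] at h
    calc m * σ1 ≤ m * (σ0 / (2 * m)) := by gcongr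
      _ = σ0 / 2 := by field_simp
  obtain ⟨Xj, hJ⟩ := hcov σ1 hσ10 (hσ1a.trans hσ01)
  have hk0 : (0 : ℝ) < k := by exact_mod_cast (by omega : 0 < k)
  have hk2 : (2 : ℝ) ≤ k := by exact_mod_cast hk
  set ε : ℝ := min (δ / 2) (σ1 / (8 * k)) with hε
  have hε0 : 0 < ε := lt_min (by linarith) (by positivity)
  have hε1 : ε ≤ δ / 2 := min_le_left _ _
  have hε2 : ε * (2 * k) ≤ σ1 / 4 := by
    have h := min_le_right (δ / 2) (σ1 / (8 * k))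
    rw [← hε] at h
    calc ε * (2 * k) ≤ (σ1 / (8 * k)) * (2 * k) := by gcongr
      _ = σ1 / 4 := by field_simp; ring
  have hε3 : ε ≤ σ0 / 2 := by nlinarith
  obtain ⟨Xe, hbd⟩ := lam_bound (C0 + 2) ε hε0
  obtain ⟨νe, hmean⟩ := hM (σ1 / 4) (by linarith)
  obtain ⟨νe', hmean'⟩ := hM' (σ1 / 4) (by linarith)
  obtain ⟨X1, h1⟩ := big (3 * δ) 2 (by linarith)
  obtain ⟨X2, h2⟩ := big (δ / 2) (64 * C0 / κL) (by linarith)
  obtain ⟨X3, h3⟩ := big (σ1 / 2) ((2 + 4 * C0) * 4 / (κL * κm ^ (2 * k))) (by linarith)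
  obtain ⟨X4, h4⟩ := big (σ1 / 2) ((4 + 8 * C0 ^ 2) * ((2 / κL) / κm ^ k) ^ 2) (by linarith)
  refine ⟨v, C0, κL / 4 * κm ^ (2 * k), σ1 / 2, by positivity, by linarith,
    ∑ i, Xs i + ∑ i, Xs' i + Xc + Xd + Xd' + Xj + Xe + νe + νe' + X1 + X2 + X3 + X4 + 1, ?_⟩
  intro ν hν
  have hXν : ν < 2 ^ ν := Nat.lt_two_pow_self
  replace hmean := hmean ν (by omega)
  replace hmean' := hmean' ν (by omega)
  have hcast : ((2 : ℝ) ^ ν) = ((2 ^ ν : ℕ) : ℝ) := by push_cast; ring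
  rw [hcast] at hmean hmean'
  generalize hX : 2 ^ ν = X at hmean hmean' hXν
  have hXc : Xc ≤ X := by omega
  have hXd : Xd ≤ X := by omega
  have hXd' : Xd' ≤ X := by omega
  have hXsi : ∀ i, Xs i ≤ X := fun i =>
    (Finset.single_le_sum (f := Xs) (fun _ _ => Nat.zero_le _) (mem_univ i)).trans (by omega)
  have hXsi' : ∀ i, Xs' i ≤ X := fun i =>
    (Finset.single_le_sum (f := Xs') (fun _ _ => Nat.zero_le _) (mem_univ i)).trans (by omega)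
  obtain ⟨J, hJcard, hJcov⟩ := hJ X (by omega)
  replace hbd := hbd X (by omega)
  replace h1 := h1 X (by omega)
  replace h2 := h2 X (by omega)
  replace h3 := h3 X (by omega)
  replace h4 := h4 X (by omega)
  have hX1 : 1 ≤ X := by omega
  have hx1 : (1 : ℝ) ≤ X := by exact_mod_cast hX1
  have hx0 : (0 : ℝ) < X := by linarith
  clear hν
  -- the window
  set W : ℕ := ⌈(X : ℝ) ^ ((k : ℝ) - 3 * δ)⌉₊ with hW
  have hWlo : (X : ℝ) ^ ((k : ℝ) - 3 * δ) ≤ W := Nat.le_ceil _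
  have hWpos : (0 : ℝ) < (X : ℝ) ^ ((k : ℝ) - 3 * δ) := Real.rpow_pos_of_pos hx0 _
  have hexp0 : 0 ≤ (k : ℝ) - 3 * δ := by
    have e1 : δ ≤ 1 / 4 := by
      have := min_le_right σL 1
      rw [hδ]; linarith
    linarith
  have hW1' : (1 : ℝ) ≤ (X : ℝ) ^ ((k : ℝ) - 3 * δ) := Real.one_le_rpow hx1 hexp0
  have hWhi : (W : ℝ) ≤ 2 * (X : ℝ) ^ ((k : ℝ) - 3 * δ) := by
    have := Nat.ceil_lt_add_one hWpos.le
    rw [← hW] at this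
    linarith
  have hW1 : 1 ≤ W := by
    have : (1 : ℝ) ≤ W := hW1'.trans hWlo
    exact_mod_cast this
  have hW0 : (0 : ℝ) < W := by exact_mod_cast hW1
  have hxk : (X : ℝ) ^ (k : ℝ) = (X : ℝ) ^ k := Real.rpow_natCast _ _
  have hWX : (W : ℝ) ≤ (X : ℝ) ^ k := by
    calc (W : ℝ) ≤ 2 * (X : ℝ) ^ ((k : ℝ) - 3 * δ) := hWhi
      _ ≤ (X : ℝ) ^ (3 * δ) * (X : ℝ) ^ ((k : ℝ) - 3 * δ) := by gcongr
      _ = (X : ℝ) ^ k := by
          rw [← Real.rpow_add hx0, ← hxk]; congr 1; ring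
  have hWL : (X : ℝ) ^ ((k : ℝ) - σL) ≤ W := by
    refine le_trans ?_ hWlo
    apply Real.rpow_le_rpow_of_exponent_le hx1
    linarith
  -- names
  set P := DBox k X with hP
  set L := Finset.Ico 1 (C0 * X) with hL
  set vv := dv k α with hvv
  set vv' := dv k α' with hvv'
  set pp := dp k α with hpp
  set pp' := dp k α' with hpp'
  set aa := da k a with haa
  set wt := dw k a with hwt
  have hp0 : ∀ ω, 0 ≤ pp ω := fun ω => dp_nonneg k α ω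
  have hp0' : ∀ ω, 0 ≤ pp' ω := fun ω => dp_nonneg k α' ω
  have hw0 : ∀ l, 0 ≤ wt l := fun l => dw_nonneg k a l
  have hXk0 : (0 : ℤ) ≤ (X : ℤ) ^ k := by positivity
  have hvP : ∀ ω ∈ P, 0 ≤ vv ω ∧ vv ω ≤ v * (X : ℤ) ^ k := fun ω hω => by
    refine ⟨(hv1 X ω hω).1, (hv1 X ω hω).2.trans ?_⟩
    apply mul_le_mul_of_nonneg_right _ hXk0
    exact_mod_cast (by omega : v1 ≤ v)
  have hvP' : ∀ ω ∈ P, 0 ≤ vv' ω ∧ vv' ω ≤ v * (X : ℤ) ^ k := fun ω hω => by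
    refine ⟨(hv2 X ω hω).1, (hv2 X ω hω).2.trans ?_⟩
    apply mul_le_mul_of_nonneg_right _ hXk0
    exact_mod_cast (by omega : v2 ≤ v)
  set M1 := ∑ ω ∈ P, pp ω with hM1
  set M2 := ∑ ω ∈ P, pp' ω with hM2
  have hM1lo : (κm * (X : ℝ)) ^ k ≤ M1 := dmass_ge hκm0.le fun i => by
    refine le_trans ?_ (hXs i X (hXsi i))
    apply mul_le_mul_of_nonneg_right _ hx0.le
    exact (min_le_left _ _).trans (hi0 i)
  have hM2lo : (κm * (X : ℝ)) ^ k ≤ M2 := dmass_ge hκm0.le fun i => by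
    refine le_trans ?_ (hXs' i X (hXsi' i))
    apply mul_le_mul_of_nonneg_right _ hx0.le
    exact (min_le_right _ _).trans (hi0' i)
  have hM10 : 0 < M1 := lt_of_lt_of_le (by positivity) hM1lo
  have hM20 : 0 < M2 := lt_of_lt_of_le (by positivity) hM2lo
  have hXε : 0 ≤ (X : ℝ) ^ ε := Real.rpow_nonneg hx0.le _
  have hwsum : ∑ l ∈ L, wt l ≤ C0 * X * (X : ℝ) ^ ε := by
    calc ∑ l ∈ L, wt l ≤ ∑ _l ∈ L, (X : ℝ) ^ ε := by
          apply sum_le_sum; intro l hl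
          refine (dw_le k a l).trans (hbd l ?_)
          have := (Finset.mem_Ico.mp hl).2
          calc l ≤ C0 * X := this.le
            _ ≤ (C0 + 2) * X := Nat.mul_le_mul_right _ (by omega)
      _ = (L.card : ℝ) * (X : ℝ) ^ ε := by simp
      _ ≤ C0 * X * (X : ℝ) ^ ε := by
        apply mul_le_mul_of_nonneg_right _ hXε
        rw [hL, Nat.card_Ico]
        have : C0 * X - 1 ≤ C0 * X := Nat.sub_le _ _
        exact_mod_cast this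
  have hwsum0 : 0 ≤ ∑ l ∈ L, wt l := sum_nonneg fun l _ => hw0 l
  -- the window lower bound
  have hq : ∀ M : ℤ, (X : ℤ) ^ k ≤ M → M ≤ 2 ^ k * ((2 * v + 1) * (X : ℤ) ^ k) →
      κL * W / (X : ℝ) ^ (k - 1) ≤ ∑ l ∈ L.filter (fun l => M ≤ aa l ∧ aa l < M + W), wt l := by
    intro M hM1 hM2
    have e1 : ((X : ℝ)) ^ k ≤ M := by exact_mod_cast hM1
    have e2 : (M : ℝ) ≤ 2 ^ k * (2 * v + 1) * (X : ℝ) ^ k := by
      have : (M : ℝ) ≤ ((2 ^ k * ((2 * v + 1) * (X : ℤ) ^ k) : ℤ) : ℝ) := by exact_mod_cast hM2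
      push_cast at this
      linarith
    have e3 := hlow X W M hXc e1 e2 hWL hWX
    refine e3.trans (le_of_eq ?_)
    apply sum_congr _ (fun _ _ => rfl)
    ext l
    simp only [mem_filter, mem_range, hL, Finset.mem_Ico, haa, da]
    constructor
    · rintro ⟨h1, h2, h3, h4⟩; exact ⟨⟨h2, h1⟩, h3, h4⟩
    · rintro ⟨⟨h2, h1⟩, h3, h4⟩; exact ⟨h1, h2, h3, h4⟩
  -- minor arcs
  set τ : ℝ := (X : ℝ) ^ (1 - σ1) with hτ
  set η : ℝ := (X : ℝ) ^ (-(k : ℝ) + δ) with hη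
  set υ : ℝ := ((X : ℝ) ^ (1 - σ0)) ^ k with hυ
  set r : ℝ := (X : ℝ) ^ (m * σ1 - k) with hr
  have hτ0 : 0 ≤ τ := Real.rpow_nonneg hx0.le _
  have hη0 : 0 ≤ η := Real.rpow_nonneg hx0.le _
  have hυ0 : 0 ≤ υ := pow_nonneg (Real.rpow_nonneg hx0.le _) _
  have hr0 : 0 ≤ r := Real.rpow_nonneg hx0.le _
  have hTa : ∀ β : ℝ, 1 ≤ C0 * X → ∑ l ∈ L, (wt l : ℂ) * e (β * aa l) = TT k a 1 (C0 * X - 1) β := by
    intro β _
    rw [hL, Finset.sum_Ico_eq_sum_range]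
    rfl
  have hminor : ∀ β : ℝ, η ≤ |β| → |β| ≤ 1 / 2 → ‖∑ l ∈ L, (wt l : ℂ) * e (β * aa l)‖ ≤ τ ∨
      ((∃ x ∈ J, |β - x| ≤ r) ∧ ‖∑ ω ∈ P, (pp ω : ℂ) * e (β * vv ω)‖ ≤ υ ∧
        ‖∑ ω ∈ P, (pp' ω : ℂ) * e (β * vv' ω)‖ ≤ υ) := by
    intro β hβ1 hβ2
    by_cases hC0 : C0 * X = 0
    · left
      have : L = ∅ := by rw [hL, hC0]; rfl
      rw [this, sum_empty, norm_zero]; exact hτ0
    have hpos : 1 ≤ C0 * X := Nat.one_le_iff_ne_zero.mpr hC0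
    rw [hTa β hpos]
    by_cases hT : ‖TT k a 1 (C0 * X - 1) β‖ ≤ τ
    · exact Or.inl hT
    · right
      rw [not_le] at hT
      have hA : 1 + (C0 * X - 1) ≤ D0 * X := by
        rw [hD0, add_mul]; omega
      have hB : X + (X + 1) ≤ D0 * X := by
        rw [hD0, add_mul]; omega
      refine ⟨hJcov 1 (C0 * X - 1) hA β hβ2 hT, ?_, ?_⟩
      · apply dU_le β _ (Real.rpow_nonneg hx0.le _)
        rcases hex X X (X + 1) 1 (C0 * X - 1) hXd hB hA β hβ1 hβ2 with h | h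
        · exfalso
          have h' : (X : ℝ) ^ (1 - σa) ≤ (X : ℝ) ^ (1 - σ1) := by
            apply Real.rpow_le_rpow_of_exponent_le hx1
            have := min_le_left σa σb
            rw [← hσ0] at this
            linarith
          exact absurd hT (not_lt.mpr (h.trans h'))
        · intro i
          refine (h i).trans ?_
          apply Real.rpow_le_rpow_of_exponent_le hx1
          have := min_le_left σa σb
          rw [← hσ0] at this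
          linarith
      · apply dU_le β _ (Real.rpow_nonneg hx0.le _)
        rcases hex' X X (X + 1) 1 (C0 * X - 1) hXd' hB hA β hβ1 hβ2 with h | h
        · exfalso
          have h' : (X : ℝ) ^ (1 - σb) ≤ (X : ℝ) ^ (1 - σ1) := by
            apply Real.rpow_le_rpow_of_exponent_le hx1
            have := min_le_right σa σb
            rw [← hσ0] at this
            linarith
          exact absurd hT (not_lt.mpr (h.trans h'))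
        · intro i
          refine (h i).trans ?_
          apply Real.rpow_le_rpow_of_exponent_le hx1
          have := min_le_right σa σb
          rw [← hσ0] at this
          linarith
  have hbd2 : ∀ n, n ≤ 2 * X → lam n ≤ (X : ℝ) ^ ε := fun n hn => hbd n (hn.trans (Nat.mul_le_mul_right _ (by omega)))
  have hEnAux : ∀ (β : Fin k → ℝ), ((DPairs k β X).card : ℝ) ≤ (X : ℝ) ^ ((k : ℝ) + σ1 / 4) →
      En P (dv k β) (dp k β) ≤ (X : ℝ) ^ ((k : ℝ) + σ1 / 2) := by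
    intro β hβ
    have h := dEn_le (k := k) (X := X) (α := β) hXε hbd2
    refine h.trans ?_
    rw [← pow_mul, ← Real.rpow_natCast ((X : ℝ) ^ ε), ← Real.rpow_mul hx0.le]
    calc (X : ℝ) ^ (ε * ((k * 2 : ℕ) : ℝ)) * ((DPairs k β X).card : ℝ)
        ≤ (X : ℝ) ^ (σ1 / 4) * (X : ℝ) ^ ((k : ℝ) + σ1 / 4) := by
          apply mul_le_mul _ hβ (by positivity) (by positivity)
          apply Real.rpow_le_rpow_of_exponent_le hx1
          push_cast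
          linarith
      _ = (X : ℝ) ^ ((k : ℝ) + σ1 / 2) := by
          rw [← Real.rpow_add hx0]; congr 1; ring
  have hEn : En P vv pp ≤ (X : ℝ) ^ ((k : ℝ) + σ1 / 2) := hEnAux α (by rw [← hX] at hmean ⊢; exact hmean)
  have hEn' : En P vv' pp' ≤ (X : ℝ) ^ ((k : ℝ) + σ1 / 2) := hEnAux α' (by rw [← hX] at hmean' ⊢; exact hmean')
  -- the major arc error
  have hmaj : 16 * W * η ^ 2 * (∑ l ∈ L, wt l) ≤ κL / 2 / (X : ℝ) ^ (k - 1) := by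
    have e1 : (X : ℝ) ^ ((k : ℝ) - 3 * δ) * η ^ 2 * X * (X : ℝ) ^ ε = (X : ℝ) ^ (-δ + ε) / (X : ℝ) ^ (k - 1) := by
      rw [hη, sq, ← Real.rpow_add hx0, ← Real.rpow_add hx0]
      rw [show (X : ℝ) ^ ((k : ℝ) - 3 * δ + (-(k : ℝ) + δ + (-(k : ℝ) + δ))) * X =
        (X : ℝ) ^ ((k : ℝ) - 3 * δ + (-(k : ℝ) + δ + (-(k : ℝ) + δ))) * (X : ℝ) ^ (1 : ℝ) by
          rw [Real.rpow_one]]
      rw [← Real.rpow_add hx0, ← Real.rpow_add hx0, ← Real.rpow_natCast (X : ℝ) (k - 1), ← Real.rpow_sub hx0]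
      congr 1
      rw [Nat.cast_sub (by omega)]
      push_cast
      ring
    have e2 : (X : ℝ) ^ (-δ + ε) * (64 * C0) ≤ κL := by
      have e3 : (X : ℝ) ^ (-δ + ε) ≤ (X : ℝ) ^ (-(δ / 2)) :=
        Real.rpow_le_rpow_of_exponent_le hx1 (by linarith)
      have e4 : (X : ℝ) ^ (-(δ / 2)) * (64 * C0) ≤ κL := by
        rw [Real.rpow_neg hx0.le, inv_mul_le_iff₀ (Real.rpow_pos_of_pos hx0 _)]
        rw [div_le_iff₀ hκL] at h2
        exact h2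
      refine le_trans ?_ e4
      gcongr
    calc 16 * W * η ^ 2 * (∑ l ∈ L, wt l)
        ≤ 16 * (2 * (X : ℝ) ^ ((k : ℝ) - 3 * δ)) * η ^ 2 * (C0 * X * (X : ℝ) ^ ε) := by gcongr
      _ = 32 * C0 * ((X : ℝ) ^ ((k : ℝ) - 3 * δ) * η ^ 2 * X * (X : ℝ) ^ ε) := by ring
      _ = ((X : ℝ) ^ (-δ + ε) * (64 * C0)) / 2 / (X : ℝ) ^ (k - 1) := by rw [e1]; ring
      _ ≤ κL / 2 / (X : ℝ) ^ (k - 1) := by gcongr
  -- the exceptional part
  have hυ2 : υ ^ 2 = (X : ℝ) ^ (2 * (k : ℝ) * (1 - σ0)) := by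
    rw [hυ, ← pow_mul, ← Real.rpow_natCast ((X : ℝ) ^ (1 - σ0)), ← Real.rpow_mul hx0.le]
    congr 1; push_cast; ring
  have hrJ : r * J.card ≤ (X : ℝ) ^ (2 * (m * σ1) - k) := by
    calc r * J.card ≤ (X : ℝ) ^ (m * σ1 - k) * (X : ℝ) ^ (m * σ1) := by gcongr
      _ = (X : ℝ) ^ (2 * (m * σ1) - k) := by rw [← Real.rpow_add hx0]; congr 1; ring
  have hexc2 : 4 * r * J.card * υ ^ 2 * (∑ l ∈ L, wt l) ≤ 4 * C0 * (X : ℝ) ^ ((k : ℝ) + 1 - σ1 / 2) := by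
    calc 4 * r * J.card * υ ^ 2 * (∑ l ∈ L, wt l) = 4 * (r * J.card) * υ ^ 2 * (∑ l ∈ L, wt l) := by ring
      _ ≤ 4 * (X : ℝ) ^ (2 * (m * σ1) - k) * (X : ℝ) ^ (2 * (k : ℝ) * (1 - σ0)) * (C0 * X * (X : ℝ) ^ ε) := by
          rw [hυ2]; gcongr
      _ = 4 * C0 * (X : ℝ) ^ (2 * (m * σ1) - k + 2 * (k : ℝ) * (1 - σ0) + 1 + ε) := by
          rw [Real.rpow_add hx0 _ ε, Real.rpow_add hx0 _ 1, Real.rpow_add hx0 _ (2 * (k : ℝ) * (1 - σ0)), Real.rpow_one]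
          ring
      _ ≤ 4 * C0 * (X : ℝ) ^ ((k : ℝ) + 1 - σ1 / 2) := by
          apply mul_le_mul_of_nonneg_left _ (by positivity)
          apply Real.rpow_le_rpow_of_exponent_le hx1
          nlinarith
  have hexc1 : 8 * r * J.card * (υ * (∑ l ∈ L, wt l)) ^ 2 ≤ 8 * C0 ^ 2 * (X : ℝ) ^ ((k : ℝ) + 2 - σ1) := by
    calc 8 * r * J.card * (υ * (∑ l ∈ L, wt l)) ^ 2 = 8 * (r * J.card) * υ ^ 2 * (∑ l ∈ L, wt l) ^ 2 := by ring
      _ ≤ 8 * (X : ℝ) ^ (2 * (m * σ1) - k) * (X : ℝ) ^ (2 * (k : ℝ) * (1 - σ0)) * (C0 * X * (X : ℝ) ^ ε) ^ 2 := by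
          rw [hυ2]; gcongr
      _ = 8 * C0 ^ 2 * (X : ℝ) ^ (2 * (m * σ1) - k + 2 * (k : ℝ) * (1 - σ0) + 2 + (ε + ε)) := by
          rw [Real.rpow_add hx0 _ (ε + ε), Real.rpow_add hx0 ε ε, Real.rpow_add hx0 _ 2,
            Real.rpow_add hx0 _ (2 * (k : ℝ) * (1 - σ0)), Real.rpow_two]
          ring
      _ ≤ 8 * C0 ^ 2 * (X : ℝ) ^ ((k : ℝ) + 2 - σ1) := by
          apply mul_le_mul_of_nonneg_left _ (by positivity)
          apply Real.rpow_le_rpow_of_exponent_le hx1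
          nlinarith
  have hkk : (X : ℝ) ^ (k - 1) ≠ 0 := by positivity
  refine ⟨?_, ?_⟩
  · intro N hN1 hN2
    have hc2 := hC2 (Fin k → ℕ) ℕ P P L vv vv' pp pp' aa wt W η τ υ r J hp0 hp0' hw0 hW1 hη0 hτ0 hυ0 hr0 hminor N
    have hwin : M1 * M2 * (κL * W / (X : ℝ) ^ (k - 1)) ≤ ∑ h ∈ range W, R3 P P L vv vv' pp pp' aa wt (N + h) := by
      apply R3_window_ge P P L vv vv' pp pp' aa wt W N hp0 hp0' _ ((X : ℤ) ^ k) (v * (X : ℤ) ^ k) hvP hvP'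
      · linarith
      · intro M hM1 hM2
        exact hq M hM1 (hM2.trans hN2)
    have hmn : M1 * M2 * (κL / (X : ℝ) ^ (k - 1)) ≤ (∑ h ∈ range W, R3 P P L vv vv' pp pp' aa wt (N + h)) / W := by
      rw [le_div_iff₀ hW0]
      refine le_trans (le_of_eq ?_) hwin
      ring
    have hR : M1 * M2 * (κL / (X : ℝ) ^ (k - 1)) - (16 * W * η ^ 2 * M1 * M2 * (∑ l ∈ L, wt l) +
        τ * (En P vv pp + En P vv' pp') + 4 * r * J.card * υ ^ 2 * (∑ l ∈ L, wt l)) ≤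
        R3 P P L vv vv' pp pp' aa wt N := by
      have := (abs_le.mp hc2).1
      linarith
    refine le_trans ?_ hR
    have a1 : 16 * W * η ^ 2 * M1 * M2 * (∑ l ∈ L, wt l) ≤ M1 * M2 * (κL / 2 / (X : ℝ) ^ (k - 1)) := by
      calc 16 * W * η ^ 2 * M1 * M2 * (∑ l ∈ L, wt l) = M1 * M2 * (16 * W * η ^ 2 * (∑ l ∈ L, wt l)) := by ring
        _ ≤ _ := by gcongr
    have a2 : τ * (En P vv pp + En P vv' pp') ≤ 2 * (X : ℝ) ^ ((k : ℝ) + 1 - σ1 / 2) := by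
      calc τ * (En P vv pp + En P vv' pp') ≤ τ * ((X : ℝ) ^ ((k : ℝ) + σ1 / 2) + (X : ℝ) ^ ((k : ℝ) + σ1 / 2)) := by
            gcongr
        _ = 2 * (X : ℝ) ^ ((k : ℝ) + 1 - σ1 / 2) := by
          have : (X : ℝ) ^ ((k : ℝ) + 1 - σ1 / 2) = τ * (X : ℝ) ^ ((k : ℝ) + σ1 / 2) := by
            rw [hτ, ← Real.rpow_add hx0]; congr 1; ring
          rw [this]; ring
    have a3 : (X : ℝ) ^ ((k : ℝ) + 1 - σ1 / 2) * (X : ℝ) ^ (σ1 / 2) = (X : ℝ) ^ (k + 1) := by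
      rw [← Real.rpow_add hx0, ← Real.rpow_natCast]; congr 1; push_cast; ring
    have a4 : (2 + 4 * C0) * (X : ℝ) ^ ((k : ℝ) + 1 - σ1 / 2) ≤ κL / 4 * κm ^ (2 * k) * (X : ℝ) ^ (k + 1) := by
      rw [← a3]
      have hpos : 0 < (X : ℝ) ^ ((k : ℝ) + 1 - σ1 / 2) := Real.rpow_pos_of_pos hx0 _
      have : (2 + 4 * (C0 : ℝ)) ≤ κL / 4 * κm ^ (2 * k) * (X : ℝ) ^ (σ1 / 2) := by
        rw [div_le_iff₀ (by positivity)] at h3
        linarith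
      calc (2 + 4 * C0) * (X : ℝ) ^ ((k : ℝ) + 1 - σ1 / 2) ≤
          (κL / 4 * κm ^ (2 * k) * (X : ℝ) ^ (σ1 / 2)) * (X : ℝ) ^ ((k : ℝ) + 1 - σ1 / 2) := by gcongr
        _ = _ := by ring
    have a5 : κL / 2 * κm ^ (2 * k) * (X : ℝ) ^ (k + 1) ≤ M1 * M2 * (κL / 2 / (X : ℝ) ^ (k - 1)) := by
      have : (κm * (X : ℝ)) ^ k * (κm * (X : ℝ)) ^ k ≤ M1 * M2 := by gcongr
      calc κL / 2 * κm ^ (2 * k) * (X : ℝ) ^ (k + 1)
          = ((κm * (X : ℝ)) ^ k * (κm * (X : ℝ)) ^ k) * (κL / 2 / (X : ℝ) ^ (k - 1)) := by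
            have e9 : (X : ℝ) ^ k * (X : ℝ) ^ k = (X : ℝ) ^ (k + 1) * (X : ℝ) ^ (k - 1) := by
              rw [← pow_add, ← pow_add]; congr 1; omega
            have e10 : κm ^ (2 * k) = κm ^ k * κm ^ k := by rw [← pow_add]; congr 1; ring
            rw [mul_pow, e10]
            calc κL / 2 * (κm ^ k * κm ^ k) * (X : ℝ) ^ (k + 1)
                = (κL / 2 * (κm ^ k * κm ^ k)) * (((X : ℝ) ^ (k + 1) * (X : ℝ) ^ (k - 1)) / (X : ℝ) ^ (k - 1)) := by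
                  rw [mul_div_assoc, div_self hkk, mul_one]
              _ = _ := by rw [← e9]; ring
        _ ≤ _ := by gcongr
    have a6 : M1 * M2 * (κL / (X : ℝ) ^ (k - 1)) = 2 * (M1 * M2 * (κL / 2 / (X : ℝ) ^ (k - 1))) := by ring
    have a7 : κL / 2 * κm ^ (2 * k) * (X : ℝ) ^ (k + 1) = 2 * (κL / 4 * κm ^ (2 * k) * (X : ℝ) ^ (k + 1)) := by
      ring
    rw [a6]
    nlinarith [a1, a2, a4, a5, a7, hexc2]
  · intro S hS
    set ρ : ℝ := κL / 2 * κm ^ k * X with hρ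
    have hρ0 : 0 < ρ := by positivity
    have hminor1 : ∀ β : ℝ, η ≤ |β| → |β| ≤ 1 / 2 → ‖∑ l ∈ L, (wt l : ℂ) * e (β * aa l)‖ ≤ τ ∨
      ((∃ x ∈ J, |β - x| ≤ r) ∧ ‖∑ ω ∈ P, (pp ω : ℂ) * e (β * vv ω)‖ ≤ υ) := by
      intro β h1 h2
      rcases hminor β h1 h2 with h | h
      · exact Or.inl h
      · exact Or.inr ⟨h.1, h.2.1⟩
    have hkey := hC1 (Fin k → ℕ) ℕ P L vv pp aa wt W η τ υ r ρ J hp0 hw0 hW1 hη0 hτ0 hυ0 hr0 hρ0.le hminor1 S (by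
      intro N hN
      obtain ⟨hN1, hN2, hN3⟩ := hS N hN
      have hwin : M1 * (κL * W / (X : ℝ) ^ (k - 1)) ≤ ∑ h ∈ range W, R1 P L vv pp aa wt (N + h) := by
        apply R1_window_ge P L vv pp aa wt W N hp0 _ ((X : ℤ) ^ k) (v * (X : ℤ) ^ k) hvP
        · have : (0 : ℤ) ≤ v * (X : ℤ) ^ k := by positivity
          linarith
        · intro M hM1 hM2
          exact hq M hM1 (hM2.trans hN2)
      have hmn : M1 * (κL / (X : ℝ) ^ (k - 1)) ≤ (∑ h ∈ range W, R1 P L vv pp aa wt (N + h)) / W := by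
        rw [le_div_iff₀ hW0]
        refine le_trans (le_of_eq ?_) hwin
        ring
      rw [hN3, zero_sub, abs_neg]
      refine le_trans ?_ (le_abs_self _)
      refine le_trans ?_ hmn
      have a1 : 16 * W * η ^ 2 * M1 * (∑ l ∈ L, wt l) ≤ M1 * (κL / 2 / (X : ℝ) ^ (k - 1)) := by
        calc 16 * W * η ^ 2 * M1 * (∑ l ∈ L, wt l) = M1 * (16 * W * η ^ 2 * (∑ l ∈ L, wt l)) := by ring
          _ ≤ _ := by gcongr
      have a2 : ρ ≤ M1 * (κL / 2 / (X : ℝ) ^ (k - 1)) := by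
        calc ρ = (κm * (X : ℝ)) ^ k * (κL / 2 / (X : ℝ) ^ (k - 1)) := by
              have e9 : (X : ℝ) ^ k = X * (X : ℝ) ^ (k - 1) := by
                rw [← pow_succ']; congr 1; omega
              rw [hρ, mul_pow, e9]
              field_simp
          _ ≤ _ := by gcongr
      have a3 : M1 * (κL / (X : ℝ) ^ (k - 1)) = 2 * (M1 * (κL / 2 / (X : ℝ) ^ (k - 1))) := by ring
      rw [a3]; linarith)
    have b1 : (S.card : ℝ) * ρ ^ 2 ≤ (4 + 8 * C0 ^ 2) * (X : ℝ) ^ ((k : ℝ) + 2 - σ1) := by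
      refine hkey.trans ?_
      have c1 : 4 * τ ^ 2 * En P vv pp ≤ 4 * (X : ℝ) ^ ((k : ℝ) + 2 - σ1) := by
        calc 4 * τ ^ 2 * En P vv pp ≤ 4 * τ ^ 2 * (X : ℝ) ^ ((k : ℝ) + σ1 / 2) := by gcongr
          _ = 4 * (X : ℝ) ^ ((k : ℝ) + 2 - 3 * (σ1 / 2)) := by
            rw [hτ, sq, mul_assoc, ← Real.rpow_add hx0, ← Real.rpow_add hx0]; congr 2; ring
          _ ≤ 4 * (X : ℝ) ^ ((k : ℝ) + 2 - σ1) := by
            apply mul_le_mul_of_nonneg_left _ (by norm_num)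
            apply Real.rpow_le_rpow_of_exponent_le hx1
            linarith
      calc 4 * τ ^ 2 * En P vv pp + 8 * r * J.card * (υ * (∑ l ∈ L, wt l)) ^ 2
          ≤ 4 * (X : ℝ) ^ ((k : ℝ) + 2 - σ1) + 8 * C0 ^ 2 * (X : ℝ) ^ ((k : ℝ) + 2 - σ1) := add_le_add c1 hexc1
        _ = _ := by ring
    have b2 : (X : ℝ) ^ ((k : ℝ) + 2 - σ1) * (X : ℝ) ^ (σ1 / 2) = (X : ℝ) ^ ((k : ℝ) - σ1 / 2) * (X : ℝ) ^ 2 := by
      rw [← Real.rpow_add hx0, ← Real.rpow_natCast (X : ℝ) 2, ← Real.rpow_add hx0]; congr 1; push_cast; ring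
    have b3 : (S.card : ℝ) * ρ ^ 2 * ((4 + 8 * C0 ^ 2) * ((2 / κL) / κm ^ k) ^ 2) ≤
        (4 + 8 * C0 ^ 2) * ((X : ℝ) ^ ((k : ℝ) - σ1 / 2) * (X : ℝ) ^ 2) := by
      calc (S.card : ℝ) * ρ ^ 2 * ((4 + 8 * C0 ^ 2) * ((2 / κL) / κm ^ k) ^ 2)
          ≤ (4 + 8 * C0 ^ 2) * (X : ℝ) ^ ((k : ℝ) + 2 - σ1) * (X : ℝ) ^ (σ1 / 2) := by gcongr
        _ = _ := by rw [mul_assoc, b2]
    have b4 : ρ ^ 2 * ((4 + 8 * C0 ^ 2) * ((2 / κL) / κm ^ k) ^ 2) = (4 + 8 * C0 ^ 2) * (X : ℝ) ^ 2 := by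
      rw [hρ]; field_simp
    rw [mul_assoc, b4] at b3
    have b5 : (0 : ℝ) < (4 + 8 * (C0 : ℝ) ^ 2) * (X : ℝ) ^ 2 := by positivity
    have b6 : (S.card : ℝ) * ((4 + 8 * (C0 : ℝ) ^ 2) * (X : ℝ) ^ 2) ≤
        (X : ℝ) ^ ((k : ℝ) - σ1 / 2) * ((4 + 8 * (C0 : ℝ) ^ 2) * (X : ℝ) ^ 2) := by linarith
    exact le_of_mul_le_mul_right b6 b5

end Pool.Agent.N604.MW
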