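import Mathlib
import Pool.Agent.N604.MW.Asm3
import Pool.Agent.N530.MW_Sign
import Pool.Agent.N650.MW_Count
import Pool.Agent.N530.MW_Slab
import Pool.Agent.N438.MW_Sum
import Pool.Agent.N547.MW_Mean
import Pool.Agent.N547.MW_Dio
import Pool.Agent.N868.MW_Point
import Pool.Agent.N141.MW_Floor
import Pool.Agent.N868.MW_TPoint
import Pool.Agent.N401.MW_Low
import Pool.Agent.N547.MW_Size
import Pool.Agent.N624.MW_Circ
import Pool.Agent.N530.MW_Sharp

/-!
# Project MW: the two theorems in degree `d + 1`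
-/

namespace Pool.Agent.N604.MW

open Finset MeasureTheory

/-- the generic properties hold for almost every polynomial -/
theorem generic (d : ℕ) (c : ℝ) (hd : 1 ≤ d) (hc : 0 < c) : ∀ᵐ θ : Fin d → ℝ, Dio d c θ ∧ MeanP d c θ := by
  have h1 := Pool.Agent.N547.MW.dio d c hc
  have h2 := Pool.Agent.N547.MW.mean (Pool.Agent.N438.MW.sum
    (Pool.Agent.N650.MWC.count Pool.Agent.N530.MWSign.sign) Pool.Agent.N530.MWSlab.slab) d c hd hc
  filter_upwards [h1, h2] with θ a1 a2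
  exact ⟨a1, a2⟩

theorem core_generic (hW : S_WEYL) (d : ℕ) (c b : ℝ) (θ : Fin d → ℝ) (hd : 1 ≤ d) (hc : 0 < c)
    (hDio : Dio d c θ) (hM : MeanP d c θ) :
    ∃ v C0 : ℕ, ∃ κ σ : ℝ, 0 < κ ∧ 0 < σ ∧ ∃ ν0 : ℕ, ∀ ν : ℕ, ν0 ≤ ν → Core d c b θ v C0 κ σ (2 ^ ν) := by
  have hP : S_POINT := Pool.Agent.N868.MWP.point hW
  exact core Pool.Agent.N547.MW.size (Pool.Agent.N401.MW.mass hP) (Pool.Agent.N401.MW.low hP)
    (Pool.Agent.N868.MWT.tpoint hP Pool.Agent.N141.MWF.floor_series)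
    Pool.Agent.N624.MWCirc.circ1 Pool.Agent.N624.MWCirc.circ2 d c b θ hd hc hDio hM

end Pool.Agent.N604.MW
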