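import Mathlib
import Pool.Agent.N604.MW.Fin
import Pool.Agent.N604.MW.PAsm2
import Pool.Agent.N868.PW_PPoint
import Pool.Agent.N868.PW_PTPoint
import Pool.Agent.N46.PW_Low
import Pool.Agent.N97.MW_Weyl
import Pool.Agent.N545.PW_Recur
import Pool.Agent.N767.PW_Type2
import Pool.Agent.N953.PW_Pweyl

/-!
# Project PW: the core for primes from the exponential sum over primes
-/

namespace Pool.Agent.N604.MW

theorem pcore_generic (hW : S_PWEYL) (d : ℕ) (c b : ℝ) (θ : Fin d → ℝ) (hd : 1 ≤ d) (hc : 0 < c)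
    (hDio : Dio d c θ) (hM : MeanP d c θ) :
    ∃ v C0 : ℕ, ∃ κ σ : ℝ, 0 < κ ∧ 0 < σ ∧ ∃ ν0 : ℕ, ∀ ν : ℕ, ν0 ≤ ν → CoreL d c b θ lam v C0 κ σ (2 ^ ν) := by
  have hP : S_PPOINT := Pool.Agent.N868.PWP.ppoint hW
  exact pcore Pool.Agent.N547.MW.size Pool.Agent.N624.MWCirc.circ1 Pool.Agent.N624.MWCirc.circ2
    (Pool.Agent.N46.PW.pmass hP) (Pool.Agent.N46.PW.plow hP)
    (Pool.Agent.N868.PWT.ptpoint hP Pool.Agent.N141.MWF.floor_series) hd hc hDio hM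

theorem pweyl_all : S_PWEYL :=
  Pool.Agent.N953.PW.pweyl Pool.Agent.N97.MW.weyl (Pool.Agent.N767.PW.type2 Pool.Agent.N97.MW.weyl Pool.Agent.N545.PWR.recur)

end Pool.Agent.N604.MW
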