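import Mathlib
import Pool.Agent.N604.MW.PFin
import Pool.Agent.N604.MW.DAsm3
import Pool.Agent.N169.PD_DMean
import Pool.Agent.N645.PD_Ddio
import Pool.Agent.N565.PD_DMaj
import Pool.Agent.N701.PD_Dexcl
import Pool.Agent.N322.PD_DCov
import Pool.Agent.N539.PD_Low
import Pool.Agent.N712.PD_Circ
import Pool.Agent.N618.PD_Pull

/-!
# Project PD: the theorems on generic diagonal forms
-/

namespace Pool.Agent.N604.MW

open Finset MeasureTheory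

theorem dcore_generic {k : ℕ} (hk : 2 ≤ k) (α α' : Fin k → ℝ) (a : ℝ) (hα : ∀ i, 0 < α i) (hα' : ∀ i, 0 < α' i)
    (ha : 0 < a) (d1 : ∀ i, Dio1 (α i)) (d1' : ∀ i, Dio1 (α' i)) (d1a : Dio1 a) (d2 : ∀ i, Dio2 (α i) a)
    (d2' : ∀ i, Dio2 (α' i) a) (hM : DMeanP k α) (hM' : DMeanP k α') :
    ∃ v C0 : ℕ, ∃ κ σ : ℝ, 0 < κ ∧ 0 < σ ∧ ∃ ν0 : ℕ, ∀ ν : ℕ, ν0 ≤ ν → CoreD k α α' a v C0 κ σ (2 ^ ν) := by
  have hMAJ : S_DMAJ := Pool.Agent.N565.PDM.dmaj pweyl_all Pool.Agent.N141.MWF.floor_series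
  exact dcore (Pool.Agent.N701.PD.dexcl hMAJ) (Pool.Agent.N322.PD.dcov hMAJ) (Pool.Agent.N539.PD.dlow pweyl_all)
    (Pool.Agent.N539.PD.dmass pweyl_all) Pool.Agent.N712.PD.dcirc1 Pool.Agent.N712.PD.dcirc2 hk α α' a hα hα' ha
    d1 d1' d1a d2 d2' hM hM'

theorem dmean_generic (k : ℕ) (hk : 2 ≤ k) : ∀ᵐ α : Fin k → ℝ, DMeanP k α :=
  Pool.Agent.N169.PD.dmean Pool.Agent.N530.MWSlab.slab k hk

theorem dgen1 (k : ℕ) (hk : 2 ≤ k) (s : ℕ) (hs : s = k + k + 1) :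
    ∀ᵐ α : Fin s → ℝ, (∀ i, 0 < α i) → ∃ κ' : ℝ, 0 < κ' ∧ ∃ N0 : ℕ, ∀ N : ℕ, N0 ≤ N → ∃ S : Finset (Fin s → ℕ),
      (∀ p ∈ S, (∀ i, (p i).Prime) ∧ ∑ i, ⌊α i * (p i : ℝ) ^ k⌋ = (N : ℤ)) ∧
      κ' * (N : ℝ) ^ (1 + 1 / (k : ℝ)) / Real.log N ^ s ≤ S.card := by
  subst hs
  have h1 := Pool.Agent.N645.PD.ddio (k + k + 1)
  have h2 := Pool.Agent.N618.PD.pull (k + k + 1) k (fun i => Fin.castSucc (Fin.castAdd k i))
    (fun i j h => Fin.castAdd_injective k k (Fin.castSucc_injective _ h)) _ (dmean_generic k hk)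
  have h3 := Pool.Agent.N618.PD.pull (k + k + 1) k (fun i => Fin.castSucc (Fin.natAdd k i))
    (fun i j h => Fin.natAdd_injective k k (Fin.castSucc_injective _ h)) _ (dmean_generic k hk)
  filter_upwards [h1, h2, h3] with α ha1 ha2 ha3 hpos
  obtain ⟨v, C0, κ, σ, hκ, hσ, ν0, hcore⟩ := dcore_generic hk (fun i => α (Fin.castSucc (Fin.castAdd k i)))
    (fun i => α (Fin.castSucc (Fin.natAdd k i))) (α (Fin.last _)) (fun i => hpos _) (fun i => hpos _) (hpos _)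
    (fun i => ha1.1 _) (fun i => ha1.1 _) (ha1.1 _) (fun i => ha1.2 _ _ (Fin.castSucc_ne_last _))
    (fun i => ha1.2 _ _ (Fin.castSucc_ne_last _)) ha2 ha3
  exact dpart1 hκ hk α hcore

theorem dgen2 (k : ℕ) (hk : 2 ≤ k) :
    ∀ᵐ α : Fin (k + 1) → ℝ, (∀ i, 0 < α i) → ∃ σ' : ℝ, 0 < σ' ∧ ∃ N0 : ℕ, ∀ N : ℕ, N0 ≤ N →
      (({m : ℕ | m ≤ N ∧ ¬ IsDSum k α m}.ncard : ℕ) : ℝ) ≤ (N : ℝ) ^ (1 - σ') := by
  have h1 := Pool.Agent.N645.PD.ddio (k + 1)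
  have h2 := Pool.Agent.N618.PD.pull (k + 1) k (fun i => Fin.castSucc i)
    (fun i j h => Fin.castSucc_injective _ h) _ (dmean_generic k hk)
  filter_upwards [h1, h2] with α ha1 ha2 hpos
  obtain ⟨v, C0, κ, σ, hκ, hσ, ν0, hcore⟩ := dcore_generic hk (fun i => α (Fin.castSucc i))
    (fun i => α (Fin.castSucc i)) (α (Fin.last _)) (fun i => hpos _) (fun i => hpos _) (hpos _)
    (fun i => ha1.1 _) (fun i => ha1.1 _) (ha1.1 _) (fun i => ha1.2 _ _ (Fin.castSucc_ne_last _))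
    (fun i => ha1.2 _ _ (Fin.castSucc_ne_last _)) ha2 ha2
  exact dpart2 hσ hk α _ hcore

end Pool.Agent.N604.MW
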