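import Mathlib
import Pool.Agent.N604.MW.KMeas
import Pool.Agent.N604.MW.DAsm3

/-!
# Project KV: values and weights of tuples, mass, size, representations
-/

namespace Pool.Agent.N604.MW

open Finset MeasureTheory

variable {s d : ℕ}

/-- value of a tuple -/
noncomputable def kv (d : ℕ) (c b : Fin s → ℝ) (θ : Fin s → Fin d → ℝ) (n : Fin s → ℕ) : ℤ :=
  ∑ i, ⌊PP d (c i) (b i) (θ i) (n i : ℝ)⌋

/-- weight of a tuple -/
noncomputable def kp (d : ℕ) (c b : Fin s → ℝ) (θ : Fin s → Fin d → ℝ) (n : Fin s → ℕ) : ℝ :=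
  ∏ i, wwL d (c i) (b i) (θ i) lam (n i)

lemma kp_nonneg (c b : Fin s → ℝ) (θ : Fin s → Fin d → ℝ) (n : Fin s → ℕ) : 0 ≤ kp d c b θ n :=
  prod_nonneg fun _ _ => wwL_nonneg lam_nonneg _

lemma kp_le {X : ℕ} {c b : Fin s → ℝ} {θ : Fin s → Fin d → ℝ} {B : ℝ} (hB : ∀ n, n ≤ 2 * X → lam n ≤ B)
    {n : Fin s → ℕ} (hn : n ∈ DBox s X) : kp d c b θ n ≤ B ^ s := by
  unfold kp
  calc ∏ i, wwL d (c i) (b i) (θ i) lam (n i) ≤ ∏ _i : Fin s, B := by
        apply prod_le_prod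
        · intro i _; exact wwL_nonneg lam_nonneg _
        · intro i _
          exact (wwL_le lam_nonneg _).trans (hB _ (DBox_le hn i))
    _ = B ^ s := by rw [prod_const, card_univ, Fintype.card_fin]

lemma kmass_ge {X : ℕ} {c b : Fin s → ℝ} {θ : Fin s → Fin d → ℝ} {κ : ℝ} (hκ : 0 ≤ κ)
    (h : ∀ i, κ * (X : ℝ) ≤ ∑ n ∈ Finset.Icc X (2 * X), wwL d (c i) (b i) (θ i) lam n) :
    (κ * (X : ℝ)) ^ s ≤ ∑ ω ∈ DBox s X, kp d c b θ ω := by
  have h1 : ∑ ω ∈ DBox s X, kp d c b θ ω = ∏ i : Fin s, ∑ n ∈ Finset.Icc X (2 * X), wwL d (c i) (b i) (θ i) lam n := by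
    rw [prod_univ_sum]; rfl
  rw [h1]
  calc (κ * (X : ℝ)) ^ s = ∏ _i : Fin s, (κ * (X : ℝ)) := by
        rw [prod_const, card_univ, Fintype.card_fin]
    _ ≤ _ := by
      apply prod_le_prod
      · intro i _; positivity
      · intro i _; exact h i

lemma QQ_FF (c b : ℝ) (θ : Fin d → ℝ) (x : ℕ) : QQ d (FF d c b) θ x = PP d c b θ (x : ℝ) := by
  unfold QQ FF PP; ring

/-- the exponential sum of the tuples is a product -/
lemma kU_eq {X : ℕ} (c b : Fin s → ℝ) (θ : Fin s → Fin d → ℝ) (β : ℝ) :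
    ∑ ω ∈ DBox s X, (kp d c b θ ω : ℂ) * e (β * kv d c b θ ω) = ∏ i, TQ d (FF d (c i) (b i)) X (θ i) β := by
  have h1 : ∀ i : Fin s, TQ d (FF d (c i) (b i)) X (θ i) β =
      ∑ n ∈ Finset.Icc X (2 * X), ((wwL d (c i) (b i) (θ i) lam n : ℝ) : ℂ) *
        e (β * (⌊PP d (c i) (b i) (θ i) (n : ℝ)⌋ : ℤ)) := by
    intro i
    unfold TQ wwL
    simp only [QQ_FF]
  rw [prod_congr rfl fun i _ => h1 i, prod_univ_sum]
  apply sum_congr rfl
  intro ω _
  rw [prod_mul_distrib]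
  congr 1
  · unfold kp
    push_cast
    rfl
  · unfold kv
    push_cast
    rw [mul_sum, e_sum]

/-- size of one value -/
lemma ksize1 (c b : ℝ) (θ : Fin d → ℝ) (hc : 0 < c) : ∃ v X0 : ℕ, ∀ X x : ℕ, X0 ≤ X → X ≤ x → x ≤ 2 * X →
    0 ≤ ⌊PP d c b θ (x : ℝ)⌋ ∧ ⌊PP d c b θ (x : ℝ)⌋ ≤ v * (X : ℤ) ^ (d + 1) := by
  set A : ℝ := ∑ j, |θ j| + |b| with hA
  have hA0 : 0 ≤ A := add_nonneg (sum_nonneg fun _ _ => abs_nonneg _) (abs_nonneg _)
  refine ⟨⌈(c + A) * 2 ^ (d + 1)⌉₊, ⌈A / c⌉₊ + 1, ?_⟩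
  intro X x hX hx1 hx2
  have hX1 : (1 : ℝ) ≤ x := by exact_mod_cast (by omega : 1 ≤ x)
  have hx0 : (0 : ℝ) < x := by linarith
  have hAx : A ≤ c * x := by
    have h1 : A / c ≤ ⌈A / c⌉₊ := Nat.le_ceil _
    have h2 : ((⌈A / c⌉₊ : ℕ) : ℝ) ≤ x := by exact_mod_cast (by omega : ⌈A / c⌉₊ ≤ x)
    have h3 := h1.trans h2
    rw [div_le_iff₀ hc] at h3
    linarith
  have hlow : |∑ j : Fin d, θ j * (x : ℝ) ^ ((j : ℕ) + 1) + b| ≤ A * (x : ℝ) ^ d := by
    have hxd : (1 : ℝ) ≤ (x : ℝ) ^ d := one_le_pow₀ hX1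
    calc |∑ j : Fin d, θ j * (x : ℝ) ^ ((j : ℕ) + 1) + b|
        ≤ ∑ j : Fin d, |θ j * (x : ℝ) ^ ((j : ℕ) + 1)| + |b| := by
          refine (abs_add_le _ _).trans ?_
          gcongr
          exact abs_sum_le_sum_abs _ _
      _ ≤ ∑ j : Fin d, |θ j| * (x : ℝ) ^ d + |b| * (x : ℝ) ^ d := by
          apply add_le_add
          · apply sum_le_sum
            intro j _
            rw [abs_mul, abs_of_pos (by positivity : (0 : ℝ) < (x : ℝ) ^ ((j : ℕ) + 1))]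
            have : (x : ℝ) ^ ((j : ℕ) + 1) ≤ (x : ℝ) ^ d := pow_le_pow_right₀ hX1 (by have := j.2; omega)
            gcongr
          · exact le_mul_of_one_le_right (abs_nonneg _) hxd
      _ = A * (x : ℝ) ^ d := by rw [hA, ← sum_mul]; ring
  have hPP : PP d c b θ (x : ℝ) = c * (x : ℝ) ^ (d + 1) + (∑ j : Fin d, θ j * (x : ℝ) ^ ((j : ℕ) + 1) + b) := by
    unfold PP; ring
  have hab := abs_le.mp hlow
  have hxd0 : (0 : ℝ) < (x : ℝ) ^ d := by positivity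
  constructor
  · apply Int.floor_nonneg.mpr
    rw [hPP, pow_succ]
    nlinarith [hab.1, mul_le_mul_of_nonneg_right hAx hxd0.le]
  · have h1 : (⌊PP d c b θ (x : ℝ)⌋ : ℝ) ≤ (⌈(c + A) * 2 ^ (d + 1)⌉₊ : ℝ) * (X : ℝ) ^ (d + 1) := by
      calc (⌊PP d c b θ (x : ℝ)⌋ : ℝ) ≤ PP d c b θ (x : ℝ) := Int.floor_le _
        _ ≤ c * (x : ℝ) ^ (d + 1) + A * (x : ℝ) ^ d := by rw [hPP]; linarith [hab.2]
        _ ≤ c * (x : ℝ) ^ (d + 1) + A * (x : ℝ) ^ (d + 1) := by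
            have : (x : ℝ) ^ d ≤ (x : ℝ) ^ (d + 1) := pow_le_pow_right₀ hX1 (by omega)
            gcongr
        _ = (c + A) * (x : ℝ) ^ (d + 1) := by ring
        _ ≤ (c + A) * (2 * (X : ℝ)) ^ (d + 1) := by
            have : (x : ℝ) ≤ 2 * X := by exact_mod_cast hx2
            gcongr
        _ = ((c + A) * 2 ^ (d + 1)) * (X : ℝ) ^ (d + 1) := by rw [mul_pow]; ring
        _ ≤ _ := mul_le_mul_of_nonneg_right (Nat.le_ceil _) (by positivity)
    exact_mod_cast h1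

/-- size of the values of the tuples -/
lemma ksize (c b : Fin s → ℝ) (θ : Fin s → Fin d → ℝ) (hc : ∀ i, 0 < c i) : ∃ v X0 : ℕ, ∀ (X : ℕ) (n : Fin s → ℕ),
    X0 ≤ X → n ∈ DBox s X → 0 ≤ kv d c b θ n ∧ kv d c b θ n ≤ v * (X : ℤ) ^ (d + 1) := by
  choose v X0 h using fun i => ksize1 (c i) (b i) (θ i) (hc i)
  refine ⟨∑ i, v i, ∑ i, X0 i, ?_⟩
  intro X n hX hn
  unfold DBox at hn
  rw [Fintype.mem_piFinset] at hn
  have h1 : ∀ i, 0 ≤ ⌊PP d (c i) (b i) (θ i) (n i : ℝ)⌋ ∧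
      ⌊PP d (c i) (b i) (θ i) (n i : ℝ)⌋ ≤ v i * (X : ℤ) ^ (d + 1) := by
    intro i
    have hi : X0 i ≤ X := (Finset.single_le_sum (f := X0) (fun _ _ => Nat.zero_le _) (mem_univ i)).trans hX
    exact h i X (n i) hi (Finset.mem_Icc.mp (hn i)).1 (Finset.mem_Icc.mp (hn i)).2
  constructor
  · exact sum_nonneg fun i _ => (h1 i).1
  · unfold kv
    calc ∑ i, ⌊PP d (c i) (b i) (θ i) (n i : ℝ)⌋ ≤ ∑ i, (v i : ℤ) * (X : ℤ) ^ (d + 1) := sum_le_sum fun i _ => (h1 i).2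
      _ = _ := by rw [← sum_mul]; push_cast; rfl

/-- from `R1` to representations by primes -/
lemma kreps {X C0 : ℕ} (c b : Fin (s + 1) → ℝ) (θ : Fin (s + 1) → Fin d → ℝ) (N : ℤ) (B : ℝ) (hB0 : 0 ≤ B)
    (hB1 : ∀ n, n ≤ 2 * X → lam n ≤ B) (hB2 : ∀ n, n ≤ C0 * X → lam n ≤ B) :
    ∃ S : Finset (Fin (s + 1) → ℕ), (∀ p ∈ S, (∀ i, (p i).Prime) ∧
      ∑ i, ⌊PP d (c i) (b i) (θ i) (p i : ℝ)⌋ = N) ∧
      R1 (DBox s X) (Finset.Ico 1 (C0 * X))
        (kv d (fun i => c (Fin.castSucc i)) (fun i => b (Fin.castSucc i)) (fun i => θ (Fin.castSucc i)))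
        (kp d (fun i => c (Fin.castSucc i)) (fun i => b (Fin.castSucc i)) (fun i => θ (Fin.castSucc i)))
        (aw d (c (Fin.last s)) (b (Fin.last s)) (θ (Fin.last s)))
        (wwL d (c (Fin.last s)) (b (Fin.last s)) (θ (Fin.last s)) lam) N ≤ B ^ (s + 1) * S.card := by
  classical
  set c1 : Fin s → ℝ := fun i => c (Fin.castSucc i) with hc1
  set b1 : Fin s → ℝ := fun i => b (Fin.castSucc i) with hb1
  set θ1 : Fin s → Fin d → ℝ := fun i => θ (Fin.castSucc i) with hθ1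
  set c2 := c (Fin.last s) with hc2
  set b2 := b (Fin.last s) with hb2
  set θ2 := θ (Fin.last s) with hθ2
  set T := (DBox s X ×ˢ Finset.Ico 1 (C0 * X)).filter
    (fun p => kv d c1 b1 θ1 p.1 + aw d c2 b2 θ2 p.2 = N ∧ ((∀ i, (p.1 i).Prime) ∧ p.2.Prime)) with hT
  set f : ((Fin s → ℕ) × ℕ) → (Fin (s + 1) → ℕ) := fun p => Fin.snoc (α := fun _ => ℕ) p.1 p.2 with hf
  have hinj : Function.Injective f := by
    rintro ⟨a1, a3⟩ ⟨b1, b3⟩ h
    simp only [hf] at h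
    have h1 : a3 = b3 := by
      have := congrFun h (Fin.last _)
      simpa using this
    have h2 : a1 = b1 := by
      funext i
      have := congrFun h (Fin.castSucc i)
      simpa using this
    rw [h1, h2]
  refine ⟨T.image f, ?_, ?_⟩
  · intro n hn
    rw [mem_image] at hn
    obtain ⟨⟨ω, l⟩, hp, rfl⟩ := hn
    rw [hT, mem_filter, mem_product] at hp
    obtain ⟨⟨hω, hl⟩, hsum, hp1, hp3⟩ := hp
    simp only at hω hl hsum hp1 hp3
    constructor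
    · intro i
      simp only [hf]
      refine Fin.lastCases ?_ (fun j => ?_) i
      · simp only [Fin.snoc_last]; exact hp3
      · simp only [Fin.snoc_castSucc]; exact hp1 j
    · simp only [hf]
      rw [Fin.sum_univ_castSucc]
      simp only [Fin.snoc_castSucc, Fin.snoc_last]
      exact hsum
  · rw [card_image_of_injective _ hinj]
    have : B ^ (s + 1) * (T.card : ℝ) = ∑ ω ∈ DBox s X, ∑ l ∈ Finset.Ico 1 (C0 * X),
        (if kv d c1 b1 θ1 ω + aw d c2 b2 θ2 l = N ∧ ((∀ i, (ω i).Prime) ∧ l.Prime) then B ^ (s + 1) else 0) := by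
      rw [mul_comm, hT, ← nsmul_eq_mul, ← sum_const, sum_filter, sum_product]
    rw [this]
    unfold R1
    apply sum_le_sum; intro ω hω
    apply sum_le_sum; intro l hl
    by_cases hcond : kv d c1 b1 θ1 ω + aw d c2 b2 θ2 l = N
    · rw [if_pos hcond]
      by_cases hpr : (∀ i, (ω i).Prime) ∧ l.Prime
      · rw [if_pos ⟨hcond, hpr⟩]
        have e1 := kp_le (c := c1) (b := b1) (θ := θ1) hB1 hω
        have e3 : wwL d c2 b2 θ2 lam l ≤ B := (wwL_le lam_nonneg l).trans (hB2 l (Finset.mem_Ico.mp hl).2.le)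
        calc kp d c1 b1 θ1 ω * wwL d c2 b2 θ2 lam l ≤ B ^ s * B := by
              apply mul_le_mul e1 e3 (wwL_nonneg lam_nonneg l) (by positivity)
          _ = B ^ (s + 1) := by rw [← pow_succ]
      · rw [if_neg (fun h => hpr h.2)]
        apply le_of_eq
        by_contra hne
        apply hpr
        have h1 := left_ne_zero_of_mul hne
        have h2 := right_ne_zero_of_mul hne
        unfold kp at h1
        rw [prod_ne_zero_iff] at h1
        refine ⟨fun i => ?_, ?_⟩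
        · exact prime_of_lam_ne (left_ne_zero_of_mul (h1 i (mem_univ i)))
        · exact prime_of_lam_ne (left_ne_zero_of_mul h2)
    · rw [if_neg hcond, if_neg (fun h => hcond h.1)]

end Pool.Agent.N604.MW
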