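import Mathlib
import Pool.Agent.N604.MW.KAsm1

/-!
# Project KV: the core (one scale)
-/

namespace Pool.Agent.N604.MW

open Finset MeasureTheory

variable {s d : ℕ}

/-- a crude bound for the values of the last variable -/
lemma aw_abs_le (c b : ℝ) (θ : Fin d → ℝ) (hc : 0 < c) (C0 : ℕ) : ∃ K : ℝ, 0 < K ∧ ∀ X l : ℕ, 1 ≤ X → 1 ≤ l →
    l < C0 * X → |(aw d c b θ l : ℝ)| ≤ K * (X : ℝ) ^ (d + 1) := by
  set A : ℝ := ∑ j, |θ j| + |b| with hA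
  have hA0 : 0 ≤ A := add_nonneg (sum_nonneg fun _ _ => abs_nonneg _) (abs_nonneg _)
  refine ⟨(c + A) * (C0 : ℝ) ^ (d + 1) + 1, by positivity, ?_⟩
  intro X l hX hl1 hl2
  have hX1 : (1 : ℝ) ≤ X := by exact_mod_cast hX
  have hx1 : (1 : ℝ) ≤ l := by exact_mod_cast hl1
  have hPP : |PP d c b θ (l : ℝ)| ≤ (c + A) * (l : ℝ) ^ (d + 1) := by
    unfold PP
    calc |c * (l : ℝ) ^ (d + 1) + ∑ j : Fin d, θ j * (l : ℝ) ^ ((j : ℕ) + 1) + b|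
        ≤ |c * (l : ℝ) ^ (d + 1)| + ∑ j : Fin d, |θ j * (l : ℝ) ^ ((j : ℕ) + 1)| + |b| := by
          refine (abs_add_le _ _).trans ?_
          gcongr
          refine (abs_add_le _ _).trans ?_
          gcongr
          exact abs_sum_le_sum_abs _ _
      _ ≤ c * (l : ℝ) ^ (d + 1) + ∑ j : Fin d, |θ j| * (l : ℝ) ^ (d + 1) + |b| * (l : ℝ) ^ (d + 1) := by
          apply add_le_add
          · apply add_le_add
            · rw [abs_of_nonneg (by positivity)]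
            · apply sum_le_sum
              intro j _
              rw [abs_mul, abs_of_pos (by positivity : (0 : ℝ) < (l : ℝ) ^ ((j : ℕ) + 1))]
              have : (l : ℝ) ^ ((j : ℕ) + 1) ≤ (l : ℝ) ^ (d + 1) := pow_le_pow_right₀ hx1 (by have := j.2; omega)
              gcongr
          · exact le_mul_of_one_le_right (abs_nonneg _) (one_le_pow₀ hx1)
      _ = (c + A) * (l : ℝ) ^ (d + 1) := by rw [hA, ← sum_mul]; ring
  have h1 : |(aw d c b θ l : ℝ)| ≤ |PP d c b θ (l : ℝ)| + 1 := by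
    unfold aw
    have e1 := Int.floor_add_fract (PP d c b θ (l : ℝ))
    have e2 := Int.fract_nonneg (PP d c b θ (l : ℝ))
    have e3 := Int.fract_lt_one (PP d c b θ (l : ℝ))
    rw [abs_le]
    constructor
    · have := neg_abs_le (PP d c b θ (l : ℝ)); linarith
    · have := le_abs_self (PP d c b θ (l : ℝ)); linarith
  have hl : (l : ℝ) ≤ C0 * X := by exact_mod_cast hl2.le
  calc |(aw d c b θ l : ℝ)| ≤ (c + A) * (l : ℝ) ^ (d + 1) + 1 := by linarith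
    _ ≤ (c + A) * (C0 * X) ^ (d + 1) + 1 * (X : ℝ) ^ (d + 1) := by
        have : (1 : ℝ) ≤ (X : ℝ) ^ (d + 1) := one_le_pow₀ hX1
        have h9 : 0 ≤ c + A := by linarith
        gcongr
        linarith
    _ = _ := by rw [mul_pow]; ring

theorem kcore (hMASS : S_PMASS) (hLOW : S_PLOW) (hTP : S_PTPOINT) (hC : S_CIRC5) (hd : 1 ≤ d) (hds : d ≤ s)
    (hs2 : s ≤ 2 * (d + 1)) (c b : Fin s → ℝ) (θ : Fin s → Fin d → ℝ) (c2 b2 : ℝ) (θ2 : Fin d → ℝ) (hc : ∀ i, 0 < c i)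
    (hc2 : 0 < c2) (hDio : ∀ i, Dio d (c i) (θ i)) (hDio2 : Dio d c2 θ2) (hG : GoodQ s d c b θ) :
    ∃ v C0 : ℕ, ∃ κ : ℝ, 0 < κ ∧ ∃ ν0 : ℕ, ∀ ν X : ℕ, ν0 ≤ ν → X = 2 ^ ν → ∀ N : ℤ,
      (2 * v + 1) * (X : ℤ) ^ (d + 1) ≤ N → N ≤ 2 ^ (d + 1) * ((2 * v + 1) * (X : ℤ) ^ (d + 1)) →
      κ * (X : ℝ) ^ (s - d) ≤ R1 (DBox s X) (Finset.Ico 1 (C0 * X)) (kv d c b θ) (kp d c b θ) (aw d c2 b2 θ2)
        (wwL d c2 b2 θ2 lam) N := by
  obtain ⟨v, Xa, hv⟩ := ksize c b θ hc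
  have : Nonempty (Fin s) := ⟨⟨0, by omega⟩⟩
  -- masses
  choose κs hκs0 Xs hXs using fun i => hMASS d (c i) (b i) (θ i) hd (hc i) (hDio i) 1
  obtain ⟨i0, hi0⟩ := Finite.exists_min κs
  set κm : ℝ := κs i0 with hκm
  have hκm0 : 0 < κm := hκs0 i0
  obtain ⟨C0, κL, σL, hκL, hσL, Xc, hlow⟩ := hLOW d c2 b2 θ2 hd hc2 hDio2 (2 ^ (d + 1) * (2 * v + 1)) (by
    have h1 : (1 : ℝ) ≤ 2 ^ (d + 1) := one_le_pow₀ (by norm_num)
    have h2 : (1 : ℝ) ≤ 2 * v + 1 := by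
      have : (0 : ℝ) ≤ v := Nat.cast_nonneg v
      linarith
    calc (1 : ℝ) = 1 * 1 := by ring
      _ ≤ _ := mul_le_mul h1 h2 (by norm_num) (by linarith))
  set δ : ℝ := min σL 1 / 4 with hδ
  have hm0 : 0 < min σL 1 := lt_min hσL one_pos
  have hδ0 : 0 < δ := by rw [hδ]; linarith
  have hδ4 : δ ≤ 1 / 4 := by
    have := min_le_right σL 1
    rw [hδ]; linarith
  have hδσ : 3 * δ ≤ σL := by
    have := min_le_left σL 1
    rw [hδ]; linarith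
  obtain ⟨σ, hσ, Xd, htp⟩ := hTP d c2 b2 θ2 hd hc2 hDio2 C0 δ hδ0
  obtain ⟨hG1, δG, hδG, νg, hG2⟩ := hG
  obtain ⟨νh, hG1⟩ := hG1 (σ / 4) (by linarith)
  have hd0 : (0 : ℝ) < (d : ℝ) + 1 := by positivity
  have hd1 : (1 : ℝ) ≤ d := by exact_mod_cast hd
  have hs2r : (s : ℝ) ≤ 2 * (d + 1) := by exact_mod_cast hs2
  have hdsr : (d : ℝ) ≤ s := by exact_mod_cast hds
  -- the exponent of the weights
  set ε : ℝ := min (δ / 2) (δG / 2) with hε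
  have hε0 : 0 < ε := lt_min (by linarith) (by linarith)
  have hε1 : ε ≤ δ / 2 := min_le_left _ _
  have hε2 : ε ≤ δG / 2 := min_le_right _ _
  obtain ⟨Xe, hbd⟩ := lam_bound (C0 + 2) ε hε0
  obtain ⟨K, hK, haw⟩ := aw_abs_le c2 b2 θ2 hc2 C0
  obtain ⟨X1, h1⟩ := big (3 * δ) 2 (by linarith)
  obtain ⟨X2, h2⟩ := big (δ / 2) (64 * C0 / κL) (by linarith)
  obtain ⟨X3, h3⟩ := big (3 * σ / 4) (16 / (κm ^ s * κL)) (by linarith)
  obtain ⟨X4, h4⟩ := big (δG / 2) (16 * C0 / (κm ^ s * κL)) (by linarith)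
  obtain ⟨X5, h5⟩ := big (1 / 4) (2 ^ (d + 1) * (2 * v + 1) + 1 + K) (by norm_num)
  refine ⟨v, C0, κL / 4 * κm ^ s, by positivity,
    Xa + ∑ i, Xs i + Xc + Xd + Xe + νg + νh + X1 + X2 + X3 + X4 + X5 + 1, ?_⟩
  intro ν X hν hX N hN1 hN2
  have hXν : ν < X := by rw [hX]; exact Nat.lt_two_pow_self
  replace hG1 := hG1 ν X (by omega) hX
  replace hG2 := hG2 ν X (by omega) hX
  have hXa : Xa ≤ X := by omega
  have hXc : Xc ≤ X := by omega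
  have hXd : Xd ≤ X := by omega
  have hXsi : ∀ i, Xs i ≤ X := fun i =>
    (Finset.single_le_sum (f := Xs) (fun _ _ => Nat.zero_le _) (mem_univ i)).trans (by omega)
  replace hbd := hbd X (by omega)
  replace h1 := h1 X (by omega)
  replace h2 := h2 X (by omega)
  replace h3 := h3 X (by omega)
  replace h4 := h4 X (by omega)
  replace h5 := h5 X (by omega)
  have hX1 : 1 ≤ X := by omega
  have hx1 : (1 : ℝ) ≤ X := by exact_mod_cast hX1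
  have hx0 : (0 : ℝ) < X := by linarith
  clear hν
  -- the window
  set W : ℕ := ⌈(X : ℝ) ^ ((d : ℝ) + 1 - 3 * δ)⌉₊ with hW
  have hWlo : (X : ℝ) ^ ((d : ℝ) + 1 - 3 * δ) ≤ W := Nat.le_ceil _
  have hWpos : (0 : ℝ) < (X : ℝ) ^ ((d : ℝ) + 1 - 3 * δ) := Real.rpow_pos_of_pos hx0 _
  have hexp0 : 0 ≤ (d : ℝ) + 1 - 3 * δ := by linarith
  have hW1' : (1 : ℝ) ≤ (X : ℝ) ^ ((d : ℝ) + 1 - 3 * δ) := Real.one_le_rpow hx1 hexp0
  have hWhi : (W : ℝ) ≤ 2 * (X : ℝ) ^ ((d : ℝ) + 1 - 3 * δ) := by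
    have := Nat.ceil_lt_add_one hWpos.le
    rw [← hW] at this
    linarith
  have hW1 : 1 ≤ W := by
    have : (1 : ℝ) ≤ W := hW1'.trans hWlo
    exact_mod_cast this
  have hW0 : (0 : ℝ) < W := by exact_mod_cast hW1
  have hxk : (X : ℝ) ^ ((d : ℝ) + 1) = (X : ℝ) ^ (d + 1) := by
    rw [← Real.rpow_natCast]; push_cast; ring_nf
  have hWX : (W : ℝ) ≤ (X : ℝ) ^ (d + 1) := by
    calc (W : ℝ) ≤ 2 * (X : ℝ) ^ ((d : ℝ) + 1 - 3 * δ) := hWhi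
      _ ≤ (X : ℝ) ^ (3 * δ) * (X : ℝ) ^ ((d : ℝ) + 1 - 3 * δ) := by gcongr
      _ = (X : ℝ) ^ (d + 1) := by
          rw [← Real.rpow_add hx0, ← hxk]; congr 1; ring
  have hWL : (X : ℝ) ^ ((d : ℝ) + 1 - σL) ≤ W := by
    refine le_trans ?_ hWlo
    apply Real.rpow_le_rpow_of_exponent_le hx1
    linarith
  -- names
  set P := DBox s X with hP
  set L := Finset.Ico 1 (C0 * X) with hL
  set vv := kv d c b θ with hvv
  set pp := kp d c b θ with hpp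
  set aa := aw d c2 b2 θ2 with haa
  set wt := wwL d c2 b2 θ2 lam with hwt
  have hp0 : ∀ ω, 0 ≤ pp ω := fun ω => kp_nonneg c b θ ω
  have hw0 : ∀ l, 0 ≤ wt l := fun l => wwL_nonneg lam_nonneg l
  -- sizes
  have hvP : ∀ ω ∈ P, 0 ≤ vv ω ∧ vv ω ≤ v * (X : ℤ) ^ (d + 1) := fun ω hω => hv X ω hXa hω
  set m := ∑ ω ∈ P, pp ω with hm
  have hmlo : (κm * (X : ℝ)) ^ s ≤ m := by
    apply kmass_ge hκm0.le
    intro i
    have := hXs i X X (hXsi i) le_rfl (by omega)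
    rw [show X + X = 2 * X by ring] at this
    refine le_trans ?_ this
    have := hi0 i
    gcongr
  have hm0' : 0 < m := lt_of_lt_of_le (by positivity) hmlo
  have hXε : 0 ≤ (X : ℝ) ^ ε := Real.rpow_nonneg hx0.le _
  have hwsum : ∑ l ∈ L, wt l ≤ C0 * X * (X : ℝ) ^ ε := by
    calc ∑ l ∈ L, wt l ≤ ∑ _l ∈ L, (X : ℝ) ^ ε := by
          apply sum_le_sum; intro l hl
          refine (wwL_le lam_nonneg l).trans (hbd l ?_)
          have := (Finset.mem_Ico.mp hl).2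
          calc l ≤ C0 * X := this.le
            _ ≤ (C0 + 2) * X := Nat.mul_le_mul_right _ (by omega)
      _ = (L.card : ℝ) * (X : ℝ) ^ ε := by simp
      _ ≤ C0 * X * (X : ℝ) ^ ε := by
        apply mul_le_mul_of_nonneg_right _ hXε
        rw [hL, Nat.card_Ico]
        have : C0 * X - 1 ≤ C0 * X := Nat.sub_le _ _
        exact_mod_cast this
  have hwsum0 : 0 ≤ ∑ l ∈ L, wt l := sum_nonneg fun l _ => hw0 l
  -- the window lower bound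
  have hq : ∀ M : ℤ, (X : ℤ) ^ (d + 1) ≤ M → M ≤ 2 ^ (d + 1) * ((2 * v + 1) * (X : ℤ) ^ (d + 1)) →
      κL * W / (X : ℝ) ^ d ≤ ∑ l ∈ L.filter (fun l => M ≤ aa l ∧ aa l < M + W), wt l := by
    intro M hM1 hM2
    have e1 : ((X : ℝ)) ^ (d + 1) ≤ M := by exact_mod_cast hM1
    have e2 : (M : ℝ) ≤ 2 ^ (d + 1) * (2 * v + 1) * (X : ℝ) ^ (d + 1) := by
      have : (M : ℝ) ≤ ((2 ^ (d + 1) * ((2 * v + 1) * (X : ℤ) ^ (d + 1)) : ℤ) : ℝ) := by exact_mod_cast hM2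
      push_cast at this
      linarith
    have e3 := hlow X W M hXc e1 e2 hWL hWX
    refine e3.trans (le_of_eq ?_)
    apply sum_congr _ (fun _ _ => rfl)
    ext l
    simp only [mem_filter, mem_range, hL, Finset.mem_Ico, haa, aw]
    constructor
    · rintro ⟨h1, h2, h3, h4⟩; exact ⟨⟨h2, h1⟩, h3, h4⟩
    · rintro ⟨⟨h2, h1⟩, h3, h4⟩; exact ⟨h1, h2, h3, h4⟩
  -- minor arcs
  set τ : ℝ := (X : ℝ) ^ (1 - σ) with hτ
  set η₁ : ℝ := (X : ℝ) ^ (-((d : ℝ) + 1) + δ) with hη₁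
  set η : ℝ := (X : ℝ) ^ (-(d : ℝ) + ((s : ℝ) / 2 - 5 / 4)) with hη
  have hτ0 : 0 ≤ τ := Real.rpow_nonneg hx0.le _
  have hη₁0 : 0 < η₁ := Real.rpow_pos_of_pos hx0 _
  have hη₁η : η₁ ≤ η := by
    apply Real.rpow_le_rpow_of_exponent_le hx1
    have : (1 : ℝ) ≤ s := hd1.trans hdsr
    linarith
  have hX16 : (2 : ℝ) ≤ (X : ℝ) ^ (1 / 4 : ℝ) := by
    refine le_trans ?_ h5
    have e1 : (1 : ℝ) ≤ 2 ^ (d + 1) := one_le_pow₀ (by norm_num)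
    have e2 : (1 : ℝ) ≤ 2 * (v : ℝ) + 1 := by
      have : (0 : ℝ) ≤ v := Nat.cast_nonneg v
      linarith
    nlinarith
  have hη2 : η ≤ 1 / 2 := by
    have e1 : η ≤ (X : ℝ) ^ (-(1 / 4) : ℝ) := by
      apply Real.rpow_le_rpow_of_exponent_le hx1
      linarith
    refine e1.trans ?_
    rw [Real.rpow_neg hx0.le, inv_le_comm₀ (Real.rpow_pos_of_pos hx0 _) (by norm_num)]
    norm_num
    exact hX16
  have hminor : ∀ α : ℝ, η₁ ≤ |α| → |α| ≤ 1 / 2 → ‖∑ l ∈ L, (wt l : ℂ) * e (α * aa l)‖ ≤ τ := by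
    intro α hα1 hα2
    by_cases hC0 : C0 * X = 0
    · have : L = ∅ := by rw [hL, hC0]; rfl
      rw [this, sum_empty, norm_zero]; exact hτ0
    have hpos : 1 ≤ C0 * X := Nat.one_le_iff_ne_zero.mpr hC0
    have := htp X 1 (C0 * X - 1) hXd (by omega) α hα1 hα2
    refine le_trans (le_of_eq ?_) this
    rw [hL, Finset.sum_Ico_eq_sum_range]
    rfl
  have hU : ∀ β : ℝ, ∑ ω ∈ P, (pp ω : ℂ) * e (β * vv ω) = ∏ i, TQ d (FF d (c i) (b i)) X (θ i) β :=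
    fun β => kU_eq c b θ β
  -- the upper arcs
  set E0 : ℝ := (X : ℝ) ^ ((s : ℝ) - d - 1 - δG) with hE0
  have hE00 : 0 ≤ E0 := Real.rpow_nonneg hx0.le _
  have hXd1 : (0 : ℝ) < (X : ℝ) ^ (d + 1) := by positivity
  have hNabs : ∀ l ∈ L, ∀ h : ℕ, h ≤ W → |((N + h - aa l : ℤ) : ℝ)| ≤ (X : ℝ) ^ ((d : ℝ) + 5 / 4) := by
    intro l hl h hh
    have hl' := Finset.mem_Ico.mp hl
    have e1 := haw X l hX1 hl'.1 hl'.2
    have e2 : (0 : ℝ) ≤ N := by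
      have : (0 : ℤ) ≤ N := le_trans (by positivity) hN1
      exact_mod_cast this
    have e3 : (N : ℝ) ≤ 2 ^ (d + 1) * (2 * v + 1) * (X : ℝ) ^ (d + 1) := by
      have : (N : ℝ) ≤ ((2 ^ (d + 1) * ((2 * v + 1) * (X : ℤ) ^ (d + 1)) : ℤ) : ℝ) := by exact_mod_cast hN2
      push_cast at this
      linarith
    have e4 : (h : ℝ) ≤ (X : ℝ) ^ (d + 1) := (by exact_mod_cast hh : (h : ℝ) ≤ W).trans hWX
    have e5 : (0 : ℝ) ≤ h := Nat.cast_nonneg h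
    push_cast
    have e6 : |(N : ℝ) + h - aa l| ≤ (2 ^ (d + 1) * (2 * v + 1) + 1 + K) * (X : ℝ) ^ (d + 1) := by
      have := abs_le.mp e1
      rw [abs_le]
      constructor <;> nlinarith [this.1, this.2]
    refine e6.trans ?_
    have e7 : (X : ℝ) ^ ((d : ℝ) + 5 / 4) = (X : ℝ) ^ (1 / 4 : ℝ) * (X : ℝ) ^ (d + 1) := by
      rw [← hxk, ← Real.rpow_add hx0]; congr 1; ring
    rw [e7]
    gcongr
  have hup : ∀ l ∈ L, ∀ h : ℕ, h ≤ W → ‖∫ β in Arc η (1 / 2), (∑ ω ∈ P, (pp ω : ℂ) * e (β * vv ω)) *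
      e (-(β * ((N + h - aa l : ℤ) : ℝ)))‖ ≤ E0 := by
    intro l hl h hh
    simp only [hU]
    exact hG2 (N + h - aa l) (hNabs l hl h hh)
  -- the lower arcs
  have hint : IntegrableOn (fun β : ℝ => ∏ i, ‖TQ d (FF d (c i) (b i)) X (θ i) β‖) (Arc 0 η) := by
    apply ContinuousOn.integrableOn_compact (isCompact_Arc _ _)
    exact (continuous_finsetProd _ fun i _ => (TQ_continuous d (FF d (c i) (b i)) X (θ i)).norm).continuousOn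
  have hlowarc : ∫ β in Arc η₁ η, ‖∑ ω ∈ P, (pp ω : ℂ) * e (β * vv ω)‖ ≤ (X : ℝ) ^ ((s : ℝ) - d - 1 + σ / 4) := by
    refine le_trans ?_ hG1
    simp only [hU, norm_prod]
    apply setIntegral_mono_set hint
    · exact Filter.Eventually.of_forall fun β => prod_nonneg fun _ _ => norm_nonneg _
    · apply Filter.Eventually.of_forall
      intro β hβ
      exact ⟨abs_nonneg _, hβ.2⟩
  have hlow0 : 0 ≤ ∫ β in Arc η₁ η, ‖∑ ω ∈ P, (pp ω : ℂ) * e (β * vv ω)‖ :=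
    integral_nonneg fun _ => norm_nonneg _
  -- the major arc error
  have hmaj : 16 * W * η₁ ^ 2 * (∑ l ∈ L, wt l) ≤ κL / 2 / (X : ℝ) ^ d := by
    have e1 : (X : ℝ) ^ ((d : ℝ) + 1 - 3 * δ) * η₁ ^ 2 * X * (X : ℝ) ^ ε = (X : ℝ) ^ (-δ + ε) / (X : ℝ) ^ d := by
      rw [hη₁, sq, ← Real.rpow_add hx0, ← Real.rpow_add hx0]
      rw [show (X : ℝ) ^ ((d : ℝ) + 1 - 3 * δ + (-((d : ℝ) + 1) + δ + (-((d : ℝ) + 1) + δ))) * X =
        (X : ℝ) ^ ((d : ℝ) + 1 - 3 * δ + (-((d : ℝ) + 1) + δ + (-((d : ℝ) + 1) + δ))) * (X : ℝ) ^ (1 : ℝ) by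
          rw [Real.rpow_one]]
      rw [← Real.rpow_add hx0, ← Real.rpow_add hx0, ← Real.rpow_natCast (X : ℝ) d, ← Real.rpow_sub hx0]
      congr 1; ring
    have e2 : (X : ℝ) ^ (-δ + ε) * (64 * C0) ≤ κL := by
      have e3 : (X : ℝ) ^ (-δ + ε) ≤ (X : ℝ) ^ (-(δ / 2)) :=
        Real.rpow_le_rpow_of_exponent_le hx1 (by linarith)
      have e4 : (X : ℝ) ^ (-(δ / 2)) * (64 * C0) ≤ κL := by
        rw [Real.rpow_neg hx0.le, inv_mul_le_iff₀ (Real.rpow_pos_of_pos hx0 _)]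
        rw [div_le_iff₀ hκL] at h2
        exact h2
      refine le_trans ?_ e4
      gcongr
    calc 16 * W * η₁ ^ 2 * (∑ l ∈ L, wt l)
        ≤ 16 * (2 * (X : ℝ) ^ ((d : ℝ) + 1 - 3 * δ)) * η₁ ^ 2 * (C0 * X * (X : ℝ) ^ ε) := by gcongr
      _ = 32 * C0 * ((X : ℝ) ^ ((d : ℝ) + 1 - 3 * δ) * η₁ ^ 2 * X * (X : ℝ) ^ ε) := by ring
      _ = ((X : ℝ) ^ (-δ + ε) * (64 * C0)) / 2 / (X : ℝ) ^ d := by rw [e1]; ring
      _ ≤ κL / 2 / (X : ℝ) ^ d := by gcongr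
  -- conclusion
  have hcirc := hC (Fin s → ℕ) ℕ P L vv pp aa wt W η₁ η τ E0 hp0 hw0 hW1 hη₁0 hη₁η hη2 hτ0 hE00 hminor N hup
  have hwin : m * (κL * W / (X : ℝ) ^ d) ≤ ∑ h ∈ range W, R1 P L vv pp aa wt (N + h) := by
    apply R1_window_ge P L vv pp aa wt W N hp0 _ ((X : ℤ) ^ (d + 1)) (v * (X : ℤ) ^ (d + 1)) hvP
    · have : (0 : ℤ) ≤ v * (X : ℤ) ^ (d + 1) := by positivity
      linarith
    · intro M hM1 hM2
      exact hq M hM1 (hM2.trans hN2)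
  have hmn : m * (κL / (X : ℝ) ^ d) ≤ (∑ h ∈ range W, R1 P L vv pp aa wt (N + h)) / W := by
    rw [le_div_iff₀ hW0]
    refine le_trans (le_of_eq ?_) hwin
    ring
  have hR : m * (κL / (X : ℝ) ^ d) - (16 * W * η₁ ^ 2 * m * (∑ l ∈ L, wt l) +
      2 * τ * (∫ β in Arc η₁ η, ‖∑ ω ∈ P, (pp ω : ℂ) * e (β * vv ω)‖) + 2 * E0 * ∑ l ∈ L, wt l) ≤
      R1 P L vv pp aa wt N := by
    have := (abs_le.mp hcirc).1
    linarith
  refine le_trans ?_ hR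
  have hsd : (X : ℝ) ^ (s - d) * (X : ℝ) ^ d = (X : ℝ) ^ s := by rw [← pow_add]; congr 1; omega
  have hsdr : (X : ℝ) ^ (s - d) = (X : ℝ) ^ ((s : ℝ) - d) := by
    rw [← Real.rpow_natCast, Nat.cast_sub hds]
  have hsd0 : (0 : ℝ) < (X : ℝ) ^ (s - d) := by positivity
  have a1 : 16 * W * η₁ ^ 2 * m * (∑ l ∈ L, wt l) ≤ m * (κL / 2 / (X : ℝ) ^ d) := by
    calc 16 * W * η₁ ^ 2 * m * (∑ l ∈ L, wt l) = m * (16 * W * η₁ ^ 2 * (∑ l ∈ L, wt l)) := by ring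
      _ ≤ _ := by gcongr
  have a2 : 2 * τ * (∫ β in Arc η₁ η, ‖∑ ω ∈ P, (pp ω : ℂ) * e (β * vv ω)‖) ≤ κL / 8 * κm ^ s * (X : ℝ) ^ (s - d) := by
    have e1 : τ * (X : ℝ) ^ ((s : ℝ) - d - 1 + σ / 4) * (X : ℝ) ^ (3 * σ / 4) = (X : ℝ) ^ (s - d) := by
      rw [hτ, hsdr, ← Real.rpow_add hx0, ← Real.rpow_add hx0]; congr 1; ring
    have e2 : 16 ≤ κL * κm ^ s * (X : ℝ) ^ (3 * σ / 4) := by
      rw [div_le_iff₀ (by positivity)] at h3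
      linarith
    calc 2 * τ * (∫ β in Arc η₁ η, ‖∑ ω ∈ P, (pp ω : ℂ) * e (β * vv ω)‖)
        ≤ 2 * τ * (X : ℝ) ^ ((s : ℝ) - d - 1 + σ / 4) := by gcongr
      _ = 16 / 8 * (τ * (X : ℝ) ^ ((s : ℝ) - d - 1 + σ / 4)) := by ring
      _ ≤ (κL * κm ^ s * (X : ℝ) ^ (3 * σ / 4)) / 8 * (τ * (X : ℝ) ^ ((s : ℝ) - d - 1 + σ / 4)) := by gcongr
      _ = κL / 8 * κm ^ s * (τ * (X : ℝ) ^ ((s : ℝ) - d - 1 + σ / 4) * (X : ℝ) ^ (3 * σ / 4)) := by ring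
      _ = _ := by rw [e1]
  have a3 : 2 * E0 * ∑ l ∈ L, wt l ≤ κL / 8 * κm ^ s * (X : ℝ) ^ (s - d) := by
    have e1 : E0 * (X * (X : ℝ) ^ ε) ≤ (X : ℝ) ^ ((s : ℝ) - d - δG / 2) := by
      calc E0 * (X * (X : ℝ) ^ ε) = (X : ℝ) ^ ((s : ℝ) - d - 1 - δG + (1 + ε)) := by
            rw [hE0, Real.rpow_add hx0 _ (1 + ε), Real.rpow_add hx0 1 ε, Real.rpow_one]
        _ ≤ _ := by
            apply Real.rpow_le_rpow_of_exponent_le hx1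
            linarith
    have e2 : (X : ℝ) ^ ((s : ℝ) - d - δG / 2) * (X : ℝ) ^ (δG / 2) = (X : ℝ) ^ (s - d) := by
      rw [hsdr, ← Real.rpow_add hx0]; congr 1; ring
    have e3 : 16 * C0 ≤ κL * κm ^ s * (X : ℝ) ^ (δG / 2) := by
      rw [div_le_iff₀ (by positivity)] at h4
      linarith
    calc 2 * E0 * ∑ l ∈ L, wt l ≤ 2 * E0 * (C0 * X * (X : ℝ) ^ ε) := by gcongr
      _ = (16 * C0) / 8 * (E0 * (X * (X : ℝ) ^ ε)) := by ring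
      _ ≤ (κL * κm ^ s * (X : ℝ) ^ (δG / 2)) / 8 * ((X : ℝ) ^ ((s : ℝ) - d - δG / 2)) := by gcongr
      _ = κL / 8 * κm ^ s * ((X : ℝ) ^ ((s : ℝ) - d - δG / 2) * (X : ℝ) ^ (δG / 2)) := by ring
      _ = _ := by rw [e2]
  have a5 : κL / 2 * κm ^ s * (X : ℝ) ^ (s - d) ≤ m * (κL / 2 / (X : ℝ) ^ d) := by
    calc κL / 2 * κm ^ s * (X : ℝ) ^ (s - d) = (κm * (X : ℝ)) ^ s * (κL / 2 / (X : ℝ) ^ d) := by
          rw [mul_pow, ← hsd]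
          field_simp
      _ ≤ _ := by gcongr
  have a6 : m * (κL / (X : ℝ) ^ d) = 2 * (m * (κL / 2 / (X : ℝ) ^ d)) := by ring
  rw [a6]
  nlinarith [a1, a2, a3, a5]

end Pool.Agent.N604.MW
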