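import Mathlib
import Pool.Agent.N604.MW.KAsm2

/-!
# Project KV: all large integers
-/

namespace Pool.Agent.N604.MW

open Finset MeasureTheory

variable {s d : ℕ}

theorem kpart {v C0 : ℕ} {κ : ℝ} (hκ : 0 < κ) {ν0 : ℕ} (hd : 1 ≤ d) (hds : d ≤ s) (c b : Fin (s + 1) → ℝ)
    (θ : Fin (s + 1) → Fin d → ℝ)
    (hcore : ∀ ν X : ℕ, ν0 ≤ ν → X = 2 ^ ν → ∀ N : ℤ,
      (2 * v + 1) * (X : ℤ) ^ (d + 1) ≤ N → N ≤ 2 ^ (d + 1) * ((2 * v + 1) * (X : ℤ) ^ (d + 1)) →
      κ * (X : ℝ) ^ (s - d) ≤ R1 (DBox s X) (Finset.Ico 1 (C0 * X))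
        (kv d (fun i => c (Fin.castSucc i)) (fun i => b (Fin.castSucc i)) (fun i => θ (Fin.castSucc i)))
        (kp d (fun i => c (Fin.castSucc i)) (fun i => b (Fin.castSucc i)) (fun i => θ (Fin.castSucc i)))
        (aw d (c (Fin.last s)) (b (Fin.last s)) (θ (Fin.last s)))
        (wwL d (c (Fin.last s)) (b (Fin.last s)) (θ (Fin.last s)) lam) N) :
    ∃ κ' : ℝ, 0 < κ' ∧ ∃ N0 : ℕ, ∀ N : ℕ, N0 ≤ N → ∃ S : Finset (Fin (s + 1) → ℕ),
      (∀ p ∈ S, (∀ i, (p i).Prime) ∧ ∑ i, ⌊PP d (c i) (b i) (θ i) (p i : ℝ)⌋ = (N : ℤ)) ∧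
      κ' * (N : ℝ) ^ (((s : ℝ) - d) / ((d : ℝ) + 1)) / Real.log N ^ (s + 1) ≤ S.card := by
  set B : ℝ := 2 ^ (d + 1) * (2 * v + 1) with hB
  have hB0 : 0 < B := by positivity
  have hdsr : (d : ℝ) ≤ s := by exact_mod_cast hds
  set E : ℝ := ((s : ℝ) - d) / ((d : ℝ) + 1) with hE
  have hE0 : 0 ≤ E := div_nonneg (by linarith) (by positivity)
  set ν1 : ℕ := ν0 + C0 + 4 with hν1
  refine ⟨κ / B ^ E, by positivity, (2 * v + 1) * (2 ^ ν1) ^ (d + 1), ?_⟩
  intro N hN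
  obtain ⟨ν, hν, h1, h2⟩ := scale v (d + 1) ν1 N (by omega) hN
  have hc := hcore ν (2 ^ ν) (by omega) rfl N (by exact_mod_cast h1) (by exact_mod_cast h2.le)
  have hX : 1 ≤ 2 ^ ν := Nat.one_le_two_pow
  have hXν : ν < 2 ^ ν := Nat.lt_two_pow_self
  generalize hXX : 2 ^ ν = X at *
  have hXN : X * X ≤ N := by
    calc X * X = X ^ 2 := by ring
      _ ≤ X ^ (d + 1) := Nat.pow_le_pow_right hX (by omega)
      _ ≤ (2 * v + 1) * X ^ (d + 1) := Nat.le_mul_of_pos_left _ (by omega)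
      _ ≤ N := h1
  have hC0N : C0 * X ≤ N := (Nat.mul_le_mul_right _ (by omega)).trans hXN
  have h2N : 2 * X ≤ N := (Nat.mul_le_mul_right _ (by omega)).trans hXN
  have hN4 : 4 ≤ N := by
    have : 2 * 2 ≤ X * X := Nat.mul_le_mul (by omega) (by omega)
    omega
  have hlogN : 0 < Real.log N := Real.log_pos (by exact_mod_cast (by omega : 1 < N))
  obtain ⟨S, hS, hcard⟩ := kreps (X := X) (C0 := C0) c b θ N (Real.log N) hlogN.le
    (fun n hn => lam_le_log (hn.trans h2N)) (fun n hn => lam_le_log (hn.trans hC0N))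
  refine ⟨S, hS, ?_⟩
  have h5 := hc.trans hcard
  have hx0 : (0 : ℝ) < X := by exact_mod_cast hX
  have h3 : (N : ℝ) ≤ B * (X : ℝ) ^ (d + 1) := by
    have : (N : ℝ) ≤ ((2 ^ (d + 1) * ((2 * v + 1) * X ^ (d + 1)) : ℕ) : ℝ) := by exact_mod_cast h2.le
    push_cast at this
    rw [hB]; linarith
  have h4 : (N : ℝ) ^ E ≤ B ^ E * (X : ℝ) ^ (s - d) := by
    calc (N : ℝ) ^ E ≤ (B * (X : ℝ) ^ (d + 1)) ^ E :=
          Real.rpow_le_rpow (Nat.cast_nonneg _) h3 hE0
      _ = B ^ E * (X : ℝ) ^ (s - d) := by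
          rw [Real.mul_rpow hB0.le (by positivity), ← Real.rpow_natCast (X : ℝ) (d + 1), ← Real.rpow_mul hx0.le,
            ← Real.rpow_natCast (X : ℝ) (s - d), Nat.cast_sub hds]
          congr 2
          rw [hE]
          push_cast
          field_simp
  rw [div_le_iff₀ (by positivity)]
  calc κ / B ^ E * (N : ℝ) ^ E ≤ κ / B ^ E * (B ^ E * (X : ℝ) ^ (s - d)) := by gcongr
    _ = κ * (X : ℝ) ^ (s - d) := by
        have : B ^ E ≠ 0 := by positivity
        field_simp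
    _ ≤ Real.log N ^ (s + 1) * S.card := h5
    _ = S.card * Real.log N ^ (s + 1) := by ring

/-- restriction of the last coordinate: a.e. statements for the first `s` coordinates -/
lemma pull_init {E : Type} [MeasureSpace E] [SigmaFinite (volume : Measure E)] (s : ℕ) (Q : (Fin s → E) → Prop)
    (h : ∀ᵐ β : Fin s → E, Q β) : ∀ᵐ α : Fin (s + 1) → E, Q (fun i => α (Fin.castSucc i)) := by
  have h1 : MeasurePreserving (MeasurableEquiv.piFinSuccAbove (fun _ : Fin (s + 1) => E) (Fin.last s)) :=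
    volume_preserving_piFinSuccAbove (fun _ : Fin (s + 1) => E) (Fin.last s)
  have h2 : Measure.QuasiMeasurePreserving
      (Prod.snd : E × (Fin s → E) → (Fin s → E)) volume volume :=
    Measure.quasiMeasurePreserving_snd
  have h4 := (h2.comp h1.quasiMeasurePreserving).ae h
  filter_upwards [h4] with α hα
  have e1 : (Prod.snd ∘ ⇑(MeasurableEquiv.piFinSuccAbove (fun _ : Fin (s + 1) => E) (Fin.last s))) α =
      fun i => α (Fin.castSucc i) := by
    funext i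
    simp [MeasurableEquiv.piFinSuccAbove, Fin.insertNthEquiv, Fin.init]
  rw [e1] at hα
  exact hα

lemma pull_eval {E : Type} [MeasureSpace E] [SigmaFinite (volume : Measure E)] (s : ℕ) (i : Fin s) (Q : E → Prop)
    (h : ∀ᵐ β : E, Q β) : ∀ᵐ α : Fin s → E, Q (α i) := by
  have h2 : Measure.QuasiMeasurePreserving (Function.eval i : (Fin s → E) → E) volume volume :=
    Measure.quasiMeasurePreserving_eval (fun _ => (volume : Measure E)) i
  exact h2.ae h

end Pool.Agent.N604.MW
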