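import Mathlib
import Pool.Agent.N604.MW.KAsm3
import Pool.Agent.N604.MW.PFin
import Pool.Agent.N604.MW.Stm5
import Pool.Agent.N700.KV_Char
import Pool.Agent.N853.KV_AC
import Pool.Agent.N196.KV_VD
import Pool.Agent.N490.KV.Greedy
import Pool.Agent.N78.KV_Measv
import Pool.Agent.N255.KV_Wint
import Pool.Agent.N570.KV_Part
import Pool.Agent.N954.KV_Key
import Pool.Agent.N353.KV_Circ5
import Pool.Agent.N152.KV_Msq
import Pool.Agent.N787.KV_Phi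
import Pool.Agent.N490.KV.Mom
import Pool.Agent.N559.KV_L2
import Pool.Agent.N277.KV_L1R
import Pool.Agent.N400.KV_Sharp2

/-!
# Project KV: the theorem
-/

namespace Pool.Agent.N604.MW

open Finset MeasureTheory

theorem wint_all : S_WINT :=
  Pool.Agent.N255.KV.wint Pool.Agent.N196.KV.vd Pool.Agent.N490.KV.greedy Pool.Agent.N78.KV.measv

theorem key_all : S_KEY := Pool.Agent.N954.KV.key (Pool.Agent.N570.KVPart.part Pool.Agent.N196.KV.vd) wint_all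

theorem mom_all : S_MOM :=
  Pool.Agent.N490.KV.mom (Pool.Agent.N787.KVPhi.phi Pool.Agent.N700.KVChar.charT Pool.Agent.N141.MWF.floor_series)

theorem l1r_all : S_L1R :=
  Pool.Agent.N277.KV.l1r (Pool.Agent.N559.KV.l2 Pool.Agent.N700.KVChar.charT Pool.Agent.N141.MWF.floor_series)
    Pool.Agent.N152.KVMsq.msq

/-- the theorem for `s + 1` primes, `s` admissible -/
theorem kgen (hBC : S_BC) (d s m : ℕ) (hd : 2 ≤ d) (h1 : 1 ≤ m) (h2 : 2 * m ≤ d) (h3 : 3 * m ≤ s) (h5 : 5 ≤ s)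
    (hds : d ≤ s) (hs2 : s ≤ 2 * (d + 1)) (h8 : 8 * m ≤ s + 1) (hm : d + 2 + m * (d + 3) ≤ m * s)
    (c b : Fin (s + 1) → ℝ) (hc : ∀ i, 0 < c i) :
    ∀ᵐ θ : Fin (s + 1) → Fin d → ℝ, ∃ κ' : ℝ, 0 < κ' ∧ ∃ N0 : ℕ, ∀ N : ℕ, N0 ≤ N →
      ∃ S : Finset (Fin (s + 1) → ℕ),
      (∀ p ∈ S, (∀ i, (p i).Prime) ∧ ∑ i, ⌊PP d (c i) (b i) (θ i) (p i : ℝ)⌋ = (N : ℤ)) ∧
      κ' * (N : ℝ) ^ (((s : ℝ) - d) / ((d : ℝ) + 1)) / Real.log N ^ (s + 1) ≤ S.card := by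
  have hP : S_PPOINT := Pool.Agent.N868.PWP.ppoint pweyl_all
  have hG := Pool.Agent.N853.KV.ac s d _ (hBC d s m (fun i => c (Fin.castSucc i)) (fun i => b (Fin.castSucc i)) hd h1 h2 h3 h5 hds
    hs2 h8 hm (fun i => hc _))
  have hG' := pull_init s _ hG
  have hD : ∀ᵐ θ : Fin (s + 1) → Fin d → ℝ, ∀ i, Dio d (c i) (θ i) := by
    rw [ae_all_iff]
    intro i
    exact pull_eval (s + 1) i _ (Pool.Agent.N547.MW.dio d (c i) (hc i))
  filter_upwards [hG', hD] with θ hθ1 hθ2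
  obtain ⟨v, C0, κ, hκ, ν0, hcore⟩ := kcore (Pool.Agent.N46.PW.pmass hP) (Pool.Agent.N46.PW.plow hP)
    (Pool.Agent.N868.PWT.ptpoint hP Pool.Agent.N141.MWF.floor_series) Pool.Agent.N353.KVCirc5.circ5
    (by omega : 1 ≤ d) hds hs2 (fun i => c (Fin.castSucc i)) (fun i => b (Fin.castSucc i))
    (fun i => θ (Fin.castSucc i)) (c (Fin.last s)) (b (Fin.last s)) (θ (Fin.last s)) (fun i => hc _) (hc _)
    (fun i => hθ2 _) (hθ2 _) hθ1
  exact kpart hκ (by omega) hds c b θ hcore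

end Pool.Agent.N604.MW
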