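import Mathlib
import Pool.Agent.N604.MW.Stm6

/-!
# Project KW: choice of the parameters
-/

namespace Pool.Agent.N604.MW

/-- WPARAM: the choice of `r` -/
def S_WPARAM : Prop := ∃ C : ℝ, 0 < C ∧ ∃ k0 : ℕ, 2 ≤ k0 ∧ ∀ k s : ℕ, k0 ≤ k → (k : ℝ) + C * k / Real.log k ≤ s →
  ∃ r s' : ℕ, s = s' + 1 ∧ 1 ≤ r ∧ r + 8 ≤ k ∧ k ≤ s' ∧ r * k + k + 2 + (nr r - r) * (r + 1) ≤ r * s'

end Pool.Agent.N604.MW
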