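import Mathlib
import Pool.Agent.N604.MW.DMeas
import Pool.Agent.N604.MW.DAsm3

/-!
# Project KW: values and weights of tuples, mass, size, representations
-/

namespace Pool.Agent.N604.MW

open Finset MeasureTheory

variable {s k : ℕ}

/-- value of a tuple -/
noncomputable def wv (k : ℕ) (α : Fin s → ℝ) (n : Fin s → ℕ) : ℤ := ∑ i, da k (α i) (n i)

/-- weight of a tuple -/
noncomputable def wp (k : ℕ) (α : Fin s → ℝ) (n : Fin s → ℕ) : ℝ := ∏ i, dw k (α i) (n i)

lemma wp_nonneg (α : Fin s → ℝ) (n : Fin s → ℕ) : 0 ≤ wp k α n := prod_nonneg fun _ _ => dw_nonneg _ _ _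

lemma wp_le {X : ℕ} {α : Fin s → ℝ} {B : ℝ} (hB : ∀ n, n ≤ 2 * X → lam n ≤ B)
    {n : Fin s → ℕ} (hn : n ∈ DBox s X) : wp k α n ≤ B ^ s := by
  unfold wp
  calc ∏ i, dw k (α i) (n i) ≤ ∏ _i : Fin s, B := by
        apply prod_le_prod
        · intro i _; exact dw_nonneg _ _ _
        · intro i _
          exact (dw_le _ _ _).trans (hB _ (DBox_le hn i))
    _ = B ^ s := by rw [prod_const, card_univ, Fintype.card_fin]

lemma wmass_ge {X : ℕ} {α : Fin s → ℝ} {κ : ℝ} (hκ : 0 ≤ κ)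
    (h : ∀ i, κ * (X : ℝ) ≤ ∑ n ∈ Finset.Icc X (2 * X), dw k (α i) n) :
    (κ * (X : ℝ)) ^ s ≤ ∑ ω ∈ DBox s X, wp k α ω := by
  have h1 : ∑ ω ∈ DBox s X, wp k α ω = ∏ i : Fin s, ∑ n ∈ Finset.Icc X (2 * X), dw k (α i) n := by
    rw [prod_univ_sum]; rfl
  rw [h1]
  calc (κ * (X : ℝ)) ^ s = ∏ _i : Fin s, (κ * (X : ℝ)) := by
        rw [prod_const, card_univ, Fintype.card_fin]
    _ ≤ _ := by
      apply prod_le_prod
      · intro i _; positivity
      · intro i _; exact h i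

/-- the exponential sum of the tuples is a product -/
lemma wU_eq {X : ℕ} (α : Fin s → ℝ) (β : ℝ) :
    ∑ ω ∈ DBox s X, (wp k α ω : ℂ) * e (β * wv k α ω) = ∏ i, TD k X (α i) β := by
  have h1 : ∀ i : Fin s, TD k X (α i) β =
      ∑ n ∈ Finset.Icc X (2 * X), ((dw k (α i) n : ℝ) : ℂ) * e (β * (da k (α i) n : ℤ)) := by
    intro i
    rfl
  rw [prod_congr rfl fun i _ => h1 i, prod_univ_sum]
  apply sum_congr rfl
  intro ω _
  rw [prod_mul_distrib]
  congr 1
  · unfold wp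
    push_cast
    rfl
  · unfold wv
    push_cast
    rw [mul_sum, e_sum]

/-- size of the values of the tuples -/
lemma wsize (α : Fin s → ℝ) (hα : ∀ i, 0 < α i) : ∃ v : ℕ, ∀ (X : ℕ) (n : Fin s → ℕ), n ∈ DBox s X →
    0 ≤ wv k α n ∧ wv k α n ≤ v * (X : ℤ) ^ k := by
  refine ⟨⌈∑ i, α i * 2 ^ k⌉₊, fun X n hn => ?_⟩
  unfold wv da
  constructor
  · apply sum_nonneg; intro i _
    exact Int.floor_nonneg.mpr (mul_nonneg (hα i).le (by positivity))
  · have h1 : ((∑ i, ⌊α i * (n i : ℝ) ^ k⌋ : ℤ) : ℝ) ≤ (⌈∑ i, α i * 2 ^ k⌉₊ : ℝ) * (X : ℝ) ^ k := by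
      push_cast
      calc ∑ i, (⌊α i * (n i : ℝ) ^ k⌋ : ℝ) ≤ ∑ i, α i * (n i : ℝ) ^ k := sum_le_sum fun i _ => Int.floor_le _
        _ ≤ ∑ i, (α i * 2 ^ k) * (X : ℝ) ^ k := by
            apply sum_le_sum; intro i _
            have h2 : (n i : ℝ) ≤ 2 * X := by exact_mod_cast DBox_le hn i
            calc α i * (n i : ℝ) ^ k ≤ α i * (2 * (X : ℝ)) ^ k := by
                  have := (hα i).le
                  gcongr
              _ = (α i * 2 ^ k) * (X : ℝ) ^ k := by rw [mul_pow]; ring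
        _ = (∑ i, α i * 2 ^ k) * (X : ℝ) ^ k := by rw [sum_mul]
        _ ≤ _ := by
            apply mul_le_mul_of_nonneg_right (Nat.le_ceil _) (by positivity)
    exact_mod_cast h1

/-- from `R1` to representations by primes -/
lemma wreps {X C0 : ℕ} (α : Fin (s + 1) → ℝ) (N : ℤ) (B : ℝ) (hB0 : 0 ≤ B)
    (hB1 : ∀ n, n ≤ 2 * X → lam n ≤ B) (hB2 : ∀ n, n ≤ C0 * X → lam n ≤ B) :
    ∃ S : Finset (Fin (s + 1) → ℕ), (∀ p ∈ S, (∀ i, (p i).Prime) ∧ ∑ i, ⌊α i * (p i : ℝ) ^ k⌋ = N) ∧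
      R1 (DBox s X) (Finset.Ico 1 (C0 * X)) (wv k (fun i => α (Fin.castSucc i))) (wp k (fun i => α (Fin.castSucc i)))
        (da k (α (Fin.last s))) (dw k (α (Fin.last s))) N ≤ B ^ (s + 1) * S.card := by
  classical
  set α1 : Fin s → ℝ := fun i => α (Fin.castSucc i) with hα1
  set a := α (Fin.last s) with ha
  set T := (DBox s X ×ˢ Finset.Ico 1 (C0 * X)).filter
    (fun p => wv k α1 p.1 + da k a p.2 = N ∧ ((∀ i, (p.1 i).Prime) ∧ p.2.Prime)) with hT
  set f : ((Fin s → ℕ) × ℕ) → (Fin (s + 1) → ℕ) := fun p => Fin.snoc (α := fun _ => ℕ) p.1 p.2 with hf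
  have hinj : Function.Injective f := by
    rintro ⟨a1, a3⟩ ⟨b1, b3⟩ h
    simp only [hf] at h
    have h1 : a3 = b3 := by
      have := congrFun h (Fin.last _)
      simpa using this
    have h2 : a1 = b1 := by
      funext i
      have := congrFun h (Fin.castSucc i)
      simpa using this
    rw [h1, h2]
  refine ⟨T.image f, ?_, ?_⟩
  · intro n hn
    rw [mem_image] at hn
    obtain ⟨⟨ω, l⟩, hp, rfl⟩ := hn
    rw [hT, mem_filter, mem_product] at hp
    obtain ⟨⟨hω, hl⟩, hsum, hp1, hp3⟩ := hp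
    simp only at hω hl hsum hp1 hp3
    constructor
    · intro i
      simp only [hf]
      refine Fin.lastCases ?_ (fun j => ?_) i
      · simp only [Fin.snoc_last]; exact hp3
      · simp only [Fin.snoc_castSucc]; exact hp1 j
    · simp only [hf]
      rw [Fin.sum_univ_castSucc]
      simp only [Fin.snoc_castSucc, Fin.snoc_last]
      exact hsum
  · rw [card_image_of_injective _ hinj]
    have : B ^ (s + 1) * (T.card : ℝ) = ∑ ω ∈ DBox s X, ∑ l ∈ Finset.Ico 1 (C0 * X),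
        (if wv k α1 ω + da k a l = N ∧ ((∀ i, (ω i).Prime) ∧ l.Prime) then B ^ (s + 1) else 0) := by
      rw [mul_comm, hT, ← nsmul_eq_mul, ← sum_const, sum_filter, sum_product]
    rw [this]
    unfold R1
    apply sum_le_sum; intro ω hω
    apply sum_le_sum; intro l hl
    by_cases hcond : wv k α1 ω + da k a l = N
    · rw [if_pos hcond]
      by_cases hpr : (∀ i, (ω i).Prime) ∧ l.Prime
      · rw [if_pos ⟨hcond, hpr⟩]
        have e1 := wp_le (k := k) (α := α1) hB1 hω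
        have e3 : dw k a l ≤ B := (dw_le k a l).trans (hB2 l (Finset.mem_Ico.mp hl).2.le)
        calc wp k α1 ω * dw k a l ≤ B ^ s * B := by
              apply mul_le_mul e1 e3 (dw_nonneg k a l) (by positivity)
          _ = B ^ (s + 1) := by rw [← pow_succ]
      · rw [if_neg (fun h => hpr h.2)]
        apply le_of_eq
        by_contra hne
        apply hpr
        have h1 := left_ne_zero_of_mul hne
        have h2 := right_ne_zero_of_mul hne
        unfold wp at h1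
        rw [prod_ne_zero_iff] at h1
        refine ⟨fun i => ?_, ?_⟩
        · exact prime_of_lam_ne (left_ne_zero_of_mul (h1 i (mem_univ i)))
        · exact prime_of_lam_ne (left_ne_zero_of_mul h2)
    · rw [if_neg hcond, if_neg (fun h => hcond h.1)]

end Pool.Agent.N604.MW
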