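import Mathlib
import Pool.Agent.N604.MW.WAsm1
import Pool.Agent.N604.MW.KAsm3

/-!
# Project KW: the core (one scale) and the counting
-/

namespace Pool.Agent.N604.MW

open Finset MeasureTheory

variable {s k : ℕ}

/-- the almost sure bounds for all small exponents -/
def AllGoodD (s k r : ℕ) (α : Fin s → ℝ) : Prop := ∀ q : ℕ, ∃ δ' : ℝ, 0 < δ' ∧ GoodD s k r (1 / ((q : ℝ) + 2)) δ' α

lemma da_abs_le (k : ℕ) (a : ℝ) (ha : 0 < a) (C0 : ℕ) : ∃ K : ℝ, 0 < K ∧ ∀ X l : ℕ, 1 ≤ X →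
    l < C0 * X → |(da k a l : ℝ)| ≤ K * (X : ℝ) ^ k := by
  refine ⟨a * (C0 : ℝ) ^ k + 1, by positivity, ?_⟩
  intro X l hX hl2
  have hX1 : (1 : ℝ) ≤ X := by exact_mod_cast hX
  have h0 : 0 ≤ a * (l : ℝ) ^ k := by positivity
  have h1 : |(da k a l : ℝ)| ≤ a * (l : ℝ) ^ k + 1 := by
    unfold da
    have e1 := Int.floor_add_fract (a * (l : ℝ) ^ k)
    have e2 := Int.fract_nonneg (a * (l : ℝ) ^ k)
    have e3 := Int.fract_lt_one (a * (l : ℝ) ^ k)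
    rw [abs_le]
    constructor <;> linarith
  have hl : (l : ℝ) ≤ C0 * X := by exact_mod_cast hl2.le
  calc |(da k a l : ℝ)| ≤ a * (l : ℝ) ^ k + 1 := h1
    _ ≤ a * (C0 * X) ^ k + 1 * (X : ℝ) ^ k := by
        have : (1 : ℝ) ≤ (X : ℝ) ^ k := one_le_pow₀ hX1
        gcongr
        linarith
    _ = _ := by rw [mul_pow]; ring

theorem wcore (hMASS : S_DMASS) (hLOW : S_DLOW) (hC : S_CIRC5) {r : ℕ} (hr : 1 ≤ r) (hrk : r + 8 ≤ k) (hks : k ≤ s)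
    (α : Fin s → ℝ) (a : ℝ) (hα : ∀ i, 0 < α i) (ha : 0 < a) (hDio : ∀ i, Dio1 (α i)) (hDio2 : Dio1 a)
    (hG : AllGoodD s k r α) :
    ∃ v C0 : ℕ, ∃ κ : ℝ, 0 < κ ∧ ∃ ν0 : ℕ, ∀ ν X : ℕ, ν0 ≤ ν → X = 2 ^ ν → ∀ N : ℤ,
      (2 * v + 1) * (X : ℤ) ^ k ≤ N → N ≤ 2 ^ k * ((2 * v + 1) * (X : ℤ) ^ k) →
      κ * (X : ℝ) ^ (s + 1 - k) ≤ R1 (DBox s X) (Finset.Ico 1 (C0 * X)) (wv k α) (wp k α) (da k a) (dw k a) N := by
  obtain ⟨v, hv⟩ := wsize (k := k) α hα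
  have : Nonempty (Fin s) := ⟨⟨0, by omega⟩⟩
  have hk : 2 ≤ k := by omega
  -- masses
  choose κs hκs0 Xs hXs using fun i => hMASS k (α i) hk (hα i) (hDio i)
  obtain ⟨i0, hi0⟩ := Finite.exists_min κs
  set κm : ℝ := κs i0 with hκm
  have hκm0 : 0 < κm := hκs0 i0
  obtain ⟨C0, κL, σL, hκL, hσL, Xc, hlow⟩ := hLOW k a hk ha hDio2 (2 ^ k * (2 * v + 1)) (by
    have h1 : (1 : ℝ) ≤ 2 ^ k := one_le_pow₀ (by norm_num)
    have h2 : (1 : ℝ) ≤ 2 * v + 1 := by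
      have : (0 : ℝ) ≤ v := Nat.cast_nonneg v
      linarith
    calc (1 : ℝ) = 1 * 1 := by ring
      _ ≤ _ := mul_le_mul h1 h2 (by norm_num) (by linarith))
  have hm0 : 0 < min σL 1 := lt_min hσL one_pos
  set q : ℕ := ⌈4 / min σL 1⌉₊ with hq
  set δ : ℝ := 1 / ((q : ℝ) + 2) with hδ
  have hδ0 : 0 < δ := by rw [hδ]; positivity
  have hδ' : δ ≤ min σL 1 / 4 := by
    have h1 : 4 / min σL 1 ≤ q := Nat.le_ceil _
    rw [hδ, div_le_div_iff₀ (by positivity) (by norm_num)]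
    rw [div_le_iff₀ hm0] at h1
    linarith
  have hδ4 : δ ≤ 1 / 4 := by
    have := min_le_right σL 1
    linarith
  have hδσ : 3 * δ ≤ σL := by
    have := min_le_left σL 1
    linarith
  obtain ⟨δG, hδG, νg, hG⟩ := hG q
  rw [← hδ] at hG
  have hk0 : (0 : ℝ) < k := by exact_mod_cast (by omega : 0 < k)
  have hkr : (k : ℝ) ≤ s := by exact_mod_cast hks
  have hr1 : (1 : ℝ) ≤ r := by exact_mod_cast hr
  have hrkr : (r : ℝ) + 8 ≤ k := by exact_mod_cast hrk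
  -- the exponent of the weights
  set ε : ℝ := min (δ / 2) (δG / 2) with hε
  have hε0 : 0 < ε := lt_min (by linarith) (by linarith)
  have hε1 : ε ≤ δ / 2 := min_le_left _ _
  have hε2 : ε ≤ δG / 2 := min_le_right _ _
  obtain ⟨Xe, hbd⟩ := lam_bound (C0 + 2) ε hε0
  obtain ⟨K, hK, haw⟩ := da_abs_le k a ha C0
  obtain ⟨X1, h1⟩ := big (3 * δ) 2 (by linarith)
  obtain ⟨X2, h2⟩ := big (δ / 2) (64 * C0 / κL) (by linarith)
  obtain ⟨X4, h4⟩ := big (δG / 2) (16 * C0 / (κm ^ s * κL)) (by linarith)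
  obtain ⟨X5, h5⟩ := big (1 / 4) (2 ^ k * (2 * v + 1) + 1 + K) (by norm_num)
  refine ⟨v, C0, κL / 4 * κm ^ s, by positivity,
    ∑ i, Xs i + Xc + Xe + νg + X1 + X2 + X4 + X5 + 2, ?_⟩
  intro ν X hν hX N hN1 hN2
  have hXν : ν < X := by rw [hX]; exact Nat.lt_two_pow_self
  obtain ⟨hG1, hG2⟩ := hG ν X (by omega) hX
  have hXc : Xc ≤ X := by omega
  have hXsi : ∀ i, Xs i ≤ X := fun i =>
    (Finset.single_le_sum (f := Xs) (fun _ _ => Nat.zero_le _) (mem_univ i)).trans (by omega)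
  replace hbd := hbd X (by omega)
  replace h1 := h1 X (by omega)
  replace h2 := h2 X (by omega)
  replace h4 := h4 X (by omega)
  replace h5 := h5 X (by omega)
  have hX1 : 1 ≤ X := by omega
  have hX2 : (2 : ℝ) ≤ X := by exact_mod_cast (by omega : 2 ≤ X)
  have hx1 : (1 : ℝ) ≤ X := by exact_mod_cast hX1
  have hx0 : (0 : ℝ) < X := by linarith
  clear hν
  -- the window
  set W : ℕ := ⌈(X : ℝ) ^ ((k : ℝ) - 3 * δ)⌉₊ with hW
  have hWlo : (X : ℝ) ^ ((k : ℝ) - 3 * δ) ≤ W := Nat.le_ceil _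
  have hWpos : (0 : ℝ) < (X : ℝ) ^ ((k : ℝ) - 3 * δ) := Real.rpow_pos_of_pos hx0 _
  have hexp0 : 0 ≤ (k : ℝ) - 3 * δ := by linarith
  have hW1' : (1 : ℝ) ≤ (X : ℝ) ^ ((k : ℝ) - 3 * δ) := Real.one_le_rpow hx1 hexp0
  have hWhi : (W : ℝ) ≤ 2 * (X : ℝ) ^ ((k : ℝ) - 3 * δ) := by
    have := Nat.ceil_lt_add_one hWpos.le
    rw [← hW] at this
    linarith
  have hW1 : 1 ≤ W := by
    have : (1 : ℝ) ≤ W := hW1'.trans hWlo
    exact_mod_cast this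
  have hW0 : (0 : ℝ) < W := by exact_mod_cast hW1
  have hxk : (X : ℝ) ^ (k : ℝ) = (X : ℝ) ^ k := Real.rpow_natCast _ _
  have hWX : (W : ℝ) ≤ (X : ℝ) ^ k := by
    calc (W : ℝ) ≤ 2 * (X : ℝ) ^ ((k : ℝ) - 3 * δ) := hWhi
      _ ≤ (X : ℝ) ^ (3 * δ) * (X : ℝ) ^ ((k : ℝ) - 3 * δ) := by gcongr
      _ = (X : ℝ) ^ k := by
          rw [← Real.rpow_add hx0, ← hxk]; congr 1; ring
  have hWL : (X : ℝ) ^ ((k : ℝ) - σL) ≤ W := by
    refine le_trans ?_ hWlo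
    apply Real.rpow_le_rpow_of_exponent_le hx1
    linarith
  -- names
  set P := DBox s X with hP
  set L := Finset.Ico 1 (C0 * X) with hL
  set vv := wv k α with hvv
  set pp := wp k α with hpp
  set aa := da k a with haa
  set wt := dw k a with hwt
  have hp0 : ∀ ω, 0 ≤ pp ω := fun ω => wp_nonneg α ω
  have hw0 : ∀ l, 0 ≤ wt l := fun l => dw_nonneg k a l
  -- sizes
  have hvP : ∀ ω ∈ P, 0 ≤ vv ω ∧ vv ω ≤ v * (X : ℤ) ^ k := fun ω hω => hv X ω hω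
  set m := ∑ ω ∈ P, pp ω with hm
  have hmlo : (κm * (X : ℝ)) ^ s ≤ m := by
    apply wmass_ge hκm0.le
    intro i
    have := hXs i X (hXsi i)
    refine le_trans ?_ this
    have := hi0 i
    gcongr
  have hm0' : 0 < m := lt_of_lt_of_le (by positivity) hmlo
  have hXε : 0 ≤ (X : ℝ) ^ ε := Real.rpow_nonneg hx0.le _
  have hwsum : ∑ l ∈ L, wt l ≤ C0 * X * (X : ℝ) ^ ε := by
    calc ∑ l ∈ L, wt l ≤ ∑ _l ∈ L, (X : ℝ) ^ ε := by
          apply sum_le_sum; intro l hl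
          refine (dw_le k a l).trans (hbd l ?_)
          have := (Finset.mem_Ico.mp hl).2
          calc l ≤ C0 * X := this.le
            _ ≤ (C0 + 2) * X := Nat.mul_le_mul_right _ (by omega)
      _ = (L.card : ℝ) * (X : ℝ) ^ ε := by simp
      _ ≤ C0 * X * (X : ℝ) ^ ε := by
        apply mul_le_mul_of_nonneg_right _ hXε
        rw [hL, Nat.card_Ico]
        have : C0 * X - 1 ≤ C0 * X := Nat.sub_le _ _
        exact_mod_cast this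
  have hwsum0 : 0 ≤ ∑ l ∈ L, wt l := sum_nonneg fun l _ => hw0 l
  -- the window lower bound
  have hq : ∀ M : ℤ, (X : ℤ) ^ k ≤ M → M ≤ 2 ^ k * ((2 * v + 1) * (X : ℤ) ^ k) →
      κL * W / (X : ℝ) ^ (k - 1) ≤ ∑ l ∈ L.filter (fun l => M ≤ aa l ∧ aa l < M + W), wt l := by
    intro M hM1 hM2
    have e1 : ((X : ℝ)) ^ k ≤ M := by exact_mod_cast hM1
    have e2 : (M : ℝ) ≤ 2 ^ k * (2 * v + 1) * (X : ℝ) ^ k := by
      have : (M : ℝ) ≤ ((2 ^ k * ((2 * v + 1) * (X : ℤ) ^ k) : ℤ) : ℝ) := by exact_mod_cast hM2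
      push_cast at this
      linarith
    have e3 := hlow X W M hXc e1 e2 hWL hWX
    refine e3.trans (le_of_eq ?_)
    apply sum_congr _ (fun _ _ => rfl)
    ext l
    simp only [mem_filter, mem_range, hL, Finset.mem_Ico, haa, da]
    constructor
    · rintro ⟨h1, h2, h3, h4⟩; exact ⟨⟨h2, h1⟩, h3, h4⟩
    · rintro ⟨⟨h2, h1⟩, h3, h4⟩; exact ⟨h1, h2, h3, h4⟩
  -- the arcs
  set η₁ : ℝ := (X : ℝ) ^ (-(k : ℝ) + δ) with hη₁
  set η : ℝ := (X : ℝ) ^ (-(k : ℝ) + (r : ℝ)) with hη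
  have hη₁0 : 0 < η₁ := Real.rpow_pos_of_pos hx0 _
  have hη₁η : η₁ ≤ η := by
    apply Real.rpow_le_rpow_of_exponent_le hx1
    linarith
  have hη2 : η ≤ 1 / 2 := by
    have e1 : η ≤ (X : ℝ) ^ (-1 : ℝ) := by
      apply Real.rpow_le_rpow_of_exponent_le hx1
      linarith
    refine e1.trans ?_
    rw [Real.rpow_neg_one, inv_le_comm₀ hx0 (by norm_num)]
    norm_num
    exact_mod_cast hX2
  have hminor : ∀ β : ℝ, η₁ ≤ |β| → |β| ≤ 1 / 2 → ‖∑ l ∈ L, (wt l : ℂ) * e (β * aa l)‖ ≤ ∑ l ∈ L, wt l := by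
    intro β _ _
    refine (norm_sum_le _ _).trans (le_of_eq ?_)
    apply sum_congr rfl; intro l _
    rw [norm_mul, e_norm, mul_one, Complex.norm_real, Real.norm_of_nonneg (hw0 l)]
  have hU : ∀ β : ℝ, ∑ ω ∈ P, (pp ω : ℂ) * e (β * vv ω) = ∏ i, TD k X (α i) β :=
    fun β => wU_eq α β
  -- the upper arcs
  set E0 : ℝ := (X : ℝ) ^ ((s : ℝ) - k - δG) with hE0
  have hE00 : 0 ≤ E0 := Real.rpow_nonneg hx0.le _
  have hNabs : ∀ l ∈ L, ∀ h : ℕ, h ≤ W → |((N + h - aa l : ℤ) : ℝ)| ≤ (X : ℝ) ^ ((k : ℝ) + 1 / 4) := by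
    intro l hl h hh
    have hl' := Finset.mem_Ico.mp hl
    have e1 := haw X l hX1 hl'.2
    have e2 : (0 : ℝ) ≤ N := by
      have : (0 : ℤ) ≤ N := le_trans (by positivity) hN1
      exact_mod_cast this
    have e3 : (N : ℝ) ≤ 2 ^ k * (2 * v + 1) * (X : ℝ) ^ k := by
      have : (N : ℝ) ≤ ((2 ^ k * ((2 * v + 1) * (X : ℤ) ^ k) : ℤ) : ℝ) := by exact_mod_cast hN2
      push_cast at this
      linarith
    have e4 : (h : ℝ) ≤ (X : ℝ) ^ k := (by exact_mod_cast hh : (h : ℝ) ≤ W).trans hWX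
    have e5 : (0 : ℝ) ≤ h := Nat.cast_nonneg h
    push_cast
    have e6 : |(N : ℝ) + h - aa l| ≤ (2 ^ k * (2 * v + 1) + 1 + K) * (X : ℝ) ^ k := by
      have := abs_le.mp e1
      rw [abs_le]
      have hpk : (0 : ℝ) < (X : ℝ) ^ k := by positivity
      constructor <;> nlinarith [this.1, this.2]
    refine e6.trans ?_
    have e7 : (X : ℝ) ^ ((k : ℝ) + 1 / 4) = (X : ℝ) ^ (1 / 4 : ℝ) * (X : ℝ) ^ k := by
      rw [← hxk, ← Real.rpow_add hx0]; congr 1; ring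
    rw [e7]
    gcongr
  have hup : ∀ l ∈ L, ∀ h : ℕ, h ≤ W → ‖∫ β in Arc η (1 / 2), (∑ ω ∈ P, (pp ω : ℂ) * e (β * vv ω)) *
      e (-(β * ((N + h - aa l : ℤ) : ℝ)))‖ ≤ E0 := by
    intro l hl h hh
    simp only [hU]
    exact hG2 (N + h - aa l) (hNabs l hl h hh)
  -- the lower arcs
  have hlowarc : ∫ β in Arc η₁ η, ‖∑ ω ∈ P, (pp ω : ℂ) * e (β * vv ω)‖ ≤ E0 := by
    refine le_trans (le_of_eq ?_) hG1
    simp only [hU, norm_prod]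
  have hlow0 : 0 ≤ ∫ β in Arc η₁ η, ‖∑ ω ∈ P, (pp ω : ℂ) * e (β * vv ω)‖ :=
    integral_nonneg fun _ => norm_nonneg _
  -- the major arc error
  have hmaj : 16 * W * η₁ ^ 2 * (∑ l ∈ L, wt l) ≤ κL / 2 / (X : ℝ) ^ (k - 1) := by
    have e1 : (X : ℝ) ^ ((k : ℝ) - 3 * δ) * η₁ ^ 2 * X * (X : ℝ) ^ ε = (X : ℝ) ^ (-δ + ε) / (X : ℝ) ^ (k - 1) := by
      rw [hη₁, sq, ← Real.rpow_add hx0, ← Real.rpow_add hx0]
      rw [show (X : ℝ) ^ ((k : ℝ) - 3 * δ + (-(k : ℝ) + δ + (-(k : ℝ) + δ))) * X =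
        (X : ℝ) ^ ((k : ℝ) - 3 * δ + (-(k : ℝ) + δ + (-(k : ℝ) + δ))) * (X : ℝ) ^ (1 : ℝ) by
          rw [Real.rpow_one]]
      rw [← Real.rpow_add hx0, ← Real.rpow_add hx0, ← Real.rpow_natCast (X : ℝ) (k - 1), ← Real.rpow_sub hx0]
      congr 1
      rw [Nat.cast_sub (by omega)]
      push_cast
      ring
    have e2 : (X : ℝ) ^ (-δ + ε) * (64 * C0) ≤ κL := by
      have e3 : (X : ℝ) ^ (-δ + ε) ≤ (X : ℝ) ^ (-(δ / 2)) :=
        Real.rpow_le_rpow_of_exponent_le hx1 (by linarith)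
      have e4 : (X : ℝ) ^ (-(δ / 2)) * (64 * C0) ≤ κL := by
        rw [Real.rpow_neg hx0.le, inv_mul_le_iff₀ (Real.rpow_pos_of_pos hx0 _)]
        rw [div_le_iff₀ hκL] at h2
        exact h2
      refine le_trans ?_ e4
      gcongr
    calc 16 * W * η₁ ^ 2 * (∑ l ∈ L, wt l)
        ≤ 16 * (2 * (X : ℝ) ^ ((k : ℝ) - 3 * δ)) * η₁ ^ 2 * (C0 * X * (X : ℝ) ^ ε) := by gcongr
      _ = 32 * C0 * ((X : ℝ) ^ ((k : ℝ) - 3 * δ) * η₁ ^ 2 * X * (X : ℝ) ^ ε) := by ring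
      _ = ((X : ℝ) ^ (-δ + ε) * (64 * C0)) / 2 / (X : ℝ) ^ (k - 1) := by rw [e1]; ring
      _ ≤ κL / 2 / (X : ℝ) ^ (k - 1) := by gcongr
  -- conclusion
  have hcirc := hC (Fin s → ℕ) ℕ P L vv pp aa wt W η₁ η (∑ l ∈ L, wt l) E0 hp0 hw0 hW1 hη₁0 hη₁η hη2 hwsum0 hE00
    hminor N hup
  have hwin : m * (κL * W / (X : ℝ) ^ (k - 1)) ≤ ∑ h ∈ range W, R1 P L vv pp aa wt (N + h) := by
    apply R1_window_ge P L vv pp aa wt W N hp0 _ ((X : ℤ) ^ k) (v * (X : ℤ) ^ k) hvP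
    · have : (0 : ℤ) ≤ v * (X : ℤ) ^ k := by positivity
      linarith
    · intro M hM1 hM2
      exact hq M hM1 (hM2.trans hN2)
  have hmn : m * (κL / (X : ℝ) ^ (k - 1)) ≤ (∑ h ∈ range W, R1 P L vv pp aa wt (N + h)) / W := by
    rw [le_div_iff₀ hW0]
    refine le_trans (le_of_eq ?_) hwin
    ring
  have hR : m * (κL / (X : ℝ) ^ (k - 1)) - (16 * W * η₁ ^ 2 * m * (∑ l ∈ L, wt l) +
      2 * (∑ l ∈ L, wt l) * (∫ β in Arc η₁ η, ‖∑ ω ∈ P, (pp ω : ℂ) * e (β * vv ω)‖) + 2 * E0 * ∑ l ∈ L, wt l) ≤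
      R1 P L vv pp aa wt N := by
    have := (abs_le.mp hcirc).1
    linarith
  refine le_trans ?_ hR
  have hsd : (X : ℝ) ^ (s + 1 - k) * (X : ℝ) ^ (k - 1) = (X : ℝ) ^ s := by rw [← pow_add]; congr 1; omega
  have hsdr : (X : ℝ) ^ (s + 1 - k) = (X : ℝ) ^ ((s : ℝ) + 1 - k) := by
    rw [← Real.rpow_natCast, Nat.cast_sub (by omega)]; push_cast; rfl
  have a1 : 16 * W * η₁ ^ 2 * m * (∑ l ∈ L, wt l) ≤ m * (κL / 2 / (X : ℝ) ^ (k - 1)) := by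
    calc 16 * W * η₁ ^ 2 * m * (∑ l ∈ L, wt l) = m * (16 * W * η₁ ^ 2 * (∑ l ∈ L, wt l)) := by ring
      _ ≤ _ := by gcongr
  have a3 : 2 * E0 * ∑ l ∈ L, wt l ≤ κL / 8 * κm ^ s * (X : ℝ) ^ (s + 1 - k) := by
    have e1 : E0 * (X * (X : ℝ) ^ ε) ≤ (X : ℝ) ^ ((s : ℝ) + 1 - k - δG / 2) := by
      calc E0 * (X * (X : ℝ) ^ ε) = (X : ℝ) ^ ((s : ℝ) - k - δG + (1 + ε)) := by
            rw [hE0, Real.rpow_add hx0 _ (1 + ε), Real.rpow_add hx0 1 ε, Real.rpow_one]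
        _ ≤ _ := by
            apply Real.rpow_le_rpow_of_exponent_le hx1
            linarith
    have e2 : (X : ℝ) ^ ((s : ℝ) + 1 - k - δG / 2) * (X : ℝ) ^ (δG / 2) = (X : ℝ) ^ (s + 1 - k) := by
      rw [hsdr, ← Real.rpow_add hx0]; congr 1; ring
    have e3 : 16 * C0 ≤ κL * κm ^ s * (X : ℝ) ^ (δG / 2) := by
      rw [div_le_iff₀ (by positivity)] at h4
      linarith
    calc 2 * E0 * ∑ l ∈ L, wt l ≤ 2 * E0 * (C0 * X * (X : ℝ) ^ ε) := by gcongr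
      _ = (16 * C0) / 8 * (E0 * (X * (X : ℝ) ^ ε)) := by ring
      _ ≤ (κL * κm ^ s * (X : ℝ) ^ (δG / 2)) / 8 * ((X : ℝ) ^ ((s : ℝ) + 1 - k - δG / 2)) := by gcongr
      _ = κL / 8 * κm ^ s * ((X : ℝ) ^ ((s : ℝ) + 1 - k - δG / 2) * (X : ℝ) ^ (δG / 2)) := by ring
      _ = _ := by rw [e2]
  have a2 : 2 * (∑ l ∈ L, wt l) * (∫ β in Arc η₁ η, ‖∑ ω ∈ P, (pp ω : ℂ) * e (β * vv ω)‖) ≤
      κL / 8 * κm ^ s * (X : ℝ) ^ (s + 1 - k) := by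
    refine le_trans ?_ a3
    calc 2 * (∑ l ∈ L, wt l) * (∫ β in Arc η₁ η, ‖∑ ω ∈ P, (pp ω : ℂ) * e (β * vv ω)‖)
        ≤ 2 * (∑ l ∈ L, wt l) * E0 := by gcongr
      _ = _ := by ring
  have a5 : κL / 2 * κm ^ s * (X : ℝ) ^ (s + 1 - k) ≤ m * (κL / 2 / (X : ℝ) ^ (k - 1)) := by
    calc κL / 2 * κm ^ s * (X : ℝ) ^ (s + 1 - k) = (κm * (X : ℝ)) ^ s * (κL / 2 / (X : ℝ) ^ (k - 1)) := by
          rw [mul_pow, ← hsd]
          field_simp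
      _ ≤ _ := by gcongr
  have a6 : m * (κL / (X : ℝ) ^ (k - 1)) = 2 * (m * (κL / 2 / (X : ℝ) ^ (k - 1))) := by ring
  rw [a6]
  nlinarith [a1, a2, a3, a5]

theorem wpart {v C0 : ℕ} {κ : ℝ} (hκ : 0 < κ) {ν0 : ℕ} (hk : 2 ≤ k) (hks : k ≤ s) (α : Fin (s + 1) → ℝ)
    (hcore : ∀ ν X : ℕ, ν0 ≤ ν → X = 2 ^ ν → ∀ N : ℤ,
      (2 * v + 1) * (X : ℤ) ^ k ≤ N → N ≤ 2 ^ k * ((2 * v + 1) * (X : ℤ) ^ k) →
      κ * (X : ℝ) ^ (s + 1 - k) ≤ R1 (DBox s X) (Finset.Ico 1 (C0 * X)) (wv k (fun i => α (Fin.castSucc i)))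
        (wp k (fun i => α (Fin.castSucc i))) (da k (α (Fin.last s))) (dw k (α (Fin.last s))) N) :
    ∃ κ' : ℝ, 0 < κ' ∧ ∃ N0 : ℕ, ∀ N : ℕ, N0 ≤ N → ∃ S : Finset (Fin (s + 1) → ℕ),
      (∀ p ∈ S, (∀ i, (p i).Prime) ∧ ∑ i, ⌊α i * (p i : ℝ) ^ k⌋ = (N : ℤ)) ∧
      κ' * (N : ℝ) ^ (((s + 1 : ℕ) : ℝ) / (k : ℝ) - 1) / Real.log N ^ (s + 1) ≤ S.card := by
  set B : ℝ := 2 ^ k * (2 * v + 1) with hB
  have hB0 : 0 < B := by positivity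
  have hkr : (k : ℝ) ≤ s := by exact_mod_cast hks
  have hk0 : (0 : ℝ) < k := by exact_mod_cast (by omega : 0 < k)
  set E : ℝ := ((s + 1 : ℕ) : ℝ) / (k : ℝ) - 1 with hE
  have hE0 : 0 ≤ E := by
    rw [hE, sub_nonneg, le_div_iff₀ hk0]
    push_cast
    linarith
  set ν1 : ℕ := ν0 + C0 + 4 with hν1
  refine ⟨κ / B ^ E, by positivity, (2 * v + 1) * (2 ^ ν1) ^ k, ?_⟩
  intro N hN
  obtain ⟨ν, hν, h1, h2⟩ := scale v k ν1 N (by omega) hN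
  have hc := hcore ν (2 ^ ν) (by omega) rfl N (by exact_mod_cast h1) (by exact_mod_cast h2.le)
  have hX : 1 ≤ 2 ^ ν := Nat.one_le_two_pow
  have hXν : ν < 2 ^ ν := Nat.lt_two_pow_self
  generalize hXX : 2 ^ ν = X at *
  have hXN : X * X ≤ N := by
    calc X * X = X ^ 2 := by ring
      _ ≤ X ^ k := Nat.pow_le_pow_right hX (by omega)
      _ ≤ (2 * v + 1) * X ^ k := Nat.le_mul_of_pos_left _ (by omega)
      _ ≤ N := h1
  have hC0N : C0 * X ≤ N := (Nat.mul_le_mul_right _ (by omega)).trans hXN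
  have h2N : 2 * X ≤ N := (Nat.mul_le_mul_right _ (by omega)).trans hXN
  have hN4 : 4 ≤ N := by
    have : 2 * 2 ≤ X * X := Nat.mul_le_mul (by omega) (by omega)
    omega
  have hlogN : 0 < Real.log N := Real.log_pos (by exact_mod_cast (by omega : 1 < N))
  obtain ⟨S, hS, hcard⟩ := wreps (k := k) (X := X) (C0 := C0) α N (Real.log N) hlogN.le
    (fun n hn => lam_le_log (hn.trans h2N)) (fun n hn => lam_le_log (hn.trans hC0N))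
  refine ⟨S, hS, ?_⟩
  have h5 := hc.trans hcard
  have hx0 : (0 : ℝ) < X := by exact_mod_cast hX
  have h3 : (N : ℝ) ≤ B * (X : ℝ) ^ k := by
    have : (N : ℝ) ≤ ((2 ^ k * ((2 * v + 1) * X ^ k) : ℕ) : ℝ) := by exact_mod_cast h2.le
    push_cast at this
    rw [hB]; linarith
  have h4 : (N : ℝ) ^ E ≤ B ^ E * (X : ℝ) ^ (s + 1 - k) := by
    calc (N : ℝ) ^ E ≤ (B * (X : ℝ) ^ k) ^ E :=
          Real.rpow_le_rpow (Nat.cast_nonneg _) h3 hE0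
      _ = B ^ E * (X : ℝ) ^ (s + 1 - k) := by
          rw [Real.mul_rpow hB0.le (by positivity), ← Real.rpow_natCast (X : ℝ) k, ← Real.rpow_mul hx0.le,
            ← Real.rpow_natCast (X : ℝ) (s + 1 - k), Nat.cast_sub (by omega)]
          congr 2
          rw [hE]
          push_cast
          field_simp
  rw [div_le_iff₀ (by positivity)]
  calc κ / B ^ E * (N : ℝ) ^ E ≤ κ / B ^ E * (B ^ E * (X : ℝ) ^ (s + 1 - k)) := by gcongr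
    _ = κ * (X : ℝ) ^ (s + 1 - k) := by
        have : B ^ E ≠ 0 := by positivity
        field_simp
    _ ≤ Real.log N ^ (s + 1) * S.card := h5
    _ = S.card * Real.log N ^ (s + 1) := by ring

end Pool.Agent.N604.MW
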