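import Mathlib
import Pool.Agent.N604.MW.WAsm2
import Pool.Agent.N604.MW.DFin
import Pool.Agent.N604.MW.KFin
import Pool.Agent.N604.MW.Stm7
import Pool.Agent.N128.KW_DPhi
import Pool.Agent.N400.KW_Dmom
import Pool.Agent.N265.KW_DL2
import Pool.Agent.N232.KW_DL1
import Pool.Agent.N457.KW_DVDC
import Pool.Agent.N618.KW_Dmv
import Pool.Agent.N749.KW_DSup
import Pool.Agent.N545.KW_DMeasq
import Pool.Agent.N933.KW_DKey
import Pool.Agent.N459.KW_DBC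
import Pool.Agent.N514.KW_WPARAM

/-!
# Project KW: the theorem
-/

namespace Pool.Agent.N604.MW

open Finset MeasureTheory

theorem dsup_all : S_DSUP :=
  Pool.Agent.N749.KWDSup.dsup Pool.Agent.N700.KVChar.charT (Pool.Agent.N618.KWDmv.dmv Pool.Agent.N457.KW.dvdc)

theorem dkey_all : S_DKEY :=
  Pool.Agent.N933.KW.dkey dsup_all Pool.Agent.N490.KV.greedy Pool.Agent.N545.KW.dmeasq

theorem dmom_all : S_DMOM :=
  Pool.Agent.N400.KWDmom.dmom (Pool.Agent.N128.KWDPhi.dphi Pool.Agent.N700.KVChar.charT Pool.Agent.N141.MWF.floor_series)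

theorem dbc_all : S_DBC :=
  Pool.Agent.N459.KW.dbc dkey_all dmom_all
    (Pool.Agent.N232.KW.dl1 (Pool.Agent.N265.KW.dl2 Pool.Agent.N700.KVChar.charT Pool.Agent.N141.MWF.floor_series))

/-- Gaussian almost everywhere implies Lebesgue almost everywhere -/
theorem ac1 (s : ℕ) (P : (Fin s → ℝ) → Prop) (h : ∀ᵐ θ ∂(GM s), P θ) : ∀ᵐ θ, P θ := by
  have h1 : (volume : Measure (Fin s → ℝ)) ≪ GM s := by
    unfold GM
    rw [volume_pi]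
    exact Pool.Agent.N853.KV.pi_ac s (fun _ => ℝ) _ _ fun _ =>
      ProbabilityTheory.gaussianReal_absolutelyContinuous' 0 one_ne_zero
  exact h1.ae_le h

/-- the theorem for `s + 1` primes -/
theorem wgen (r m k s : ℕ) (hr : 1 ≤ r) (hrk : r + 8 ≤ k) (hm : nr r = 2 * m) (hks : k ≤ s)
    (hs : r * k + k + 2 + (nr r - r) * (r + 1) ≤ r * s) :
    ∀ᵐ α : Fin (s + 1) → ℝ, (∀ i, 0 < α i) → ∃ κ' : ℝ, 0 < κ' ∧ ∃ N0 : ℕ, ∀ N : ℕ, N0 ≤ N →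
      ∃ S : Finset (Fin (s + 1) → ℕ),
      (∀ p ∈ S, (∀ i, (p i).Prime) ∧ ∑ i, ⌊α i * (p i : ℝ) ^ k⌋ = (N : ℤ)) ∧
      κ' * (N : ℝ) ^ (((s + 1 : ℕ) : ℝ) / (k : ℝ) - 1) / Real.log N ^ (s + 1) ≤ S.card := by
  have hG : ∀ᵐ α : Fin s → ℝ, AllGoodD s k r α := by
    unfold AllGoodD
    rw [ae_all_iff]
    intro q
    have hq0 : (0 : ℝ) < 1 / ((q : ℝ) + 2) := by positivity
    have hq1 : 1 / ((q : ℝ) + 2) < 1 := by
      rw [div_lt_one (by positivity)]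
      have : (0 : ℝ) ≤ q := Nat.cast_nonneg q
      linarith
    obtain ⟨δ', hδ', h⟩ := dbc_all r m k s (1 / ((q : ℝ) + 2)) hr hrk (by omega) hks (by rw [← hm]; exact hs) hq0 hq1
    filter_upwards [ac1 s _ h] with α hα
    exact ⟨δ', hδ', hα⟩
  have hG' := pull_init s _ hG
  have hD : ∀ᵐ α : Fin (s + 1) → ℝ, ∀ i, Dio1 (α i) := by
    filter_upwards [Pool.Agent.N645.PD.ddio (s + 1)] with α hα
    exact hα.1
  filter_upwards [hG', hD] with α hα1 hα2 hpos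
  obtain ⟨v, C0, κ, hκ, ν0, hcore⟩ := wcore (Pool.Agent.N539.PD.dmass pweyl_all) (Pool.Agent.N539.PD.dlow pweyl_all)
    Pool.Agent.N353.KVCirc5.circ5 hr hrk hks (fun i => α (Fin.castSucc i)) (α (Fin.last s)) (fun i => hpos _) (hpos _)
    (fun i => hα2 _) (hα2 _) hα1
  exact wpart hκ (by omega) hks α hcore

/-- the theorem with an explicit number of variables -/
theorem wgen_all : ∃ C : ℝ, 0 < C ∧ ∃ k0 : ℕ, 2 ≤ k0 ∧ ∀ k s : ℕ, k0 ≤ k → (k : ℝ) + C * k / Real.log k ≤ s →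
    ∀ᵐ α : Fin s → ℝ, (∀ i, 0 < α i) → ∃ κ' : ℝ, 0 < κ' ∧ ∃ N0 : ℕ, ∀ N : ℕ, N0 ≤ N →
      ∃ S : Finset (Fin s → ℕ),
      (∀ p ∈ S, (∀ i, (p i).Prime) ∧ ∑ i, ⌊α i * (p i : ℝ) ^ k⌋ = (N : ℤ)) ∧
      κ' * (N : ℝ) ^ ((s : ℝ) / (k : ℝ) - 1) / Real.log N ^ s ≤ S.card := by
  obtain ⟨C, hC, k0, hk0, h⟩ := Pool.Agent.N514.KW.wparam
  refine ⟨C, hC, k0, hk0, fun k s hk hs => ?_⟩
  obtain ⟨r, s', rfl, hr, hrk, hks, hcond⟩ := h k s hk hs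
  exact wgen r (2 * r * (r + 2) * 2 ^ (r + 2)) k s' hr hrk (by unfold nr; ring) hks hcond

end Pool.Agent.N604.MW
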