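import Mathlib
import Pool.Agent.N604.MW.Stm10
import Pool.Agent.N604.MW.WFin

/-!
# Project AD: assembly
-/

namespace Pool.Agent.N604.MW

open Finset MeasureTheory Filter

/-- the constant in the asymptotic formula -/
noncomputable def cst (s k : ℕ) (α : Fin s → ℝ) : ℝ :=
  (2 * Real.Gamma (1 + 1 / (k : ℝ))) ^ s / Real.Gamma ((s : ℝ) / k) * ∏ i, α i ^ (-(1 / (k : ℝ)))

lemma cst_pos (s k : ℕ) (α : Fin s → ℝ) (hk : 1 ≤ k) (hs : 1 ≤ s) (hα : ∀ i, 0 < α i) : 0 < cst s k α := by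
  unfold cst
  have hk' : (0 : ℝ) < k := by exact_mod_cast hk
  have hs' : (0 : ℝ) < s := by exact_mod_cast hs
  have h1 : 0 < Real.Gamma (1 + 1 / (k : ℝ)) := Real.Gamma_pos_of_pos (by positivity)
  have h2 : 0 < Real.Gamma ((s : ℝ) / k) := Real.Gamma_pos_of_pos (by positivity)
  have h3 : 0 < ∏ i, α i ^ (-(1 / (k : ℝ))) := Finset.prod_pos fun i _ => Real.rpow_pos_of_pos (hα i) _
  positivity

lemma cst_eq (s k : ℕ) (α : Fin s → ℝ) (hk : 1 ≤ k) (hs : 1 ≤ s) :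
    (2 * Real.Gamma (1 + 1 / (k : ℝ))) ^ s / Real.Gamma (1 + (s : ℝ) / k) * (∏ i, α i ^ (-(1 / (k : ℝ)))) *
      ((s : ℝ) / k) = cst s k α := by
  have hk' : (0 : ℝ) < k := by exact_mod_cast hk
  have hs' : (0 : ℝ) < s := by exact_mod_cast hs
  have h0 : (0 : ℝ) < (s : ℝ) / k := by positivity
  have h2 : 0 < Real.Gamma ((s : ℝ) / k) := Real.Gamma_pos_of_pos h0
  unfold cst
  rw [add_comm 1 ((s : ℝ) / k), Real.Gamma_add_one h0.ne']
  field_simp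

lemma cst_scale (s k : ℕ) (α : Fin s → ℝ) (hk : 1 ≤ k) (hα : ∀ i, 0 < α i) (q : ℕ) (hq : 1 ≤ q) :
    cst s k (fun i => q * α i) = cst s k α * (q : ℝ) ^ (-((s : ℝ) / k - 1) - 1) := by
  have hk' : (0 : ℝ) < k := by exact_mod_cast hk
  have hq' : (0 : ℝ) < q := by exact_mod_cast hq
  unfold cst
  have h1 : ∀ i, ((q : ℝ) * α i) ^ (-(1 / (k : ℝ))) = (q : ℝ) ^ (-(1 / (k : ℝ))) * α i ^ (-(1 / (k : ℝ))) :=
    fun i => Real.mul_rpow hq'.le (hα i).le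
  simp_rw [h1]
  rw [Finset.prod_mul_distrib, Finset.prod_const, Finset.card_univ, Fintype.card_fin]
  have h2 : ((q : ℝ) ^ (-(1 / (k : ℝ)))) ^ s = (q : ℝ) ^ (-((s : ℝ) / k - 1) - 1) := by
    rw [← Real.rpow_natCast, ← Real.rpow_mul hq'.le]
    congr 1
    field_simp
    ring
  rw [h2]
  ring

lemma fk_nonneg (k : ℕ) (a : ℝ) (ha : 0 < a) (x : ℤ) : 0 ≤ fk k a x := by
  unfold fk; positivity

lemma fk_finite (k : ℕ) (hk : 1 ≤ k) (a : ℝ) (ha : 0 < a) (y : ℝ) : {x : ℤ | fk k a x < y}.Finite := by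
  refine (Set.finite_Icc (-(⌈y / a⌉ : ℤ) - 1) (⌈y / a⌉ + 1)).subset ?_
  intro x hx
  simp only [Set.mem_setOf_eq, fk] at hx
  have h1 : |(x : ℝ)| ^ k < y / a := by
    rw [lt_div_iff₀ ha]; linarith
  rw [Set.mem_Icc]
  rcases eq_or_ne x 0 with h0 | h0
  · subst h0
    have h2 : 0 < y / a := by
      refine lt_of_le_of_lt ?_ h1
      positivity
    have h3 : (0 : ℤ) ≤ ⌈y / a⌉ := Int.ceil_nonneg h2.le
    omega
  · have h2 : (1 : ℝ) ≤ |(x : ℝ)| := by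
      have : (1 : ℤ) ≤ |x| := Int.one_le_abs h0
      exact_mod_cast this
    have h3 : |(x : ℝ)| ≤ |(x : ℝ)| ^ k := le_self_pow₀ h2 (by omega)
    have h4 : |(x : ℝ)| < y / a := lt_of_le_of_lt h3 h1
    have h5 : |(x : ℝ)| < (⌈y / a⌉ : ℝ) := lt_of_lt_of_le h4 (Int.le_ceil _)
    have h6 : |x| < ⌈y / a⌉ := by exact_mod_cast h5
    rw [abs_lt] at h6
    omega

/-- the asymptotic formula from the bounds for all multiples -/
lemma ad_core (halat : S_ALAT) (haasy : S_AASY) (hafin : S_AFIN) (s k : ℕ) (δ' : ℝ) (hk : 1 ≤ k) (hs : k < s)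
    (hδ' : 0 < δ') (α : Fin s → ℝ) (hα : ∀ i, 0 < α i)
    (h : ∀ q : ℕ, 1 ≤ q → GoodF s k (fun i => fk k (q * α i)) (1 / 8) δ') (Δ : ℝ) (hΔ : 0 < Δ) :
    Tendsto (fun y : ℝ => (NF (fun i => fk k (α i)) y Δ : ℝ) / y ^ ((s : ℝ) / k - 1)) atTop
      (nhds (Δ * cst s k α)) := by
  refine hafin s (fun i => fk k (α i)) (cst s k α) ((s : ℝ) / k - 1) (cst_pos s k α hk (by omega) hα)
    (fun i x => fk_nonneg k _ (hα i) x) (fun i y => fk_finite k hk _ (hα i) y) ?_ Δ hΔ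
  intro q hq
  have hq' : (0 : ℝ) < q := by exact_mod_cast hq
  have hβ : ∀ i, 0 < (q : ℝ) * α i := fun i => mul_pos hq' (hα i)
  have e1 : (fun (i : Fin s) (x : ℤ) => (q : ℝ) * fk k (α i) x) = fun i => fk k (q * α i) := by
    funext i x
    unfold fk
    ring
  rw [← cst_scale s k α hk hα q hq]
  show ASY (fun (i : Fin s) (x : ℤ) => (q : ℝ) * fk k (α i) x) _ _
  rw [e1]
  obtain ⟨C, hC, hlat⟩ := halat s k (fun i => q * α i) (fun _ => 0) (by omega) hk hβ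
  set V : ℝ := (2 * Real.Gamma (1 + 1 / (k : ℝ))) ^ s / Real.Gamma (1 + (s : ℝ) / k) *
    (∏ i, (fun i => (q : ℝ) * α i) i ^ (-(1 / (k : ℝ)))) with hV
  have hVpos : 0 < V := by
    have hk' : (0 : ℝ) < k := by exact_mod_cast hk
    have h1 : 0 < Real.Gamma (1 + 1 / (k : ℝ)) := Real.Gamma_pos_of_pos (by positivity)
    have h2 : 0 < Real.Gamma (1 + (s : ℝ) / k) := Real.Gamma_pos_of_pos (by positivity)
    have h3 : 0 < ∏ i, (fun i => (q : ℝ) * α i) i ^ (-(1 / (k : ℝ))) :=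
      Finset.prod_pos fun i _ => Real.rpow_pos_of_pos (hβ i) _
    positivity
  rw [← cst_eq s k (fun i => q * α i) hk (by omega)]
  -- lower bound for the functions
  obtain ⟨c0, hc0, hc0'⟩ : ∃ c0 : ℝ, 0 < c0 ∧ ∀ i, c0 ≤ q * α i := by
    have hne : (Finset.univ : Finset (Fin s)).Nonempty := ⟨⟨0, by omega⟩, Finset.mem_univ _⟩
    refine ⟨Finset.univ.inf' hne fun i => q * α i, ?_, fun i => Finset.inf'_le _ (Finset.mem_univ i)⟩
    rw [Finset.lt_inf'_iff]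
    exact fun i _ => hβ i
  refine haasy s k (fun i => fk k (q * α i)) c0 V C (1 / 8) δ' hk hs hc0 hVpos (by norm_num) (by norm_num) hδ'
    (fun i x => fk_nonneg k _ (hβ i) x) ?_ ?_ (h q hq)
  · intro i x
    unfold fk
    have h1 : c0 * |(x : ℝ)| ^ k ≤ q * α i * |(x : ℝ)| ^ k := mul_le_mul_of_nonneg_right (hc0' i) (by positivity)
    linarith
  · intro y hy
    have h1 := hlat y hy
    have e2 : (fun (i : Fin s) (x : ℤ) => (fun i => (q : ℝ) * α i) i * |(x : ℝ) - (fun _ => 0) i| ^ k) =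
        fun i => fk k (q * α i) := by
      funext i x
      simp [fk]
    rw [e2] at h1
    exact h1

theorem ad_gen (habc : S_ABC) (halat : S_ALAT) (haasy : S_AASY) (hafin : S_AFIN) (haae : S_AAE) (r m k s : ℕ)
    (hr : 1 ≤ r) (hrk : r + 8 ≤ k) (h6 : 6 * r ≤ k) (hm : nr r ≤ 2 * m) (hks : k < s)
    (h1 : r * k + k + 2 + (2 * m - r) * (r + 1) ≤ r * s)
    (h2 : 6 * m * r + 3 * k * nr r + 5 * (k + 2) ≤ 4 * m * (s - k)) :
    ∀ᵐ α : Fin s → ℝ, (∀ i, 0 < α i) → ∀ Δ : ℝ, 0 < Δ →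
      Tendsto (fun y : ℝ => (NF (fun i => fk k (α i)) y Δ : ℝ) / y ^ ((s : ℝ) / k - 1)) atTop
        (nhds (Δ * cst s k α)) := by
  have hk8 : (8 : ℝ) ≤ k := by exact_mod_cast (by omega : 8 ≤ k)
  obtain ⟨δ', hδ', h⟩ := habc r m k s (1 / 8) hr hrk h6 hm hks h1 h2 (by norm_num) (by linarith)
  have h3 := haae s _ (ac1 s _ h)
  filter_upwards [h3] with α hα hpos Δ hΔ
  exact ad_core halat haasy hafin s k δ' (by omega) hks hδ' α hpos hα Δ hΔ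

theorem ad_all (habc : S_ABC) (halat : S_ALAT) (haasy : S_AASY) (hafin : S_AFIN) (haae : S_AAE) (hpar : S_APAR) :
    ∃ C : ℝ, 0 < C ∧ ∃ K : ℕ, ∀ k s : ℕ, K ≤ k → (k : ℝ) + C * k / Real.log k ≤ s →
      ∀ᵐ α : Fin s → ℝ, (∀ i, 0 < α i) → ∀ Δ : ℝ, 0 < Δ →
        Tendsto (fun y : ℝ => (NF (fun i => fk k (α i)) y Δ : ℝ) / y ^ ((s : ℝ) / k - 1)) atTop
          (nhds (Δ * cst s k α)) := by
  obtain ⟨C, hC, K, h⟩ := hpar
  refine ⟨C, hC, K, fun k s hk hs => ?_⟩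
  obtain ⟨r, m, h1, h2, h3, h4, h5, h6, h7⟩ := h k s hk hs
  exact ad_gen habc halat haasy hafin haae r m k s h1 h2 h3 h4 h5 h6 h7

end Pool.Agent.N604.MW
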