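import Mathlib
import Pool.Agent.N604.MW.AFin
import Pool.Agent.N570.AD_Atri
import Pool.Agent.N667.AD_Amom
import Pool.Agent.N37.AD_AHol
import Pool.Agent.N706.AD_ASup
import Pool.Agent.N296.AD_AKEY2
import Pool.Agent.N186.AD_Key3
import Pool.Agent.N136.AD_AKey
import Pool.Agent.N499.AD_AL2
import Pool.Agent.N218.AD_AL1
import Pool.Agent.N526.AD_AEXP
import Pool.Agent.N75.AD_ABC
import Pool.Agent.N736.AD_Acirc
import Pool.Agent.N914.AD_Awin
import Pool.Agent.N310.AD_ALAT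
import Pool.Agent.N401.AD_AASY
import Pool.Agent.N619.AD_Afin
import Pool.Agent.N285.AD_AAE
import Pool.Agent.N42.AD_ACONV

/-!
# Project AD: the theorem
-/

namespace Pool.Agent.N604.MW

open Finset MeasureTheory Filter

theorem atri_all : S_ATRI := Pool.Agent.N570.AD.Atri.atri

theorem dmv_all : S_DMV := Pool.Agent.N618.KWDmv.dmv Pool.Agent.N457.KW.dvdc

theorem akey_all : S_AKEY :=
  Pool.Agent.N136.AD.akey
    (Pool.Agent.N296.AD.akey2 (Pool.Agent.N706.ADASup.asup dmv_all) Pool.Agent.N490.KV.greedy Pool.Agent.N545.KW.dmeasq)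
    Pool.Agent.N186.AD.akey3 Pool.Agent.N545.KW.dmeasq

theorem abc_all : S_ABC :=
  Pool.Agent.N75.AD.abc atri_all (Pool.Agent.N667.ADAmom.amom atri_all) Pool.Agent.N37.ADAHol.ahol akey_all
    (Pool.Agent.N526.AD.aexp atri_all) (Pool.Agent.N218.AD.al1 Pool.Agent.N499.AD.al2)

theorem aasy_all : S_AASY := Pool.Agent.N401.AD.aasy (Pool.Agent.N736.AD.acirc atri_all) Pool.Agent.N914.AD.awin

theorem ad_final : ∃ C : ℝ, 0 < C ∧ ∃ K : ℕ, ∀ k s : ℕ, K ≤ k → (k : ℝ) + C * k / Real.log k ≤ s →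
      ∀ᵐ α : Fin s → ℝ, (∀ i, 0 < α i) → ∀ Δ : ℝ, 0 < Δ →
        Tendsto (fun y : ℝ => (NF (fun i => fk k (α i)) y Δ : ℝ) / y ^ ((s : ℝ) / k - 1)) atTop
          (nhds (Δ * cst s k α)) :=
  ad_all abc_all Pool.Agent.N310.ADALAT.alat aasy_all Pool.Agent.N619.AD.afin Pool.Agent.N285.AD.aae
    Pool.Agent.N285.AD.apar

end Pool.Agent.N604.MW
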