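import Mathlib
import Pool.Agent.N604.MW.AFin2
import Pool.Agent.N604.MW.Stm11
import Pool.Agent.N291.GC_CL2
import Pool.Agent.N81.GC_CBC
import Pool.Agent.N771.GC_CPer

/-!
# Project GC: the theorem
-/

namespace Pool.Agent.N604.MW

open Finset MeasureTheory Filter

lemma gk_nonneg (k : ℕ) (a γ : ℝ) (ha : 0 < a) (x : ℤ) : 0 ≤ gk k a γ x := by
  unfold gk; positivity

lemma gk_lower (k : ℕ) (a c γ : ℝ) (hγ0 : 0 ≤ γ) (hγ1 : γ ≤ 1) (hc : 0 < c) (hca : c ≤ a) (hc1 : c ≤ 1) (x : ℤ) :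
    c / 2 ^ (k - 1) * |(x : ℝ)| ^ k ≤ gk k a γ x + 1 := by
  unfold gk
  have h1 : |(x : ℝ)| ≤ |(x : ℝ) - γ| + 1 := by
    calc |(x : ℝ)| = |((x : ℝ) - γ) + γ| := by ring_nf
      _ ≤ |(x : ℝ) - γ| + |γ| := abs_add_le _ _
      _ ≤ |(x : ℝ) - γ| + 1 := by rw [abs_of_nonneg hγ0]; linarith
  have h2 : |(x : ℝ)| ^ k ≤ 2 ^ (k - 1) * (|(x : ℝ) - γ| ^ k + 1 ^ k) :=
    (pow_le_pow_left₀ (abs_nonneg _) h1 k).trans (add_pow_le (abs_nonneg _) zero_le_one k)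
  rw [one_pow] at h2
  have h3 : (0 : ℝ) < 2 ^ (k - 1) := by positivity
  calc c / 2 ^ (k - 1) * |(x : ℝ)| ^ k ≤ c / 2 ^ (k - 1) * (2 ^ (k - 1) * (|(x : ℝ) - γ| ^ k + 1)) := by
        gcongr
    _ = c * |(x : ℝ) - γ| ^ k + c := by field_simp
    _ ≤ a * |(x : ℝ) - γ| ^ k + 1 := by gcongr

lemma gk_finite (k : ℕ) (hk : 1 ≤ k) (a γ : ℝ) (ha : 0 < a) (hγ0 : 0 ≤ γ) (hγ1 : γ ≤ 1) (y : ℝ) :
    {x : ℤ | gk k a γ x < y}.Finite := by
  have hc : 0 < min a 1 := lt_min ha one_pos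
  refine (fk_finite k hk (min a 1 / 2 ^ (k - 1)) (by positivity) (y + 1)).subset ?_
  intro x hx
  have h1 := gk_lower k a (min a 1) γ hγ0 hγ1 hc (min_le_left _ _) (min_le_right _ _) x
  have h2 : gk k a γ x < y := hx
  show min a 1 / 2 ^ (k - 1) * |(x : ℝ)| ^ k < y + 1
  linarith

lemma gc_core (s k : ℕ) (hk : 1 ≤ k) (hs : k < s) (a : Fin s → ℝ) (ha : ∀ i, 0 < a i) (γ : Fin s → ℝ)
    (hγ0 : ∀ i, 0 ≤ γ i) (hγ1 : ∀ i, γ i ≤ 1)
    (h : ∀ q : ℕ, 1 ≤ q → ∃ δ' : ℝ, 0 < δ' ∧ GoodF s k (fun i => gk k (q * a i) (γ i)) (1 / 8) δ') (Δ : ℝ) (hΔ : 0 < Δ) :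
    Tendsto (fun y : ℝ => (NF (fun i => gk k (a i) (γ i)) y Δ : ℝ) / y ^ ((s : ℝ) / k - 1)) atTop
      (nhds (Δ * cst s k a)) := by
  refine Pool.Agent.N619.AD.afin s (fun i => gk k (a i) (γ i)) (cst s k a) ((s : ℝ) / k - 1)
    (cst_pos s k a hk (by omega) ha) (fun i x => gk_nonneg k _ _ (ha i) x)
    (fun i y => gk_finite k hk _ _ (ha i) (hγ0 i) (hγ1 i) y) ?_ Δ hΔ
  intro q hq
  have hq' : (0 : ℝ) < q := by exact_mod_cast hq
  have hβ : ∀ i, 0 < (q : ℝ) * a i := fun i => mul_pos hq' (ha i)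
  obtain ⟨δ', hδ', hG⟩ := h q hq
  have e1 : (fun (i : Fin s) (x : ℤ) => (q : ℝ) * gk k (a i) (γ i) x) = fun i => gk k (q * a i) (γ i) := by
    funext i x
    unfold gk
    ring
  rw [← cst_scale s k a hk ha q hq]
  show ASY (fun (i : Fin s) (x : ℤ) => (q : ℝ) * gk k (a i) (γ i) x) _ _
  rw [e1]
  obtain ⟨C, hC, hlat⟩ := Pool.Agent.N310.ADALAT.alat s k (fun i => q * a i) γ (by omega) hk hβ
  set V : ℝ := (2 * Real.Gamma (1 + 1 / (k : ℝ))) ^ s / Real.Gamma (1 + (s : ℝ) / k) *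
    (∏ i, (fun i => (q : ℝ) * a i) i ^ (-(1 / (k : ℝ)))) with hV
  have hVpos : 0 < V := by
    have hk' : (0 : ℝ) < k := by exact_mod_cast hk
    have h1 : 0 < Real.Gamma (1 + 1 / (k : ℝ)) := Real.Gamma_pos_of_pos (by positivity)
    have h2 : 0 < Real.Gamma (1 + (s : ℝ) / k) := Real.Gamma_pos_of_pos (by positivity)
    have h3 : 0 < ∏ i, (fun i => (q : ℝ) * a i) i ^ (-(1 / (k : ℝ))) :=
      Finset.prod_pos fun i _ => Real.rpow_pos_of_pos (hβ i) _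
    positivity
  rw [← cst_eq s k (fun i => q * a i) hk (by omega)]
  -- lower bound for the functions
  obtain ⟨c0, hc0, hc0', hc1⟩ : ∃ c0 : ℝ, 0 < c0 ∧ (∀ i, c0 ≤ q * a i) ∧ c0 ≤ 1 := by
    have hne : (Finset.univ : Finset (Fin s)).Nonempty := ⟨⟨0, by omega⟩, Finset.mem_univ _⟩
    refine ⟨min (Finset.univ.inf' hne fun i => q * a i) 1, ?_, fun i => ?_, min_le_right _ _⟩
    · refine lt_min ?_ one_pos
      rw [Finset.lt_inf'_iff]
      exact fun i _ => hβ i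
    · exact (min_le_left _ _).trans (Finset.inf'_le _ (Finset.mem_univ i))
  refine aasy_all s k (fun i => gk k (q * a i) (γ i)) (c0 / 2 ^ (k - 1)) V C (1 / 8) δ' hk hs (by positivity) hVpos
    (by norm_num) (by norm_num) hδ' (fun i x => gk_nonneg k _ _ (hβ i) x) ?_ ?_ hG
  · intro i x
    exact gk_lower k _ c0 (γ i) (hγ0 i) (hγ1 i) hc0 (hc0' i) hc1 x
  · intro y hy
    exact hlat y hy

lemma NF_shift (s k : ℕ) (a γ : Fin s → ℝ) (b : Fin s → ℤ) (y Δ : ℝ) :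
    NF (fun i => gk k (a i) (γ i + b i)) y Δ = NF (fun i => gk k (a i) (γ i)) y Δ := by
  unfold NF
  have e : ∀ x : Fin s → ℤ, ∑ i, gk k (a i) (γ i + b i) (x i) = ∑ i, gk k (a i) (γ i) ((x - b) i) := by
    intro x
    refine Finset.sum_congr rfl fun i _ => ?_
    unfold gk
    rw [Pi.sub_apply]
    push_cast
    congr 3
    ring
  have h : {x : Fin s → ℤ | y ≤ ∑ i, gk k (a i) (γ i + b i) (x i) ∧ ∑ i, gk k (a i) (γ i + b i) (x i) < y + Δ} =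
      (fun x => x + b) '' {x : Fin s → ℤ | y ≤ ∑ i, gk k (a i) (γ i) (x i) ∧ ∑ i, gk k (a i) (γ i) (x i) < y + Δ} := by
    ext x
    constructor
    · intro hx
      refine ⟨x - b, ?_, by simp⟩
      have h1 := e x
      simp only [Set.mem_setOf_eq] at hx ⊢
      rw [h1] at hx
      exact hx
    · rintro ⟨z, hz, rfl⟩
      have h1 := e (z + b)
      simp only [Set.mem_setOf_eq] at hz ⊢
      rw [add_sub_cancel_right] at h1
      rw [h1]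
      exact hz
  rw [h]
  exact Set.ncard_image_of_injective _ (add_left_injective b)

theorem gc_all (s k : ℕ) (hk : 3 ≤ k) (hs : 2 * k + 1 ≤ s) (a : Fin s → ℝ) (ha : ∀ i, 0 < a i) :
    ∀ᵐ γ : Fin s → ℝ, ∀ Δ : ℝ, 0 < Δ →
      Tendsto (fun y : ℝ => (NF (fun i => gk k (a i) (γ i)) y Δ : ℝ) / y ^ ((s : ℝ) / k - 1)) atTop
        (nhds (Δ * cst s k a)) := by
  refine Pool.Agent.N771.GC604.cper s _ ?_ ?_
  · have h1 : ∀ᵐ γ : Fin s → ℝ ∂(volume.restrict (Set.Icc (fun _ => 0) (fun _ => 1))), ∀ q : ℕ, 1 ≤ q →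
        ∃ δ' : ℝ, 0 < δ' ∧ GoodF s k (fun i => gk k (q * a i) (γ i)) (1 / 8) δ' := by
      rw [ae_all_iff]
      intro q
      by_cases hq : 1 ≤ q
      · have hq' : (0 : ℝ) < q := by exact_mod_cast hq
        obtain ⟨δ', hδ', h⟩ := Pool.Agent.N81.GC.cbc atri_all Pool.Agent.N291.GC.cl2 s k (fun i => q * a i) (1 / 8) hk hs
          (fun i => mul_pos hq' (ha i)) (by norm_num) (by norm_num)
        filter_upwards [h] with γ hγ _
        exact ⟨δ', hδ', hγ⟩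
      · exact Filter.Eventually.of_forall fun γ hq' => absurd hq' hq
    filter_upwards [h1, ae_restrict_mem measurableSet_Icc] with γ hγ hmem Δ hΔ
    exact gc_core s k (by omega) (by omega) a ha γ (fun i => hmem.1 i) (fun i => hmem.2 i) hγ Δ hΔ
  · intro γ b h Δ hΔ
    have h1 := h Δ hΔ
    refine h1.congr fun y => ?_
    rw [NF_shift s k a γ b y Δ]

end Pool.Agent.N604.MW
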