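import Mathlib
import Pool.Agent.N604.MW.KFin
import Pool.Agent.N664.KV_BC

/-!
# Project KV: Borel–Cantelli, unconditional
-/

namespace Pool.Agent.N604.MW

theorem bc_all : S_BC := Pool.Agent.N664.KV_BC.bc key_all mom_all l1r_all

end Pool.Agent.N604.MW
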