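import Mathlib
import Pool.Agent.N604.MW.AFin2
import Pool.Agent.N604.MW.Stm12

/-!
# Project AK: assembly
-/

namespace Pool.Agent.N604.MW

open Finset MeasureTheory Filter

lemma pk_scale (d : ℕ) (q c : ℝ) (θ : Fin d → ℝ) (x : ℤ) : q * pk d c θ x = pk d (q * c) (fun l => q * θ l) x := by
  unfold pk
  rw [mul_add, Finset.mul_sum, mul_assoc]
  congr 1
  exact Finset.sum_congr rfl fun l _ => by ring

lemma kk_core (hlat : S_KLAT) (hlow : S_KLOW) (hsh : S_KSH) (s d : ℕ) (hs : d + 1 < s) (c : Fin s → ℝ) (hc : ∀ i, 0 < c i)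
    (θ : Fin s → Fin d → ℝ)
    (h : ∀ q : ℕ, 1 ≤ q → ∃ δ' : ℝ, 0 < δ' ∧ ∀ b : ℕ,
      GoodF s (d + 1) (fun i x => pk d (q * c i) (fun l => q * θ i l) x + b) (1 / 8) δ') (Δ : ℝ) (hΔ : 0 < Δ) :
    Tendsto (fun y : ℝ => (NF (fun i => pk d (c i) (θ i)) y Δ : ℝ) / y ^ ((s : ℝ) / (d + 1 : ℕ) - 1)) atTop
      (nhds (Δ * cst s (d + 1) c)) := by
  obtain ⟨b, c0, hc0, hb⟩ := hlow s d c θ hc
  refine hsh s b (fun i => pk d (c i) (θ i)) _ _ Δ ?_
  have hk : 1 ≤ d + 1 := by omega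
  refine Pool.Agent.N619.AD.afin s (fun i x => pk d (c i) (θ i) x + b) (cst s (d + 1) c) ((s : ℝ) / (d + 1 : ℕ) - 1)
    (cst_pos s (d + 1) c hk (by omega) hc) (fun i x => (hb i x).1) ?_ ?_ Δ hΔ
  · intro i y
    refine (fk_finite (d + 1) hk c0 hc0 y).subset ?_
    intro x hx
    have h1 := (hb i x).2
    have h2 : pk d (c i) (θ i) x + b < y := hx
    show c0 * |(x : ℝ)| ^ (d + 1) < y
    linarith
  · intro q hq
    have hq' : (1 : ℝ) ≤ q := by exact_mod_cast hq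
    have hq0 : (0 : ℝ) < q := by linarith
    have hβ : ∀ i, 0 < (q : ℝ) * c i := fun i => mul_pos hq0 (hc i)
    obtain ⟨δ', hδ', hG⟩ := h q hq
    have e1 : (fun (i : Fin s) (x : ℤ) => (q : ℝ) * (pk d (c i) (θ i) x + b)) =
        fun i x => pk d (q * c i) (fun l => q * θ i l) x + ((q * b : ℕ) : ℝ) := by
      funext i x
      rw [mul_add, pk_scale]
      push_cast
      ring
    rw [← cst_scale s (d + 1) c hk hc q hq]
    show ASY (fun (i : Fin s) (x : ℤ) => (q : ℝ) * (pk d (c i) (θ i) x + b)) _ _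
    have hnn : ∀ i (x : ℤ), 0 ≤ pk d (q * c i) (fun l => q * θ i l) x + ((q * b : ℕ) : ℝ) := by
      intro i x
      have h1 := congrFun (congrFun e1 i) x
      rw [← h1]
      exact mul_nonneg hq0.le (hb i x).1
    rw [e1]
    obtain ⟨C, hC, hl⟩ := hlat s d (q * b) (fun i => q * c i) (fun i l => q * θ i l) (by omega) hβ hnn
    set V : ℝ := (2 * Real.Gamma (1 + 1 / ((d + 1 : ℕ) : ℝ))) ^ s / Real.Gamma (1 + (s : ℝ) / (d + 1 : ℕ)) *
      (∏ i, (fun i => (q : ℝ) * c i) i ^ (-(1 / ((d + 1 : ℕ) : ℝ)))) with hV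
    have hVpos : 0 < V := by
      have h1 : 0 < Real.Gamma (1 + 1 / ((d + 1 : ℕ) : ℝ)) := Real.Gamma_pos_of_pos (by positivity)
      have h2 : 0 < Real.Gamma (1 + (s : ℝ) / (d + 1 : ℕ)) := Real.Gamma_pos_of_pos (by positivity)
      have h3 : 0 < ∏ i, (fun i => (q : ℝ) * c i) i ^ (-(1 / ((d + 1 : ℕ) : ℝ))) :=
        Finset.prod_pos fun i _ => Real.rpow_pos_of_pos (hβ i) _
      positivity
    rw [← cst_eq s (d + 1) (fun i => q * c i) hk (by omega)]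
    refine aasy_all s (d + 1) (fun i x => pk d (q * c i) (fun l => q * θ i l) x + ((q * b : ℕ) : ℝ)) c0 V C (1 / 8) δ' hk
      hs hc0 hVpos (by norm_num) (by norm_num) hδ' hnn ?_ ?_ (hG (q * b))
    · intro i x
      have h1 := congrFun (congrFun e1 i) x
      rw [← h1]
      have h2 := (hb i x).2
      have h3 := (hb i x).1
      have h4 : pk d (c i) (θ i) x + b ≤ q * (pk d (c i) (θ i) x + b) := le_mul_of_one_le_left h3 hq'
      linarith
    · intro y hy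
      exact hl y hy

theorem kk_all (hbc : S_KBC) (hae : S_KAE) (hlat : S_KLAT) (hlow : S_KLOW) (hsh : S_KSH) (hpar : S_KPAR) (d s : ℕ)
    (hd : 225 ≤ d + 1) (hs : d + 29 ≤ s) (c : Fin s → ℝ) (hc : ∀ i, 0 < c i) :
    ∀ᵐ θ : Fin s → Fin d → ℝ, ∀ Δ : ℝ, 0 < Δ →
      Tendsto (fun y : ℝ => (NF (fun i => pk d (c i) (θ i)) y Δ : ℝ) / y ^ ((s : ℝ) / (d + 1 : ℕ) - 1)) atTop
        (nhds (Δ * cst s (d + 1) c)) := by
  obtain ⟨m, h1, h2, h3, h4, h5, h6, h7⟩ := hpar d s hd hs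
  have h := hae s d (fun q θ => ∃ δ' : ℝ, 0 < δ' ∧ ∀ b : ℕ,
      GoodF s (d + 1) (fun i x => pk d (q * c i) (θ i) x + b) (1 / 8) δ') ?_
  · filter_upwards [h] with θ hθ Δ hΔ
    exact kk_core hlat hlow hsh s d h5 c hc θ hθ Δ hΔ
  · intro q hq
    have hq0 : (0 : ℝ) < q := by exact_mod_cast hq
    obtain ⟨δ', hδ', hb⟩ := hbc m d s (fun i => q * c i) (1 / 8) h1 h2 h3 h4 h5 h6 h7 (fun i => mul_pos hq0 (hc i))
      (by norm_num) (by norm_num)
    filter_upwards [hb] with θ hθ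
    exact ⟨δ', hδ', hθ⟩

end Pool.Agent.N604.MW
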