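import Mathlib
import Pool.Agent.N604.MW.KKFin
import Pool.Agent.N645.AK_Kmom
import Pool.Agent.N700.AK_KHOL
import Pool.Agent.N526.AK_KEXP
import Pool.Agent.N415.AK_KAll
import Pool.Agent.N391.AK_Kblk
import Pool.Agent.N164.AK_KL1
import Pool.Agent.N624.AK_KBC
import Pool.Agent.N935.AK_Kpar
import Pool.Agent.N910.AK_KL2
import Pool.Agent.N342.AK_Low

/-!
# Project AK: the theorem
-/

namespace Pool.Agent.N604.MW

open Finset MeasureTheory Filter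

theorem kbc_all : S_KBC :=
  Pool.Agent.N624.AK.kbc atri_all (Pool.Agent.N645.AKKmom.kmom atri_all) Pool.Agent.N700.AK.khol
    (Pool.Agent.N391.AK.kblk key_all (Pool.Agent.N415.AKAll.kall wint_all)) (Pool.Agent.N526.AK.kexp atri_all)
    (Pool.Agent.N164.AK.kl1 Pool.Agent.N910.AK.kl2)

theorem kk_final (d s : ℕ) (hd : 225 ≤ d + 1) (hs : d + 29 ≤ s) (c : Fin s → ℝ) (hc : ∀ i, 0 < c i) :
    ∀ᵐ θ : Fin s → Fin d → ℝ, ∀ Δ : ℝ, 0 < Δ →
      Tendsto (fun y : ℝ => (NF (fun i => pk d (c i) (θ i)) y Δ : ℝ) / y ^ ((s : ℝ) / (d + 1 : ℕ) - 1)) atTop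
        (nhds (Δ * cst s (d + 1) c)) :=
  kk_all kbc_all Pool.Agent.N700.AK.kae (Pool.Agent.N342.AK_Low.klat Pool.Agent.N310.ADALAT.alat)
    Pool.Agent.N342.AK_Low.klow Pool.Agent.N700.AK.ksh Pool.Agent.N935.AK.kpar d s hd hs c hc

end Pool.Agent.N604.MW
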