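import Mathlib
import Pool.Agent.N604.MW.Stm13

/-!
# Project AP: the asymptotic formula never holds with at most `k` variables
-/

namespace Pool.Agent.N604.MW

open Finset MeasureTheory Filter

lemma ps_zero_or (s k : ℕ) (α : Fin s → ℝ) (y Δ : ℝ) :
    PS s k α y Δ = 0 ∨ (Real.log 2) ^ s ≤ PS s k α y Δ := by
  unfold PS
  set S : Set (Fin s → ℕ) := {p : Fin s → ℕ | (∀ i, (p i).Prime) ∧ y ≤ ∑ i, α i * (p i : ℝ) ^ k ∧
    ∑ i, α i * (p i : ℝ) ^ k < y + Δ} with hS
  set f : (Fin s → ℕ) → ℝ := fun p => ∏ i, Real.log (p i) with hf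
  have hlow : ∀ p ∈ S, (Real.log 2) ^ s ≤ f p := by
    intro p hp
    have h1 : ∀ i, (p i).Prime := hp.1
    have h2 : (Real.log 2) ^ s = ∏ _i : Fin s, Real.log 2 := by simp
    rw [h2]
    refine Finset.prod_le_prod (fun i _ => Real.log_nonneg (by norm_num)) fun i _ => ?_
    exact Real.log_le_log (by norm_num) (by exact_mod_cast (h1 i).two_le)
  have hlog : (0 : ℝ) ≤ (Real.log 2) ^ s := pow_nonneg (Real.log_nonneg (by norm_num)) _
  by_cases hfin : (S ∩ Function.support f).Finite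
  · rw [finsum_mem_eq_sum f hfin]
    by_cases hne : (S ∩ Function.support f).Nonempty
    · right
      obtain ⟨p, hp⟩ := hne
      have h3 : f p ≤ ∑ i ∈ hfin.toFinset, f i := by
        refine Finset.single_le_sum (f := f) (fun q hq => ?_) ((Set.Finite.mem_toFinset hfin).2 hp)
        exact le_trans hlog (hlow q ((Set.Finite.mem_toFinset hfin).1 hq).1)
      exact le_trans (hlow p hp.1) h3
    · left
      rw [Set.not_nonempty_iff_eq_empty] at hne
      refine Finset.sum_eq_zero fun q hq => ?_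
      have := (Set.Finite.mem_toFinset hfin).1 hq
      rw [hne] at this
      exact absurd this (Set.notMem_empty _)
  · left
    exact finsum_mem_eq_zero_of_infinite hfin

theorem pconv (s k : ℕ) (α : Fin s → ℝ) (c : ℝ) (hsk : s ≤ k) (hc : 0 < c) :
    ¬ ∀ Δ : ℝ, 0 < Δ → Tendsto (fun y : ℝ => PS s k α y Δ / y ^ ((s : ℝ) / k - 1)) atTop (nhds (Δ * c)) := by
  intro h
  have hκ : (s : ℝ) / k - 1 ≤ 0 := by
    have h1 : (s : ℝ) / k ≤ 1 := by
      have : (s : ℝ) ≤ k := by exact_mod_cast hsk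
      exact div_le_one_of_le₀ this (Nat.cast_nonneg k)
    linarith
  have hL : (0 : ℝ) < (Real.log 2) ^ s := pow_pos (Real.log_pos (by norm_num)) _
  set L := (Real.log 2) ^ s with hLdef
  have hΔ : 0 < L / (2 * c) := by positivity
  have h1 := h _ hΔ
  have e1 : L / (2 * c) * c = L / 2 := by field_simp
  rw [e1] at h1
  have h2 : ∀ᶠ y : ℝ in atTop, PS s k α y (L / (2 * c)) / y ^ ((s : ℝ) / k - 1) ∈ Set.Ioo 0 L :=
    h1.eventually (Ioo_mem_nhds (by linarith) (by linarith))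
  obtain ⟨y, hy, hy1⟩ := (h2.and (eventually_ge_atTop (1 : ℝ))).exists
  have hy0 : 0 < y ^ ((s : ℝ) / k - 1) := Real.rpow_pos_of_pos (by linarith) _
  have hy2 : y ^ ((s : ℝ) / k - 1) ≤ 1 := Real.rpow_le_one_of_one_le_of_nonpos hy1 hκ
  rcases ps_zero_or s k α y (L / (2 * c)) with h3 | h3
  · rw [h3] at hy
    simp at hy
  · have h4 : L ≤ PS s k α y (L / (2 * c)) / y ^ ((s : ℝ) / k - 1) := by
      rw [le_div_iff₀ hy0]
      calc L * y ^ ((s : ℝ) / k - 1) ≤ L * 1 := by gcongr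
        _ = L := mul_one _
        _ ≤ _ := h3
    exact absurd hy.2 (not_lt.2 h4)

end Pool.Agent.N604.MW
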