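import Mathlib
import Pool.Agent.N604.MW.Stm13
import Pool.Agent.N604.MW.AFin2

/-!
# Project AP: assembly
-/

namespace Pool.Agent.N604.MW

open Finset MeasureTheory Filter

/-- the constant in the asymptotic formula for primes -/
noncomputable def cstP (s k : ℕ) (α : Fin s → ℝ) : ℝ :=
  Real.Gamma (1 + 1 / (k : ℝ)) ^ s / Real.Gamma ((s : ℝ) / k) * ∏ i, α i ^ (-(1 / (k : ℝ)))

lemma cstP_pos (s k : ℕ) (α : Fin s → ℝ) (hk : 1 ≤ k) (hs : 1 ≤ s) (hα : ∀ i, 0 < α i) : 0 < cstP s k α := by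
  unfold cstP
  have hk' : (0 : ℝ) < k := by exact_mod_cast hk
  have hs' : (0 : ℝ) < s := by exact_mod_cast hs
  have h1 : 0 < Real.Gamma (1 + 1 / (k : ℝ)) := Real.Gamma_pos_of_pos (by positivity)
  have h2 : 0 < Real.Gamma ((s : ℝ) / k) := Real.Gamma_pos_of_pos (by positivity)
  have h3 : 0 < ∏ i, α i ^ (-(1 / (k : ℝ))) := Finset.prod_pos fun i _ => Real.rpow_pos_of_pos (hα i) _
  positivity

lemma cstP_scale (s k : ℕ) (α : Fin s → ℝ) (hk : 1 ≤ k) (hα : ∀ i, 0 < α i) (q : ℕ) (hq : 1 ≤ q) :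
    cstP s k (fun i => q * α i) = cstP s k α * (q : ℝ) ^ (-((s : ℝ) / k)) := by
  have hk' : (0 : ℝ) < k := by exact_mod_cast hk
  have hq' : (0 : ℝ) < q := by exact_mod_cast hq
  unfold cstP
  have h1 : ∀ i, ((q : ℝ) * α i) ^ (-(1 / (k : ℝ))) = (q : ℝ) ^ (-(1 / (k : ℝ))) * α i ^ (-(1 / (k : ℝ))) :=
    fun i => Real.mul_rpow hq'.le (hα i).le
  simp_rw [h1]
  rw [Finset.prod_mul_distrib, Finset.prod_const, Finset.card_univ, Fintype.card_fin]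
  have h2 : ((q : ℝ) ^ (-(1 / (k : ℝ)))) ^ s = (q : ℝ) ^ (-((s : ℝ) / k)) := by
    rw [← Real.rpow_natCast, ← Real.rpow_mul hq'.le]
    congr 1
    field_simp
  rw [h2]
  ring

theorem pp_gen (hpbc : S_PBC) (hpasy : S_PASY) (hpfin : S_PFIN) (haae : S_AAE) (r m k s : ℕ)
    (hr : 1 ≤ r) (hrk : r + 8 ≤ k) (h6 : 6 * r ≤ k) (hm : nr r ≤ 2 * m) (hks : k < s)
    (h1 : r * k + k + 2 + (2 * m - r) * (r + 1) ≤ r * s)
    (h2 : 6 * m * r + 3 * k * nr r + 5 * (k + 2) ≤ 4 * m * (s - k)) :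
    ∀ᵐ α : Fin s → ℝ, (∀ i, 0 < α i) → ∀ Δ : ℝ, 0 < Δ →
      Tendsto (fun y : ℝ => PS s k α y Δ / y ^ ((s : ℝ) / k - 1)) atTop (nhds (Δ * cstP s k α)) := by
  have hD : (s + 4) * k ≤ ((s + 4) * k) * (s - k) := Nat.le_mul_of_pos_right _ (by omega)
  have h := hpbc r m k s ((s + 4) * k) hr hrk h6 hm hks h1 h2 hD
  have h3 := haae s _ (ac1 s _ h)
  filter_upwards [h3] with α hα hpos Δ hΔ
  refine hpfin s k α (cstP s k α) (by omega) (by omega) hpos (cstP_pos s k α (by omega) (by omega) hpos) ?_ Δ hΔ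
  intro q hq
  rw [← cstP_scale s k α (by omega) hpos q hq]
  have hq' : (0 : ℝ) < q := by exact_mod_cast hq
  exact hpasy s k (fun i => q * α i) ((s + 4) * k) (by omega) hks (fun i => mul_pos hq' (hpos i)) (hα q hq)

theorem pp_all (hpbc : S_PBC) (hpasy : S_PASY) (hpfin : S_PFIN) (haae : S_AAE) (hpar : S_APAR) :
    ∃ C : ℝ, 0 < C ∧ ∃ K : ℕ, ∀ k s : ℕ, K ≤ k → (k : ℝ) + C * k / Real.log k ≤ s →
      ∀ᵐ α : Fin s → ℝ, (∀ i, 0 < α i) → ∀ Δ : ℝ, 0 < Δ →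
        Tendsto (fun y : ℝ => PS s k α y Δ / y ^ ((s : ℝ) / k - 1)) atTop (nhds (Δ * cstP s k α)) := by
  obtain ⟨C, hC, K, h⟩ := hpar
  refine ⟨C, hC, K, fun k s hk hs => ?_⟩
  obtain ⟨r, m, h1, h2, h3, h4, h5, h6, h7⟩ := h k s hk hs
  exact pp_gen hpbc hpasy hpfin haae r m k s h1 h2 h3 h4 h5 h6 h7

end Pool.Agent.N604.MW
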