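import Mathlib
import Pool.Agent.N604.MW.PPFin
import Pool.Agent.N604.MW.PPConv
import Pool.Agent.N513.AP_PEXP
import Pool.Agent.N152.AP_PL1
import Pool.Agent.N921.AP_PBC
import Pool.Agent.N453.AP_Ppnt
import Pool.Agent.N79.AP_Pfin
import Pool.Agent.N881.AP_Pmom
import Pool.Agent.N494.AP_Pcirc
import Pool.Agent.N903.AP_PASY
import Pool.Agent.N667.AP_Plat

/-!
# Project AP: the theorem
-/

namespace Pool.Agent.N604.MW

open Finset MeasureTheory Filter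

theorem pbc_all : S_PBC :=
  Pool.Agent.N921.AP.pbc atri_all (Pool.Agent.N881.APMom.pmom atri_all) Pool.Agent.N37.ADAHol.ahol akey_all
    (Pool.Agent.N513.AP.pexp atri_all) Pool.Agent.N152.AP.pl1

theorem pp_final :
    ∃ C : ℝ, 0 < C ∧ ∃ K : ℕ, ∀ k s : ℕ, K ≤ k → (k : ℝ) + C * k / Real.log k ≤ s →
      ∀ᵐ α : Fin s → ℝ, (∀ i, 0 < α i) → ∀ Δ : ℝ, 0 < Δ →
        Tendsto (fun y : ℝ => PS s k α y Δ / y ^ ((s : ℝ) / k - 1)) atTop (nhds (Δ * cstP s k α)) :=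
  pp_all pbc_all (Pool.Agent.N903.AP.pasy (Pool.Agent.N494.AP.pcirc atri_all) Pool.Agent.N494.AP.pwin
    (Pool.Agent.N667.AP.plat Pool.Agent.N453.AP.ppnt Pool.Agent.N310.ADALAT.alat) Pool.Agent.N453.AP.ppnt) Pool.Agent.N79.AP.pfin
    Pool.Agent.N285.AD.aae Pool.Agent.N285.AD.apar

end Pool.Agent.N604.MW
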