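import Mathlib
import Pool.Agent.N604.MW.DAsm3

/-!
# Project GS: the circle method for one scale, for general functions
-/

namespace Pool.Agent.N604.MW

open Finset MeasureTheory

/-- value of one variable -/
noncomputable def ga (f : ℕ → ℝ) (l : ℕ) : ℤ := ⌊f l⌋

/-- weight of one variable -/
noncomputable def gw (f : ℕ → ℝ) (l : ℕ) : ℝ := lam l * Real.sin (Real.pi * f l) ^ 2

/-- value -/
noncomputable def gv {k : ℕ} (g : Fin k → ℕ → ℝ) (n : Fin k → ℕ) : ℤ := ∑ i, ga (g i) (n i)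

/-- weight -/
noncomputable def gp {k : ℕ} (g : Fin k → ℕ → ℝ) (n : Fin k → ℕ) : ℝ := ∏ i, gw (g i) (n i)

/-- the pairs of tuples with almost equal values -/
noncomputable def GPr (k : ℕ) (g : Fin k → ℕ → ℝ) (X : ℕ) : Finset ((Fin k → ℕ) × (Fin k → ℕ)) :=
  open Classical in
  (DBox k X ×ˢ DBox k X).filter fun p => |∑ i, (g i (p.1 i) - g i (p.2 i))| ≤ (k : ℝ)

lemma gw_nonneg (f : ℕ → ℝ) (l : ℕ) : 0 ≤ gw f l := mul_nonneg (lam_nonneg l) (sq_nonneg _)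

lemma gw_le (f : ℕ → ℝ) (l : ℕ) : gw f l ≤ lam l :=
  mul_le_of_le_one_right (lam_nonneg l) (Real.sin_sq_le_one _)

lemma gp_nonneg {k : ℕ} (g : Fin k → ℕ → ℝ) (n : Fin k → ℕ) : 0 ≤ gp g n :=
  prod_nonneg fun _ _ => gw_nonneg _ _

lemma gp_le {k X : ℕ} {g : Fin k → ℕ → ℝ} {B : ℝ} (hB : ∀ n, n ≤ 2 * X → lam n ≤ B)
    {n : Fin k → ℕ} (hn : n ∈ DBox k X) : gp g n ≤ B ^ k := by
  unfold gp
  calc ∏ i, gw (g i) (n i) ≤ ∏ _i : Fin k, B := by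
        apply prod_le_prod
        · intro i _; exact gw_nonneg _ _
        · intro i _
          exact (gw_le _ _).trans (hB _ (DBox_le hn i))
    _ = B ^ k := by rw [prod_const, card_univ, Fintype.card_fin]

lemma gclose {k : ℕ} {g : Fin k → ℕ → ℝ} {n m : Fin k → ℕ} (h : gv g n = gv g m) :
    |∑ i, (g i (n i) - g i (m i))| ≤ (k : ℝ) := by
  have h1 : ∑ i, (g i (n i) - g i (m i)) = ∑ i, (Int.fract (g i (n i)) - Int.fract (g i (m i))) := by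
    have h2 : ∀ i, g i (n i) - g i (m i) =
        ((⌊g i (n i)⌋ : ℝ) - (⌊g i (m i)⌋ : ℝ)) + (Int.fract (g i (n i)) - Int.fract (g i (m i))) := by
      intro i
      have e1 := Int.floor_add_fract (g i (n i))
      have e2 := Int.floor_add_fract (g i (m i))
      linarith
    rw [sum_congr rfl fun i _ => h2 i, sum_add_distrib]
    have h3 : ∑ i, ((⌊g i (n i)⌋ : ℝ) - (⌊g i (m i)⌋ : ℝ)) = 0 := by
      rw [sum_sub_distrib]
      have := congrArg (Int.cast (R := ℝ)) h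
      unfold gv ga at this
      push_cast at this
      linarith
    rw [h3, zero_add]
  rw [h1]
  calc |∑ i, (Int.fract (g i (n i)) - Int.fract (g i (m i)))|
      ≤ ∑ i, |Int.fract (g i (n i)) - Int.fract (g i (m i))| := abs_sum_le_sum_abs _ _
    _ ≤ ∑ _i : Fin k, (1 : ℝ) := by
        apply sum_le_sum
        intro i _
        rw [abs_le]
        have a1 := Int.fract_nonneg (g i (n i))
        have a2 := Int.fract_lt_one (g i (n i))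
        have a3 := Int.fract_nonneg (g i (m i))
        have a4 := Int.fract_lt_one (g i (m i))
        constructor <;> linarith
    _ = (k : ℝ) := by simp

lemma gEn_le {k X : ℕ} {g : Fin k → ℕ → ℝ} {B : ℝ} (hB0 : 0 ≤ B) (hB : ∀ n, n ≤ 2 * X → lam n ≤ B) :
    En (DBox k X) (gv g) (gp g) ≤ (B ^ k) ^ 2 * ((GPr k g X).card : ℝ) := by
  classical
  have hP : (B ^ k) ^ 2 * ((GPr k g X).card : ℝ) = ∑ ω ∈ DBox k X, ∑ ω' ∈ DBox k X,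
        (if |∑ i, (g i (ω i) - g i (ω' i))| ≤ (k : ℝ) then (B ^ k) ^ 2 else 0) := by
    calc (B ^ k) ^ 2 * ((GPr k g X).card : ℝ) = ((GPr k g X).card : ℝ) * (B ^ k) ^ 2 := by ring
      _ = ∑ p ∈ DBox k X ×ˢ DBox k X,
        (if |∑ i, (g i (p.1 i) - g i (p.2 i))| ≤ (k : ℝ) then (B ^ k) ^ 2 else 0) := by
          rw [← sum_filter, sum_const, nsmul_eq_mul]
          unfold GPr
          congr!
      _ = _ := by rw [sum_product]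
  rw [hP]
  unfold En
  apply sum_le_sum; intro ω hω
  apply sum_le_sum; intro ω' hω'
  have hBp : 0 ≤ B ^ k := pow_nonneg hB0 _
  by_cases h : gv g ω = gv g ω'
  · rw [if_pos h, if_pos (gclose h), sq]
    exact mul_le_mul (gp_le hB hω) (gp_le hB hω') (gp_nonneg _ _) hBp
  · rw [if_neg h]
    split_ifs
    · positivity
    · exact le_rfl

lemma gmass_ge {k X : ℕ} {g : Fin k → ℕ → ℝ} {κ : ℝ} (hκ : 0 ≤ κ)
    (h : ∀ i, κ * (X : ℝ) ≤ ∑ n ∈ Finset.Icc X (2 * X), gw (g i) n) :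
    (κ * (X : ℝ)) ^ k ≤ ∑ ω ∈ DBox k X, gp g ω := by
  have h1 : ∑ ω ∈ DBox k X, gp g ω = ∏ i : Fin k, ∑ n ∈ Finset.Icc X (2 * X), gw (g i) n := by
    rw [prod_univ_sum]; rfl
  rw [h1]
  calc (κ * (X : ℝ)) ^ k = ∏ _i : Fin k, (κ * (X : ℝ)) := by
        rw [prod_const, card_univ, Fintype.card_fin]
    _ ≤ _ := by
      apply prod_le_prod
      · intro i _; positivity
      · intro i _; exact h i

/-- the mean value property -/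
def GMeanP (k : ℕ) (g : Fin k → ℕ → ℝ) : Prop := ∀ ε : ℝ, 0 < ε → ∃ ν0 : ℕ, ∀ ν : ℕ,
  ν0 ≤ ν → ((GPr k g (2 ^ ν)).card : ℝ) ≤ ((2 : ℝ) ^ ν) ^ ((k : ℝ) + ε)

/-- the size property -/
def GSizeP (k : ℕ) (g : Fin k → ℕ → ℝ) : Prop := ∃ v X0 : ℕ, ∀ (X : ℕ) (n : Fin k → ℕ), X0 ≤ X → n ∈ DBox k X →
  0 ≤ gv g n ∧ gv g n ≤ v * (X : ℤ) ^ k

/-- the mass property -/
def GMassP (f : ℕ → ℝ) : Prop := ∃ κ : ℝ, 0 < κ ∧ ∃ X0 : ℕ, ∀ X : ℕ, X0 ≤ X →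
  κ * (X : ℝ) ≤ ∑ n ∈ Finset.Icc X (2 * X), gw f n

/-- the lower bound in short intervals -/
def GLowP (k : ℕ) (f : ℕ → ℝ) : Prop := ∀ C1 : ℝ, 1 ≤ C1 →
  ∃ C0 : ℕ, ∃ κ σ : ℝ, 0 < κ ∧ 0 < σ ∧ ∃ X0 : ℕ, ∀ (X W : ℕ) (M : ℤ), X0 ≤ X →
    (X : ℝ) ^ k ≤ M → (M : ℝ) ≤ C1 * (X : ℝ) ^ k → (X : ℝ) ^ ((k : ℝ) - σ) ≤ W → (W : ℝ) ≤ (X : ℝ) ^ k →
    κ * W / (X : ℝ) ^ (k - 1) ≤ ∑ l ∈ (Finset.Ico 1 (C0 * X)).filter
      (fun l : ℕ => M ≤ ga f l ∧ ga f l < M + W), gw f l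

/-- the minor arcs -/
def GSupP (k : ℕ) (f : ℕ → ℝ) : Prop := ∀ (C0 : ℕ) (δ : ℝ), 0 < δ → ∃ σ : ℝ, 0 < σ ∧ ∃ X0 : ℕ, ∀ X : ℕ, X0 ≤ X →
  ∀ β : ℝ, (X : ℝ) ^ (-(k : ℝ) + δ) ≤ |β| → |β| ≤ 1 / 2 →
    ‖∑ l ∈ Finset.Ico 1 (C0 * X), (gw f l : ℂ) * e (β * ga f l)‖ ≤ (X : ℝ) ^ (1 - σ)

/-- the two conclusions for one scale -/
def CoreG (k : ℕ) (g g' : Fin k → ℕ → ℝ) (f : ℕ → ℝ) (v C0 : ℕ) (κ σ : ℝ) (X : ℕ) : Prop :=
  (∀ N : ℤ, (2 * v + 1) * (X : ℤ) ^ k ≤ N → N ≤ 2 ^ k * ((2 * v + 1) * (X : ℤ) ^ k) →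
    κ * (X : ℝ) ^ (k + 1) ≤ R3 (DBox k X) (DBox k X) (Finset.Ico 1 (C0 * X)) (gv g) (gv g') (gp g) (gp g')
      (ga f) (gw f) N) ∧
  (∀ S : Finset ℤ, (∀ N ∈ S, (2 * v + 1) * (X : ℤ) ^ k ≤ N ∧ N ≤ 2 ^ k * ((2 * v + 1) * (X : ℤ) ^ k) ∧
      R1 (DBox k X) (Finset.Ico 1 (C0 * X)) (gv g) (gp g) (ga f) (gw f) N = 0) →
    (S.card : ℝ) ≤ (X : ℝ) ^ ((k : ℝ) - σ))

theorem gcore (hC1 : S_DCIRC1) (hC2 : S_DCIRC2) {k : ℕ} (hk : 2 ≤ k) (g g' : Fin k → ℕ → ℝ) (f : ℕ → ℝ)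
    (hS : GSizeP k g) (hS' : GSizeP k g') (hMa : ∀ i, GMassP (g i)) (hMa' : ∀ i, GMassP (g' i)) (hLOW : GLowP k f)
    (hSup : GSupP k f) (hM : GMeanP k g) (hM' : GMeanP k g') :
    ∃ v C0 : ℕ, ∃ κ σ : ℝ, 0 < κ ∧ 0 < σ ∧ ∃ ν0 : ℕ, ∀ ν : ℕ, ν0 ≤ ν → CoreG k g g' f v C0 κ σ (2 ^ ν) := by
  obtain ⟨v1, Xv1, hv1⟩ := hS
  obtain ⟨v2, Xv2, hv2⟩ := hS'
  set v : ℕ := v1 + v2 with hvdef
  have : Nonempty (Fin k) := ⟨⟨0, by omega⟩⟩
  -- masses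
  choose κs hκs0 Xs hXs using hMa
  choose κs' hκs0' Xs' hXs' using hMa'
  obtain ⟨i0, hi0⟩ := Finite.exists_min κs
  obtain ⟨i0', hi0'⟩ := Finite.exists_min κs'
  set κm : ℝ := min (κs i0) (κs' i0') with hκm
  have hκm0 : 0 < κm := lt_min (hκs0 i0) (hκs0' i0')
  obtain ⟨C0, κL, σL, hκL, hσL, Xc, hlow⟩ := hLOW (2 ^ k * (2 * v + 1)) (by
    have h1 : (1 : ℝ) ≤ 2 ^ k := one_le_pow₀ (by norm_num)
    have h2 : (1 : ℝ) ≤ 2 * (v : ℝ) + 1 := by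
      have : (0 : ℝ) ≤ v := Nat.cast_nonneg v
      linarith
    calc (1 : ℝ) = 1 * 1 := by ring
      _ ≤ _ := mul_le_mul h1 h2 (by norm_num) (by linarith))
  set δ : ℝ := min σL 1 / 4 with hδ
  have hm0 : 0 < min σL 1 := lt_min hσL one_pos
  have hδ0 : 0 < δ := by rw [hδ]; linarith
  have hδσ : 3 * δ ≤ σL := by
    have := min_le_left σL 1
    rw [hδ]; linarith
  obtain ⟨σ2, hσ2, Xd, hsup⟩ := hSup C0 δ hδ0
  set σ1 : ℝ := min σ2 1 with hσ1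
  have hσ10 : 0 < σ1 := lt_min hσ2 one_pos
  have hσ11 : σ1 ≤ 1 := min_le_right _ _
  have hk0 : (0 : ℝ) < k := by exact_mod_cast (by omega : 0 < k)
  have hk2 : (2 : ℝ) ≤ k := by exact_mod_cast hk
  set ε : ℝ := min (δ / 2) (σ1 / (8 * k)) with hε
  have hε0 : 0 < ε := lt_min (by linarith) (by positivity)
  have hε1 : ε ≤ δ / 2 := min_le_left _ _
  have hε2 : ε * (2 * k) ≤ σ1 / 4 := by
    have h := min_le_right (δ / 2) (σ1 / (8 * k))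
    rw [← hε] at h
    calc ε * (2 * k) ≤ (σ1 / (8 * k)) * (2 * k) := by gcongr
      _ = σ1 / 4 := by field_simp; ring
  obtain ⟨Xe, hbd⟩ := lam_bound (C0 + 2) ε hε0
  obtain ⟨νe, hmean⟩ := hM (σ1 / 4) (by linarith)
  obtain ⟨νe', hmean'⟩ := hM' (σ1 / 4) (by linarith)
  obtain ⟨X1, h1⟩ := big (3 * δ) 2 (by linarith)
  obtain ⟨X2, h2⟩ := big (δ / 2) (64 * C0 / κL) (by linarith)
  obtain ⟨X3, h3⟩ := big (σ1 / 2) (2 * 4 / (κL * κm ^ (2 * k))) (by linarith)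
  obtain ⟨X4, h4⟩ := big (σ1 / 2) (4 * ((2 / κL) / κm ^ k) ^ 2) (by linarith)
  refine ⟨v, C0, κL / 4 * κm ^ (2 * k), σ1 / 2, by positivity, by linarith,
    ∑ i, Xs i + ∑ i, Xs' i + Xc + Xd + Xv1 + Xv2 + Xe + νe + νe' + X1 + X2 + X3 + X4 + 1, ?_⟩
  intro ν hν
  have hXν : ν < 2 ^ ν := Nat.lt_two_pow_self
  replace hmean := hmean ν (by omega)
  replace hmean' := hmean' ν (by omega)
  have hcast : ((2 : ℝ) ^ ν) = ((2 ^ ν : ℕ) : ℝ) := by push_cast; ring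
  rw [hcast] at hmean hmean'
  generalize hX : 2 ^ ν = X at hmean hmean' hXν
  have hXc : Xc ≤ X := by omega
  have hXd : Xd ≤ X := by omega
  have hXsi : ∀ i, Xs i ≤ X := fun i =>
    (Finset.single_le_sum (f := Xs) (fun _ _ => Nat.zero_le _) (mem_univ i)).trans (by omega)
  have hXsi' : ∀ i, Xs' i ≤ X := fun i =>
    (Finset.single_le_sum (f := Xs') (fun _ _ => Nat.zero_le _) (mem_univ i)).trans (by omega)
  have hXv1 : Xv1 ≤ X := by omega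
  have hXv2 : Xv2 ≤ X := by omega
  replace hbd := hbd X (by omega)
  replace h1 := h1 X (by omega)
  replace h2 := h2 X (by omega)
  replace h3 := h3 X (by omega)
  replace h4 := h4 X (by omega)
  have hX1 : 1 ≤ X := by omega
  have hx1 : (1 : ℝ) ≤ X := by exact_mod_cast hX1
  have hx0 : (0 : ℝ) < X := by linarith
  clear hν
  -- the window
  set W : ℕ := ⌈(X : ℝ) ^ ((k : ℝ) - 3 * δ)⌉₊ with hW
  have hWlo : (X : ℝ) ^ ((k : ℝ) - 3 * δ) ≤ W := Nat.le_ceil _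
  have hWpos : (0 : ℝ) < (X : ℝ) ^ ((k : ℝ) - 3 * δ) := Real.rpow_pos_of_pos hx0 _
  have hexp0 : 0 ≤ (k : ℝ) - 3 * δ := by
    have e1 : δ ≤ 1 / 4 := by
      have := min_le_right σL 1
      rw [hδ]; linarith
    linarith
  have hW1' : (1 : ℝ) ≤ (X : ℝ) ^ ((k : ℝ) - 3 * δ) := Real.one_le_rpow hx1 hexp0
  have hWhi : (W : ℝ) ≤ 2 * (X : ℝ) ^ ((k : ℝ) - 3 * δ) := by
    have := Nat.ceil_lt_add_one hWpos.le
    rw [← hW] at this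
    linarith
  have hW1 : 1 ≤ W := by
    have : (1 : ℝ) ≤ W := hW1'.trans hWlo
    exact_mod_cast this
  have hW0 : (0 : ℝ) < W := by exact_mod_cast hW1
  have hxk : (X : ℝ) ^ (k : ℝ) = (X : ℝ) ^ k := Real.rpow_natCast _ _
  have hWX : (W : ℝ) ≤ (X : ℝ) ^ k := by
    calc (W : ℝ) ≤ 2 * (X : ℝ) ^ ((k : ℝ) - 3 * δ) := hWhi
      _ ≤ (X : ℝ) ^ (3 * δ) * (X : ℝ) ^ ((k : ℝ) - 3 * δ) := by gcongr
      _ = (X : ℝ) ^ k := by
          rw [← Real.rpow_add hx0, ← hxk]; congr 1; ring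
  have hWL : (X : ℝ) ^ ((k : ℝ) - σL) ≤ W := by
    refine le_trans ?_ hWlo
    apply Real.rpow_le_rpow_of_exponent_le hx1
    linarith
  -- names
  set P := DBox k X with hP
  set L := Finset.Ico 1 (C0 * X) with hL
  set vv := gv g with hvv
  set vv' := gv g' with hvv'
  set pp := gp g with hpp
  set pp' := gp g' with hpp'
  set aa := ga f with haa
  set wt := gw f with hwt
  have hp0 : ∀ ω, 0 ≤ pp ω := fun ω => gp_nonneg g ω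
  have hp0' : ∀ ω, 0 ≤ pp' ω := fun ω => gp_nonneg g' ω
  have hw0 : ∀ l, 0 ≤ wt l := fun l => gw_nonneg f l
  have hXk0 : (0 : ℤ) ≤ (X : ℤ) ^ k := by positivity
  have hvP : ∀ ω ∈ P, 0 ≤ vv ω ∧ vv ω ≤ v * (X : ℤ) ^ k := fun ω hω => by
    refine ⟨(hv1 X ω hXv1 hω).1, (hv1 X ω hXv1 hω).2.trans ?_⟩
    apply mul_le_mul_of_nonneg_right _ hXk0
    exact_mod_cast (by omega : v1 ≤ v)
  have hvP' : ∀ ω ∈ P, 0 ≤ vv' ω ∧ vv' ω ≤ v * (X : ℤ) ^ k := fun ω hω => by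
    refine ⟨(hv2 X ω hXv2 hω).1, (hv2 X ω hXv2 hω).2.trans ?_⟩
    apply mul_le_mul_of_nonneg_right _ hXk0
    exact_mod_cast (by omega : v2 ≤ v)
  set M1 := ∑ ω ∈ P, pp ω with hM1
  set M2 := ∑ ω ∈ P, pp' ω with hM2
  have hM1lo : (κm * (X : ℝ)) ^ k ≤ M1 := gmass_ge hκm0.le fun i => by
    refine le_trans ?_ (hXs i X (hXsi i))
    apply mul_le_mul_of_nonneg_right _ hx0.le
    exact (min_le_left _ _).trans (hi0 i)
  have hM2lo : (κm * (X : ℝ)) ^ k ≤ M2 := gmass_ge hκm0.le fun i => by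
    refine le_trans ?_ (hXs' i X (hXsi' i))
    apply mul_le_mul_of_nonneg_right _ hx0.le
    exact (min_le_right _ _).trans (hi0' i)
  have hM10 : 0 < M1 := lt_of_lt_of_le (by positivity) hM1lo
  have hM20 : 0 < M2 := lt_of_lt_of_le (by positivity) hM2lo
  have hXε : 0 ≤ (X : ℝ) ^ ε := Real.rpow_nonneg hx0.le _
  have hwsum : ∑ l ∈ L, wt l ≤ C0 * X * (X : ℝ) ^ ε := by
    calc ∑ l ∈ L, wt l ≤ ∑ _l ∈ L, (X : ℝ) ^ ε := by
          apply sum_le_sum; intro l hl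
          refine (gw_le f l).trans (hbd l ?_)
          have := (Finset.mem_Ico.mp hl).2
          calc l ≤ C0 * X := this.le
            _ ≤ (C0 + 2) * X := Nat.mul_le_mul_right _ (by omega)
      _ = (L.card : ℝ) * (X : ℝ) ^ ε := by simp
      _ ≤ C0 * X * (X : ℝ) ^ ε := by
        apply mul_le_mul_of_nonneg_right _ hXε
        rw [hL, Nat.card_Ico]
        have : C0 * X - 1 ≤ C0 * X := Nat.sub_le _ _
        exact_mod_cast this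
  have hwsum0 : 0 ≤ ∑ l ∈ L, wt l := sum_nonneg fun l _ => hw0 l
  -- the window lower bound
  have hq : ∀ M : ℤ, (X : ℤ) ^ k ≤ M → M ≤ 2 ^ k * ((2 * v + 1) * (X : ℤ) ^ k) →
      κL * W / (X : ℝ) ^ (k - 1) ≤ ∑ l ∈ L.filter (fun l => M ≤ aa l ∧ aa l < M + W), wt l := by
    intro M hM1 hM2
    have e1 : ((X : ℝ)) ^ k ≤ M := by exact_mod_cast hM1
    have e2 : (M : ℝ) ≤ 2 ^ k * (2 * v + 1) * (X : ℝ) ^ k := by
      have : (M : ℝ) ≤ ((2 ^ k * ((2 * v + 1) * (X : ℤ) ^ k) : ℤ) : ℝ) := by exact_mod_cast hM2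
      push_cast at this
      linarith
    exact hlow X W M hXc e1 e2 hWL hWX
  -- minor arcs
  set τ : ℝ := (X : ℝ) ^ (1 - σ1) with hτ
  set η : ℝ := (X : ℝ) ^ (-(k : ℝ) + δ) with hη
  have hτ0 : 0 ≤ τ := Real.rpow_nonneg hx0.le _
  have hη0 : 0 ≤ η := Real.rpow_nonneg hx0.le _
  have hminor : ∀ β : ℝ, η ≤ |β| → |β| ≤ 1 / 2 → ‖∑ l ∈ L, (wt l : ℂ) * e (β * aa l)‖ ≤ τ := by
    intro β hβ1 hβ2
    refine (hsup X hXd β hβ1 hβ2).trans ?_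
    apply Real.rpow_le_rpow_of_exponent_le hx1
    have := min_le_left σ2 1
    rw [← hσ1] at this
    linarith
  have hbd2 : ∀ n, n ≤ 2 * X → lam n ≤ (X : ℝ) ^ ε := fun n hn => hbd n (hn.trans (Nat.mul_le_mul_right _ (by omega)))
  have hEnAux : ∀ (h : Fin k → ℕ → ℝ), ((GPr k h X).card : ℝ) ≤ (X : ℝ) ^ ((k : ℝ) + σ1 / 4) →
      En P (gv h) (gp h) ≤ (X : ℝ) ^ ((k : ℝ) + σ1 / 2) := by
    intro h hβ
    have h5 := gEn_le (k := k) (X := X) (g := h) hXε hbd2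
    refine h5.trans ?_
    rw [← pow_mul, ← Real.rpow_natCast ((X : ℝ) ^ ε), ← Real.rpow_mul hx0.le]
    calc (X : ℝ) ^ (ε * ((k * 2 : ℕ) : ℝ)) * ((GPr k h X).card : ℝ)
        ≤ (X : ℝ) ^ (σ1 / 4) * (X : ℝ) ^ ((k : ℝ) + σ1 / 4) := by
          apply mul_le_mul _ hβ (by positivity) (by positivity)
          apply Real.rpow_le_rpow_of_exponent_le hx1
          push_cast
          linarith
      _ = (X : ℝ) ^ ((k : ℝ) + σ1 / 2) := by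
          rw [← Real.rpow_add hx0]; congr 1; ring
  have hEn : En P vv pp ≤ (X : ℝ) ^ ((k : ℝ) + σ1 / 2) := hEnAux g (by rw [← hX] at hmean ⊢; exact hmean)
  have hEn' : En P vv' pp' ≤ (X : ℝ) ^ ((k : ℝ) + σ1 / 2) := hEnAux g' (by rw [← hX] at hmean' ⊢; exact hmean')
  -- the major arc error
  have hmaj : 16 * W * η ^ 2 * (∑ l ∈ L, wt l) ≤ κL / 2 / (X : ℝ) ^ (k - 1) := by
    have e1 : (X : ℝ) ^ ((k : ℝ) - 3 * δ) * η ^ 2 * X * (X : ℝ) ^ ε = (X : ℝ) ^ (-δ + ε) / (X : ℝ) ^ (k - 1) := by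
      rw [hη, sq, ← Real.rpow_add hx0, ← Real.rpow_add hx0]
      rw [show (X : ℝ) ^ ((k : ℝ) - 3 * δ + (-(k : ℝ) + δ + (-(k : ℝ) + δ))) * X =
        (X : ℝ) ^ ((k : ℝ) - 3 * δ + (-(k : ℝ) + δ + (-(k : ℝ) + δ))) * (X : ℝ) ^ (1 : ℝ) by
          rw [Real.rpow_one]]
      rw [← Real.rpow_add hx0, ← Real.rpow_add hx0, ← Real.rpow_natCast (X : ℝ) (k - 1), ← Real.rpow_sub hx0]
      congr 1
      rw [Nat.cast_sub (by omega)]
      push_cast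
      ring
    have e2 : (X : ℝ) ^ (-δ + ε) * (64 * C0) ≤ κL := by
      have e3 : (X : ℝ) ^ (-δ + ε) ≤ (X : ℝ) ^ (-(δ / 2)) :=
        Real.rpow_le_rpow_of_exponent_le hx1 (by linarith)
      have e4 : (X : ℝ) ^ (-(δ / 2)) * (64 * C0) ≤ κL := by
        rw [Real.rpow_neg hx0.le, inv_mul_le_iff₀ (Real.rpow_pos_of_pos hx0 _)]
        rw [div_le_iff₀ hκL] at h2
        exact h2
      refine le_trans ?_ e4
      gcongr
    calc 16 * W * η ^ 2 * (∑ l ∈ L, wt l)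
        ≤ 16 * (2 * (X : ℝ) ^ ((k : ℝ) - 3 * δ)) * η ^ 2 * (C0 * X * (X : ℝ) ^ ε) := by gcongr
      _ = 32 * C0 * ((X : ℝ) ^ ((k : ℝ) - 3 * δ) * η ^ 2 * X * (X : ℝ) ^ ε) := by ring
      _ = ((X : ℝ) ^ (-δ + ε) * (64 * C0)) / 2 / (X : ℝ) ^ (k - 1) := by rw [e1]; ring
      _ ≤ κL / 2 / (X : ℝ) ^ (k - 1) := by gcongr
  have hkk : (X : ℝ) ^ (k - 1) ≠ 0 := by positivity
  refine ⟨?_, ?_⟩
  · intro N hN1 hN2
    have hc2 := hC2 (Fin k → ℕ) ℕ P P L vv vv' pp pp' aa wt W η τ 0 0 ∅ hp0 hp0' hw0 hW1 hη0 hτ0 le_rfl le_rfl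
      (fun β h1 h2 => Or.inl (hminor β h1 h2)) N
    have hwin : M1 * M2 * (κL * W / (X : ℝ) ^ (k - 1)) ≤ ∑ h ∈ range W, R3 P P L vv vv' pp pp' aa wt (N + h) := by
      apply R3_window_ge P P L vv vv' pp pp' aa wt W N hp0 hp0' _ ((X : ℤ) ^ k) (v * (X : ℤ) ^ k) hvP hvP'
      · linarith
      · intro M hM1 hM2
        exact hq M hM1 (hM2.trans hN2)
    have hmn : M1 * M2 * (κL / (X : ℝ) ^ (k - 1)) ≤ (∑ h ∈ range W, R3 P P L vv vv' pp pp' aa wt (N + h)) / W := by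
      rw [le_div_iff₀ hW0]
      refine le_trans (le_of_eq ?_) hwin
      ring
    have hR : M1 * M2 * (κL / (X : ℝ) ^ (k - 1)) - (16 * W * η ^ 2 * M1 * M2 * (∑ l ∈ L, wt l) +
        τ * (En P vv pp + En P vv' pp')) ≤ R3 P P L vv vv' pp pp' aa wt N := by
      have h9 := (abs_le.mp hc2).1
      simp only [mul_zero, zero_mul, add_zero] at h9
      linarith
    refine le_trans ?_ hR
    have a1 : 16 * W * η ^ 2 * M1 * M2 * (∑ l ∈ L, wt l) ≤ M1 * M2 * (κL / 2 / (X : ℝ) ^ (k - 1)) := by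
      calc 16 * W * η ^ 2 * M1 * M2 * (∑ l ∈ L, wt l) = M1 * M2 * (16 * W * η ^ 2 * (∑ l ∈ L, wt l)) := by ring
        _ ≤ _ := by gcongr
    have a2 : τ * (En P vv pp + En P vv' pp') ≤ 2 * (X : ℝ) ^ ((k : ℝ) + 1 - σ1 / 2) := by
      calc τ * (En P vv pp + En P vv' pp') ≤ τ * ((X : ℝ) ^ ((k : ℝ) + σ1 / 2) + (X : ℝ) ^ ((k : ℝ) + σ1 / 2)) := by
            gcongr
        _ = 2 * (X : ℝ) ^ ((k : ℝ) + 1 - σ1 / 2) := by
          have : (X : ℝ) ^ ((k : ℝ) + 1 - σ1 / 2) = τ * (X : ℝ) ^ ((k : ℝ) + σ1 / 2) := by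
            rw [hτ, ← Real.rpow_add hx0]; congr 1; ring
          rw [this]; ring
    have a3 : (X : ℝ) ^ ((k : ℝ) + 1 - σ1 / 2) * (X : ℝ) ^ (σ1 / 2) = (X : ℝ) ^ (k + 1) := by
      rw [← Real.rpow_add hx0, ← Real.rpow_natCast]; congr 1; push_cast; ring
    have a4 : 2 * (X : ℝ) ^ ((k : ℝ) + 1 - σ1 / 2) ≤ κL / 4 * κm ^ (2 * k) * (X : ℝ) ^ (k + 1) := by
      rw [← a3]
      have hpos : 0 < (X : ℝ) ^ ((k : ℝ) + 1 - σ1 / 2) := Real.rpow_pos_of_pos hx0 _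
      have : (2 : ℝ) ≤ κL / 4 * κm ^ (2 * k) * (X : ℝ) ^ (σ1 / 2) := by
        rw [div_le_iff₀ (by positivity)] at h3
        linarith
      calc 2 * (X : ℝ) ^ ((k : ℝ) + 1 - σ1 / 2) ≤
          (κL / 4 * κm ^ (2 * k) * (X : ℝ) ^ (σ1 / 2)) * (X : ℝ) ^ ((k : ℝ) + 1 - σ1 / 2) := by gcongr
        _ = _ := by ring
    have a5 : κL / 2 * κm ^ (2 * k) * (X : ℝ) ^ (k + 1) ≤ M1 * M2 * (κL / 2 / (X : ℝ) ^ (k - 1)) := by
      have : (κm * (X : ℝ)) ^ k * (κm * (X : ℝ)) ^ k ≤ M1 * M2 := by gcongr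
      calc κL / 2 * κm ^ (2 * k) * (X : ℝ) ^ (k + 1)
          = ((κm * (X : ℝ)) ^ k * (κm * (X : ℝ)) ^ k) * (κL / 2 / (X : ℝ) ^ (k - 1)) := by
            have e9 : (X : ℝ) ^ k * (X : ℝ) ^ k = (X : ℝ) ^ (k + 1) * (X : ℝ) ^ (k - 1) := by
              rw [← pow_add, ← pow_add]; congr 1; omega
            have e10 : κm ^ (2 * k) = κm ^ k * κm ^ k := by rw [← pow_add]; congr 1; ring
            rw [mul_pow, e10]
            calc κL / 2 * (κm ^ k * κm ^ k) * (X : ℝ) ^ (k + 1)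
                = (κL / 2 * (κm ^ k * κm ^ k)) * (((X : ℝ) ^ (k + 1) * (X : ℝ) ^ (k - 1)) / (X : ℝ) ^ (k - 1)) := by
                  rw [mul_div_assoc, div_self hkk, mul_one]
              _ = _ := by rw [← e9]; ring
        _ ≤ _ := by gcongr
    have a6 : M1 * M2 * (κL / (X : ℝ) ^ (k - 1)) = 2 * (M1 * M2 * (κL / 2 / (X : ℝ) ^ (k - 1))) := by ring
    have a7 : κL / 2 * κm ^ (2 * k) * (X : ℝ) ^ (k + 1) = 2 * (κL / 4 * κm ^ (2 * k) * (X : ℝ) ^ (k + 1)) := by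
      ring
    rw [a6]
    nlinarith [a1, a2, a4, a5, a7]
  · intro S hS
    set ρ : ℝ := κL / 2 * κm ^ k * X with hρ
    have hρ0 : 0 < ρ := by positivity
    have hkey := hC1 (Fin k → ℕ) ℕ P L vv pp aa wt W η τ 0 0 ρ ∅ hp0 hw0 hW1 hη0 hτ0 le_rfl le_rfl hρ0.le
      (fun β h1 h2 => Or.inl (hminor β h1 h2)) S (by
      intro N hN
      obtain ⟨hN1, hN2, hN3⟩ := hS N hN
      have hwin : M1 * (κL * W / (X : ℝ) ^ (k - 1)) ≤ ∑ h ∈ range W, R1 P L vv pp aa wt (N + h) := by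
        apply R1_window_ge P L vv pp aa wt W N hp0 _ ((X : ℤ) ^ k) (v * (X : ℤ) ^ k) hvP
        · have : (0 : ℤ) ≤ v * (X : ℤ) ^ k := by positivity
          linarith
        · intro M hM1 hM2
          exact hq M hM1 (hM2.trans hN2)
      have hmn : M1 * (κL / (X : ℝ) ^ (k - 1)) ≤ (∑ h ∈ range W, R1 P L vv pp aa wt (N + h)) / W := by
        rw [le_div_iff₀ hW0]
        refine le_trans (le_of_eq ?_) hwin
        ring
      rw [hN3, zero_sub, abs_neg]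
      refine le_trans ?_ (le_abs_self _)
      refine le_trans ?_ hmn
      have a1 : 16 * W * η ^ 2 * M1 * (∑ l ∈ L, wt l) ≤ M1 * (κL / 2 / (X : ℝ) ^ (k - 1)) := by
        calc 16 * W * η ^ 2 * M1 * (∑ l ∈ L, wt l) = M1 * (16 * W * η ^ 2 * (∑ l ∈ L, wt l)) := by ring
          _ ≤ _ := by gcongr
      have a2 : ρ ≤ M1 * (κL / 2 / (X : ℝ) ^ (k - 1)) := by
        calc ρ = (κm * (X : ℝ)) ^ k * (κL / 2 / (X : ℝ) ^ (k - 1)) := by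
              have e9 : (X : ℝ) ^ k = X * (X : ℝ) ^ (k - 1) := by
                rw [← pow_succ']; congr 1; omega
              rw [hρ, mul_pow, e9]
              field_simp
          _ ≤ _ := by gcongr
      have a3 : M1 * (κL / (X : ℝ) ^ (k - 1)) = 2 * (M1 * (κL / 2 / (X : ℝ) ^ (k - 1))) := by ring
      rw [a3]; linarith)
    have b1 : (S.card : ℝ) * ρ ^ 2 ≤ 4 * (X : ℝ) ^ ((k : ℝ) + 2 - σ1) := by
      refine hkey.trans ?_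
      simp only [mul_zero, zero_mul, add_zero, ne_eq, OfNat.ofNat_ne_zero, not_false_eq_true, zero_pow]
      calc 4 * τ ^ 2 * En P vv pp ≤ 4 * τ ^ 2 * (X : ℝ) ^ ((k : ℝ) + σ1 / 2) := by gcongr
        _ = 4 * (X : ℝ) ^ ((k : ℝ) + 2 - 3 * (σ1 / 2)) := by
          rw [hτ, sq, mul_assoc, ← Real.rpow_add hx0, ← Real.rpow_add hx0]; congr 2; ring
        _ ≤ 4 * (X : ℝ) ^ ((k : ℝ) + 2 - σ1) := by
          apply mul_le_mul_of_nonneg_left _ (by norm_num)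
          apply Real.rpow_le_rpow_of_exponent_le hx1
          linarith
    have b2 : (X : ℝ) ^ ((k : ℝ) + 2 - σ1) * (X : ℝ) ^ (σ1 / 2) = (X : ℝ) ^ ((k : ℝ) - σ1 / 2) * (X : ℝ) ^ 2 := by
      rw [← Real.rpow_add hx0, ← Real.rpow_natCast (X : ℝ) 2, ← Real.rpow_add hx0]; congr 1; push_cast; ring
    have b3 : (S.card : ℝ) * ρ ^ 2 * (4 * ((2 / κL) / κm ^ k) ^ 2) ≤
        4 * ((X : ℝ) ^ ((k : ℝ) - σ1 / 2) * (X : ℝ) ^ 2) := by
      calc (S.card : ℝ) * ρ ^ 2 * (4 * ((2 / κL) / κm ^ k) ^ 2)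
          ≤ 4 * (X : ℝ) ^ ((k : ℝ) + 2 - σ1) * (X : ℝ) ^ (σ1 / 2) := by gcongr
        _ = _ := by rw [mul_assoc, b2]
    have b4 : ρ ^ 2 * (4 * ((2 / κL) / κm ^ k) ^ 2) = 4 * (X : ℝ) ^ 2 := by
      rw [hρ]; field_simp
    rw [mul_assoc, b4] at b3
    have b5 : (0 : ℝ) < 4 * (X : ℝ) ^ 2 := by positivity
    have b6 : (S.card : ℝ) * (4 * (X : ℝ) ^ 2) ≤ (X : ℝ) ^ ((k : ℝ) - σ1 / 2) * (4 * (X : ℝ) ^ 2) := by linarith
    exact le_of_mul_le_mul_right b6 b5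

end Pool.Agent.N604.MW
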