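import Mathlib
import Pool.Agent.N604.MW.YAsm1

/-!
# Project GS: all integers, almost all integers (general functions)
-/

namespace Pool.Agent.N604.MW

open Finset MeasureTheory

/-- from `R3` to representations by primes -/
lemma greps {k X C0 : ℕ} (α : Fin (k + k + 1) → ℕ → ℝ) (N : ℤ) (B : ℝ) (hB0 : 0 ≤ B)
    (hB1 : ∀ n, n ≤ 2 * X → lam n ≤ B) (hB2 : ∀ n, n ≤ C0 * X → lam n ≤ B) :
    ∃ S : Finset (Fin (k + k + 1) → ℕ), (∀ p ∈ S, (∀ i, (p i).Prime) ∧ ∑ i, ⌊α i (p i)⌋ = N) ∧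
      R3 (DBox k X) (DBox k X) (Finset.Ico 1 (C0 * X)) (gv (fun i => α (Fin.castSucc (Fin.castAdd k i))))
        (gv (fun i => α (Fin.castSucc (Fin.natAdd k i)))) (gp (fun i => α (Fin.castSucc (Fin.castAdd k i))))
        (gp (fun i => α (Fin.castSucc (Fin.natAdd k i)))) (ga (α (Fin.last _))) (gw (α (Fin.last _))) N ≤
        B ^ (k + k + 1) * S.card := by
  classical
  set α1 : Fin k → ℕ → ℝ := fun i => α (Fin.castSucc (Fin.castAdd k i)) with hα1
  set α2 : Fin k → ℕ → ℝ := fun i => α (Fin.castSucc (Fin.natAdd k i)) with hα2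
  set a := α (Fin.last _) with ha
  set T := (DBox k X ×ˢ (DBox k X ×ˢ Finset.Ico 1 (C0 * X))).filter
    (fun p => gv α1 p.1 + gv α2 p.2.1 + ga a p.2.2 = N ∧
      ((∀ i, (p.1 i).Prime) ∧ (∀ i, (p.2.1 i).Prime) ∧ p.2.2.Prime)) with hT
  set f : ((Fin k → ℕ) × ((Fin k → ℕ) × ℕ)) → (Fin (k + k + 1) → ℕ) :=
    fun p => Fin.snoc (α := fun _ => ℕ) (Fin.append p.1 p.2.1) p.2.2 with hf
  have hinj : Function.Injective f := by
    rintro ⟨a1, a2, a3⟩ ⟨b1, b2, b3⟩ h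
    simp only [hf] at h
    have h1 : a3 = b3 := by
      have := congrFun h (Fin.last _)
      simpa using this
    have h2 : Fin.append a1 a2 = Fin.append b1 b2 := by
      funext i
      have := congrFun h (Fin.castSucc i)
      simpa using this
    have h3 : a1 = b1 := by
      funext i
      have := congrFun h2 (Fin.castAdd _ i)
      simpa using this
    have h4 : a2 = b2 := by
      funext i
      have := congrFun h2 (Fin.natAdd _ i)
      rw [Fin.append_right, Fin.append_right] at this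
      exact this
    rw [h1, h3, h4]
  refine ⟨T.image f, ?_, ?_⟩
  · intro n hn
    rw [mem_image] at hn
    obtain ⟨⟨ω, ω', l⟩, hp, rfl⟩ := hn
    rw [hT, mem_filter, mem_product, mem_product] at hp
    obtain ⟨⟨hω, hω', hl⟩, hsum, hp1, hp2, hp3⟩ := hp
    simp only at hω hω' hl hsum hp1 hp2 hp3
    constructor
    · intro i
      simp only [hf]
      refine Fin.lastCases ?_ (fun j => ?_) i
      · simp only [Fin.snoc_last]; exact hp3
      · simp only [Fin.snoc_castSucc]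
        refine Fin.addCases (fun j => ?_) (fun j => ?_) j
        · simp only [Fin.append_left]; exact hp1 j
        · simp only [Fin.append_right]; exact hp2 j
    · simp only [hf]
      rw [Fin.sum_univ_castSucc]
      simp only [Fin.snoc_castSucc, Fin.snoc_last]
      rw [Fin.sum_univ_add]
      simp only [Fin.append_left, Fin.append_right]
      exact hsum
  · rw [card_image_of_injective _ hinj]
    have : B ^ (k + k + 1) * (T.card : ℝ) = ∑ ω ∈ DBox k X, ∑ ω' ∈ DBox k X,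
        ∑ l ∈ Finset.Ico 1 (C0 * X),
        (if gv α1 ω + gv α2 ω' + ga a l = N ∧
          ((∀ i, (ω i).Prime) ∧ (∀ i, (ω' i).Prime) ∧ l.Prime) then B ^ (k + k + 1) else 0) := by
      rw [mul_comm, hT, ← nsmul_eq_mul, ← sum_const, sum_filter, sum_product]
      apply sum_congr rfl; intro ω _
      rw [sum_product]
    rw [this]
    unfold R3
    apply sum_le_sum; intro ω hω
    apply sum_le_sum; intro ω' hω'
    apply sum_le_sum; intro l hl
    by_cases hcond : gv α1 ω + gv α2 ω' + ga a l = N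
    · rw [if_pos hcond]
      by_cases hpr : (∀ i, (ω i).Prime) ∧ (∀ i, (ω' i).Prime) ∧ l.Prime
      · rw [if_pos ⟨hcond, hpr⟩]
        have e1 := gp_le (g := α1) hB1 hω
        have e2 := gp_le (g := α2) hB1 hω'
        have e3 : gw a l ≤ B := (gw_le a l).trans (hB2 l (Finset.mem_Ico.mp hl).2.le)
        have hBk : 0 ≤ B ^ k := pow_nonneg hB0 _
        calc gp α1 ω * gp α2 ω' * gw a l ≤ B ^ k * B ^ k * B := by
              apply mul_le_mul _ e3 (gw_nonneg a l) (by positivity)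
              exact mul_le_mul e1 e2 (gp_nonneg _ _) hBk
          _ = B ^ (k + k + 1) := by rw [← pow_add, ← pow_succ]
      · rw [if_neg (fun h => hpr h.2)]
        apply le_of_eq
        by_contra hne
        apply hpr
        have h1 := left_ne_zero_of_mul hne
        have h2 := right_ne_zero_of_mul hne
        have h3 := left_ne_zero_of_mul h1
        have h4 := right_ne_zero_of_mul h1
        unfold gp at h3 h4
        rw [prod_ne_zero_iff] at h3 h4
        refine ⟨fun i => ?_, fun i => ?_, ?_⟩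
        · exact prime_of_lam_ne (left_ne_zero_of_mul (h3 i (mem_univ i)))
        · exact prime_of_lam_ne (left_ne_zero_of_mul (h4 i (mem_univ i)))
        · exact prime_of_lam_ne (left_ne_zero_of_mul h2)
    · rw [if_neg hcond, if_neg (fun h => hcond h.1)]

/-- `m` is a value of the diagonal form (with integer parts) at primes -/
def IsGSum {s : ℕ} (α : Fin s → ℕ → ℝ) (m : ℤ) : Prop :=
  ∃ p : Fin s → ℕ, (∀ i, (p i).Prime) ∧ ∑ i, ⌊α i (p i)⌋ = m

/-- a number which is not represented by primes has `R1 = 0` -/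
lemma gR1_eq_zero {k X C0 : ℕ} (α : Fin (k + 1) → ℕ → ℝ) (N : ℤ) (h : ¬ IsGSum α N) :
    R1 (DBox k X) (Finset.Ico 1 (C0 * X)) (gv (fun i => α (Fin.castSucc i))) (gp (fun i => α (Fin.castSucc i)))
      (ga (α (Fin.last _))) (gw (α (Fin.last _))) N = 0 := by
  unfold R1
  apply sum_eq_zero; intro ω hω
  apply sum_eq_zero; intro l hl
  by_cases hsum : gv (fun i => α (Fin.castSucc i)) ω + ga (α (Fin.last _)) l = N
  · rw [if_pos hsum]
    by_contra hne
    apply h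
    have h2 := right_ne_zero_of_mul hne
    have h3 := left_ne_zero_of_mul hne
    unfold gp at h3
    rw [prod_ne_zero_iff] at h3
    refine ⟨Fin.snoc (α := fun _ => ℕ) ω l, ?_, ?_⟩
    · intro i
      refine Fin.lastCases ?_ (fun j => ?_) i
      · simp only [Fin.snoc_last]; exact prime_of_lam_ne (left_ne_zero_of_mul h2)
      · simp only [Fin.snoc_castSucc]; exact prime_of_lam_ne (left_ne_zero_of_mul (h3 j (mem_univ j)))
    · rw [Fin.sum_univ_castSucc]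
      simp only [Fin.snoc_castSucc, Fin.snoc_last]
      exact hsum
  · rw [if_neg hsum]

/-- part one -/
theorem gpart1 {k v C0 : ℕ} {κ σ : ℝ} (hκ : 0 < κ) {ν0 : ℕ} (hk : 2 ≤ k) (α : Fin (k + k + 1) → ℕ → ℝ)
    (hcore : ∀ ν : ℕ, ν0 ≤ ν → CoreG k (fun i => α (Fin.castSucc (Fin.castAdd k i)))
      (fun i => α (Fin.castSucc (Fin.natAdd k i))) (α (Fin.last _)) v C0 κ σ (2 ^ ν)) :
    ∃ κ' : ℝ, 0 < κ' ∧ ∃ N0 : ℕ, ∀ N : ℕ, N0 ≤ N → ∃ S : Finset (Fin (k + k + 1) → ℕ),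
      (∀ p ∈ S, (∀ i, (p i).Prime) ∧ ∑ i, ⌊α i (p i)⌋ = (N : ℤ)) ∧
      κ' * (N : ℝ) ^ (1 + 1 / (k : ℝ)) / Real.log N ^ (k + k + 1) ≤ S.card := by
  set B : ℝ := 2 ^ k * (2 * v + 1) with hB
  have hB0 : 0 < B := by positivity
  have hk0 : (0 : ℝ) < k := by exact_mod_cast (by omega : 0 < k)
  have hexp : 0 < 1 + 1 / (k : ℝ) := by positivity
  set ν1 : ℕ := ν0 + C0 + 4 with hν1
  refine ⟨κ / B ^ (1 + 1 / (k : ℝ)), by positivity, (2 * v + 1) * (2 ^ ν1) ^ k, ?_⟩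
  intro N hN
  obtain ⟨ν, hν, h1, h2⟩ := scale v k ν1 N (by omega) hN
  have hc := (hcore ν (by omega)).1 N (by exact_mod_cast h1) (by exact_mod_cast h2.le)
  have hX : 1 ≤ 2 ^ ν := Nat.one_le_two_pow
  have hXν : ν < 2 ^ ν := Nat.lt_two_pow_self
  generalize hXX : 2 ^ ν = X at *
  have hXN : X * X ≤ N := by
    calc X * X = X ^ 2 := by ring
      _ ≤ X ^ k := Nat.pow_le_pow_right hX hk
      _ ≤ (2 * v + 1) * X ^ k := Nat.le_mul_of_pos_left _ (by omega)
      _ ≤ N := h1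
  have hC0N : C0 * X ≤ N := (Nat.mul_le_mul_right _ (by omega)).trans hXN
  have h2N : 2 * X ≤ N := (Nat.mul_le_mul_right _ (by omega)).trans hXN
  have hN4 : 4 ≤ N := by
    have : 2 * 2 ≤ X * X := Nat.mul_le_mul (by omega) (by omega)
    omega
  have hlogN : 0 < Real.log N := Real.log_pos (by exact_mod_cast (by omega : 1 < N))
  obtain ⟨S, hS, hcard⟩ := greps (k := k) (X := X) (C0 := C0) α N (Real.log N) hlogN.le
    (fun n hn => lam_le_log (hn.trans h2N)) (fun n hn => lam_le_log (hn.trans hC0N))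
  refine ⟨S, hS, ?_⟩
  have h5 := hc.trans hcard
  have hx0 : (0 : ℝ) < X := by exact_mod_cast hX
  have h3 : (N : ℝ) ≤ B * (X : ℝ) ^ k := by
    have : (N : ℝ) ≤ ((2 ^ k * ((2 * v + 1) * X ^ k) : ℕ) : ℝ) := by exact_mod_cast h2.le
    push_cast at this
    rw [hB]; linarith
  have h4 : (N : ℝ) ^ (1 + 1 / (k : ℝ)) ≤ B ^ (1 + 1 / (k : ℝ)) * (X : ℝ) ^ (k + 1) := by
    calc (N : ℝ) ^ (1 + 1 / (k : ℝ)) ≤ (B * (X : ℝ) ^ k) ^ (1 + 1 / (k : ℝ)) :=
          Real.rpow_le_rpow (Nat.cast_nonneg _) h3 hexp.le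
      _ = B ^ (1 + 1 / (k : ℝ)) * (X : ℝ) ^ (k + 1) := by
          rw [Real.mul_rpow hB0.le (by positivity), ← Real.rpow_natCast (X : ℝ) k, ← Real.rpow_mul hx0.le,
            ← Real.rpow_natCast (X : ℝ) (k + 1)]
          congr 2
          push_cast
          field_simp
  rw [div_le_iff₀ (by positivity)]
  calc κ / B ^ (1 + 1 / (k : ℝ)) * (N : ℝ) ^ (1 + 1 / (k : ℝ))
      ≤ κ / B ^ (1 + 1 / (k : ℝ)) * (B ^ (1 + 1 / (k : ℝ)) * (X : ℝ) ^ (k + 1)) := by gcongr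
    _ = κ * (X : ℝ) ^ (k + 1) := by
        have : B ^ (1 + 1 / (k : ℝ)) ≠ 0 := by positivity
        field_simp
    _ ≤ Real.log N ^ (k + k + 1) * S.card := h5
    _ = S.card * Real.log N ^ (k + k + 1) := by ring

/-- part two -/
theorem gpart2 {k v C0 : ℕ} {κ σ : ℝ} (hσ : 0 < σ) {ν0 : ℕ} (hk : 2 ≤ k) (α : Fin (k + 1) → ℕ → ℝ) (α' : Fin k → ℕ → ℝ)
    (hcore : ∀ ν : ℕ, ν0 ≤ ν → CoreG k (fun i => α (Fin.castSucc i)) α' (α (Fin.last _)) v C0 κ σ (2 ^ ν)) :
    ∃ σ' : ℝ, 0 < σ' ∧ ∃ N0 : ℕ, ∀ N : ℕ, N0 ≤ N →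
      (({m : ℕ | m ≤ N ∧ ¬ IsGSum α m}.ncard : ℕ) : ℝ) ≤ (N : ℝ) ^ (1 - σ') := by
  classical
  set σ1 : ℝ := min σ 1 with hσ1
  have hσ10 : 0 < σ1 := lt_min hσ one_pos
  have hk2 : (2 : ℝ) ≤ k := by exact_mod_cast hk
  have hk0 : (0 : ℝ) < k := by linarith
  set s : ℝ := σ1 / (4 * k) with hs
  have hs0 : 0 < s := by positivity
  have hs8 : s ≤ 1 / 8 := by
    rw [hs, div_le_div_iff₀ (by positivity) (by norm_num)]
    have := min_le_right σ 1
    rw [← hσ1] at this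
    nlinarith
  set M0 : ℕ := (2 * v + 1) * (2 ^ ν0) ^ k with hM0
  obtain ⟨N1, hN1⟩ := big (1 / 2) (2 * M0) (by norm_num)
  obtain ⟨N2, hN2⟩ := big s (2 * (2 / s + 1)) hs0
  refine ⟨2 * s, by linarith, N1 + N2 + 1, ?_⟩
  intro N hN
  have hNpos : 1 ≤ N := by omega
  have hn1 : (1 : ℝ) ≤ N := by exact_mod_cast hNpos
  have hn0 : (0 : ℝ) < N := by linarith
  have g1 := hN1 N (by omega)
  have g2 := hN2 N (by omega)
  set K := Nat.log 2 N with hK
  let E : ℕ → Finset ℕ := fun ν => (Finset.range (N + 1)).filter (fun m =>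
    (2 * v + 1) * (2 ^ ν) ^ k ≤ m ∧ m < 2 ^ k * ((2 * v + 1) * (2 ^ ν) ^ k) ∧ ¬ IsGSum α m)
  have hsub : {m : ℕ | m ≤ N ∧ ¬ IsGSum α m} ⊆
      ((Finset.range M0 ∪ (Finset.Icc ν0 K).biUnion E : Finset ℕ) : Set ℕ) := by
    rintro m ⟨hm1, hm2⟩
    rw [Finset.mem_coe, mem_union, mem_biUnion]
    by_cases hm : m < M0
    · left; exact mem_range.mpr hm
    · right
      rw [not_lt] at hm
      obtain ⟨ν, hν, h1, h2⟩ := scale v k ν0 m (by omega) hm
      refine ⟨ν, ?_, ?_⟩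
      · rw [Finset.mem_Icc]
        refine ⟨hν, ?_⟩
        rw [hK]
        apply Nat.le_log_of_pow_le (by norm_num)
        calc 2 ^ ν ≤ (2 ^ ν) ^ k := Nat.le_self_pow (by omega) _
          _ ≤ (2 * v + 1) * (2 ^ ν) ^ k := Nat.le_mul_of_pos_left _ (by omega)
          _ ≤ N := h1.trans hm1
      · simp only [E, mem_filter, mem_range]
        exact ⟨by omega, h1, h2, hm2⟩
  have hcardE : ∀ ν ∈ Finset.Icc ν0 K, ((E ν).card : ℝ) ≤ (N : ℝ) ^ (1 - 4 * s) := by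
    intro ν hν
    rw [Finset.mem_Icc] at hν
    by_cases hE : E ν = ∅
    · rw [hE, card_empty, Nat.cast_zero]; exact Real.rpow_nonneg hn0.le _
    have hX : 1 ≤ 2 ^ ν := Nat.one_le_two_pow
    have h1 := (hcore ν hν.1).2 ((E ν).map Nat.castEmbedding) (by
      intro M hM
      rw [mem_map] at hM
      obtain ⟨m, hm, rfl⟩ := hM
      simp only [E, mem_filter, mem_range] at hm
      obtain ⟨_, h1, h2, h3⟩ := hm
      refine ⟨?_, ?_, ?_⟩
      · simp only [Nat.castEmbedding_apply]; exact_mod_cast h1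
      · simp only [Nat.castEmbedding_apply]; exact_mod_cast h2.le
      · simp only [Nat.castEmbedding_apply]
        exact gR1_eq_zero α _ h3)
    rw [card_map] at h1
    refine h1.trans ?_
    obtain ⟨m, hm⟩ := Finset.nonempty_iff_ne_empty.mpr hE
    simp only [E, mem_filter, mem_range] at hm
    have h2 : (2 ^ ν) ^ k ≤ N := by
      calc (2 ^ ν) ^ k ≤ (2 * v + 1) * (2 ^ ν) ^ k := Nat.le_mul_of_pos_left _ (by omega)
        _ ≤ N := by omega
    generalize hXX : 2 ^ ν = X at *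
    have hx1 : (1 : ℝ) ≤ X := by exact_mod_cast hX
    have hx0 : (0 : ℝ) < X := by linarith
    have h3 : (X : ℝ) ^ (k : ℝ) ≤ N := by
      rw [Real.rpow_natCast]
      exact_mod_cast h2
    have h4 : 0 ≤ 1 - 4 * s := by linarith
    calc (X : ℝ) ^ ((k : ℝ) - σ) ≤ (X : ℝ) ^ ((k : ℝ) - σ1) := by
          apply Real.rpow_le_rpow_of_exponent_le hx1
          have := min_le_left σ 1
          linarith
      _ = ((X : ℝ) ^ (k : ℝ)) ^ (1 - 4 * s) := by
          rw [← Real.rpow_mul hx0.le]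
          congr 1
          rw [hs]; field_simp
      _ ≤ (N : ℝ) ^ (1 - 4 * s) := Real.rpow_le_rpow (Real.rpow_nonneg hx0.le _) h3 h4
  have hncard : (({m : ℕ | m ≤ N ∧ ¬ IsGSum α m}.ncard : ℕ) : ℝ) ≤
      (M0 : ℝ) + ((K : ℝ) + 1) * (N : ℝ) ^ (1 - 4 * s) := by
    have h1 : {m : ℕ | m ≤ N ∧ ¬ IsGSum α m}.ncard ≤
        (Finset.range M0 ∪ (Finset.Icc ν0 K).biUnion E).card := by
      rw [← Set.ncard_coe_finset]
      exact Set.ncard_le_ncard hsub (Finset.finite_toSet _)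
    have h2 : (Finset.range M0 ∪ (Finset.Icc ν0 K).biUnion E).card ≤ M0 + ∑ ν ∈ Finset.Icc ν0 K, (E ν).card := by
      refine (card_union_le _ _).trans ?_
      rw [card_range]
      exact Nat.add_le_add_left card_biUnion_le _
    have h3 : (({m : ℕ | m ≤ N ∧ ¬ IsGSum α m}.ncard : ℕ) : ℝ) ≤
        ((M0 + ∑ ν ∈ Finset.Icc ν0 K, (E ν).card : ℕ) : ℝ) := by exact_mod_cast h1.trans h2
    refine h3.trans ?_
    push_cast
    have h4 : ∑ ν ∈ Finset.Icc ν0 K, ((E ν).card : ℝ) ≤ ((K : ℝ) + 1) * (N : ℝ) ^ (1 - 4 * s) := by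
      calc ∑ ν ∈ Finset.Icc ν0 K, ((E ν).card : ℝ) ≤ ∑ _ν ∈ Finset.Icc ν0 K, (N : ℝ) ^ (1 - 4 * s) :=
            sum_le_sum hcardE
        _ = ((Finset.Icc ν0 K).card : ℝ) * (N : ℝ) ^ (1 - 4 * s) := by rw [sum_const, nsmul_eq_mul]
        _ ≤ ((K : ℝ) + 1) * (N : ℝ) ^ (1 - 4 * s) := by
            apply mul_le_mul_of_nonneg_right _ (Real.rpow_nonneg hn0.le _)
            rw [Nat.card_Icc]
            have : K + 1 - ν0 ≤ K + 1 := Nat.sub_le _ _
            exact_mod_cast this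
    linarith
  refine hncard.trans ?_
  have hKb : (K : ℝ) + 1 ≤ (2 / s + 1) * (N : ℝ) ^ s := by
    have h1 : (K : ℝ) ≤ Real.logb 2 N := by
      have := Real.natLog_le_logb N 2
      rw [hK]; exact_mod_cast this
    have h2 : Real.logb 2 N ≤ 2 * Real.log N := by
      rw [Real.logb, div_le_iff₀ (Real.log_pos (by norm_num))]
      have h3 : (1 / 2 : ℝ) ≤ Real.log 2 := by
        have := Real.log_two_gt_d9
        linarith
      have h4 : 0 ≤ Real.log N := Real.log_nonneg hn1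
      nlinarith
    have h3 : Real.log N ≤ (N : ℝ) ^ s / s := Real.log_le_rpow_div hn0.le hs0
    have h4 : (1 : ℝ) ≤ (N : ℝ) ^ s := Real.one_le_rpow hn1 hs0.le
    calc (K : ℝ) + 1 ≤ 2 * ((N : ℝ) ^ s / s) + (N : ℝ) ^ s := by linarith
      _ = (2 / s + 1) * (N : ℝ) ^ s := by ring
  have t1 : (M0 : ℝ) ≤ (N : ℝ) ^ (1 - 2 * s) / 2 := by
    have : (N : ℝ) ^ (1 / 2 : ℝ) ≤ (N : ℝ) ^ (1 - 2 * s) :=
      Real.rpow_le_rpow_of_exponent_le hn1 (by linarith)
    linarith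
  have t2 : ((K : ℝ) + 1) * (N : ℝ) ^ (1 - 4 * s) ≤ (N : ℝ) ^ (1 - 2 * s) / 2 := by
    have e1 : (N : ℝ) ^ (1 - 2 * s) = (N : ℝ) ^ s * ((N : ℝ) ^ s * (N : ℝ) ^ (1 - 4 * s)) := by
      rw [← Real.rpow_add hn0, ← Real.rpow_add hn0]; congr 1; ring
    have hp : 0 < (N : ℝ) ^ s * (N : ℝ) ^ (1 - 4 * s) := mul_pos (Real.rpow_pos_of_pos hn0 _) (Real.rpow_pos_of_pos hn0 _)
    calc ((K : ℝ) + 1) * (N : ℝ) ^ (1 - 4 * s) ≤ ((2 / s + 1) * (N : ℝ) ^ s) * (N : ℝ) ^ (1 - 4 * s) := by gcongr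
      _ = (2 * (2 / s + 1)) * ((N : ℝ) ^ s * (N : ℝ) ^ (1 - 4 * s)) / 2 := by ring
      _ ≤ (N : ℝ) ^ s * ((N : ℝ) ^ s * (N : ℝ) ^ (1 - 4 * s)) / 2 := by gcongr
      _ = (N : ℝ) ^ (1 - 2 * s) / 2 := by rw [e1]
  linarith

end Pool.Agent.N604.MW
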