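import Mathlib
import Pool.Agent.N604.MW.YAsm2
import Pool.Agent.N604.MW.Stm9
import Pool.Agent.N604.MW.KAsm1
import Pool.Agent.N604.MW.KAsm3
import Pool.Agent.N604.MW.PFin
import Pool.Agent.N712.PD_Circ
import Pool.Agent.N618.PD_Pull
import Pool.Agent.N814.GS_SDIO
import Pool.Agent.N456.GS_SMEAN

/-!
# Project GS: the theorems
-/

namespace Pool.Agent.N604.MW

open Finset MeasureTheory

theorem ppoint_all : S_PPOINT := Pool.Agent.N868.PWP.ppoint pweyl_all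
theorem plow_all : S_PLOW := Pool.Agent.N46.PW.plow ppoint_all
theorem pmass_all : S_PMASS := Pool.Agent.N46.PW.pmass ppoint_all
theorem ptpoint_all : S_PTPOINT := Pool.Agent.N868.PWT.ptpoint ppoint_all Pool.Agent.N141.MWF.floor_series

/-- the function of a shifted polynomial -/
noncomputable def yf (d : ℕ) (c b : ℝ) (θ : Fin d → ℝ) (t : ℝ) : ℕ → ℝ := fun n => PP d c b θ ((n : ℝ) + t)

/-- a shift is good -/
def ShiftP (d : ℕ) (c b : ℝ) (θ : Fin d → ℝ) (t : ℝ) : Prop := ∃ (b' : ℝ) (θ' : Fin d → ℝ),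
  (∀ x : ℝ, PP d c b θ (x + t) = PP d c b' θ' x) ∧ Dio d c θ'

variable {d : ℕ} {c b : ℝ} {θ : Fin d → ℝ} {t : ℝ}

lemma yf_eq {b' : ℝ} {θ' : Fin d → ℝ} (h : ∀ x : ℝ, PP d c b θ (x + t) = PP d c b' θ' x) :
    yf d c b θ t = fun n : ℕ => PP d c b' θ' (n : ℝ) := funext fun n => h n

lemma y_mass (hd : 1 ≤ d) (hc : 0 < c) (h : ShiftP d c b θ t) : GMassP (yf d c b θ t) := by
  obtain ⟨b', θ', h1, h2⟩ := h
  obtain ⟨κ, hκ, X0, h3⟩ := pmass_all d c b' θ' hd hc h2 1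
  refine ⟨κ, hκ, X0, fun X hX => ?_⟩
  have h4 := h3 X X hX le_rfl (by omega)
  rw [yf_eq h1]
  rw [show 2 * X = X + X by ring]
  exact h4

lemma y_low (hd : 1 ≤ d) (hc : 0 < c) (h : ShiftP d c b θ t) : GLowP (d + 1) (yf d c b θ t) := by
  obtain ⟨b', θ', h1, h2⟩ := h
  intro C1 hC1
  obtain ⟨C0, κ, σ, hκ, hσ, X0, h3⟩ := plow_all d c b' θ' hd hc h2 C1 hC1
  refine ⟨C0, κ, σ, hκ, hσ, X0, fun X W M hX a1 a2 a3 a4 => ?_⟩
  have h4 := h3 X W M hX a1 a2 (by push_cast at a3; exact a3) a4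
  rw [yf_eq h1]
  rw [show d + 1 - 1 = d by omega]
  refine h4.trans (le_of_eq ?_)
  apply sum_congr _ (fun _ _ => rfl)
  ext l
  simp only [mem_filter, mem_range, Finset.mem_Ico, ga]
  constructor
  · rintro ⟨h1, h2, h3, h4⟩; exact ⟨⟨h2, h1⟩, h3, h4⟩
  · rintro ⟨⟨h2, h1⟩, h3, h4⟩; exact ⟨h1, h2, h3, h4⟩

lemma y_sup (hd : 1 ≤ d) (hc : 0 < c) (h : ShiftP d c b θ t) : GSupP (d + 1) (yf d c b θ t) := by
  obtain ⟨b', θ', h1, h2⟩ := h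
  intro C0 δ hδ
  obtain ⟨σ, hσ, X0, h3⟩ := ptpoint_all d c b' θ' hd hc h2 (C0 + 1) δ hδ
  refine ⟨σ, hσ, X0 + 1, fun X hX β a1 a2 => ?_⟩
  rw [yf_eq h1]
  have hx0 : (0 : ℝ) ≤ X := Nat.cast_nonneg _
  by_cases hC0 : C0 * X = 0
  · rw [hC0]
    have : Finset.Ico 1 0 = (∅ : Finset ℕ) := rfl
    rw [this, sum_empty, norm_zero]
    exact Real.rpow_nonneg hx0 _
  have h4 := h3 X 1 (C0 * X - 1) (by omega) (by
    have : 1 + (C0 * X - 1) = C0 * X := by omega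
    rw [this]
    exact Nat.mul_le_mul_right _ (by omega)) β (by push_cast at a1; exact a1) a2
  refine le_trans (le_of_eq ?_) h4
  rw [Finset.sum_Ico_eq_sum_range]
  rfl

lemma y_size {s : ℕ} (c b : Fin s → ℝ) (θ : Fin s → Fin d → ℝ) (t : Fin s → ℝ) (hc : ∀ i, 0 < c i)
    (h : ∀ i, ShiftP d (c i) (b i) (θ i) (t i)) :
    ∃ v X0 : ℕ, ∀ (X : ℕ) (n : Fin s → ℕ), X0 ≤ X → n ∈ DBox s X →
      0 ≤ gv (fun i => yf d (c i) (b i) (θ i) (t i)) n ∧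
      gv (fun i => yf d (c i) (b i) (θ i) (t i)) n ≤ v * (X : ℤ) ^ (d + 1) := by
  choose b' θ' h1 h2 using h
  obtain ⟨v, X0, h3⟩ := ksize c b' θ' hc
  refine ⟨v, X0, fun X n hX hn => ?_⟩
  have h4 := h3 X n hX hn
  have h5 : gv (fun i => yf d (c i) (b i) (θ i) (t i)) n = kv d c b' θ' n := by
    unfold gv kv
    apply sum_congr rfl; intro i _
    show ⌊PP d (c i) (b i) (θ i) ((n i : ℝ) + t i)⌋ = ⌊PP d (c i) (b' i) (θ' i) (n i : ℝ)⌋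
    rw [h1]
  rw [h5]
  exact h4

lemma y_mean (c b : Fin (d + 1) → ℝ) (θ : Fin (d + 1) → Fin d → ℝ) (t : Fin (d + 1) → ℝ)
    (h : ∀ ε : ℝ, 0 < ε → ∃ ν0 : ℕ, ∀ ν : ℕ, ν0 ≤ ν →
      ((SPairs d c b θ t (2 ^ ν)).card : ℝ) ≤ ((2 : ℝ) ^ ν) ^ ((d : ℝ) + 1 + ε)) :
    GMeanP (d + 1) (fun i => yf d (c i) (b i) (θ i) (t i)) := by
  intro ε hε
  obtain ⟨ν0, h1⟩ := h ε hε
  refine ⟨ν0, fun ν hν => ?_⟩
  have h2 := h1 ν hν
  have h3 : GPr (d + 1) (fun i => yf d (c i) (b i) (θ i) (t i)) (2 ^ ν) = SPairs d c b θ t (2 ^ ν) := by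
    unfold GPr SPairs SD yf DBox SB
    push_cast
    rfl
  rw [h3]
  push_cast
  exact h2

/-- all large integers -/
theorem ygen1 (hSSUM : S_SSUM) (d : ℕ) (hd : 1 ≤ d) (c b : Fin ((d + 1) + (d + 1) + 1) → ℝ)
    (θ : Fin ((d + 1) + (d + 1) + 1) → Fin d → ℝ) (hc : ∀ i, 0 < c i) :
    ∀ᵐ t : Fin ((d + 1) + (d + 1) + 1) → ℝ, ∃ κ' : ℝ, 0 < κ' ∧ ∃ N0 : ℕ, ∀ N : ℕ, N0 ≤ N →
      ∃ S : Finset (Fin ((d + 1) + (d + 1) + 1) → ℕ),
      (∀ p ∈ S, (∀ i, (p i).Prime) ∧ ∑ i, ⌊PP d (c i) (b i) (θ i) ((p i : ℝ) + t i)⌋ = (N : ℤ)) ∧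
      κ' * (N : ℝ) ^ (1 + 1 / ((d : ℝ) + 1)) / Real.log N ^ ((d + 1) + (d + 1) + 1) ≤ S.card := by
  have h1 : ∀ i, ∀ᵐ t : Fin ((d + 1) + (d + 1) + 1) → ℝ, ShiftP d (c i) (b i) (θ i) (t i) := fun i =>
    pull_eval _ i _ (Pool.Agent.N814.GS.sdio d (c i) (b i) (θ i) hd (hc i))
  rw [← ae_all_iff] at h1
  have hmean := Pool.Agent.N456.GS.smean hSSUM
  have h2 := Pool.Agent.N618.PD.pull ((d + 1) + (d + 1) + 1) (d + 1) (fun i => Fin.castSucc (Fin.castAdd (d + 1) i))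
    (fun i j h => Fin.castAdd_injective (d + 1) (d + 1) (Fin.castSucc_injective _ h)) _
    (hmean d (fun i => c (Fin.castSucc (Fin.castAdd (d + 1) i))) (fun i => b (Fin.castSucc (Fin.castAdd (d + 1) i)))
      (fun i => θ (Fin.castSucc (Fin.castAdd (d + 1) i))) hd (fun i => hc _))
  have h3 := Pool.Agent.N618.PD.pull ((d + 1) + (d + 1) + 1) (d + 1) (fun i => Fin.castSucc (Fin.natAdd (d + 1) i))
    (fun i j h => Fin.natAdd_injective (d + 1) (d + 1) (Fin.castSucc_injective _ h)) _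
    (hmean d (fun i => c (Fin.castSucc (Fin.natAdd (d + 1) i))) (fun i => b (Fin.castSucc (Fin.natAdd (d + 1) i)))
      (fun i => θ (Fin.castSucc (Fin.natAdd (d + 1) i))) hd (fun i => hc _))
  filter_upwards [h1, h2, h3] with t ht1 ht2 ht3
  obtain ⟨v, C0, κ, σ, hκ, hσ, ν0, hcore⟩ := gcore Pool.Agent.N712.PD.dcirc1 Pool.Agent.N712.PD.dcirc2
    (k := d + 1) (by omega) _ _ _
    (y_size (fun i => c (Fin.castSucc (Fin.castAdd (d + 1) i))) (fun i => b (Fin.castSucc (Fin.castAdd (d + 1) i)))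
      (fun i => θ (Fin.castSucc (Fin.castAdd (d + 1) i))) (fun i => t (Fin.castSucc (Fin.castAdd (d + 1) i)))
      (fun i => hc _) (fun i => ht1 _))
    (y_size (fun i => c (Fin.castSucc (Fin.natAdd (d + 1) i))) (fun i => b (Fin.castSucc (Fin.natAdd (d + 1) i)))
      (fun i => θ (Fin.castSucc (Fin.natAdd (d + 1) i))) (fun i => t (Fin.castSucc (Fin.natAdd (d + 1) i)))
      (fun i => hc _) (fun i => ht1 _))
    (fun i => y_mass hd (hc _) (ht1 _)) (fun i => y_mass hd (hc _) (ht1 _))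
    (y_low hd (hc (Fin.last _)) (ht1 (Fin.last _))) (y_sup hd (hc (Fin.last _)) (ht1 (Fin.last _)))
    (y_mean _ _ _ _ ht2) (y_mean _ _ _ _ ht3)
  have h4 := gpart1 (k := d + 1) hκ (by omega) (fun i => yf d (c i) (b i) (θ i) (t i)) hcore
  obtain ⟨κ', hκ', N0, h5⟩ := h4
  refine ⟨κ', hκ', N0, fun N hN => ?_⟩
  obtain ⟨S, hS1, hS2⟩ := h5 N hN
  refine ⟨S, hS1, ?_⟩
  push_cast at hS2 ⊢
  exact hS2

/-- almost all integers -/
theorem ygen2 (hSSUM : S_SSUM) (d : ℕ) (hd : 1 ≤ d) (c b : Fin ((d + 1) + 1) → ℝ)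
    (θ : Fin ((d + 1) + 1) → Fin d → ℝ) (hc : ∀ i, 0 < c i) :
    ∀ᵐ t : Fin ((d + 1) + 1) → ℝ, ∃ σ' : ℝ, 0 < σ' ∧ ∃ N0 : ℕ, ∀ N : ℕ, N0 ≤ N →
      (({m : ℕ | m ≤ N ∧ ¬ ∃ p : Fin ((d + 1) + 1) → ℕ, (∀ i, (p i).Prime) ∧
        ∑ i, ⌊PP d (c i) (b i) (θ i) ((p i : ℝ) + t i)⌋ = (m : ℤ)}.ncard : ℕ) : ℝ) ≤ (N : ℝ) ^ (1 - σ') := by
  have h1 : ∀ i, ∀ᵐ t : Fin ((d + 1) + 1) → ℝ, ShiftP d (c i) (b i) (θ i) (t i) := fun i =>
    pull_eval _ i _ (Pool.Agent.N814.GS.sdio d (c i) (b i) (θ i) hd (hc i))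
  rw [← ae_all_iff] at h1
  have hmean := Pool.Agent.N456.GS.smean hSSUM
  have h2 := Pool.Agent.N618.PD.pull ((d + 1) + 1) (d + 1) (fun i => Fin.castSucc i)
    (fun i j h => Fin.castSucc_injective _ h) _
    (hmean d (fun i => c (Fin.castSucc i)) (fun i => b (Fin.castSucc i))
      (fun i => θ (Fin.castSucc i)) hd (fun i => hc _))
  filter_upwards [h1, h2] with t ht1 ht2
  have hsz := y_size (fun i => c (Fin.castSucc i)) (fun i => b (Fin.castSucc i))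
      (fun i => θ (Fin.castSucc i)) (fun i => t (Fin.castSucc i)) (fun i => hc _) (fun i => ht1 _)
  obtain ⟨v, C0, κ, σ, hκ, hσ, ν0, hcore⟩ := gcore Pool.Agent.N712.PD.dcirc1 Pool.Agent.N712.PD.dcirc2
    (k := d + 1) (by omega) _ _ _ hsz hsz
    (fun i => y_mass hd (hc _) (ht1 _)) (fun i => y_mass hd (hc _) (ht1 _))
    (y_low hd (hc (Fin.last _)) (ht1 (Fin.last _))) (y_sup hd (hc (Fin.last _)) (ht1 (Fin.last _)))
    (y_mean _ _ _ _ ht2) (y_mean _ _ _ _ ht2)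
  exact gpart2 (k := d + 1) hσ (by omega) (fun i => yf d (c i) (b i) (θ i) (t i)) _ hcore

/-- a polynomial in the form `PP` -/
lemma eval_eq_PP (P : Polynomial ℝ) (d : ℕ) (h : P.natDegree = d + 1) (x : ℝ) :
    P.eval x = PP d P.leadingCoeff (P.coeff 0) (fun j => P.coeff ((j : ℕ) + 1)) x := by
  rw [Polynomial.eval_eq_sum_range, h, Finset.sum_range_succ, Finset.sum_range_succ', ← Fin.sum_univ_eq_sum_range
    (fun i => P.coeff (i + 1) * x ^ (i + 1)) d]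
  unfold PP Polynomial.leadingCoeff
  rw [h, pow_zero, mul_one]
  ring

end Pool.Agent.N604.MW
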