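import Mathlib
import Pool.Agent.N604.MW.YFin
import Pool.Agent.N755.GS_Ssum
import Pool.Agent.N400.KV_Sharp2

/-!
# Project GS: the final statements
-/

namespace Pool.Agent.N604.MW

open Finset MeasureTheory

theorem ycor1 (hS : S_SMEAS) (k s : ℕ) (hk : 2 ≤ k) (hs : s = k + k + 1) (P : Fin s → Polynomial ℝ)
    (hP : ∀ i, (P i).natDegree = k ∧ 0 < (P i).leadingCoeff) :
    ∀ᵐ t : Fin s → ℝ, ∃ κ : ℝ, 0 < κ ∧ ∃ N0 : ℕ, ∀ N : ℕ, N0 ≤ N → ∃ S : Finset (Fin s → ℕ),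
      (∀ p ∈ S, (∀ i, (p i).Prime) ∧ ∑ i, ⌊(P i).eval ((p i : ℝ) + t i)⌋ = (N : ℤ)) ∧
      κ * (N : ℝ) ^ (1 + 1 / (k : ℝ)) / Real.log N ^ s ≤ S.card := by
  obtain ⟨d, rfl⟩ : ∃ d, k = d + 1 := ⟨k - 1, by omega⟩
  subst hs
  have h1 := ygen1 (Pool.Agent.N755.GS.ssum hS) d (by omega) (fun i => (P i).leadingCoeff) (fun i => (P i).coeff 0)
    (fun i j => (P i).coeff ((j : ℕ) + 1)) (fun i => (hP i).2)
  filter_upwards [h1] with t ht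
  obtain ⟨κ, hκ, N0, h2⟩ := ht
  refine ⟨κ, hκ, N0, fun N hN => ?_⟩
  obtain ⟨S, hS1, hS2⟩ := h2 N hN
  refine ⟨S, fun p hp => ⟨(hS1 p hp).1, ?_⟩, ?_⟩
  · rw [← (hS1 p hp).2]
    apply sum_congr rfl; intro i _
    rw [eval_eq_PP (P i) d (hP i).1]
  · push_cast at hS2 ⊢
    exact hS2

theorem ycor2 (hS : S_SMEAS) (k : ℕ) (hk : 2 ≤ k) (P : Fin (k + 1) → Polynomial ℝ)
    (hP : ∀ i, (P i).natDegree = k ∧ 0 < (P i).leadingCoeff) :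
    ∀ᵐ t : Fin (k + 1) → ℝ, ∃ σ : ℝ, 0 < σ ∧ ∃ N0 : ℕ, ∀ N : ℕ, N0 ≤ N →
      ({m : ℕ | m ≤ N ∧ ¬ ∃ p : Fin (k + 1) → ℕ, (∀ i, (p i).Prime) ∧
        ∑ i, ⌊(P i).eval ((p i : ℝ) + t i)⌋ = (m : ℤ)}.ncard : ℝ) ≤ (N : ℝ) ^ (1 - σ) := by
  obtain ⟨d, rfl⟩ : ∃ d, k = d + 1 := ⟨k - 1, by omega⟩
  have h1 := ygen2 (Pool.Agent.N755.GS.ssum hS) d (by omega) (fun i => (P i).leadingCoeff) (fun i => (P i).coeff 0)
    (fun i j => (P i).coeff ((j : ℕ) + 1)) (fun i => (hP i).2)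
  filter_upwards [h1] with t ht
  obtain ⟨σ, hσ, N0, h2⟩ := ht
  refine ⟨σ, hσ, N0, fun N hN => ?_⟩
  have h3 := h2 N hN
  simp only [← eval_eq_PP (P _) d (hP _).1] at h3
  exact h3

/-- the shifted polynomial -/
lemma shift_poly (P : Polynomial ℝ) (t : ℝ) : (P.comp (Polynomial.X + Polynomial.C t)).natDegree = P.natDegree ∧
    (P.comp (Polynomial.X + Polynomial.C t)).leadingCoeff = P.leadingCoeff := by
  constructor
  · rw [Polynomial.natDegree_comp, Polynomial.natDegree_X_add_C, mul_one]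
  · rw [Polynomial.leadingCoeff_comp (by rw [Polynomial.natDegree_X_add_C]; norm_num),
      Polynomial.leadingCoeff_X_add_C, one_pow, mul_one]

theorem ysharp (k : ℕ) (hk : 2 ≤ k) (P : Fin k → Polynomial ℝ)
    (hP : ∀ i, (P i).natDegree = k ∧ 0 < (P i).leadingCoeff) (hprod : 1 ≤ ∏ i, (P i).leadingCoeff) (t : Fin k → ℝ) :
    ∃ η : ℝ, 0 < η ∧ ∃ N0 : ℕ, ∀ N : ℕ, N0 ≤ N →
      ({m : ℕ | m ≤ N ∧ ∃ n : Fin k → ℕ, ∑ i, ⌊(P i).eval ((n i : ℝ) + t i)⌋ = (m : ℤ)}.ncard : ℝ) ≤ (1 - η) * N := by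
  obtain ⟨d, rfl⟩ : ∃ d, k = d + 1 := ⟨k - 1, by omega⟩
  set Q : Fin (d + 1) → Polynomial ℝ := fun i => (P i).comp (Polynomial.X + Polynomial.C (t i)) with hQ
  have hQ1 : ∀ i, (Q i).natDegree = d + 1 := fun i => by rw [hQ]; exact (shift_poly _ _).1.trans (hP i).1
  have hQ2 : ∀ i, (Q i).leadingCoeff = (P i).leadingCoeff := fun i => (shift_poly _ _).2
  obtain ⟨η, hη, N0, hN⟩ := Pool.Agent.N400.KVSharp.sharp2 d (fun i => (Q i).leadingCoeff) (fun i => (Q i).coeff 0)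
    (fun i j => (Q i).coeff ((j : ℕ) + 1)) (by omega) (fun i => by rw [hQ2]; exact (hP i).2)
    (by simp only [hQ2]; exact hprod)
  refine ⟨η, hη, N0, fun N hN0 => ?_⟩
  have hfin : {m : ℕ | m ≤ N ∧ ∃ n : Fin (d + 1) → ℕ, ∑ i, ⌊(P i).eval ((n i : ℝ) + t i)⌋ = (m : ℤ)}.Finite :=
    (Set.finite_Iic N).subset fun m hm => hm.1
  rw [Set.ncard_eq_toFinset_card _ hfin]
  refine hN N hN0 _ fun m hm => ?_
  rw [Set.Finite.mem_toFinset] at hm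
  obtain ⟨hm1, n, hn⟩ := hm
  refine ⟨hm1, n, ?_⟩
  rw [← hn]
  apply sum_congr rfl; intro i _
  rw [← eval_eq_PP (Q i) d (hQ1 i), hQ]
  simp

end Pool.Agent.N604.MW
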