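import Mathlib
import Pool.Agent.N604.MW.YFin2
import Pool.Agent.N415.GS_SMeas

/-!
# Project GS: the final statements, unconditional
-/

namespace Pool.Agent.N604.MW

open MeasureTheory

theorem ygs1 (k : ℕ) (hk : 2 ≤ k) (P : Fin (2 * k + 1) → Polynomial ℝ)
    (hP : ∀ i, (P i).natDegree = k ∧ 0 < (P i).leadingCoeff) :
    ∀ᵐ t : Fin (2 * k + 1) → ℝ, ∃ κ : ℝ, 0 < κ ∧ ∃ N0 : ℕ, ∀ N : ℕ, N0 ≤ N → ∃ S : Finset (Fin (2 * k + 1) → ℕ),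
      (∀ p ∈ S, (∀ i, (p i).Prime) ∧ ∑ i, ⌊(P i).eval ((p i : ℝ) + t i)⌋ = (N : ℤ)) ∧
      κ * (N : ℝ) ^ (1 + 1 / (k : ℝ)) / Real.log N ^ (2 * k + 1) ≤ S.card :=
  ycor1 Pool.Agent.N415.GSMeas.smeas k (2 * k + 1) hk (by omega) P hP

theorem ygs2 (k : ℕ) (hk : 2 ≤ k) (P : Fin (k + 1) → Polynomial ℝ)
    (hP : ∀ i, (P i).natDegree = k ∧ 0 < (P i).leadingCoeff) :
    ∀ᵐ t : Fin (k + 1) → ℝ, ∃ σ : ℝ, 0 < σ ∧ ∃ N0 : ℕ, ∀ N : ℕ, N0 ≤ N →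
      ({m : ℕ | m ≤ N ∧ ¬ ∃ p : Fin (k + 1) → ℕ, (∀ i, (p i).Prime) ∧
        ∑ i, ⌊(P i).eval ((p i : ℝ) + t i)⌋ = (m : ℤ)}.ncard : ℝ) ≤ (N : ℝ) ^ (1 - σ) :=
  ycor2 Pool.Agent.N415.GSMeas.smeas k hk P hP

end Pool.Agent.N604.MW
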